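import Pool.Agent.Lib.MP_a11aea_gt.H36DescB

/-! The Epstein-Penner cells are the translated tetrahedra; finite volume. -/

namespace Pool.Agent.Lib.MP_a11aea_gt

open Matrix Finset
open scoped ComplexOrder

namespace Tri

variable (T : Tri)

/-- Vertex `k` of the translated tetrahedron `τ`. -/
noncomputable def cvx (τ : SL2C × Fin 4) (k : Fin 4) : Mat := act τ.1 (T.u τ.2 k)

/-- The cone coordinates as a linear map. -/
noncomputable def cbe (τ : SL2C × Fin 4) : Mat →ₗ[ℝ] (Fin 4 → ℝ) := (T.bc τ.2).comp (actL τ.1⁻¹)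

theorem cbe_eq (τ : SL2C × Fin 4) (X : Mat) : T.cbe τ X = T.be τ X := rfl

theorem act_comb (τ : SL2C × Fin 4) (c : Fin 4 → ℝ) :
    act τ.1 (T.comb τ.2 c) = ∑ k, c k • T.cvx τ k := by
  simp only [comb, act_sum, act_smul, cvx]

theorem cbe_cvx (τ : SL2C × Fin 4) (k : Fin 4) : T.cbe τ (T.cvx τ k) = Pi.single k 1 := by
  rw [cbe_eq, ← T.be_act_comb τ (Pi.single k 1), act_comb]
  simp [Pi.single_apply]

theorem sum_cvx (τ : SL2C × Fin 4) {X : Mat} (h : X.IsHermitian) :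
    ∑ k, T.be τ X k • T.cvx τ k = X := by rw [← act_comb, T.act_comb_be τ h]

theorem cvx_indep (τ : SL2C × Fin 4) : LinearIndependent ℝ (T.cvx τ) :=
  .of_comp (T.cbe τ) (by
    simpa only [Function.comp_def, cbe_cvx] using Pi.linearIndependent_single_one (Fin 4) ℝ)

theorem cvx_mem {τ : SL2C × Fin 4} (hτ : τ.1 ∈ T.G) (k : Fin 4) : T.cvx τ k ∈ T.O :=
  act_mem_cuspOrbit hτ (T.u_mem _ _)

theorem psd_of_mem {u : Mat} (hu : u ∈ T.O) : u.PosSemidef := by
  obtain ⟨w, -, rfl⟩ := exists_lightVec e1_ne hu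
  exact posSemidef_lightVec w

theorem cell_range {τ : SL2C × Fin 4} (hτ : τ.1 ∈ T.G) {l : Mat →ₗ[ℝ] ℝ}
    (hl : ∀ k, l (T.cvx τ k) = 1) : {u | u ∈ T.O ∧ l u = 1} = Set.range (T.cvx τ) := by
  ext u
  refine ⟨fun ⟨hu, h⟩ => ?_, by rintro ⟨k, rfl⟩; exact ⟨T.cvx_mem hτ k, hl k⟩⟩
  rw [← T.sum_cvx τ (T.psd_of_mem hu).1] at h
  simp only [map_sum, map_smul, hl, smul_eq_mul, mul_one] at h
  obtain ⟨k, hk⟩ := T.vertex_of_sum_eq hτ hu h
  exact ⟨k, hk.symm⟩

theorem isCell_cvx {τ : SL2C × Fin 4} (hτ : τ.1 ∈ T.G) : IsCell T.O (Set.range (T.cvx τ)) := by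
  have e : ∀ X, (∑ k, (LinearMap.proj k).comp (T.cbe τ) : Mat →ₗ[ℝ] ℝ) X = ∑ k, T.cbe τ X k :=
    fun X => by simp
  refine ⟨∑ k, (LinearMap.proj k).comp (T.cbe τ), fun u hu => ?_, (T.cell_range hτ fun k => ?_).symm,
    by simpa using finrank_span_eq_card (T.cvx_indep τ)⟩
  · rw [e]; exact T.one_le_sum hτ hu
  · rw [e, cbe_cvx]; simp [Pi.single_apply]

theorem cvx_of_isCell {S : Set Mat} (h : IsCell T.O S) :
    ∃ τ : SL2C × Fin 4, τ.1 ∈ T.G ∧ S = Set.range (T.cvx τ) := by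
  obtain ⟨l, h1, rfl, h4⟩ := h
  obtain ⟨s, hs, hi⟩ : ∃ s : Fin 4 → Mat, (∀ j, s j ∈ T.O ∧ l (s j) = 1) ∧
      Function.Injective s := by
    obtain ⟨f, hf, -, hi⟩ := Submodule.exists_fun_fin_finrank_span_eq ℝ {u | u ∈ T.O ∧ l u = 1}
    exact ⟨f ∘ Fin.cast h4.symm, fun j => hf _, hi.injective.comp (Fin.cast_injective _)⟩
  have hp : (∑ j, s j).PosDef := by
    refine posDef_of_posSemidef (posSemidef_sum _ fun j _ => T.psd_of_mem (hs j).1) ?_
    have e := Pool.Agent.Lib.MP_a11aea_gt.det_comb s fun _ => 1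
    simp only [one_smul, Qm, mul_one] at e
    rw [e]
    have hn := fun j k => mink_nonneg (T.psd_of_mem (hs j).1) (T.psd_of_mem (hs k).1)
    have := T.sep (hs 0).1 (hs 1).1 (hi.ne (by decide))
    have h2 : mink (s 0) (s 1) ≤ ∑ j, ∑ k, mink (s j) (s k) :=
      (single_le_sum (fun k _ => hn 0 k) (mem_univ 1)).trans
        (single_le_sum (fun j _ => sum_nonneg fun k _ => hn j k) (mem_univ 0))
    linarith
  obtain ⟨γ, hγ, i, c, hc, hX⟩ := T.cover hp
  refine ⟨(γ, i), hγ, T.cell_range hγ ?_⟩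
  have e1 : ∑ k, c k ≤ 4 := by
    have := congrArg l (hX.trans (T.act_comb (γ, i) c))
    simp only [map_sum, map_smul, (hs _).2, smul_eq_mul, sum_const, card_univ, Fintype.card_fin,
      nsmul_eq_mul, mul_one, Nat.cast_ofNat] at this
    rw [this]
    exact sum_le_sum fun k _ => le_mul_of_one_le_right (hc k) (h1 _ (T.cvx_mem (τ := (γ, i)) hγ k))
  have e2 : ∑ j, ∑ k, T.be (γ, i) (s j) k = ∑ k, c k := by
    have := T.be_act_comb (γ, i) c
    rw [← hX, ← cbe_eq, map_sum] at this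
    rw [sum_comm, ← this]
    simp [cbe_eq]
  have e3 := fun j => T.one_le_sum (τ := (γ, i)) hγ (hs j).1
  have e4 : ∀ j, ∃ k, s j = T.cvx (γ, i) k := fun j => by
    refine T.vertex_of_sum_eq (τ := (γ, i)) hγ (hs j).1 ?_
    exact ((sum_eq_sum_iff_of_le (s := univ) (fun j _ => e3 j)).1
      (le_antisymm (sum_le_sum fun j _ => e3 j) (by simpa [e2] using e1)) j (mem_univ j)).symm
  choose p hp using e4
  have hpi : Function.Injective p := fun j j' h => hi (by rw [hp, hp, h])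
  intro k
  obtain ⟨j, rfl⟩ := Finite.surjective_of_injective hpi k
  rw [← hp, (hs j).2]

theorem isCell_iff (S : Set Mat) :
    IsCell T.O S ↔ ∃ γ ∈ T.G, ∃ i, S = Set.range fun k => act γ (T.u i k) :=
  ⟨fun h => let ⟨τ, h1, h2⟩ := T.cvx_of_isCell h; ⟨τ.1, h1, τ.2, h2⟩,
    fun ⟨γ, hγ, i, h⟩ => h ▸ T.isCell_cvx (τ := (γ, i)) hγ⟩

theorem ncard_cvx (τ : SL2C × Fin 4) : (Set.range (T.cvx τ)).ncard = 4 := by
  simpa using Set.ncard_range_of_injective (T.cvx_indep τ).injective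

theorem canonical : IsCanonicalTriangulation T.O (1 / 4) := by
  refine ⟨fun X hX => ?_, fun S hS => ?_, fun S hS u hu hne => ?_⟩
  · obtain ⟨γ, hγ, i, c, hc, e⟩ := T.cover hX.1
    have hs := T.sum_be_pos (γ, i) hX.1
    rw [e, T.be_act_comb (γ, i)] at hs
    refine ⟨_, T.isCell_cvx (τ := (γ, i)) hγ, hX, (∑ k, c k)⁻¹, inv_pos.2 hs, ?_⟩
    rw [e, T.act_comb (γ, i), smul_sum]
    simp only [smul_smul]
    refine (convex_convexHull ℝ _).sum_mem (fun k _ => mul_nonneg (inv_pos.2 hs).le (hc k)) ?_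
      fun k _ => subset_convexHull ℝ _ ⟨k, rfl⟩
    rw [← mul_sum, inv_mul_cancel₀ hs.ne']
  · obtain ⟨τ, -, rfl⟩ := T.cvx_of_isCell hS
    exact T.ncard_cvx τ
  · obtain ⟨τ, hτ, rfl⟩ := T.cvx_of_isCell hS
    refine Set.disjoint_left.2 fun X ⟨hX, t, ht, hm⟩ h => ?_
    have hc : ∀ k, 0 ≤ T.be τ X k := fun k => by
      have : t • X ∈ {Y | 0 ≤ T.cbe τ Y k} := by
        refine convexHull_min ?_ ((convex_Ici 0).linear_preimage
          ((LinearMap.proj k).comp (T.cbe τ))) hm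
        rintro _ ⟨j, rfl⟩
        change 0 ≤ T.cbe τ (T.cvx τ j) k
        rw [cbe_cvx, Pi.single_apply]
        split_ifs <;> simp
      simp only [Set.mem_ofPred_eq, map_smul, Pi.smul_apply, smul_eq_mul] at this
      exact nonneg_of_mul_nonneg_right this ht
    have e := T.act_comb_be τ hX.1.1
    have := T.far hc (by rw [← T.det_comb, ← det_act τ.1, e, hX.2]; simp)
      (act_mem_cuspOrbit (inv_mem hτ) hu) fun k hk => hne ⟨k, by rw [cvx, ← hk, act_act_inv]⟩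
    rw [← mink_act τ.1, e, act_act_inv] at this
    exact this.not_gt h.2

theorem edge_ne {u₁ u₂ : Mat} (h : EdgePair T.O u₁ u₂) : mink u₁ u₂ ≠ mink T.ua T.ub := by
  obtain ⟨S, hS, h1, h2, hne⟩ := h
  obtain ⟨τ, -, rfl⟩ := T.cvx_of_isCell hS
  obtain ⟨j, rfl⟩ := h1
  obtain ⟨k, rfl⟩ := h2
  rw [cvx, cvx, mink_act]
  exact T.tun_edge _ j k fun e => hne (by rw [e])

theorem cvx_N (τ : SL2C × Fin 4) {a k : Fin 4} (h : k ≠ a) :
    T.cvx (T.N τ a) (pm τ.2 a k) = T.cvx τ k := by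
  simp only [cvx, N, act_mul, u, ← T.glue _ _ _ h]

/-- Two tetrahedra with a common face and on the same side of it agree. -/
theorem eq_of_face {σ τ : SL2C × Fin 4} (hσ : σ.1 ∈ T.G) (hτ : τ.1 ∈ T.G) {a a' : Fin 4}
    (h : ∀ k, k ≠ a → T.cvx σ k ∈ Set.range (T.cvx τ)) (hb : 0 < T.be σ (T.cvx τ a') a) :
    τ = σ := by
  set b := T.be σ (T.cvx τ a') with hb'
  set c : Fin 4 → ℝ := fun k => if k = a then 0 else 1 + |b k| with hc
  refine T.uniq hτ hσ (X := ∑ k, c k • T.cvx σ k + T.cvx τ a') ?_ (fun k => ?_) fun k => ?_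
  · rw [← act_comb]
    exact (isHermitian_act _ (T.comb_herm _ _)).add (T.psd_of_mem (T.cvx_mem hτ a')).1
  · simp only [← cbe_eq, map_add, map_sum, map_smul, Pi.add_apply, Finset.sum_apply, Pi.smul_apply,
      smul_eq_mul]
    have hs : ∀ j, 0 ≤ T.cbe τ (T.cvx τ j) k := fun j => by
      rw [cbe_cvx, Pi.single_apply]; split_ifs <;> simp
    refine add_nonneg (sum_nonneg fun j _ => ?_) (hs a')
    by_cases hj : j = a
    · simp [hc, hj]
    · obtain ⟨j', e⟩ := h j hj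
      rw [← e]
      exact mul_nonneg (by simp only [hc, if_neg hj]; positivity) (hs j')
  · rw [← act_comb, ← cbe_eq, map_add, cbe_eq, cbe_eq, T.be_act_comb, Pi.add_apply, ← hb']
    by_cases hk : k = a
    · simpa [hc, hk] using hb
    · simp only [hc, if_neg hk]
      linarith [neg_abs_le (b k)]

theorem dual_ne {u₁ u₂ : Mat} (h : DualPair T.O u₁ u₂) : mink u₁ u₂ ≠ mink T.ua T.ub := by
  obtain ⟨S₁, S₂, h1, h2, h3, hu1, hu2⟩ := h
  obtain ⟨σ, hσ, rfl⟩ := T.cvx_of_isCell h1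
  obtain ⟨τ, hτ, rfl⟩ := T.cvx_of_isCell h2
  obtain ⟨⟨a, rfl⟩, ha⟩ := hu1
  obtain ⟨⟨a', rfl⟩, ha'⟩ := hu2
  have hF : ∀ k, k ≠ a → T.cvx σ k ∈ Set.range (T.cvx τ) := fun k hk => by
    have e : Set.range (T.cvx σ) ∩ Set.range (T.cvx τ) = Set.range (T.cvx σ) \ {T.cvx σ a} :=
      Set.eq_of_subset_of_ncard_le (fun x hx => ⟨hx.1, fun e => ha (e ▸ hx.2)⟩)
        (by rw [h3, Set.ncard_sdiff_singleton_of_mem (Set.mem_range_self a), ncard_cvx])
        ((Set.finite_range _).subset Set.sdiff_subset)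
    exact (e.ge ⟨⟨k, rfl⟩, (T.cvx_indep σ).injective.ne hk⟩).2
  have hh := (T.psd_of_mem (T.cvx_mem hτ a')).1
  rcases lt_trichotomy (T.be σ (T.cvx τ a') a) 0 with hb | hb | hb
  · have e : τ = T.N σ a := by
      refine T.eq_of_face (mul_mem hσ (T.g_mem _ _)) hτ (a := pm σ.2 a a) (a' := a')
        (fun k hk => ?_) ?_
      · obtain ⟨k, rfl⟩ := (pm σ.2 a).surjective k
        have hk' : k ≠ a := fun e => hk (by rw [e])
        rw [T.cvx_N σ hk']
        exact hF k hk'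
      · rw [T.be_N_self σ a hh]
        exact mul_pos_of_neg_of_neg (neg_neg_of_pos (T.kap_pos _ _)) hb
    subst e
    obtain ⟨k, rfl⟩ := (pm σ.2 a).surjective a'
    by_cases hk : k = a
    · subst hk
      simp only [cvx, N, act_mul, mink_act]
      exact T.tun_dual _ _
    · exact absurd ⟨k, (T.cvx_N σ hk).symm⟩ ha'
  · have e := congrFun (congrArg (T.cbe τ) (T.sum_cvx σ hh)) a'
    rw [cbe_cvx, map_sum, Finset.sum_apply, sum_eq_zero] at e
    · simp at e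
    intro k _
    by_cases hk : k = a
    · simp [hk, hb]
    · obtain ⟨j, hj⟩ := hF k hk
      have : a' ≠ j := fun e => ha' ⟨k, by rw [e, hj]⟩
      simp [← hj, cbe_cvx, this]
  · exact absurd ⟨a', by rw [T.eq_of_face hσ hτ hF hb]⟩ ha'

end Tri

end Pool.Agent.Lib.MP_a11aea_gt
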