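import Mathlib

/-! Definitions used by the statement on unknotting tunnels and the canonical triangulation. -/

namespace Pool.Agent.Lib.MP_a11aea_gt

open Matrix MeasureTheory
open scoped ComplexOrder unitInterval

/-- Complex 2 by 2 matrices; the Hermitian ones form Minkowski space. -/
abbrev Mat : Type := Matrix (Fin 2) (Fin 2) ℂ

abbrev SL2C : Type := Matrix.SpecialLinearGroup (Fin 2) ℂ

/-- Hyperbolic 3-space, hyperboloid model: positive definite Hermitian matrices of determinant 1. -/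
def H3 : Set Mat := {X | X.PosDef ∧ X.det = 1}

/-- The action `X ↦ A X A*` of `SL(2,ℂ)` (orientation preserving isometries). -/
noncomputable def act (A : SL2C) (X : Mat) : Mat := A.1 * X * A.1ᴴ

/-- The Minkowski pairing, `mink X X = 2 det X`. -/
noncomputable def mink (X Y : Mat) : ℝ := (X * Y.adjugate).trace.re

/-- The vector `v v*` of the positive light cone. -/
noncomputable def lightVec (v : Fin 2 → ℂ) : Mat := vecMulVec v (star v)

/-- The orbit of light cone vectors attached to the cusp. -/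
def cuspOrbit (Γ : Subgroup SL2C) (v : Fin 2 → ℂ) : Set Mat :=
  {u | ∃ γ ∈ Γ, u = act γ (lightVec v)}

/-- The open horoball of the light cone vector `u` at level `s`. -/
def horoball (s : ℝ) (u : Mat) : Set Mat := {X | X ∈ H3 ∧ mink X u < s}

/-- The horosphere bounding `horoball s u`. -/
def horosphere (s : ℝ) (u : Mat) : Set Mat := {X | X ∈ H3 ∧ mink X u = s}

/-- Hyperbolic space minus the open horoballs. -/
def core (Γ : Subgroup SL2C) (v : Fin 2 → ℂ) (s : ℝ) : Set Mat :=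
  {X | X ∈ H3 ∧ ∀ u ∈ cuspOrbit Γ v, X ∉ horoball s u}

/-- The compact manifold: the quotient of `core` by the group, with the quotient topology. -/
abbrev Mbar (Γ : Subgroup SL2C) (v : Fin 2 → ℂ) (s : ℝ) : Type :=
  Quot fun X Y : core Γ v s => ∃ γ ∈ Γ, act γ X.1 = Y.1

/-- The quotient map. -/
def proj (Γ : Subgroup SL2C) (v : Fin 2 → ℂ) (s : ℝ) : C(core Γ v s, Mbar Γ v s) :=
  ⟨Quot.mk _, continuous_quot_mk⟩

/-- The boundary of the compact manifold: the image of the horospheres. -/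
def bdry (Γ : Subgroup SL2C) (v : Fin 2 → ℂ) (s : ℝ) : Set (Mbar Γ v s) :=
  {p | ∃ X : core Γ v s, p = proj Γ v s X ∧ ∃ u ∈ cuspOrbit Γ v, X.1 ∈ horosphere s u}

/-- The point of `H3` with upper half space coordinates `(z, t)`. -/
noncomputable def uhs (p : ℂ × ℝ) : Mat :=
  !![((‖p.1‖ ^ 2 + p.2 ^ 2) / p.2 : ℝ), p.1 / p.2; (starRingEnd ℂ) p.1 / p.2, (1 / p.2 : ℝ)]

/-- Finite volume: a measurable set of finite hyperbolic volume `dz dt / t ^ 3` meets every orbit. -/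
def FiniteVolume (Γ : Subgroup SL2C) : Prop :=
  ∃ F : Set (ℂ × ℝ), MeasurableSet F ∧ (∀ p ∈ F, 0 < p.2) ∧
    (∀ X ∈ H3, ∃ γ ∈ Γ, ∃ p ∈ F, act γ X = uhs p) ∧
    ∫⁻ p in F, ENNReal.ofReal (1 / p.2 ^ 3) < ⊤

/-- `H3 / Γ` is a non-compact finite volume hyperbolic manifold with one cusp, the horoballs at level `s` over
the orbit of `v v*` form an embedded cusp neighbourhood, and its complement `Mbar` is compact. -/
def IsOneCusped (Γ : Subgroup SL2C) (v : Fin 2 → ℂ) (s : ℝ) : Prop :=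
  v ≠ 0 ∧ 0 < s ∧
  (∀ γ ∈ Γ, ∀ X ∈ H3, act γ X = X → γ = 1) ∧
  (∀ K ⊆ H3, IsCompact K → {γ | γ ∈ Γ ∧ (act γ '' K ∩ K).Nonempty}.Finite) ∧
  FiniteVolume Γ ∧
  (¬ ∃ K ⊆ H3, IsCompact K ∧ ∀ X ∈ H3, ∃ γ ∈ Γ, act γ X ∈ K) ∧
  (∀ u ∈ cuspOrbit Γ v, ∀ u' ∈ cuspOrbit Γ v, ∀ X ∈ H3, mink X u ≤ s → mink X u' ≤ s → u = u') ∧
  CompactSpace (Mbar Γ v s)

/-- `S` is the vertex set of a 3-dimensional face of the Epstein-Penner convex hull of `O`. -/
def IsCell (O S : Set Mat) : Prop :=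
  ∃ l : Mat →ₗ[ℝ] ℝ, (∀ u ∈ O, 1 ≤ l u) ∧ S = {u | u ∈ O ∧ l u = 1} ∧
    Module.finrank ℝ (Submodule.span ℝ S) = 4

/-- The ideal polyhedron of a cell: radial projection of the convex hull of `S` to `H3`. -/
def cellBody (S : Set Mat) : Set Mat := {X | X ∈ H3 ∧ ∃ t : ℝ, 0 < t ∧ t • X ∈ convexHull ℝ S}

/-- The Epstein-Penner cells cover `H3`, each is a tetrahedron, and a horoball at level `s` meets
only the cells having its centre as a vertex. -/
def IsCanonicalTriangulation (O : Set Mat) (s : ℝ) : Prop :=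
  (∀ X ∈ H3, ∃ S, IsCell O S ∧ X ∈ cellBody S) ∧
  (∀ S, IsCell O S → S.ncard = 4) ∧
  (∀ S, IsCell O S → ∀ u ∈ O, u ∉ S → Disjoint (cellBody S) (horoball s u))

/-- The two ends of an edge: distinct vertices of one cell. -/
def EdgePair (O : Set Mat) (u₁ u₂ : Mat) : Prop :=
  ∃ S, IsCell O S ∧ u₁ ∈ S ∧ u₂ ∈ S ∧ u₁ ≠ u₂

/-- The two ends of the arc dual to a face: the vertices opposite the common face of two cells. -/
def DualPair (O : Set Mat) (u₁ u₂ : Mat) : Prop :=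
  ∃ S₁ S₂, IsCell O S₁ ∧ IsCell O S₂ ∧ (S₁ ∩ S₂).ncard = 3 ∧ u₁ ∈ S₁ \ S₂ ∧ u₂ ∈ S₂ \ S₁

/-- The standard handlebody of genus `g`: a rectangle with `g` square holes, times an interval. -/
def Handlebody (g : ℕ) : Set (ℝ × ℝ × ℝ) :=
  {p | 0 ≤ p.1 ∧ p.1 ≤ 2 * g + 1 ∧ 0 ≤ p.2.1 ∧ p.2.1 ≤ 3 ∧ 0 ≤ p.2.2 ∧ p.2.2 ≤ 1 ∧
    ∀ k : ℕ, k < g → ¬ (2 * k + 1 < p.1 ∧ p.1 < 2 * k + 2 ∧ 1 < p.2.1 ∧ p.2.1 < 2)}

/-- The midpoint of the unit interval. -/
noncomputable def half : I := ⟨1 / 2, by norm_num, by norm_num⟩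

/-- The interval times the open square. -/
def inner3 : Set (I × I × I) := {p | 0 < p.2.1 ∧ p.2.1 < 1 ∧ 0 < p.2.2 ∧ p.2.2 < 1}

/-- `τ` is an unknotting tunnel of `M` (with boundary `bd`): it is the core of an embedded
interval times square `N` meeting `bd` exactly in its two ends, and the complement of the open
regular neighbourhood `N (interval times open square)` is a handlebody. -/
def IsTunnel {M : Type} [TopologicalSpace M] (bd : Set M) (τ : C(I, M)) : Prop :=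
  ∃ N : I × I × I → M, Topology.IsEmbedding N ∧ (∀ t, τ t = N (t, half, half)) ∧
    (∀ p, N p ∈ bd ↔ p.1 = 0 ∨ p.1 = 1) ∧ IsOpen (N '' inner3) ∧
    ∃ g : ℕ, Nonempty (((N '' inner3)ᶜ : Set M) ≃ₜ Handlebody g)

/-- Homotopy of arcs during which both endpoints stay in `bd` (every proper isotopy is one). -/
def ProperHomotopic {M : Type} [TopologicalSpace M] (bd : Set M) (τ η : C(I, M)) : Prop :=
  ∃ H : C(I × I, M), (∀ t, H (0, t) = τ t) ∧ (∀ t, H (1, t) = η t) ∧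
    ∀ r, H (r, 0) ∈ bd ∧ H (r, 1) ∈ bd

end Pool.Agent.Lib.MP_a11aea_gt
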