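import Pool.Agent.Lib.MP_a11aea_gt.H36Lin

/-! Descent between tetrahedra: termination, confluence, covering and uniqueness. -/

namespace Pool.Agent.Lib.MP_a11aea_gt

open Matrix Finset
open scoped ComplexOrder

namespace Tri

variable (T : Tri)

/-- The coordinates in the neighbour, indexed by the vertices of the old tetrahedron. -/
noncomputable def h60co (i a : Fin 4) (b : Fin 4 → ℝ) : Fin 4 → ℝ :=
  fun k => if k = a then -T.kap i a * b a else b k + T.lam i a k * b a

theorem h60_comb_N (i a : Fin 4) (b : Fin 4 → ℝ) :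
    T.comb i b = act (T.g i a) (T.comb (nb i a) (T.h60co i a b ∘ (pm i a).symm)) := by
  have h1 : T.comb (nb i a) (T.h60co i a b ∘ (pm i a).symm) =
      ∑ k, T.h60co i a b k • T.u (nb i a) (pm i a k) := by
    unfold comb
    rw [← Equiv.sum_comp (pm i a)]
    simp
  rw [h1, act_sum]
  simp only [act_smul]
  have hg : ∀ k ∈ univ.erase a, T.h60co i a b k • act (T.g i a) (T.u (nb i a) (pm i a k)) =
      b k • T.u i k + b a • (T.lam i a k • T.u i k) := by
    intro k hk
    have hk' : k ≠ a := ne_of_mem_erase hk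
    have := T.glue i a k hk'
    unfold u
    rw [← this, h60co, if_neg hk', add_smul, smul_smul, mul_comm]
  rw [← add_sum_erase _ _ (mem_univ a), sum_congr rfl hg, sum_add_distrib, ← smul_sum]
  have hr := T.rel i a
  rw [← add_sum_erase _ _ (mem_univ a), T.lam_self, zero_smul, zero_add] at hr
  unfold comb
  rw [← add_sum_erase _ _ (mem_univ a)]
  have ha : T.h60co i a b a = b a * -T.kap i a := by simp [h60co, mul_comm]
  rw [ha, ← smul_smul]
  have hu : T.u i a = -T.kap i a • act (T.g i a) (T.u (nb i a) (pm i a a)) +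
      ∑ k ∈ univ.erase a, T.lam i a k • T.u i k := hr
  rw [hu, smul_add]
  abel

theorem h60_be_N (τ : SL2C × Fin 4) (a : Fin 4) {X : Mat} (h : X.IsHermitian) :
    T.be (T.N τ a) X = T.h60co τ.2 a (T.be τ X) ∘ (pm τ.2 a).symm := by
  have h1 := T.act_comb_be τ h
  rw [T.h60_comb_N τ.2 a, ← act_mul] at h1
  have h2 := T.be_act_comb (T.N τ a) (T.h60co τ.2 a (T.be τ X) ∘ (pm τ.2 a).symm)
  rw [← h2]
  congr 1
  exact h1.symm

theorem be_N_self (τ : SL2C × Fin 4) (a : Fin 4) {X : Mat} (h : X.IsHermitian) :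
    T.be (T.N τ a) X (pm τ.2 a a) = -T.kap τ.2 a * T.be τ X a := by
  rw [T.h60_be_N τ a h]
  simp [h60co]

theorem be_N_ne (τ : SL2C × Fin 4) (a k : Fin 4) (hk : k ≠ a) {X : Mat} (h : X.IsHermitian) :
    T.be (T.N τ a) X (pm τ.2 a k) = T.be τ X k + T.lam τ.2 a k * T.be τ X a := by
  rw [T.h60_be_N τ a h]
  simp [h60co, hk]

theorem sum_be_N (τ : SL2C × Fin 4) (a : Fin 4) {X : Mat} (h : X.IsHermitian) :
    ∑ k, T.be (T.N τ a) X k =
      ∑ k, T.be τ X k + (∑ k, T.lam τ.2 a k - T.kap τ.2 a - 1) * T.be τ X a := by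
  rw [← Equiv.sum_comp (pm τ.2 a), ← add_sum_erase _ _ (mem_univ a), T.be_N_self τ a h,
    sum_congr rfl fun k hk => T.be_N_ne τ a k (ne_of_mem_erase hk) h, sum_add_distrib,
    ← sum_mul, ← add_sum_erase _ (T.be τ X) (mem_univ a),
    ← add_sum_erase _ (T.lam τ.2 a) (mem_univ a), T.lam_self]
  ring

theorem N_N (τ : SL2C × Fin 4) (a : Fin 4) : T.N (T.N τ a) (pm τ.2 a a) = τ := by
  unfold N
  ext1
  · simp only [mul_assoc, T.ginv, mul_one]
  · exact nb_nb _ _

theorem h60_det (τ : SL2C × Fin 4) {X : Mat} (h : X.IsHermitian) :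
    Qm (T.m τ.2) (T.be τ X) = X.det.re := by
  rw [← T.det_comb, ← det_act τ.1, T.act_comb_be τ h]

theorem h60_det_pos {X : Mat} (h : X.PosDef) : 0 < X.det.re := ((posDef_iff X).1 h).2.2

theorem h60_quad (i : Fin 4) (c : Fin 4 → ℝ) :
    (1 / 10) * ∑ k, c k ^ 2 ≤ 3 * (∑ k, c k) ^ 2 - Qm (T.m i) c := T.quad i c

theorem sum_be_pos (τ : SL2C × Fin 4) {X : Mat} (h : X.PosDef) : 0 < ∑ k, T.be τ X k := by
  by_contra hs
  push Not at hs
  set b := T.be τ X with hb
  set s := ∑ k, b k with hsdef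
  have hY : (T.comb τ.2 b).PosDef := by
    have h1 := posDef_act τ.1⁻¹ h
    rwa [← T.act_comb_be τ h.isHermitian, act_inv_act] at h1
  let e : Fin 4 → ℝ := fun k => if k = 0 then -s else 0
  have he : ∀ k, 0 ≤ e k := fun k => by
    simp only [e]
    split_ifs <;> linarith
  have hsum : T.comb τ.2 (b + e) = T.comb τ.2 b + T.comb τ.2 e := by
    unfold comb
    simp only [Pi.add_apply, add_smul, sum_add_distrib]
  have hP : (T.comb τ.2 (b + e)).PosSemidef := by
    rw [hsum]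
    exact hY.posSemidef.add (T.comb_posSemidef τ.2 he)
  have h0 := det_re_nonneg hP
  rw [T.det_comb] at h0
  have hq := T.h60_quad τ.2 (b + e)
  have hz : ∑ k, (b + e) k = 0 := by
    simp only [Pi.add_apply, sum_add_distrib, ← hsdef, e]
    simp
  rw [hz] at hq
  have hall : ∀ k, (b + e) k = 0 := by
    intro k
    have h1 : (b + e) k ^ 2 ≤ ∑ k, (b + e) k ^ 2 :=
      single_le_sum (f := fun k => (b + e) k ^ 2) (fun _ _ => sq_nonneg _) (mem_univ k)
    have h2 : (b + e) k ^ 2 ≤ 0 := by nlinarith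
    exact pow_eq_zero_iff (two_ne_zero) |>.1 (le_antisymm h2 (sq_nonneg _))
  have hD := h60_det_pos h
  rw [← T.h60_det τ h.isHermitian, ← hb] at hD
  have h1 : b 1 = 0 := by simpa [e] using hall 1
  have h2 : b 2 = 0 := by simpa [e] using hall 2
  have h3 : b 3 = 0 := by simpa [e] using hall 3
  have hd := (T.goodM τ.2).diag 0
  simp [Qm, Fin.sum_univ_four, h1, h2, h3, hd] at hD

/-- One step of the walk around an edge, with the group element. -/
noncomputable def h60wk (p : SL2C × (Fin 4 × Fin 4 × Fin 4)) : SL2C × (Fin 4 × Fin 4 × Fin 4) :=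
  (p.1 * T.g p.2.1 p.2.2.1, nx p.2)

theorem h60_nx_ne {s : Fin 4 × Fin 4 × Fin 4} (hs : s.2.1 ≠ s.2.2) (n : ℕ) :
    (nx^[n] s).2.1 ≠ (nx^[n] s).2.2 := by
  induction n with
  | zero => exact hs
  | succ n ih => rw [Function.iterate_succ_apply']; exact nx_ne _ ih

theorem h60_wk_snd (p : SL2C × (Fin 4 × Fin 4 × Fin 4)) (n : ℕ) :
    (T.h60wk^[n] p).2 = nx^[n] p.2 := by
  induction n with
  | zero => rfl
  | succ n ih => rw [Function.iterate_succ_apply', Function.iterate_succ_apply', ← ih]; rfl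

/-- The edge of a state. -/
def h60E (s : Fin 4 × Fin 4 × Fin 4) : Finset (Fin 4) := {s.2.1, s.2.2}ᶜ

theorem h60E_spec : ∀ s : Fin 4 × Fin 4 × Fin 4, s.2.1 ≠ s.2.2 →
    s.2.1 ∉ h60E s ∧ 2 ≤ (h60E s).card ∧
      (h60E s).map (pm s.1 s.2.1).toEmbedding = h60E (nx s) := by
  decide +kernel

theorem h60_wk_inv (p : SL2C × (Fin 4 × Fin 4 × Fin 4)) (hp : p.2.2.1 ≠ p.2.2.2) (n : ℕ) :
    (T.h60wk^[n] p).1 * T.h (nx^[n] p.2).1 (h60E (nx^[n] p.2)) = p.1 * T.h p.2.1 (h60E p.2) := by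
  induction n with
  | zero => rfl
  | succ n ih =>
    obtain ⟨h1, h2, h3⟩ := h60E_spec _ (h60_nx_ne hp n)
    rw [← ih, T.h_step _ _ _ h1 h2, h3, Function.iterate_succ_apply',
      Function.iterate_succ_apply', ← mul_assoc]
    simp only [h60wk, T.h60_wk_snd]
    rfl

theorem h60_wk_per (p : SL2C × (Fin 4 × Fin 4 × Fin 4)) (hp : p.2.2.1 ≠ p.2.2.2) :
    T.h60wk^[per p.2] p = p := by
  have h1 := T.h60_wk_inv p hp (per p.2)
  rw [nx_per _ hp] at h1
  ext1
  · exact mul_right_cancel h1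
  · rw [T.h60_wk_snd, nx_per _ hp]

theorem h60_per_pos (s : Fin 4 × Fin 4 × Fin 4) : 5 ≤ per s := by
  unfold per
  split_ifs <;> omega

/-- Three distinct coordinates cannot all be small. -/
theorem h60_three {m : Fin 4 → Fin 4 → ℝ} (hm : GoodM m) {b : Fin 4 → ℝ} {K η : ℝ}
    (hK : ∀ k, |b k| ≤ K) {p a c : Fin 4} (hpa : p ≠ a) (hpc : p ≠ c) (hac : a ≠ c)
    (hp : |b p| ≤ η) (ha : |b a| ≤ η) (hc : |b c| ≤ η) : Qm m b ≤ 24 * K * η := by
  have hK0 : 0 ≤ K := (abs_nonneg _).trans (hK 0)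
  have hη : 0 ≤ η := (abs_nonneg _).trans hp
  have hcov : ∀ p a c j k : Fin 4, p ≠ a → p ≠ c → a ≠ c → j ≠ k →
      (j = p ∨ j = a ∨ j = c) ∨ (k = p ∨ k = a ∨ k = c) := by
    intro p a c j k h1 h2 h3 h4
    omega
  have hsm : ∀ j, (j = p ∨ j = a ∨ j = c) → |b j| ≤ η := by
    rintro j (rfl | rfl | rfl) <;> assumption
  have hterm : ∀ j k, m j k * b j * b k ≤ 3 * K * η := by
    intro j k
    by_cases hjk : j = k
    · rw [hjk, hm.diag]
      have : 0 ≤ 3 * K * η := by positivity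
      linarith
    · have h0 : 0 ≤ m j k := by linarith [hm.ge j k hjk]
      have h1 : |b j| * |b k| ≤ K * η := by
        rcases hcov p a c j k hpa hpc hac hjk with h | h
        · rw [mul_comm K]
          exact mul_le_mul (hsm j h) (hK k) (abs_nonneg _) hη
        · exact mul_le_mul (hK j) (hsm k h) (abs_nonneg _) hK0
      calc m j k * b j * b k = m j k * (b j * b k) := by ring
        _ ≤ m j k * (|b j| * |b k|) := by
          apply mul_le_mul_of_nonneg_left _ h0
          rw [← abs_mul]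
          exact le_abs_self _
        _ ≤ 3 * (K * η) := mul_le_mul (hm.le j k) h1 (by positivity) (by norm_num)
        _ = 3 * K * η := by ring
  have h2 : ∑ j, ∑ k, m j k * b j * b k ≤ ∑ _j : Fin 4, ∑ _k : Fin 4, 3 * K * η :=
    sum_le_sum fun j _ => sum_le_sum fun k _ => hterm j k
  simp only [sum_const, card_univ, Fintype.card_fin, nsmul_eq_mul] at h2
  unfold Qm
  push_cast at h2
  linarith

theorem h60_consts : ∃ μ L : ℝ, 0 < μ ∧ 0 < L ∧
    (∀ i a, μ ≤ ∑ k, T.lam i a k - T.kap i a - 1) ∧ (∀ i a, T.kap i a ≤ L) ∧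
    ∀ i a k, |T.lam i a k| ≤ L := by
  obtain ⟨p, hp⟩ := Finite.exists_min
    fun p : Fin 4 × Fin 4 => ∑ k, T.lam p.1 p.2 k - T.kap p.1 p.2 - 1
  obtain ⟨q, hq⟩ := Finite.exists_max fun p : Fin 4 × Fin 4 => T.kap p.1 p.2
  obtain ⟨r, hr⟩ := Finite.exists_max fun p : Fin 4 × Fin 4 × Fin 4 => |T.lam p.1 p.2.1 p.2.2|
  refine ⟨_, max (T.kap q.1 q.2) |T.lam r.1 r.2.1 r.2.2|, ?_, ?_, fun i a => hp (i, a),
    fun i a => le_max_of_le_left (hq (i, a)), fun i a k => le_max_of_le_right (hr (i, a, k))⟩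
  · linarith [T.convex p.1 p.2]
  · exact lt_max_of_lt_left (T.kap_pos _ _)

theorem h60_sum_lt {τ : SL2C × Fin 4} {a : Fin 4} {X : Mat} (h : X.IsHermitian)
    (ha : T.be τ X a < 0) : ∑ k, T.be (T.N τ a) X k < ∑ k, T.be τ X k := by
  rw [T.sum_be_N τ a h]
  have := T.convex τ.2 a
  nlinarith

/-- Every descending walk stops. -/
theorem wf {X : Mat} (h : X.PosDef) :
    WellFounded fun τ' τ : SL2C × Fin 4 => ∃ a, T.be τ X a < 0 ∧ τ' = T.N τ a := by
  rw [wellFounded_iff_isEmpty_descending_chain]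
  refine ⟨fun ⟨f, hf⟩ => ?_⟩
  choose a ha hN using hf
  have hH := h.isHermitian
  obtain ⟨μ, L, hμ, hL, hμle, hkap, hlam⟩ := T.h60_consts
  set φ : ℕ → ℝ := fun n => ∑ k, T.be (f n) X k with hφ
  set s : ℕ → ℝ := fun n => T.be (f n) X (a n) with hs
  have hlt : ∀ n, φ (n + 1) < φ n := fun n => by
    simp only [hφ, hN n]
    exact T.h60_sum_lt hH (ha n)
  have hanti : StrictAnti φ := strictAnti_nat_of_succ_lt hlt
  have hpos : ∀ n, 0 < φ n := fun n => T.sum_be_pos _ h
  have hstep : ∀ n, μ * |s n| ≤ φ n - φ (n + 1) := fun n => by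
    have h1 := T.sum_be_N (f n) (a n) hH
    rw [← hN n] at h1
    have h2 := hμle (f n).2 (a n)
    have h3 : s n < 0 := ha n
    rw [abs_of_neg h3]
    simp only [hφ, h1]
    change μ * -s n ≤ _ - (_ + _ * s n)
    nlinarith
  have hconv : Filter.Tendsto φ Filter.atTop (nhds (⨅ n, φ n)) :=
    tendsto_atTop_ciInf hanti.antitone ⟨0, by rintro _ ⟨n, rfl⟩; exact (hpos n).le⟩
  have hdiff : Filter.Tendsto (fun n => φ n - φ (n + 1)) Filter.atTop (nhds 0) := by
    have := hconv.sub ((Filter.tendsto_add_atTop_iff_nat 1).2 hconv)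
    simpa using this
  have hD := h60_det_pos h
  set D := X.det.re with hDdef
  set K := 6 * φ 0 with hK
  have hK0 : 0 < K := by linarith [hpos 0]
  have hbd : ∀ n k, |T.be (f n) X k| ≤ K := by
    intro n k
    have h1 := T.h60_quad (f n).2 (T.be (f n) X)
    rw [T.h60_det _ hH] at h1
    have h2 : T.be (f n) X k ^ 2 ≤ ∑ k, T.be (f n) X k ^ 2 :=
      single_le_sum (f := fun k => T.be (f n) X k ^ 2) (fun _ _ => sq_nonneg _) (mem_univ k)
    have h3 : φ n ≤ φ 0 := hanti.antitone (Nat.zero_le n)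
    have h4 : φ n ^ 2 ≤ φ 0 ^ 2 := pow_le_pow_left₀ (hpos n).le h3 2
    apply abs_le_of_sq_le_sq' _ hK0.le |> abs_le.2
    change _ ≤ 3 * φ n ^ 2 - _ at h1
    rw [hK]
    nlinarith [sq_nonneg (φ 0)]
  set ε := D / (48 * K * (L + 1)) with hε
  have hε0 : 0 < ε := by positivity
  have hεD : 24 * K * ((L + 1) * ε) < D := by
    have : 24 * K * ((L + 1) * ε) = D / 2 := by
      rw [hε]
      field_simp
      ring
    linarith
  obtain ⟨n0, hn0⟩ := Filter.eventually_atTop.1
    (hdiff.eventually (gt_mem_nhds (show (0 : ℝ) < μ * ε by positivity)))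
  have hsm : ∀ n, n0 ≤ n → |s n| ≤ ε := fun n hn => by
    have h1 := (hstep n).trans_lt (hn0 n hn)
    exact (lt_of_mul_lt_mul_left h1 hμ.le).le
  let c : ℕ → Fin 4 := fun n => pm (f n).2 (a n) (a n)
  have hc : ∀ n, T.be (f (n + 1)) X (c n) = -T.kap (f n).2 (a n) * s n := fun n => by
    rw [hN n]
    exact T.be_N_self _ _ hH
  have hcpos : ∀ n, 0 < T.be (f (n + 1)) X (c n) := fun n => by
    rw [hc]
    have h3 : s n < 0 := ha n
    have := T.kap_pos (f n).2 (a n)
    nlinarith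
  have hac : ∀ n, a (n + 1) ≠ c n := fun n e => by
    have h1 := ha (n + 1)
    rw [e] at h1
    linarith [hcpos n]
  have hnext : ∀ n, n0 ≤ n → a (n + 2) = pm (f (n + 1)).2 (a (n + 1)) (c n) := by
    intro n hn
    by_contra hne
    set p := (pm (f (n + 1)).2 (a (n + 1))).symm (a (n + 2)) with hp
    have hp' : pm (f (n + 1)).2 (a (n + 1)) p = a (n + 2) := by simp [hp]
    have hpa : p ≠ a (n + 1) := fun e => hac (n + 1) (by rw [← hp', e])
    have hpc : p ≠ c n := fun e => hne (by rw [← hp', e])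
    have h1 := T.be_N_ne (f (n + 1)) (a (n + 1)) p hpa hH
    rw [← hN (n + 1), hp'] at h1
    have e1 := hsm (n + 1) (by omega)
    have e2 := hsm (n + 2) (by omega)
    have e0 := hsm n hn
    have hLε : 0 < L * ε := by positivity
    have h3 := h60_three (T.goodM (f (n + 1)).2) (hbd (n + 1)) (η := (L + 1) * ε) hpa hpc (hac n)
      (by
        have h2 : T.be (f (n + 1)) X p =
          s (n + 2) - T.lam (f (n + 1)).2 (a (n + 1)) p * s (n + 1) := by
          simp only [hs]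
          linarith
        rw [h2]
        refine (abs_sub _ _).trans ?_
        rw [abs_mul]
        have := mul_le_mul (hlam (f (n + 1)).2 (a (n + 1)) p) e1 (abs_nonneg _) hL.le
        linarith)
      (by
        change |s (n + 1)| ≤ _
        linarith)
      (by
        rw [hc, abs_mul, abs_neg, abs_of_pos (T.kap_pos _ _)]
        have := mul_le_mul (hkap (f n).2 (a n)) e0 (abs_nonneg _) hL.le
        linarith)
    rw [T.h60_det _ hH] at h3
    linarith
  let st : ℕ → SL2C × (Fin 4 × Fin 4 × Fin 4) :=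
    fun n => ((f (n + 1)).1, (f (n + 1)).2, a (n + 1), c n)
  have hst : ∀ j, st (n0 + j) = T.h60wk^[j] (st n0) := by
    intro j
    induction j with
    | zero => rfl
    | succ j ih =>
      rw [Function.iterate_succ_apply', ← ih]
      have h1 := hnext (n0 + j) (by omega)
      have h2 := hN (n0 + j + 1)
      simp only [st, h60wk, nx, ← add_assoc]
      rw [h1, h2]
      rfl
  have hper := T.h60_wk_per (st n0) (hac n0)
  rw [← hst] at hper
  have h5 := h60_per_pos (st n0).2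
  have hfe : f (n0 + per (st n0).2 + 1) = f (n0 + 1) := by
    have e1 := congrArg Prod.fst hper
    have e2 := congrArg (fun q => q.2.1) hper
    exact Prod.ext e1 e2
  have := hanti (show n0 + 1 < n0 + per (st n0).2 + 1 by omega)
  simp only [hφ, hfe] at this
  exact lt_irrefl _ this

/-- One descending step. -/
def h60r (X : Mat) (τ τ' : SL2C × Fin 4) : Prop := ∃ a, T.be τ X a < 0 ∧ τ' = T.N τ a

/-- No coordinate of `X` in a tetrahedron of the orbit vanishes. -/
def h60Gen (X : Mat) : Prop := ∀ σ : SL2C × Fin 4, σ.1 ∈ T.G → ∀ k, T.be σ X k ≠ 0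

theorem h60_N_mem {τ : SL2C × Fin 4} (hτ : τ.1 ∈ T.G) (a : Fin 4) : (T.N τ a).1 ∈ T.G :=
  T.G.mul_mem hτ (T.g_mem _ _)

theorem h60_back {τ : SL2C × Fin 4} {a : Fin 4} {X : Mat} (h : X.IsHermitian)
    (ha : 0 < T.be τ X a) : T.h60r X (T.N τ a) τ := by
  refine ⟨pm τ.2 a a, ?_, (T.N_N τ a).symm⟩
  rw [T.be_N_self τ a h]
  have := T.kap_pos τ.2 a
  nlinarith

open Relation in
theorem h60_local {X : Mat} (h : X.IsHermitian) (hg : T.h60Gen X) {τ : SL2C × Fin 4}
    (hτ : τ.1 ∈ T.G) {a c : Fin 4} (hac : a ≠ c) (ha : T.be τ X a < 0) (hc : T.be τ X c < 0) :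
    ∃ ρ, ReflTransGen (T.h60r X) (T.N τ a) ρ ∧ ReflTransGen (T.h60r X) (T.N τ c) ρ := by
  set s : Fin 4 × Fin 4 × Fin 4 := (τ.2, a, c) with hs
  have hs' : s.2.1 ≠ s.2.2 := hac
  let w : ℕ → SL2C × Fin 4 := fun n => ((T.h60wk^[n] (τ.1, s)).1, (nx^[n] s).1)
  have hw : ∀ n, w (n + 1) = T.N (w n) (nx^[n] s).2.1 := by
    intro n
    simp only [w, Function.iterate_succ_apply']
    simp only [h60wk, T.h60_wk_snd]
    rfl
  have hwG : ∀ n, (w n).1 ∈ T.G := by
    intro n
    induction n with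
    | zero => exact hτ
    | succ n ih => rw [hw]; exact T.h60_N_mem ih _
  let y : ℕ → ℝ := fun n => T.be (w n) X (nx^[n] s).2.1
  let z : ℕ → ℝ := fun n => T.be (w n) X (nx^[n] s).2.2
  have hy : ∀ n, y (n + 1) = z n + T.lam (nx^[n] s).1 (nx^[n] s).2.1 (nx^[n] s).2.2 * y n := by
    intro n
    have := T.be_N_ne (w n) (nx^[n] s).2.1 (nx^[n] s).2.2 (h60_nx_ne hs' n).symm h
    simp only [y, z, hw, Function.iterate_succ_apply']
    exact this
  have hz : ∀ n, z (n + 1) = -T.kap (nx^[n] s).1 (nx^[n] s).2.1 * y n := by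
    intro n
    have := T.be_N_self (w n) (nx^[n] s).2.1 h
    simp only [y, z, hw, Function.iterate_succ_apply']
    exact this
  have hwind := T.wind s hs' y z hy hz ha hc
  have h5 := h60_per_pos s
  obtain ⟨e, he⟩ : ∃ e, per s = e + 1 := ⟨per s - 1, by omega⟩
  have hper := T.h60_wk_per (τ.1, s) hs'
  have hnx := nx_per s hs'
  have hwd : w (e + 1) = τ := by
    simp only [w, ← he, hper, hnx]
    rfl
  have hzd : z (e + 1) = T.be τ X c := by
    simp only [z, hwd]
    rw [← he, hnx]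
  have hye : 0 < y e := by
    have h1 := hz e
    rw [hzd] at h1
    have := T.kap_pos (nx^[e] s).1 (nx^[e] s).2.1
    by_contra hneg
    push Not at hneg
    nlinarith
  have hyne : ∀ n, y n ≠ 0 := fun n => hg _ (hwG n) _
  have hex : ∃ k, 0 < y k := ⟨e, hye⟩
  classical
  set j := Nat.find hex with hj
  have hj1 : 0 < y j := Nat.find_spec hex
  have hj2 : ∀ k, k < j → y k < 0 := fun k hk =>
    lt_of_le_of_ne (not_lt.1 (Nat.find_min hex hk)) (hyne k)
  have hje : j ≤ e := Nat.find_min' hex hye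
  have hj0 : 1 ≤ j := by
    by_contra h0
    have h00 : j = 0 := by omega
    rw [h00] at hj1
    exact lt_asymm hj1 ha
  have hj3 : ∀ k, j ≤ k → k ≤ e → 0 < y k := by
    intro k h1 h2
    rcases h1.eq_or_lt with rfl | h1
    · exact hj1
    rcases h2.eq_or_lt with rfl | h2
    · exact hye
    have := hwind j k h1 (by omega)
    push Not at this
    exact lt_of_le_of_ne (this hj1) (hyne k).symm
  have hfw : ∀ k, 1 ≤ k → k ≤ j → ReflTransGen (T.h60r X) (w 1) (w k) := by
    intro k h1 h2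
    induction k, h1 using Nat.le_induction with
    | base => exact ReflTransGen.refl
    | succ k h1 ih => exact (ih (by omega)).tail ⟨_, hj2 k (by omega), hw k⟩
  have hbw : ∀ k, j ≤ k → k ≤ e → ReflTransGen (T.h60r X) (w k) (w j) := by
    intro k h1 h2
    induction k, h1 using Nat.le_induction with
    | base => exact ReflTransGen.refl
    | succ k h1 ih =>
      refine ReflTransGen.head ?_ (ih (by omega))
      rw [hw]
      exact T.h60_back h (hj3 k h1 (by omega))
  refine ⟨w j, ?_, ?_⟩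
  · have := hfw j hj0 le_rfl
    rwa [hw 0] at this
  · have h1 : T.N τ c = w e := by
      have h2 := T.N_N (w e) (nx^[e] s).2.1
      rw [← hw, hwd] at h2
      rw [← h2]
      congr 1
      have h3 : (nx^[e + 1] s).2.2 = c := by rw [← he, hnx]
      rw [← h3, Function.iterate_succ_apply']
      rfl
    rw [h1]
    exact hbw e hje le_rfl

open Relation in
theorem h60_exists_term {X : Mat} (h : X.PosDef) (τ : SL2C × Fin 4) :
    ∃ t, ReflTransGen (T.h60r X) τ t ∧ ∀ k, 0 ≤ T.be t X k := by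
  induction τ using (T.wf h).induction with
  | _ τ ih =>
    by_cases ht : ∀ k, 0 ≤ T.be τ X k
    · exact ⟨τ, ReflTransGen.refl, ht⟩
    · push Not at ht
      obtain ⟨a, ha⟩ := ht
      obtain ⟨t, h1, h2⟩ := ih _ ⟨a, ha, rfl⟩
      exact ⟨t, ReflTransGen.head ⟨a, ha, rfl⟩ h1, h2⟩

open Relation in
theorem h60_term_eq {X : Mat} {τ t : SL2C × Fin 4} (hτ : ∀ k, 0 ≤ T.be τ X k)
    (h : ReflTransGen (T.h60r X) τ t) : τ = t := by
  rcases h.cases_head with h | ⟨σ, ⟨a, ha, -⟩, -⟩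
  · exact h
  · exact absurd (hτ a) (not_le.2 ha)

open Relation in
theorem h60_term_unique {X : Mat} (h : X.PosDef) (hg : T.h60Gen X) (τ : SL2C × Fin 4) :
    τ.1 ∈ T.G → ∀ t t', ReflTransGen (T.h60r X) τ t → (∀ k, 0 ≤ T.be t X k) →
      ReflTransGen (T.h60r X) τ t' → (∀ k, 0 ≤ T.be t' X k) → t = t' := by
  induction τ using (T.wf h).induction with
  | _ τ ih =>
    intro hτ t t' h1 ht h2 ht'
    rcases h1.cases_head with rfl | ⟨σ, ⟨a, ha, rfl⟩, h1'⟩
    · exact T.h60_term_eq ht h2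
    rcases h2.cases_head with rfl | ⟨σ', ⟨c, hc, rfl⟩, h2'⟩
    · exact absurd (ht' a) (not_le.2 ha)
    by_cases hac : a = c
    · subst hac
      exact ih _ ⟨a, ha, rfl⟩ (T.h60_N_mem hτ a) t t' h1' ht h2' ht'
    obtain ⟨ρ, r1, r2⟩ := T.h60_local h.isHermitian hg hτ hac ha hc
    obtain ⟨t'', r3, ht''⟩ := T.h60_exists_term h ρ
    exact (ih _ ⟨a, ha, rfl⟩ (T.h60_N_mem hτ a) t t'' h1' ht (r1.trans r3) ht'').trans
      (ih _ ⟨c, hc, rfl⟩ (T.h60_N_mem hτ c) t'' t' (r2.trans r3) ht'' h2' ht')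

/-- Two tetrahedra with the same terminal descendants. -/
def h60same (X : Mat) (τ τ' : SL2C × Fin 4) : Prop :=
  ∀ t, (∀ k, 0 ≤ T.be t X k) →
    (Relation.ReflTransGen (T.h60r X) τ t ↔ Relation.ReflTransGen (T.h60r X) τ' t)

theorem h60same_symm {X : Mat} {τ τ' : SL2C × Fin 4} (h : T.h60same X τ τ') :
    T.h60same X τ' τ := fun t ht => (h t ht).symm

theorem h60same_trans {X : Mat} {τ τ' τ'' : SL2C × Fin 4} (h : T.h60same X τ τ')
    (h' : T.h60same X τ' τ'') : T.h60same X τ τ'' := fun t ht => (h t ht).trans (h' t ht)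

theorem h60same_step {X : Mat} (h : X.PosDef) (hg : T.h60Gen X) {τ τ' : SL2C × Fin 4}
    (hτ : τ.1 ∈ T.G) (hr : T.h60r X τ τ') : T.h60same X τ τ' := by
  intro t ht
  refine ⟨fun h1 => ?_, fun h1 => Relation.ReflTransGen.head hr h1⟩
  obtain ⟨t', r1, ht'⟩ := T.h60_exists_term h τ'
  rw [T.h60_term_unique h hg τ hτ t t' h1 ht (Relation.ReflTransGen.head hr r1) ht']
  exact r1

theorem h60same_N {X : Mat} (h : X.PosDef) (hg : T.h60Gen X) {τ : SL2C × Fin 4}
    (hτ : τ.1 ∈ T.G) (a : Fin 4) : T.h60same X τ (T.N τ a) := by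
  rcases (hg τ hτ a).lt_or_gt with ha | ha
  · exact T.h60same_step h hg hτ ⟨a, ha, rfl⟩
  · exact T.h60same_symm
      (T.h60same_step h hg (T.h60_N_mem hτ a) (T.h60_back h.isHermitian ha))

theorem h60same_tree {X : Mat} (h : X.PosDef) (hg : T.h60Gen X) {d : SL2C} (hd : d ∈ T.G)
    (i : Fin 4) : T.h60same X (d, 0) (d, i) := by
  have h1 : T.h60same X (d, 0) (d, 1) := by
    have := T.h60same_N h hg (τ := (d, 0)) hd 3
    simp only [N, T.tree.1, mul_one] at this
    exact this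
  have h2 : T.h60same X (d, 1) (d, 2) := by
    have := T.h60same_N h hg (τ := (d, 1)) hd 2
    simp only [N, T.tree.2.1, mul_one] at this
    exact this
  have h3 : T.h60same X (d, 2) (d, 3) := by
    have := T.h60same_N h hg (τ := (d, 2)) hd 1
    simp only [N, T.tree.2.2, mul_one] at this
    exact this
  fin_cases i
  · exact fun t _ => Iff.rfl
  · exact h1
  · exact T.h60same_trans h1 h2
  · exact T.h60same_trans (T.h60same_trans h1 h2) h3

theorem h60same_mul {X : Mat} (h : X.PosDef) (hg : T.h60Gen X) {γ : SL2C} (hγ : γ ∈ T.G) :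
    ∀ d ∈ T.G, T.h60same X (d, 0) (d * γ, 0) := by
  induction hγ using Subgroup.closure_induction with
  | mem x hx =>
    obtain ⟨⟨i, a⟩, rfl⟩ := hx
    intro d hd
    exact T.h60same_trans (T.h60same_trans (T.h60same_tree h hg hd i)
      (T.h60same_N h hg (τ := (d, i)) hd a))
      (T.h60same_symm (T.h60same_tree h hg (T.G.mul_mem hd (T.g_mem i a)) _))
  | one =>
    intro d _
    rw [mul_one]
    exact fun t _ => Iff.rfl
  | mul x y hx hy ihx ihy =>
    intro d hd
    rw [← mul_assoc]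
    exact T.h60same_trans (ihx d hd) (ihy _ (T.G.mul_mem hd hx))
  | inv x hx ih =>
    intro d hd
    have := ih _ (T.G.mul_mem hd (T.G.inv_mem hx))
    rw [inv_mul_cancel_right] at this
    exact T.h60same_symm this

theorem h60_uniq_gen {X : Mat} (h : X.PosDef) (hg : T.h60Gen X) {τ τ' : SL2C × Fin 4}
    (hτ : τ.1 ∈ T.G) (hτ' : τ'.1 ∈ T.G) (h0 : ∀ k, 0 ≤ T.be τ X k) (h1 : ∀ k, 0 ≤ T.be τ' X k) :
    τ = τ' := by
  have e1 := T.h60same_mul h hg (T.G.mul_mem (T.G.inv_mem hτ) hτ') τ.1 hτ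
  rw [mul_inv_cancel_left] at e1
  have e2 : T.h60same X τ τ' := T.h60same_trans (T.h60same_trans
    (T.h60same_symm (T.h60same_tree h hg hτ τ.2)) e1) (T.h60same_tree h hg hτ' τ'.2)
  exact T.h60_term_eq h0 ((e2 τ' h1).2 Relation.ReflTransGen.refl)

theorem h60_countable : (T.G : Set SL2C).Countable := by
  unfold G
  rw [← FreeGroup.range_lift_eq_closure, MonoidHom.coe_range]
  exact Set.countable_range _

/-- The change of coordinates from `τ` to `σ`, as a linear map. -/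
noncomputable def h60L (τ σ : SL2C × Fin 4) : (Fin 4 → ℝ) →ₗ[ℝ] (Fin 4 → ℝ) :=
  T.bc σ.2 ∘ₗ actL σ.1⁻¹ ∘ₗ actL τ.1 ∘ₗ Fintype.linearCombination ℝ (T.u τ.2)

theorem h60L_apply (τ σ : SL2C × Fin 4) (c : Fin 4 → ℝ) :
    T.h60L τ σ c = T.be σ (act τ.1 (T.comb τ.2 c)) := by
  simp only [h60L, LinearMap.comp_apply, Fintype.linearCombination_apply, actL_apply]
  rfl

theorem h60_posDef (i : Fin 4) {c : Fin 4 → ℝ} (hc : ∀ k, 0 < c k) : (T.comb i c).PosDef := by
  apply posDef_of_posSemidef (T.comb_posSemidef i fun k => (hc k).le)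
  rw [T.det_comb]
  have hm := T.goodM i
  have h0 : ∀ j k, 0 ≤ T.m i j k := fun j k => by
    by_cases e : j = k
    · rw [e, hm.diag]
    · linarith [hm.ge j k e]
  unfold Qm
  refine mul_pos (by norm_num) (sum_pos' (fun j _ => sum_nonneg fun k _ =>
    mul_nonneg (mul_nonneg (h0 j k) (hc j).le) (hc k).le) ⟨0, mem_univ _, sum_pos'
      (fun k _ => mul_nonneg (mul_nonneg (h0 0 k) (hc 0).le) (hc k).le) ⟨1, mem_univ _, ?_⟩⟩)
  exact mul_pos (mul_pos (by linarith [hm.ge 0 1 (by decide)]) (hc 0)) (hc 1)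

open MeasureTheory in
/-- A closed cone meets the open cone of another tetrahedron of the orbit nowhere. -/
theorem uniq {τ τ' : SL2C × Fin 4} (hτ : τ.1 ∈ T.G) (hτ' : τ'.1 ∈ T.G) {X : Mat}
    (hX : X.IsHermitian) (h0 : ∀ k, 0 ≤ T.be τ X k) (h1 : ∀ k, 0 < T.be τ' X k) : τ = τ' := by
  have hcont : ∀ k, Continuous fun c => T.h60L τ τ' c k := fun k =>
    (continuous_apply k).comp (T.h60L τ τ').continuous_of_finiteDimensional
  let V : Set (Fin 4 → ℝ) := ⋂ k, {c | 0 < T.h60L τ τ' c k}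
  have hV : IsOpen V := isOpen_iInter_of_finite fun k => isOpen_lt continuous_const (hcont k)
  let W : Set (Fin 4 → ℝ) := ⋂ k, {c | 0 < c k}
  have hW : IsOpen W :=
    isOpen_iInter_of_finite fun k => isOpen_lt continuous_const (continuous_apply k)
  have hne : (V ∩ W).Nonempty := by
    have hc : Continuous fun t : ℝ => T.be τ X + fun _ => t := by fun_prop
    have hm : (T.be τ X + fun _ => (0 : ℝ)) ∈ V := by
      simp only [V, Set.mem_iInter, Set.mem_ofPred_eq]
      intro k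
      have : (T.be τ X + fun _ => (0 : ℝ)) = T.be τ X := by ext; simp
      rw [this, h60L_apply, T.act_comb_be τ hX]
      exact h1 k
    have hev := (hc.continuousAt (x := 0)).eventually (hV.mem_nhds hm)
    obtain ⟨t, ht, ht0⟩ := ((hev.filter_mono nhdsWithin_le_nhds).and
      (self_mem_nhdsWithin (s := Set.Ioi (0 : ℝ)))).exists
    refine ⟨_, ht, Set.mem_iInter.2 fun k => ?_⟩
    have : (0 : ℝ) < t := ht0
    simp only [Set.mem_ofPred_eq, Pi.add_apply]
    linarith [h0 k]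
  have hnull : ∀ σ : SL2C × Fin 4, ∀ k, volume {c | T.h60L τ σ c k = 0} = 0 := by
    intro σ k
    have := Measure.addHaar_submodule (volume : Measure (Fin 4 → ℝ))
      (LinearMap.ker (LinearMap.proj k ∘ₗ T.h60L τ σ)) (by
        intro e
        have hm : T.be τ (act σ.1 (T.comb σ.2 fun _ => 1)) ∈
          LinearMap.ker (LinearMap.proj k ∘ₗ T.h60L τ σ) := by rw [e]; trivial
        rw [LinearMap.mem_ker, LinearMap.comp_apply, h60L_apply,
          T.act_comb_be τ (isHermitian_act _ (T.comb_herm _ _)), T.be_act_comb] at hm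
        simp at hm)
    exact this
  have hcnt : Countable T.G := T.h60_countable.to_subtype
  have hall : volume (⋃ p : T.G × Fin 4 × Fin 4,
      {c | T.h60L τ (p.1.1, p.2.1) c p.2.2 = 0}) = 0 :=
    measure_iUnion_null fun p => hnull _ _
  have hpos := (hV.inter hW).measure_pos volume hne
  obtain ⟨c, ⟨hcV, hcW⟩, hc⟩ : ∃ c ∈ V ∩ W, c ∉ ⋃ p : T.G × Fin 4 × Fin 4,
      {c | T.h60L τ (p.1.1, p.2.1) c p.2.2 = 0} := by
    by_contra hcon
    push Not at hcon
    exact hpos.ne' (measure_mono_null hcon hall)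
  have hcW' : ∀ k, 0 < c k := Set.mem_iInter.1 hcW
  have hcV' : ∀ k, 0 < T.h60L τ τ' c k := Set.mem_iInter.1 hcV
  refine T.h60_uniq_gen (posDef_act τ.1 (T.h60_posDef τ.2 hcW')) ?_ hτ hτ' ?_ ?_
  · intro σ hσ k e
    apply hc
    refine Set.mem_iUnion.2 ⟨(⟨σ.1, hσ⟩, σ.2, k), ?_⟩
    simp only [Set.mem_ofPred_eq, h60L_apply]
    exact e
  · intro k
    rw [T.be_act_comb]
    exact (hcW' k).le
  · intro k
    rw [← h60L_apply]
    exact (hcV' k).le

end Tri

end Pool.Agent.Lib.MP_a11aea_gt
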