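import Pool.Agent.Lib.MP_a11aea_gt.H36DescA

/-! Consequences of the descent: covering, fibres, convexity, freeness, proper discontinuity. -/

namespace Pool.Agent.Lib.MP_a11aea_gt

open Matrix Finset
open scoped ComplexOrder

theorem GoodM.nonneg_dB {m : Fin 4 → Fin 4 → ℝ} (hm : GoodM m) (j k : Fin 4) : 0 ≤ m j k := by
  by_cases h : j = k
  · rw [h, hm.diag]
  · linarith [hm.ge j k h]

theorem GoodM.qm_nonneg_dB {m : Fin 4 → Fin 4 → ℝ} (hm : GoodM m) {c : Fin 4 → ℝ}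
    (hc : ∀ k, 0 ≤ c k) : 0 ≤ Qm m c := by
  unfold Qm
  refine mul_nonneg (by norm_num) (sum_nonneg fun j _ => sum_nonneg fun k _ => ?_)
  exact mul_nonneg (mul_nonneg (hm.nonneg_dB j k) (hc j)) (hc k)

theorem GoodM.qm_pos_dB {m : Fin 4 → Fin 4 → ℝ} (hm : GoodM m) {c : Fin 4 → ℝ}
    (hc : ∀ k, 0 < c k) : 0 < Qm m c := by
  unfold Qm
  refine mul_pos (by norm_num) (sum_pos' (fun j _ => sum_nonneg fun k _ => ?_) ⟨0, mem_univ _, ?_⟩)
  · exact mul_nonneg (mul_nonneg (hm.nonneg_dB j k) (hc j).le) (hc k).le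
  · refine sum_pos' (fun k _ => ?_) ⟨1, mem_univ _, ?_⟩
    · exact mul_nonneg (mul_nonneg (hm.nonneg_dB 0 k) (hc 0).le) (hc k).le
    · have := hm.ge 0 1 (by decide)
      exact mul_pos (mul_pos (by linarith) (hc 0)) (hc 1)

theorem GoodM.mul_zero_dB {m : Fin 4 → Fin 4 → ℝ} (hm : GoodM m) {c : Fin 4 → ℝ}
    (hc : ∀ k, 0 ≤ c k) (hq : Qm m c = 0) {j k : Fin 4} (hjk : j ≠ k) : c j * c k = 0 := by
  unfold Qm at hq
  have h0 : ∑ j, ∑ k, m j k * c j * c k = 0 := by linarith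
  have hn : ∀ j k, 0 ≤ m j k * c j * c k := fun j k =>
    mul_nonneg (mul_nonneg (hm.nonneg_dB j k) (hc j)) (hc k)
  have h1 := (sum_eq_zero_iff_of_nonneg fun j _ => sum_nonneg fun k _ => hn j k).1 h0 j (mem_univ _)
  have h2 := (sum_eq_zero_iff_of_nonneg fun k _ => hn j k).1 h1 k (mem_univ _)
  have h3 := hm.ge j k hjk
  rw [mul_assoc] at h2
  rcases _root_.mul_eq_zero.1 h2 with h | h
  · linarith
  · exact h

theorem GoodM.qm_le_dB {m : Fin 4 → Fin 4 → ℝ} (hm : GoodM m) {c : Fin 4 → ℝ}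
    (hc : ∀ k, 0 ≤ c k) : Qm m c ≤ 3 / 2 * (∑ k, c k) ^ 2 := by
  unfold Qm
  have h : ∑ j, ∑ k, m j k * c j * c k ≤ ∑ j, ∑ k, 3 * (c j * c k) := by
    refine sum_le_sum fun j _ => sum_le_sum fun k _ => ?_
    rw [mul_assoc]
    exact mul_le_mul_of_nonneg_right (hm.le j k) (mul_nonneg (hc j) (hc k))
  have h2 : ∑ j, ∑ k, 3 * (c j * c k) = 3 * (∑ k, c k) ^ 2 := by
    simp only [Fin.sum_univ_four]; ring
  linarith

theorem GoodM.qm_split_dB {m : Fin 4 → Fin 4 → ℝ} (hm : GoodM m) (b : Fin 4 → ℝ) (p : Fin 4) :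
    Qm m b = Qm m (fun k => if k = p then 0 else b k) + b p * Lm m b p := by
  have h10 := hm.symm 1 0
  have h20 := hm.symm 2 0
  have h30 := hm.symm 3 0
  have h21 := hm.symm 2 1
  have h31 := hm.symm 3 1
  have h32 := hm.symm 3 2
  have d0 := hm.diag 0
  have d1 := hm.diag 1
  have d2 := hm.diag 2
  have d3 := hm.diag 3
  unfold Qm Lm
  fin_cases p <;>
    simp [Fin.sum_univ_four, h10, h20, h30, h21, h31, h32, d0, d1, d2, d3] <;> ring

theorem GoodM.lm_ge_dB {m : Fin 4 → Fin 4 → ℝ} (hm : GoodM m) {b : Fin 4 → ℝ} {p : Fin 4}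
    (hb : ∀ a, a ≠ p → 0 ≤ b a) (hq : Qm m b = 0) (hl : 0 < Lm m b p) (hs : 1 ≤ ∑ k, b k) :
    9 / 10 ≤ Lm m b p := by
  have h1 : 0 ≤ Qm m (fun k => if k = p then 0 else b k) := by
    refine hm.qm_nonneg_dB fun k => ?_
    split_ifs with h
    · exact le_rfl
    · exact hb k h
  have h2 := hm.qm_split_dB b p
  have h3 : b p ≤ 0 := by
    by_contra h
    have := mul_pos (not_le.1 h) hl
    linarith
  have h4 : ∑ k, 9 / 10 * b k ≤ Lm m b p := by
    unfold Lm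
    refine sum_le_sum fun k _ => ?_
    by_cases h : k = p
    · rw [h, hm.diag]; linarith
    · exact mul_le_mul_of_nonneg_right (hm.ge p k (Ne.symm h)) (hb k h)
  rw [← mul_sum] at h4
  linarith

theorem exists_small_dB (b y : Fin 4 → ℝ) (hb : ∀ k, 0 ≤ b k) (h : ∀ k, b k = 0 → 0 ≤ y k) :
    ∃ t : ℝ, 0 < t ∧ ∀ k, 0 ≤ b k + t * y k := by
  have h1 : ∀ k, ∀ᶠ t : ℝ in nhdsWithin 0 (Set.Ioi 0), 0 ≤ b k + t * y k := by
    intro k
    rcases (hb k).eq_or_lt with h0 | h0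
    · filter_upwards [self_mem_nhdsWithin] with t ht
      have := mul_nonneg (le_of_lt ht) (h k h0.symm)
      linarith
    · have hc : ContinuousAt (fun t : ℝ => b k + t * y k) 0 := by fun_prop
      have : ∀ᶠ t : ℝ in nhds 0, 0 < b k + t * y k :=
        hc.eventually (lt_mem_nhds (by simpa using h0))
      exact (this.filter_mono nhdsWithin_le_nhds).mono fun t ht => ht.le
  obtain ⟨t, ht, ht'⟩ := ((Filter.eventually_all.2 h1).and self_mem_nhdsWithin).exists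
  exact ⟨t, ht', ht⟩

theorem supp_comp_dB (c : Fin 4 → ℝ) (e : Equiv.Perm (Fin 4)) :
    supp (c ∘ e.symm) = (supp c).map e.toEmbedding := by
  ext k
  rw [mem_map_equiv, mem_supp, mem_supp]
  rfl

theorem canon_step_dB (i a : Fin 4) {c : Fin 4 → ℝ} (ha : c a = 0) (h2 : 2 ≤ (supp c).card) :
    canon (nb i a) (c ∘ (pm i a).symm) = canon i c := by
  have haS : a ∉ supp c := fun h => mem_supp.1 h ha
  unfold canon
  rw [supp_comp_dB, i0_step i a _ haS h2]
  refine Prod.ext rfl ?_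
  funext j
  have hp := ph_step i a _ haS h2
  simp only [Function.comp]
  by_cases hk : (ph i (supp c)).symm j ∈ supp c
  · have := hp _ hk
    rw [Equiv.apply_symm_apply] at this
    rw [← (Equiv.eq_symm_apply _).2 this, Equiv.symm_apply_apply]
  · have h0 : c ((ph i (supp c)).symm j) = 0 := by
      by_contra h
      exact hk (mem_supp.2 h)
    rw [h0]
    by_contra h
    have h1 := hp _ (mem_supp.2 h)
    rw [Equiv.apply_symm_apply, Equiv.apply_symm_apply] at h1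
    apply hk
    rw [h1, Equiv.symm_apply_apply]
    exact mem_supp.2 h

namespace Tri

variable (T : Tri)

theorem be_add_dB (τ : SL2C × Fin 4) (X Y : Mat) (k : Fin 4) :
    T.be τ (X + Y) k = T.be τ X k + T.be τ Y k := by
  unfold be
  rw [act_add, map_add]
  rfl

theorem be_smul_dB (τ : SL2C × Fin 4) (t : ℝ) (X : Mat) (k : Fin 4) :
    T.be τ (t • X) k = t * T.be τ X k := by
  unfold be
  rw [act_smul, map_smul]
  rfl

theorem be_shift_dB (γ : SL2C) (τ : SL2C × Fin 4) (X : Mat) :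
    T.be (γ * τ.1, τ.2) (act γ X) = T.be τ X := by
  unfold be
  rw [← act_mul, _root_.mul_inv_rev, mul_assoc, inv_mul_cancel, mul_one]

theorem comb_be_dB (τ : SL2C × Fin 4) {X : Mat} (h : X.IsHermitian) :
    T.comb τ.2 (T.be τ X) = act τ.1⁻¹ X := by
  have := congrArg (act τ.1⁻¹) (T.act_comb_be τ h)
  rwa [act_inv_act] at this

theorem qm_be_dB (τ : SL2C × Fin 4) {X : Mat} (h : X.IsHermitian) :
    Qm (T.m τ.2) (T.be τ X) = X.det.re := by
  rw [← T.det_comb, T.comb_be_dB τ h, det_act]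

theorem N_mem_dB {τ : SL2C × Fin 4} (hτ : τ.1 ∈ T.G) (a : Fin 4) : (T.N τ a).1 ∈ T.G :=
  T.G.mul_mem hτ (T.g_mem _ _)

theorem sum_be_N_lt_dB (τ : SL2C × Fin 4) {a : Fin 4} {X : Mat} (h : X.IsHermitian)
    (ha : T.be τ X a < 0) : ∑ k, T.be (T.N τ a) X k < ∑ k, T.be τ X k := by
  rw [T.sum_be_N τ a h]
  have h1 := T.convex τ.2 a
  have := mul_neg_of_pos_of_neg (show 0 < ∑ k, T.lam τ.2 a k - T.kap τ.2 a - 1 by linarith) ha
  linarith

theorem be_N_zero_dB (τ : SL2C × Fin 4) {a : Fin 4} {X : Mat} (h : X.IsHermitian)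
    (ha : T.be τ X a = 0) : T.be (T.N τ a) X = T.be τ X ∘ (pm τ.2 a).symm := by
  funext j
  obtain ⟨k, rfl⟩ := (pm τ.2 a).surjective j
  simp only [Function.comp, Equiv.symm_apply_apply]
  by_cases hk : k = a
  · rw [hk, T.be_N_self τ a h, ha, mul_zero]
  · rw [T.be_N_ne τ a k hk h, ha, mul_zero, add_zero]

theorem comb_posDef_dB (i : Fin 4) {c : Fin 4 → ℝ} (hc : ∀ k, 0 < c k) : (T.comb i c).PosDef := by
  refine posDef_of_posSemidef (T.comb_posSemidef i fun k => (hc k).le) ?_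
  rw [T.det_comb]
  exact (T.goodM i).qm_pos_dB hc

theorem comb_single_dB (i k : Fin 4) : T.comb i (Pi.single k 1) = T.u i k := by
  unfold comb
  rw [sum_eq_single k]
  · simp
  · intro j _ hj
    simp [hj]
  · intro h
    exact absurd (mem_univ k) h

theorem be_vertex_dB (τ : SL2C × Fin 4) (k : Fin 4) :
    T.be τ (act τ.1 (T.u τ.2 k)) = Pi.single k 1 := by
  rw [← T.comb_single_dB, T.be_act_comb]

theorem exists_base_dB {u : Mat} (hu : u ∈ T.O) : ∃ d ∈ T.G, u = act d (T.u 0 0) := by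
  obtain ⟨d, hd, rfl⟩ := hu
  exact ⟨d, hd, by rw [u, T.base]⟩

theorem O_posSemidef_dB {u : Mat} (hu : u ∈ T.O) : u.PosSemidef := by
  obtain ⟨w, -, rfl⟩ := exists_lightVec e1_ne hu
  exact posSemidef_lightVec w

theorem O_det_dB {u : Mat} (hu : u ∈ T.O) : u.det = 0 := by
  obtain ⟨w, -, rfl⟩ := exists_lightVec e1_ne hu
  exact det_lightVec w

theorem descend_dB {X : Mat} (h : X.PosDef) (τ : SL2C × Fin 4) :
    τ.1 ∈ T.G → ∃ σ : SL2C × Fin 4, σ.1 ∈ T.G ∧ (∀ k, 0 ≤ T.be σ X k) ∧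
      ∑ k, T.be σ X k ≤ ∑ k, T.be τ X k := by
  induction τ using (T.wf h).induction with
  | _ τ ih =>
    intro hτ
    by_cases h0 : ∀ k, 0 ≤ T.be τ X k
    · exact ⟨τ, hτ, h0, le_rfl⟩
    · obtain ⟨a, ha⟩ := not_forall.1 h0
      have ha' := not_le.1 ha
      obtain ⟨σ, h1, h2, h3⟩ := ih (T.N τ a) ⟨a, ha', rfl⟩ (T.N_mem_dB hτ a)
      exact ⟨σ, h1, h2, h3.trans (T.sum_be_N_lt_dB τ h.isHermitian ha').le⟩

theorem cover {X : Mat} (h : X.PosDef) :
    ∃ γ ∈ T.G, ∃ i c, (∀ k, 0 ≤ c k) ∧ X = act γ (T.comb i c) := by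
  obtain ⟨σ, h1, h2, -⟩ := T.descend_dB h (1, 0) T.G.one_mem
  exact ⟨σ.1, h1, σ.2, T.be σ X, h2, (T.act_comb_be σ h.isHermitian).symm⟩

theorem fibre_be_dB {X : Mat} (hX : X.PosDef) {τ : SL2C × Fin 4} (hτ : τ.1 ∈ T.G)
    (h0 : ∀ k, 0 ≤ T.be τ X k) (s : SL2C × Fin 4) : s.1 ∈ T.G → (∀ k, 0 ≤ T.be s X k) →
      canon s.2 (T.be s X) = canon τ.2 (T.be τ X) ∧
        s.1 * T.h s.2 (supp (T.be s X)) = τ.1 * T.h τ.2 (supp (T.be τ X)) := by
  have hx : (act τ.1 (T.comb τ.2 fun _ => 1)).PosDef :=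
    posDef_act _ (T.comb_posDef_dB _ fun _ => one_pos)
  induction s using (T.wf hx).induction with
  | _ s ih =>
    intro hs hs0
    by_cases he : s = τ
    · rw [he]
      exact ⟨rfl, rfl⟩
    have hex : ∃ a, T.be s X a = 0 ∧ T.be s (act τ.1 (T.comb τ.2 fun _ => 1)) a < 0 := by
      by_contra hn
      obtain ⟨t, ht, ht'⟩ := exists_small_dB (T.be s X) (T.be s (act τ.1 (T.comb τ.2 fun _ => 1))) hs0
        fun k hk => not_lt.1 fun h => hn ⟨k, hk, h⟩
      refine he (T.uniq hs hτ (X := X + t • act τ.1 (T.comb τ.2 fun _ => 1))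
        (hX.isHermitian.add ?_) (fun k => ?_) fun k => ?_)
      · rw [← act_smul]
        have : t • T.comb τ.2 (fun _ => 1) = T.comb τ.2 fun _ => t := by
          unfold comb
          rw [smul_sum]
          simp
        rw [this]
        exact isHermitian_act _ (T.comb_herm _ _)
      · rw [T.be_add_dB, T.be_smul_dB]
        exact ht' k
      · rw [T.be_add_dB, T.be_smul_dB, T.be_act_comb]
        linarith [h0 k]
    obtain ⟨a, ha, ha'⟩ := hex
    have hN := T.be_N_zero_dB s hX.isHermitian ha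
    have h2 : 2 ≤ (supp (T.be s X)).card := by
      refine T.two_le_card_supp s.2 ?_
      rw [T.comb_be_dB s hX.isHermitian]
      exact posDef_act _ hX
    obtain ⟨h3, h4⟩ := ih (T.N s a) ⟨a, ha', rfl⟩ (T.N_mem_dB hs a) (by rw [hN]; exact fun k => hs0 _)
    rw [hN] at h3 h4
    constructor
    · rw [← h3]
      exact (canon_step_dB s.2 a ha h2).symm
    · rw [← h4, supp_comp_dB, T.h_step s.2 a _ (fun h => mem_supp.1 h ha) h2, ← mul_assoc]
      rfl

theorem fibre {γ γ' : SL2C} (hγ : γ ∈ T.G) (hγ' : γ' ∈ T.G) {i i' : Fin 4} {c c' : Fin 4 → ℝ}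
    (hc : ∀ k, 0 ≤ c k) (hc' : ∀ k, 0 ≤ c' k) (hp : (T.comb i c).PosDef)
    (he : act γ (T.comb i c) = act γ' (T.comb i' c')) :
    canon i c = canon i' c' ∧ γ * T.h i (supp c) = γ' * T.h i' (supp c') := by
  have h1 : T.be (γ, i) (act γ (T.comb i c)) = c := T.be_act_comb (γ, i) c
  have h2 : T.be (γ', i') (act γ (T.comb i c)) = c' := by
    rw [he]
    exact T.be_act_comb (γ', i') c'
  have := T.fibre_be_dB (posDef_act γ hp) (τ := (γ', i')) hγ' (by rw [h2]; exact hc') (γ, i) hγ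
    (by rw [h1]; exact hc)
  rwa [h1, h2] at this

theorem one_le_sum {τ : SL2C × Fin 4} (hτ : τ.1 ∈ T.G) {u : Mat} (hu : u ∈ T.O) :
    1 ≤ ∑ k, T.be τ u k := by
  obtain ⟨d, hd, rfl⟩ := T.exists_base_dB hu
  set y := act d (T.comb 0 fun _ => 1) with hy
  have key : ∀ e : ℝ, 0 < e →
      1 ≤ ∑ k, T.be τ (act d (T.u 0 0)) k + e * ∑ k, T.be τ y k := by
    intro e he
    have hb : ∀ k, T.be (d, 0) (act d (T.u 0 0) + e • y) k = (Pi.single 0 1 : Fin 4 → ℝ) k + e := by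
      intro k
      rw [T.be_add_dB, T.be_smul_dB, T.be_vertex_dB (d, 0) 0, hy, T.be_act_comb (d, 0), mul_one]
    have hpos : ∀ k, 0 < T.be (d, 0) (act d (T.u 0 0) + e • y) k := by
      intro k
      rw [hb]
      have : 0 ≤ (Pi.single 0 1 : Fin 4 → ℝ) k := by
        by_cases h : k = 0
        · simp [h]
        · simp [h]
      linarith
    have hh : (act d (T.u 0 0) + e • y).IsHermitian := by
      refine (T.O_posSemidef_dB hu).isHermitian.add ?_
      rw [hy, ← act_smul]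
      have : e • T.comb 0 (fun _ => 1) = T.comb 0 fun _ => e := by
        unfold comb
        rw [smul_sum]
        simp
      rw [this]
      exact isHermitian_act _ (T.comb_herm _ _)
    have hx : (act d (T.u 0 0) + e • y).PosDef := by
      rw [← T.act_comb_be (d, 0) hh]
      exact posDef_act _ (T.comb_posDef_dB _ hpos)
    obtain ⟨s, h1, h2, h3⟩ := T.descend_dB hx τ hτ
    have h4 := T.uniq h1 (τ' := (d, 0)) hd hh h2 hpos
    rw [h4] at h3
    simp only [hb] at h3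
    simp only [T.be_add_dB, T.be_smul_dB, sum_add_distrib, ← mul_sum] at h3
    have h5 : ∑ k, (Pi.single 0 1 : Fin 4 → ℝ) k = 1 := by simp
    have h6 : (0 : ℝ) ≤ ∑ _k : Fin 4, e := sum_nonneg fun _ _ => he.le
    linarith
  by_contra hlt
  have hlt' := not_le.1 hlt
  set S := ∑ k, T.be τ (act d (T.u 0 0)) k
  set C := ∑ k, T.be τ y k
  have hC : 0 < |C| + 1 := by positivity
  have h1 := key ((1 - S) / (|C| + 1)) (div_pos (by linarith) hC)
  have h2 : (1 - S) / (|C| + 1) * C < 1 - S := by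
    rw [div_mul_eq_mul_div, div_lt_iff₀ hC]
    have := le_abs_self C
    nlinarith
  linarith

theorem vertex_of_sum_eq {τ : SL2C × Fin 4} (hτ : τ.1 ∈ T.G) {u : Mat} (hu : u ∈ T.O)
    (h : ∑ k, T.be τ u k = 1) : ∃ k, u = act τ.1 (T.u τ.2 k) := by
  have hh := (T.O_posSemidef_dB hu).isHermitian
  have hb : ∀ k, 0 ≤ T.be τ u k := by
    intro a
    by_contra ha
    have h1 := T.sum_be_N_lt_dB τ hh (not_le.1 ha)
    have h2 := T.one_le_sum (T.N_mem_dB hτ a) hu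
    linarith
  have hq : Qm (T.m τ.2) (T.be τ u) = 0 := by
    rw [T.qm_be_dB τ hh, T.O_det_dB hu, Complex.zero_re]
  obtain ⟨k, -, hk⟩ : ∃ k ∈ (univ : Finset (Fin 4)), T.be τ u k ≠ 0 :=
    exists_ne_zero_of_sum_ne_zero (by rw [h]; exact one_ne_zero)
  have hz : ∀ j, j ≠ k → T.be τ u j = 0 := fun j hj =>
    (_root_.mul_eq_zero.1 ((T.goodM τ.2).mul_zero_dB hb hq hj)).resolve_right hk
  have h1 : T.be τ u k = 1 := by
    rw [← h, sum_eq_single k (fun j _ hj => hz j hj) fun h => absurd (mem_univ k) h]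
  have h2 : T.be τ u = Pi.single k 1 := by
    funext j
    by_cases hj : j = k
    · rw [hj, h1, Pi.single_eq_same]
    · rw [hz j hj, Pi.single_eq_of_ne hj]
  exact ⟨k, by rw [← T.comb_single_dB, ← h2, T.act_comb_be τ hh]⟩

theorem one_le_scale_dB {u : Mat} (hu : u ∈ T.O) {t : ℝ} (ht : t • u ∈ T.O) : 1 ≤ t := by
  obtain ⟨d, hd, rfl⟩ := T.exists_base_dB hu
  have := T.one_le_sum (τ := (d, 0)) hd ht
  simp only [T.be_smul_dB, ← mul_sum] at this
  rw [T.be_vertex_dB (d, 0) 0] at this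
  simpa using this

theorem mink_pos_of_ne_dB {u u' : Mat} (hu : u ∈ T.O) (hu' : u' ∈ T.O) (h : u ≠ u') :
    0 < mink u u' := by
  refine (mink_nonneg (T.O_posSemidef_dB hu) (T.O_posSemidef_dB hu')).lt_of_ne fun h0 => h ?_
  obtain ⟨w, hw, rfl⟩ := exists_lightVec e1_ne hu
  obtain ⟨w', hw', rfl⟩ := exists_lightVec e1_ne hu'
  obtain ⟨t, ht⟩ := lightVec_prop hw h0.symm
  have h1 : 1 ≤ t := T.one_le_scale_dB hu (ht ▸ hu')
  have h2 : t⁻¹ • lightVec w' = lightVec w := by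
    rw [ht, smul_smul, inv_mul_cancel₀ (by linarith), one_smul]
  have h3 : 1 ≤ t⁻¹ := T.one_le_scale_dB hu' (h2 ▸ hu)
  have h4 : t = 1 := le_antisymm (by rwa [one_le_inv₀ (by linarith)] at h3) h1
  rw [ht, h4, one_smul]

theorem sep {u u' : Mat} (hu : u ∈ T.O) (hu' : u' ∈ T.O) (h : u ≠ u') : 9 / 10 ≤ mink u u' := by
  have hpos := T.mink_pos_of_ne_dB hu hu' h
  have hh := (T.O_posSemidef_dB hu').isHermitian
  have hx : (u + u').PosDef := by
    refine posDef_of_posSemidef ((T.O_posSemidef_dB hu).add (T.O_posSemidef_dB hu')) ?_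
    have h1 := mink_self (u + u')
    have h2 := mink_self u
    have h3 := mink_self u'
    rw [T.O_det_dB hu] at h2
    rw [T.O_det_dB hu'] at h3
    rw [mink_add_left, mink_comm u, mink_comm u', mink_add_left, mink_add_left, mink_comm u' u,
      h2, h3] at h1
    simp only [Complex.zero_re] at h1
    linarith
  have key : ∀ τ : SL2C × Fin 4, τ.1 ∈ T.G → ∀ p, act τ.1 (T.u τ.2 p) = u →
      9 / 10 ≤ mink u u' := by
    intro τ
    induction τ using (T.wf hx).induction with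
    | _ τ ih =>
      intro hτ p hp
      by_cases hb : ∀ a, a ≠ p → 0 ≤ T.be τ u' a
      · have h1 : mink u u' = Lm (T.m τ.2) (T.be τ u') p := by
          rw [← T.mink_comb, ← mink_act τ.1 (T.comb _ _), T.act_comb_be τ hh, hp, mink_comm]
        rw [h1] at hpos ⊢
        refine (T.goodM τ.2).lm_ge_dB hb ?_ hpos (T.one_le_sum hτ hu')
        rw [T.qm_be_dB τ hh, T.O_det_dB hu', Complex.zero_re]
      · obtain ⟨a, ha⟩ := not_forall.1 hb
        obtain ⟨hap, ha'⟩ := Classical.not_imp.1 ha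
        refine ih (T.N τ a) ⟨a, ?_, rfl⟩ (T.N_mem_dB hτ a) (pm τ.2 a p) ?_
        · rw [T.be_add_dB, ← hp, T.be_vertex_dB, Pi.single_eq_of_ne hap, zero_add]
          exact not_le.1 ha'
        · rw [← hp]
          have := T.glue τ.2 a p (Ne.symm hap)
          change act (τ.1 * T.g τ.2 a) (lightVec _) = act τ.1 (lightVec _)
          rw [act_mul, this]
          rfl
  obtain ⟨d, hd, he⟩ := T.exists_base_dB hu
  exact key (d, 0) hd 0 he.symm

theorem free {γ : SL2C} (hγ : γ ∈ T.G) {X : Mat} (hX : X ∈ H3) (h : act γ X = X) : γ = 1 := by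
  obtain ⟨g, hg, i, c, hc, he⟩ := T.cover hX.1
  have hp : (T.comb i c).PosDef := by
    have := posDef_act g⁻¹ hX.1
    rwa [he, act_inv_act] at this
  have := (T.fibre (T.G.mul_mem hγ hg) hg hc hc hp (by rw [act_mul, ← he, h])).2
  exact mul_eq_right.1 (mul_right_cancel this)

/-- The translated tetrahedra whose closed cone contains `X`. -/
def StB (X : Mat) : Set (SL2C × Fin 4) := {τ | τ.1 ∈ T.G ∧ ∀ k, 0 ≤ T.be τ X k}

theorem St_nonempty_dB {X : Mat} (h : X.PosDef) : (T.StB X).Nonempty := by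
  obtain ⟨s, h1, h2, -⟩ := T.descend_dB h (1, 0) T.G.one_mem
  exact ⟨s, h1, h2⟩

theorem St_finite_dB {X : Mat} (h : X.PosDef) : (T.StB X).Finite := by
  obtain ⟨τ, h1, h2⟩ := T.St_nonempty_dB h
  refine (Set.finite_range fun p : Fin 4 × Finset (Fin 4) =>
    (τ.1 * T.h τ.2 (supp (T.be τ X)) * (T.h p.1 p.2)⁻¹, p.1)).subset ?_
  rintro s ⟨h3, h4⟩
  refine ⟨(s.2, supp (T.be s X)), ?_⟩
  simp only
  rw [← (T.fibre_be_dB h h1 h2 s h3 h4).2, mul_inv_cancel_right]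

/-- A neighbourhood of `X` that meets only the cones containing `X`. -/
def WnB (X : Mat) : Set Mat := {Y | ∀ τ ∈ T.StB X, ∀ k, 0 < T.be τ X k → 0 < T.be τ Y k}

theorem isOpen_Wn_dB {X : Mat} (h : X.PosDef) : IsOpen (T.WnB X) := by
  have : T.WnB X = ⋂ τ ∈ T.StB X, ⋂ k, ⋂ _h : 0 < T.be τ X k, {Y | 0 < T.be τ Y k} := by
    ext Y
    simp [WnB]
  rw [this]
  refine (T.St_finite_dB h).isOpen_biInter fun τ _ => isOpen_iInter_of_finite fun k =>
    isOpen_iInter_of_finite fun _ => ?_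
  exact isOpen_lt continuous_const ((continuous_apply k).comp (T.continuous_be τ))

theorem exists_St_of_Wn_dB {X Y : Mat} (hX : X.PosDef) (hY : Y.PosDef) (hW : Y ∈ T.WnB X)
    (τ : SL2C × Fin 4) : τ ∈ T.StB X → ∃ s ∈ T.StB X, ∀ k, 0 ≤ T.be s Y k := by
  induction τ using (T.wf hY).induction with
  | _ τ ih =>
    intro hτ
    by_cases h0 : ∀ k, 0 ≤ T.be τ Y k
    · exact ⟨τ, hτ, h0⟩
    · obtain ⟨a, ha⟩ := not_forall.1 h0
      have ha' := not_le.1 ha
      have hz : T.be τ X a = 0 := by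
        refine ((hτ.2 a).eq_or_lt.resolve_right fun h => ?_).symm
        linarith [hW τ hτ a h]
      refine ih (T.N τ a) ⟨a, ha', rfl⟩ ⟨T.N_mem_dB hτ.1 a, ?_⟩
      rw [T.be_N_zero_dB τ hX.isHermitian hz]
      exact fun k => hτ.2 _

theorem St_subset_dB {X Y : Mat} (hX : X.PosDef) (hY : Y.PosDef) (hW : Y ∈ T.WnB X) :
    T.StB Y ⊆ T.StB X := by
  intro s hs
  have hz : (act s.1 (T.comb s.2 fun _ => 1)).PosDef :=
    posDef_act _ (T.comb_posDef_dB _ fun _ => one_pos)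
  have hc : ContinuousAt (fun e : ℝ => Y + e • act s.1 (T.comb s.2 fun _ => 1)) 0 := by fun_prop
  have h1 : ∀ᶠ e : ℝ in nhds 0, Y + e • act s.1 (T.comb s.2 fun _ => 1) ∈ T.WnB X :=
    hc.eventually ((T.isOpen_Wn_dB hX).mem_nhds (by simpa using hW))
  obtain ⟨e, he, he'⟩ := ((h1.filter_mono (nhdsWithin_le_nhds (s := Set.Ioi 0))).and
    self_mem_nhdsWithin).exists
  have he0 : (0 : ℝ) < e := he'
  have hp : (Y + e • act s.1 (T.comb s.2 fun _ => 1)).PosDef := by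
    refine hY.add ?_
    rw [← act_smul]
    have : e • T.comb s.2 (fun _ => 1) = T.comb s.2 fun _ => e := by
      unfold comb
      rw [smul_sum]
      simp
    rw [this]
    exact posDef_act _ (T.comb_posDef_dB _ fun _ => he0)
  obtain ⟨τ, hτ⟩ := T.St_nonempty_dB hX
  obtain ⟨r, hr, hr'⟩ := T.exists_St_of_Wn_dB hX hp he τ hτ
  have := T.uniq hr.1 hs.1 hp.isHermitian hr' fun k => by
    rw [T.be_add_dB, T.be_smul_dB, T.be_act_comb]
    linarith [hs.2 k]
  rwa [← this]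

theorem propDisc {K : Set Mat} (hK : K ⊆ H3) (hc : IsCompact K) :
    {γ | γ ∈ T.G ∧ (act γ '' K ∩ K).Nonempty}.Finite := by
  obtain ⟨t, ht, hcov⟩ := hc.elim_nhds_subcover T.WnB fun X hX =>
    (T.isOpen_Wn_dB (hK hX).1).mem_nhds fun τ _ k h => h
  have hF : (⋃ X ∈ t, T.StB X).Finite :=
    t.finite_toSet.biUnion fun X hX => T.St_finite_dB (hK (ht X hX)).1
  have hsub : ∀ Y ∈ K, T.StB Y ⊆ ⋃ X ∈ t, T.StB X := by
    intro Y hY s hs
    obtain ⟨X, hX, hW⟩ := Set.mem_iUnion₂.1 (hcov hY)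
    exact Set.mem_iUnion₂.2 ⟨X, hX, T.St_subset_dB (hK (ht X hX)).1 (hK hY).1 hW hs⟩
  refine ((hF.prod hF).image fun p => p.2.1 * p.1.1⁻¹).subset ?_
  rintro γ ⟨hγ, Y', ⟨Y, hY, rfl⟩, hY'⟩
  obtain ⟨τ, hτ⟩ := T.St_nonempty_dB (hK hY).1
  refine ⟨(τ, (γ * τ.1, τ.2)), ⟨hsub Y hY hτ, hsub _ hY' ⟨T.G.mul_mem hγ hτ.1, ?_⟩⟩, ?_⟩
  · rw [T.be_shift_dB]
    exact hτ.2
  · simp

theorem horo_disj {u u' : Mat} (hu : u ∈ T.O) (hu' : u' ∈ T.O) {X : Mat} (hX : X ∈ H3)
    (h1 : mink X u ≤ 1 / 4) (h2 : mink X u' ≤ 1 / 4) : u = u' := by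
  by_contra h
  have h3 := T.sep hu hu' h
  have h4 := mink_nonneg hX.1.posSemidef (T.O_posSemidef_dB hu)
  have h5 := mink_nonneg hX.1.posSemidef (T.O_posSemidef_dB hu')
  obtain ⟨w, -, rfl⟩ := exists_lightVec e1_ne hu
  obtain ⟨w', -, rfl⟩ := exists_lightVec e1_ne hu'
  have h6 := mink_le_mul hX w w'
  nlinarith

/-- A horoball centred off the vertices of a tetrahedron stays away from it. -/
theorem far {i : Fin 4} {c : Fin 4 → ℝ} (hc : ∀ k, 0 ≤ c k) (hq : Qm (T.m i) c = 1) {u : Mat}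
    (hu : u ∈ T.O) (hne : ∀ k, u ≠ T.u i k) : 1 / 4 < mink (T.comb i c) u := by
  have h1 : ∑ k, c k * (9 / 10) ≤ mink (T.comb i c) u := by
    unfold comb
    rw [mink_sum_left]
    refine sum_le_sum fun k _ => ?_
    rw [mink_smul_left]
    exact mul_le_mul_of_nonneg_left (T.sep (T.u_mem i k) hu (hne k).symm) (hc k)
  rw [← sum_mul] at h1
  have h2 := (T.goodM i).qm_le_dB hc
  have h3 : 0 ≤ ∑ k, c k := sum_nonneg fun k _ => hc k
  have h4 : 1 / 2 < ∑ k, c k := by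
    by_contra h
    nlinarith
  linarith

end Tri

end Pool.Agent.Lib.MP_a11aea_gt
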