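import Pool.Agent.Lib.MP_a11aea_gt.H36Lin

/-! The quotient is Hausdorff, and proper homotopies preserve the pairing of the end horospheres. -/

namespace Pool.Agent.Lib.MP_a11aea_gt

open Matrix
open scoped ComplexOrder unitInterval

theorem coreRel_equivalence (Γ : Subgroup SL2C) (v : Fin 2 → ℂ) (s : ℝ) :
    Equivalence fun X Y : core Γ v s => ∃ γ ∈ Γ, act γ X.1 = Y.1 where
  refl X := ⟨1, Γ.one_mem, act_one _⟩
  symm := by
    rintro X Y ⟨γ, hγ, h⟩
    exact ⟨γ⁻¹, Γ.inv_mem hγ, by rw [← h, act_inv_act]⟩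
  trans := by
    rintro X Y Z ⟨γ, hγ, h⟩ ⟨δ, hδ, h'⟩
    exact ⟨δ * γ, Γ.mul_mem hδ hγ, by rw [act_mul, h, h']⟩

theorem proj_eq_iff {Γ : Subgroup SL2C} {v : Fin 2 → ℂ} {s : ℝ} (X Y : core Γ v s) :
    proj Γ v s X = proj Γ v s Y ↔ ∃ γ ∈ Γ, act γ X.1 = Y.1 :=
  Quot.eq.trans (coreRel_equivalence Γ v s).eqvGen_iff

/-- The action of the group on the complement of the horoballs. -/
@[reducible] noncomputable def coreAction (Γ : Subgroup SL2C) (v : Fin 2 → ℂ) (s : ℝ) :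
    MulAction Γ (core Γ v s) where
  smul γ X := ⟨act γ.1 X.1, act_mem_core γ.2 X.2⟩
  one_smul X := Subtype.ext (act_one X.1)
  mul_smul γ δ X := Subtype.ext (act_mul γ.1 δ.1 X.1)

attribute [local instance] coreAction

theorem coreAction_val {Γ : Subgroup SL2C} {v : Fin 2 → ℂ} {s : ℝ} (γ : Γ) (X : core Γ v s) :
    (γ • X).1 = act γ.1 X.1 := rfl

theorem core_constSMul (Γ : Subgroup SL2C) (v : Fin 2 → ℂ) (s : ℝ) :
    ContinuousConstSMul Γ (core Γ v s) :=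
  ⟨fun γ => ((continuous_act γ.1).comp continuous_subtype_val).subtype_mk _⟩

theorem core_locallyCompact (Γ : Subgroup SL2C) (v : Fin 2 → ℂ) (s : ℝ) :
    LocallyCompactSpace (core Γ v s) := by
  have : LocallyCompactSpace Mat := inferInstanceAs (LocallyCompactSpace (Fin 2 → Fin 2 → ℂ))
  exact (isClosed_core Γ v s).locallyCompactSpace

theorem core_propDisc {Γ : Subgroup SL2C} {v : Fin 2 → ℂ} {s : ℝ}
    (hpd : ∀ K ⊆ H3, IsCompact K → {γ | γ ∈ Γ ∧ (act γ '' K ∩ K).Nonempty}.Finite) :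
    ProperlyDiscontinuousSMul Γ (core Γ v s) := by
  refine ⟨fun {K L} hK hL => ?_⟩
  have hc : IsCompact (Subtype.val '' (K ∪ L) : Set Mat) :=
    (hK.union hL).image continuous_subtype_val
  have hf := hpd _ (by rintro _ ⟨X, -, rfl⟩; exact X.2.1) hc
  refine (hf.preimage (f := fun γ : Γ => γ.1) Subtype.val_injective.injOn).subset ?_
  rintro γ ⟨_, ⟨X, hX, rfl⟩, hY⟩
  exact ⟨γ.2, act γ.1 X.1, ⟨X.1, ⟨X, Or.inl hX, rfl⟩, rfl⟩, ⟨γ • X, Or.inr hY, rfl⟩⟩

theorem proj_eq_iff_orbit {Γ : Subgroup SL2C} {v : Fin 2 → ℂ} {s : ℝ} {X Y : core Γ v s} :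
    proj Γ v s X = proj Γ v s Y ↔ X ∈ MulAction.orbit Γ Y := by
  rw [eq_comm, proj_eq_iff]
  constructor
  · rintro ⟨γ, hγ, h⟩
    exact ⟨⟨γ, hγ⟩, Subtype.ext h⟩
  · rintro ⟨γ, h⟩
    exact ⟨γ.1, γ.2, congrArg Subtype.val h⟩

theorem mbar_t2 {Γ : Subgroup SL2C} {v : Fin 2 → ℂ} {s : ℝ}
    (hpd : ∀ K ⊆ H3, IsCompact K → {γ | γ ∈ Γ ∧ (act γ '' K ∩ K).Nonempty}.Finite) :
    T2Space (Mbar Γ v s) := by
  have := core_constSMul Γ v s
  have := core_locallyCompact Γ v s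
  have := core_propDisc (v := v) (s := s) hpd
  have hw : ∀ X Y : core Γ v s, (∃ γ ∈ Γ, act γ X.1 = Y.1) →
      Quotient.mk (MulAction.orbitRel Γ (core Γ v s)) X =
        Quotient.mk (MulAction.orbitRel Γ (core Γ v s)) Y := fun X Y h =>
    Quotient.sound (proj_eq_iff_orbit.1 ((proj_eq_iff X Y).2 h))
  refine T2Space.of_injective_continuous
    (f := Quot.lift (Quotient.mk (MulAction.orbitRel Γ (core Γ v s))) hw) ?_
    (continuous_quot_lift hw continuous_quot_mk)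
  rintro ⟨X⟩ ⟨Y⟩ h
  exact proj_eq_iff_orbit.2 (Quotient.exact h)

theorem proj_isCoveringMap {Γ : Subgroup SL2C} {v : Fin 2 → ℂ} {s : ℝ}
    (hfree : ∀ γ ∈ Γ, ∀ X ∈ H3, act γ X = X → γ = 1)
    (hpd : ∀ K ⊆ H3, IsCompact K → {γ | γ ∈ Γ ∧ (act γ '' K ∩ K).Nonempty}.Finite) :
    IsCoveringMap (proj Γ v s) := by
  have := core_constSMul Γ v s
  have := core_locallyCompact Γ v s
  have := core_propDisc (v := v) (s := s) hpd
  have : IsCancelSMul Γ (core Γ v s) :=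
    isCancelSMul_iff_eq_one_of_smul_eq.2 fun γ X h =>
      Subtype.ext (hfree γ.1 γ.2 X.1 X.2.1 (congrArg Subtype.val h))
  have hq : Topology.IsQuotientMap (proj Γ v s) := isQuotientMap_quot_mk
  exact (hq.isQuotientCoveringMap_of_properlyDiscontinuousSMul (G := Γ)
    proj_eq_iff_orbit).isCoveringMap

theorem exists_horosphere_of_bdry {Γ : Subgroup SL2C} {v : Fin 2 → ℂ} {s : ℝ} {X : core Γ v s}
    (h : proj Γ v s X ∈ bdry Γ v s) : ∃ u ∈ cuspOrbit Γ v, mink X.1 u = s := by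
  obtain ⟨Y, hY, u, hu, hYu⟩ := h
  obtain ⟨γ, hγ, e⟩ := (proj_eq_iff Y X).1 hY.symm
  exact ⟨act γ u, act_mem_cuspOrbit hγ hu, by rw [← e, mink_act]; exact hYu.2⟩

/-- A point of a horosphere is far from the other centres. -/
theorem eq_of_mink_lt {Γ : Subgroup SL2C} {v : Fin 2 → ℂ} {s c : ℝ} (hv : v ≠ 0) (hs : 0 < s)
    (hsep : ∀ u ∈ cuspOrbit Γ v, ∀ u' ∈ cuspOrbit Γ v, u ≠ u' → c ≤ mink u u')
    {X u w : Mat} (hX : X ∈ H3) (hu : u ∈ cuspOrbit Γ v) (hw : w ∈ cuspOrbit Γ v)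
    (h1 : mink X u = s) (h2 : mink X w < c / s) : u = w := by
  by_contra hne
  have h3 := hsep u hu w hw hne
  obtain ⟨a, -, rfl⟩ := exists_lightVec hv hu
  obtain ⟨b, -, rfl⟩ := exists_lightVec hv hw
  have h4 := mink_le_mul hX a b
  rw [h1] at h4
  rw [lt_div_iff₀ hs] at h2
  linarith

/-- A path over the boundary stays on one horosphere. -/
theorem stay_horosphere {Γ : Subgroup SL2C} {v : Fin 2 → ℂ} {s c : ℝ} (hv : v ≠ 0) (hs : 0 < s)
    (hc : s ^ 2 < c)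
    (hsep : ∀ u ∈ cuspOrbit Γ v, ∀ u' ∈ cuspOrbit Γ v, u ≠ u' → c ≤ mink u u')
    (P : I → core Γ v s) (hP : Continuous P) (hb : ∀ r, proj Γ v s (P r) ∈ bdry Γ v s)
    {w : Mat} (hw : w ∈ cuspOrbit Γ v) (h0 : mink (P 0).1 w = s) (r : I) :
    mink (P r).1 w = s := by
  have hcont : Continuous fun r => mink (P r).1 w :=
    continuous_mink.comp ((continuous_subtype_val.comp hP).prodMk continuous_const)
  have hlt : s < c / s := by rw [lt_div_iff₀ hs]; nlinarith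
  have heq : {r | mink (P r).1 w = s} = {r | mink (P r).1 w < c / s} := by
    ext r
    constructor
    · intro h
      exact lt_of_eq_of_lt h hlt
    · intro h
      obtain ⟨u, hu, e⟩ := exists_horosphere_of_bdry (hb r)
      have := eq_of_mink_lt hv hs hsep (P r).2.1 hu hw e h
      rw [← this]
      exact e
  have hclo : IsClopen {r | mink (P r).1 w = s} :=
    ⟨isClosed_eq hcont continuous_const, heq ▸ isOpen_lt hcont continuous_const⟩
  have := hclo.eq_univ ⟨0, h0⟩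
  exact (this ▸ Set.mem_univ r : r ∈ {r | mink (P r).1 w = s})

theorem lift_half {Γ : Subgroup SL2C} {v : Fin 2 → ℂ} {s c : ℝ} (hv : v ≠ 0) (hs : 0 < s)
    (hc : s ^ 2 < c) (cov : IsCoveringMap (proj Γ v s))
    (hsep : ∀ u ∈ cuspOrbit Γ v, ∀ u' ∈ cuspOrbit Γ v, u ≠ u' → c ≤ mink u u')
    (τ : C(I, Mbar Γ v s)) (β α : C(I, core Γ v s)) (hβ : ∀ t, τ t = proj Γ v s (β t))
    (h1 : ProperHomotopic (bdry Γ v s) τ ((proj Γ v s).comp α))
    {a0 a1 w0 w1 : Mat} (ha0 : a0 ∈ cuspOrbit Γ v) (ha1 : a1 ∈ cuspOrbit Γ v)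
    (hw0 : w0 ∈ cuspOrbit Γ v) (hw1 : w1 ∈ cuspOrbit Γ v)
    (e0 : mink (α 0).1 a0 = s) (e1 : mink (α 1).1 a1 = s)
    (f0 : mink (β 0).1 w0 = s) (f1 : mink (β 1).1 w1 = s) :
    mink a0 a1 = mink w0 w1 := by
  obtain ⟨H, H0, H1, Hb⟩ := h1
  have hH0 : ∀ t, H (0, t) = proj Γ v s (β t) := fun t => (H0 t).trans (hβ t)
  set L := cov.liftHomotopy H β hH0 with hL
  have hLl : ∀ x, proj Γ v s (L x) = H x := fun x =>
    congrFun (cov.liftHomotopy_lifts H β hH0) x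
  have hL0 : ∀ t, L (0, t) = β t := cov.liftHomotopy_zero H β hH0
  have hlt : s < c / s := by rw [lt_div_iff₀ hs]; nlinarith
  have g0 : mink (L (1, 0)).1 w0 = s :=
    stay_horosphere hv hs hc hsep (fun r => L (r, 0)) (by fun_prop)
      (fun r => by rw [hLl]; exact (Hb r).1) hw0 (by simpa only [hL0] using f0) 1
  have g1 : mink (L (1, 1)).1 w1 = s :=
    stay_horosphere hv hs hc hsep (fun r => L (r, 1)) (by fun_prop)
      (fun r => by rw [hLl]; exact (Hb r).2) hw1 (by simpa only [hL0] using f1) 1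
  have hp : ∀ t, proj Γ v s (α t) = proj Γ v s (L (1, t)) := fun t => by
    rw [hLl, H1]; rfl
  obtain ⟨γ, hγ, eγ⟩ := (proj_eq_iff _ _).1 (hp 0)
  have := core_constSMul Γ v s
  have huniq : (fun t => (⟨γ, hγ⟩ : Γ) • α t) = fun t => L (1, t) := by
    refine cov.eq_of_comp_eq (by fun_prop) (by fun_prop) ?_ 0 (Subtype.ext eγ)
    funext t
    simp only [Function.comp]
    rw [← hp t]
    exact proj_eq_iff_orbit.2 ⟨⟨γ, hγ⟩, rfl⟩
  have hval : ∀ t, (L (1, t)).1 = act γ (α t).1 := fun t =>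
    (congrArg Subtype.val (congrFun huniq t)).symm
  have k0 : act γ a0 = w0 :=
    eq_of_mink_lt hv hs hsep (L (1, 0)).2.1 (act_mem_cuspOrbit hγ ha0) hw0
      (by rw [hval, mink_act]; exact e0) (lt_of_eq_of_lt g0 hlt)
  have k1 : act γ a1 = w1 :=
    eq_of_mink_lt hv hs hsep (L (1, 1)).2.1 (act_mem_cuspOrbit hγ ha1) hw1
      (by rw [hval, mink_act]; exact e1) (lt_of_eq_of_lt g1 hlt)
  rw [← k0, ← k1, mink_act]

theorem lift_inv {Γ : Subgroup SL2C} {v : Fin 2 → ℂ} {s c : ℝ} (hv : v ≠ 0) (hs : 0 < s)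
    (hc : s ^ 2 < c) (hfree : ∀ γ ∈ Γ, ∀ X ∈ H3, act γ X = X → γ = 1)
    (hpd : ∀ K ⊆ H3, IsCompact K → {γ | γ ∈ Γ ∧ (act γ '' K ∩ K).Nonempty}.Finite)
    (hsep : ∀ u ∈ cuspOrbit Γ v, ∀ u' ∈ cuspOrbit Γ v, u ≠ u' → c ≤ mink u u')
    (τ : C(I, Mbar Γ v s)) (α η : C(I, core Γ v s))
    (h1 : ProperHomotopic (bdry Γ v s) τ ((proj Γ v s).comp α))
    (h2 : ProperHomotopic (bdry Γ v s) τ ((proj Γ v s).comp η))
    {a0 a1 b0 b1 : Mat} (ha0 : a0 ∈ cuspOrbit Γ v) (ha1 : a1 ∈ cuspOrbit Γ v)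
    (hb0 : b0 ∈ cuspOrbit Γ v) (hb1 : b1 ∈ cuspOrbit Γ v)
    (e0 : (α 0).1 ∈ horosphere s a0) (e1 : (α 1).1 ∈ horosphere s a1)
    (f0 : (η 0).1 ∈ horosphere s b0) (f1 : (η 1).1 ∈ horosphere s b1) :
    mink a0 a1 = mink b0 b1 := by
  have cov : IsCoveringMap (proj Γ v s) := proj_isCoveringMap hfree hpd
  obtain ⟨X0, hX0⟩ : ∃ X, τ 0 = proj Γ v s X := by
    obtain ⟨X, hX⟩ := Quot.mk_surjective (τ 0)
    exact ⟨X, hX.symm⟩
  obtain ⟨β, hβ, -⟩ := cov.exists_path_lifts τ X0 hX0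
  have hβ' : ∀ t, τ t = proj Γ v s (β t) := fun t => (congrFun hβ t).symm
  have hb : τ 0 ∈ bdry Γ v s ∧ τ 1 ∈ bdry Γ v s := by
    obtain ⟨H, H0, -, Hb⟩ := h1
    rw [← H0, ← H0]
    exact Hb 0
  obtain ⟨w0, hw0, g0⟩ := exists_horosphere_of_bdry (hβ' 0 ▸ hb.1)
  obtain ⟨w1, hw1, g1⟩ := exists_horosphere_of_bdry (hβ' 1 ▸ hb.2)
  rw [lift_half hv hs hc cov hsep τ β α hβ' h1 ha0 ha1 hw0 hw1 e0.2 e1.2 g0 g1,
    lift_half hv hs hc cov hsep τ β η hβ' h2 hb0 hb1 hw0 hw1 f0.2 f1.2 g0 g1]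

theorem isCompact_handlebody (g : ℕ) : IsCompact (Handlebody g) := by
  have hcl : IsClosed (Handlebody g) := by
    have : Handlebody g = {p : ℝ × ℝ × ℝ | 0 ≤ p.1} ∩ ({p | p.1 ≤ 2 * g + 1} ∩ ({p | 0 ≤ p.2.1} ∩
        ({p | p.2.1 ≤ 3} ∩ ({p | 0 ≤ p.2.2} ∩ ({p | p.2.2 ≤ 1} ∩ ⋂ k : ℕ, ⋂ _ : k < g,
          ({p : ℝ × ℝ × ℝ | 2 * k + 1 < p.1} ∩ ({p | p.1 < 2 * k + 2} ∩
            ({p | 1 < p.2.1} ∩ {p | p.2.1 < 2})))ᶜ))))) := by
      ext p
      simp only [Handlebody, Set.mem_ofPred_eq, Set.mem_inter_iff, Set.mem_iInter,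
        Set.mem_compl_iff]
    rw [this]
    refine (isClosed_le (by fun_prop) (by fun_prop)).inter
      ((isClosed_le (by fun_prop) (by fun_prop)).inter
      ((isClosed_le (by fun_prop) (by fun_prop)).inter
      ((isClosed_le (by fun_prop) (by fun_prop)).inter
      ((isClosed_le (by fun_prop) (by fun_prop)).inter
      ((isClosed_le (by fun_prop) (by fun_prop)).inter
      (isClosed_iInter fun k => isClosed_iInter fun _ => IsOpen.isClosed_compl ?_))))))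
    exact (isOpen_lt (by fun_prop) (by fun_prop)).inter
      ((isOpen_lt (by fun_prop) (by fun_prop)).inter
      ((isOpen_lt (by fun_prop) (by fun_prop)).inter (isOpen_lt (by fun_prop) (by fun_prop))))
  refine (isCompact_Icc (a := ((0, 0, 0) : ℝ × ℝ × ℝ)) (b := (2 * g + 1, 3, 1))).of_isClosed_subset
    hcl ?_
  rintro p ⟨h1, h2, h3, h4, h5, h6, -⟩
  exact ⟨⟨h1, h3, h5⟩, h2, h4, h6⟩

/-- Convex combination in the unit interval. -/
def ccI (r a b : I) : I :=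
  ⟨(1 - r) * a + r * b, by
    have := r.2.1; have := r.2.2; have := a.2.1; have := a.2.2; have := b.2.1; have := b.2.2
    constructor <;> nlinarith⟩

theorem continuous_ccI {X : Type} [TopologicalSpace X] {r a b : X → I} (hr : Continuous r)
    (ha : Continuous a) (hb : Continuous b) : Continuous fun x => ccI (r x) (a x) (b x) := by
  refine Continuous.subtype_mk ?_ _
  fun_prop

theorem ccI_zero (a b : I) : ccI 0 a b = a := by ext; simp [ccI]

theorem ccI_one (a b : I) : ccI 1 a b = b := by ext; simp [ccI]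

theorem ccI_self (r a : I) : ccI r a a = a := by ext; simp only [ccI]; ring

/-- From a model of the splitting in a Hausdorff space to a tunnel homotopic to a given arc. -/
theorem tunnel_of_model {M Z : Type} [TopologicalSpace M] [CompactSpace M] [TopologicalSpace Z]
    [T2Space Z] (bd : Set M) (e : M → Z) (he : Continuous e) (hei : Function.Injective e)
    (n : I × I × I → Z) (hn : Continuous n) (hni : Function.Injective n)
    (h : Handlebody 2 → Z) (hh : Continuous h) (hhi : Function.Injective h)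
    (hr : Set.range e = Set.range n ∪ Set.range h)
    (hS : ∀ p, n p ∈ Set.range h ↔ p ∉ inner3)
    (hb : ∀ p, n p ∈ e '' bd ↔ p.1 = 0 ∨ p.1 = 1)
    (α : C(I, M)) (hα : ∀ t, e (α t) ∈ Set.range n)
    (h0 : ∃ p, p.1 = 0 ∧ e (α 0) = n p) (h1 : ∃ p, p.1 = 1 ∧ e (α 1) = n p) :
    ∃ τ : C(I, M), IsTunnel bd τ ∧ ProperHomotopic bd τ α := by
  have : CompactSpace (Handlebody 2) := isCompact_iff_compactSpace.1 (isCompact_handlebody 2)
  have ee := he.isClosedEmbedding hei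
  have en := hn.isClosedEmbedding hni
  have eh := hh.isClosedEmbedding hhi
  have x1 : ∀ p, ∃ x, e x = n p := fun p => by
    have : n p ∈ Set.range e := hr ▸ Or.inl ⟨p, rfl⟩
    exact this
  have x2 : ∀ q, ∃ x, e x = h q := fun q => by
    have : h q ∈ Set.range e := hr ▸ Or.inr ⟨q, rfl⟩
    exact this
  choose N hN using x1
  choose G hG using x2
  choose β hβ using hα
  have cN : Continuous N := ee.isInducing.continuous_iff.2 (by
    rw [show e ∘ N = n from funext hN]; exact hn)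
  have cG : Continuous G := ee.isInducing.continuous_iff.2 (by
    rw [show e ∘ G = h from funext hG]; exact hh)
  have cβ : Continuous β := en.isInducing.continuous_iff.2 (by
    rw [show n ∘ β = e ∘ α from funext hβ]; exact he.comp α.continuous)
  have eN : Topology.IsEmbedding N := Topology.IsEmbedding.of_comp cN he (by
    rw [show e ∘ N = n from funext hN]; exact en.isEmbedding)
  have eG : Topology.IsEmbedding G := Topology.IsEmbedding.of_comp cG he (by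
    rw [show e ∘ G = h from funext hG]; exact eh.isEmbedding)
  have hbN : ∀ p, N p ∈ bd ↔ p.1 = 0 ∨ p.1 = 1 := fun p => by
    rw [← hb, ← hN, hei.mem_set_image]
  have hcompl : Set.range G = (N '' inner3)ᶜ := by
    ext x
    constructor
    · rintro ⟨q, rfl⟩ ⟨p, hp, e'⟩
      exact (hS p).1 ⟨q, by rw [← hG, ← hN, e']⟩ hp
    · intro hx
      have hx' : e x ∈ Set.range h := by
        have : e x ∈ Set.range n ∪ Set.range h := hr ▸ ⟨x, rfl⟩
        rcases this with ⟨p, hp⟩ | hq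
        · rw [← hp]
          exact (hS p).2 fun hi => hx ⟨p, hi, hei (by rw [hN, hp])⟩
        · exact hq
      obtain ⟨q, hq⟩ := hx'
      exact ⟨q, hei (by rw [hG, hq])⟩
  have hopen : IsOpen (N '' inner3) := by
    rw [← isClosed_compl_iff, ← hcompl]
    have : Set.range G = e ⁻¹' Set.range h := by
      ext x
      constructor
      · rintro ⟨q, rfl⟩
        exact ⟨q, (hG q).symm⟩
      · rintro ⟨q, hq⟩
        exact ⟨q, hei (by rw [hG, hq])⟩
    rw [this]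
    exact eh.isClosed_range.preimage he
  have hβ0 : (β 0).1 = 0 := by
    obtain ⟨p, hp, e'⟩ := h0
    rw [hni ((hβ 0).trans e'), hp]
  have hβ1 : (β 1).1 = 1 := by
    obtain ⟨p, hp, e'⟩ := h1
    rw [hni ((hβ 1).trans e'), hp]
  refine ⟨⟨fun t => N (t, half, half), cN.comp (by fun_prop)⟩,
    ⟨N, eN, fun _ => rfl, hbN, hopen, 2,
      ⟨((Homeomorph.setCongr hcompl).symm).trans eG.toHomeomorph.symm⟩⟩,
    ⟨fun x => N (ccI x.1 x.2 (β x.2).1, ccI x.1 half (β x.2).2.1, ccI x.1 half (β x.2).2.2),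
      cN.comp ?_⟩, fun t => ?_, fun t => ?_, fun r => ⟨?_, ?_⟩⟩
  · exact (continuous_ccI (by fun_prop) (by fun_prop) (by fun_prop)).prodMk
      ((continuous_ccI (by fun_prop) (by fun_prop) (by fun_prop)).prodMk
        (continuous_ccI (by fun_prop) (by fun_prop) (by fun_prop)))
  · simp only [ContinuousMap.coe_mk, ccI_zero]
  · simp only [ContinuousMap.coe_mk, ccI_one]
    exact hei (by rw [hN, hβ])
  · simp only [ContinuousMap.coe_mk]
    rw [hbN, hβ0, ccI_self]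
    exact Or.inl rfl
  · simp only [ContinuousMap.coe_mk]
    rw [hbN, hβ1, ccI_self]
    exact Or.inr rfl

end Pool.Agent.Lib.MP_a11aea_gt
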