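import Pool.Agent.Lib.MP_a11aea_gt.H36Tri

/-! The radial homeomorphism from the flat truncated simplex to the horospherical one. -/

namespace Pool.Agent.Lib.MP_a11aea_gt

open Finset

noncomputable def radK (m : Fin 4 → Fin 4 → ℝ) (t : Fin 4 → ℝ) (k : Fin 4) : ℝ :=
  (Lm m t k ^ 2 - (1 / 16) * (Qm m t - t k * Lm m t k)) / ((1 / 16) * Lm m t k * (1 - t k))

noncomputable def radC (m : Fin 4 → Fin 4 → ℝ) (t : Fin 4 → ℝ) (k : Fin 4) : ℝ :=
  t k + max (2 * t k - 1) 0 * (radK m t k - 3) / 2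

noncomputable def rad (m : Fin 4 → Fin 4 → ℝ) (t : Fin 4 → ℝ) : Fin 4 → ℝ :=
  fun k => radC m t k / Real.sqrt (Qm m (radC m t))

section Aux

variable {m : Fin 4 → Fin 4 → ℝ} {t x y : Fin 4 → ℝ}

theorem rad_m_nonneg (hm : GoodM m) (j k : Fin 4) : 0 ≤ m j k := by
  by_cases h : j = k
  · rw [h, hm.diag]
  · linarith [hm.ge j k h]

theorem rad_Lm_smul (m : Fin 4 → Fin 4 → ℝ) (a : ℝ) (x : Fin 4 → ℝ) (k : Fin 4) :
    Lm m (fun j => a * x j) k = a * Lm m x k := by
  simp only [Lm, Fin.sum_univ_four]; ring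

theorem rad_Qm_smul (m : Fin 4 → Fin 4 → ℝ) (a : ℝ) (x : Fin 4 → ℝ) :
    Qm m (fun j => a * x j) = a ^ 2 * Qm m x := by
  simp only [Qm, Fin.sum_univ_four]; ring

theorem rad_Lm_update (hm : GoodM m) (x : Fin 4 → ℝ) (k : Fin 4) (a : ℝ) :
    Lm m (Function.update x k a) k = Lm m x k := by
  refine Finset.sum_congr rfl fun j _ => ?_
  by_cases h : j = k
  · rw [h, hm.diag, zero_mul, zero_mul]
  · rw [Function.update_of_ne h]

theorem rad_Qm_update (hm : GoodM m) (x : Fin 4 → ℝ) (k : Fin 4) (a : ℝ) :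
    Qm m (Function.update x k a) = Qm m x + (a - x k) * Lm m x k := by
  have h1 := hm.symm 1 0
  have h2 := hm.symm 2 0
  have h3 := hm.symm 3 0
  have h4 := hm.symm 2 1
  have h5 := hm.symm 3 1
  have h6 := hm.symm 3 2
  fin_cases k <;> simp [Qm, Lm, Fin.sum_univ_four, hm.diag, h1, h2, h3, h4, h5, h6] <;> ring

theorem rad_sum_update (x : Fin 4 → ℝ) (k : Fin 4) (a : ℝ) :
    ∑ j, Function.update x k a j = ∑ j, x j + (a - x k) := by
  fin_cases k <;> simp [Fin.sum_univ_four] <;> ring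

theorem rad_Lm_ge (hm : GoodM m) (hx : ∀ j, 0 ≤ x j) (k : Fin 4) :
    9 / 10 * (∑ j, x j - x k) ≤ Lm m x k := by
  have h : ∑ j, x j - x k = ∑ j, Function.update x k 0 j := by rw [rad_sum_update]; ring
  rw [h, ← rad_Lm_update hm x k 0, Finset.mul_sum]
  refine Finset.sum_le_sum fun j _ => ?_
  by_cases hj : j = k
  · simp [hj]
  · rw [Function.update_of_ne hj]
    exact mul_le_mul_of_nonneg_right (hm.ge k j (Ne.symm hj)) (hx j)

theorem rad_Lm_le (hm : GoodM m) (hx : ∀ j, 0 ≤ x j) (k : Fin 4) :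
    Lm m x k ≤ 3 * (∑ j, x j - x k) := by
  have h : ∑ j, x j - x k = ∑ j, Function.update x k 0 j := by rw [rad_sum_update]; ring
  rw [h, ← rad_Lm_update hm x k 0, Finset.mul_sum]
  refine Finset.sum_le_sum fun j _ => ?_
  by_cases hj : j = k
  · simp [hj]
  · rw [Function.update_of_ne hj]
    exact mul_le_mul_of_nonneg_right (hm.le k j) (hx j)

theorem rad_Qm_nonneg (hm : GoodM m) (hx : ∀ j, 0 ≤ x j) : 0 ≤ Qm m x :=
  mul_nonneg (by norm_num) (Finset.sum_nonneg fun j _ => Finset.sum_nonneg fun k _ =>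
    mul_nonneg (mul_nonneg (rad_m_nonneg hm j k) (hx j)) (hx k))

theorem rad_Qm_le (hm : GoodM m) (hx : ∀ j, 0 ≤ x j) : Qm m x ≤ 3 / 2 * (∑ j, x j) ^ 2 := by
  have h : ∑ j, ∑ k, m j k * x j * x k ≤ ∑ j, ∑ k, 3 * x j * x k :=
    Finset.sum_le_sum fun j _ => Finset.sum_le_sum fun k _ =>
      mul_le_mul_of_nonneg_right (mul_le_mul_of_nonneg_right (hm.le j k) (hx j)) (hx k)
  have h' : ∑ j, ∑ k, 3 * x j * x k = 3 * (∑ j, x j) ^ 2 := by
    simp only [Fin.sum_univ_four]; ring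
  rw [Qm]
  linarith

theorem rad_update_nonneg (hx : ∀ j, 0 ≤ x j) (k j : Fin 4) : 0 ≤ Function.update x k 0 j := by
  by_cases hj : j = k
  · simp [hj]
  · rw [Function.update_of_ne hj]; exact hx j

theorem rad_q_mem (hm : GoodM m) (hx : ∀ j, 0 ≤ x j) (k : Fin 4) :
    0 ≤ Qm m x - x k * Lm m x k ∧ Qm m x - x k * Lm m x k ≤ 3 / 2 * (∑ j, x j - x k) ^ 2 := by
  have h1 := rad_Qm_nonneg hm (rad_update_nonneg hx k)
  have h2 := rad_Qm_le hm (rad_update_nonneg hx k)
  rw [rad_Qm_update hm] at h1 h2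
  rw [rad_sum_update] at h2
  constructor <;> nlinarith

theorem rad_add_le (hx : ∀ j, 0 ≤ x j) {j k : Fin 4} (h : j ≠ k) : x j + x k ≤ ∑ i, x i := by
  rw [← Finset.sum_pair h]
  exact Finset.sum_le_sum_of_subset_of_nonneg (Finset.subset_univ _) fun i _ _ => hx i

/-- The homogeneous form of `radK`. -/
noncomputable def radH (m : Fin 4 → Fin 4 → ℝ) (x : Fin 4 → ℝ) (k : Fin 4) : ℝ :=
  (16 * Lm m x k ^ 2 - (Qm m x - x k * Lm m x k)) / (Lm m x k * (∑ j, x j - x k))

theorem radK_eq (ht : ∑ j, t j = 1) (k : Fin 4) : radK m t k = radH m t k := by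
  rw [radK, radH, ht, ← mul_div_mul_left _ _ (show (16 : ℝ) ≠ 0 by norm_num)]
  congr 1 <;> ring

theorem radH_ge (hm : GoodM m) (hx : ∀ j, 0 ≤ x j) {k : Fin 4} (hk : 0 < ∑ j, x j - x k) :
    3 < radH m x k := by
  have h1 := rad_Lm_ge hm hx k
  have h2 := (rad_q_mem hm hx k).2
  have hL : 0 < Lm m x k := by linarith
  rw [radH, lt_div_iff₀ (mul_pos hL hk)]
  nlinarith

theorem radH_mul (hm : GoodM m) (hx : ∀ j, 0 ≤ x j) {k : Fin 4} (hk : 0 < ∑ j, x j - x k) :
    radH m x k * (Lm m x k * (∑ j, x j - x k)) =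
      16 * Lm m x k ^ 2 - (Qm m x - x k * Lm m x k) := by
  have h1 := rad_Lm_ge hm hx k
  have hL : 0 < Lm m x k := by linarith
  rw [radH, div_mul_cancel₀ _ (mul_pos hL hk).ne']

theorem rad_sum_scale {k : Fin 4} {a : ℝ} (h : ∀ j, j ≠ k → y j = a * x j) :
    ∑ j, y j - y k = a * (∑ j, x j - x k) := by
  have e : y = Function.update (fun j => a * x j) k (y k) := by
    funext j
    by_cases hj : j = k
    · simp [hj]
    · rw [Function.update_of_ne hj, h j hj]
  have h1 := rad_sum_update (fun j => a * x j) k (y k)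
  rw [← e, ← Finset.mul_sum] at h1
  rw [h1]; ring

theorem radH_scale (hm : GoodM m) {k : Fin 4} {a : ℝ} (ha : a ≠ 0)
    (h : ∀ j, j ≠ k → y j = a * x j) : radH m y k = radH m x k := by
  have e : y = Function.update (fun j => a * x j) k (y k) := by
    funext j
    by_cases hj : j = k
    · simp [hj]
    · rw [Function.update_of_ne hj, h j hj]
  have h1 := rad_Lm_update hm (fun j => a * x j) k (y k)
  have h2 := rad_Qm_update hm (fun j => a * x j) k (y k)
  rw [← e, rad_Lm_smul] at h1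
  rw [← e, rad_Lm_smul, rad_Qm_smul] at h2
  rw [radH, radH, rad_sum_scale h, h1, h2,
    ← mul_div_mul_left _ (Lm m x k * (∑ j, x j - x k)) (pow_ne_zero 2 ha)]
  congr 1 <;> ring

theorem rad_rest_pos (ht : t ∈ Trunc) (k : Fin 4) : 0 < ∑ j, t j - t k := by
  linarith [ht.2.1, ht.2.2 k]

theorem radK_gt (hm : GoodM m) (ht : t ∈ Trunc) (k : Fin 4) : 3 < radK m t k := by
  rw [radK_eq ht.2.1]
  exact radH_ge hm ht.1 (rad_rest_pos ht k)

theorem radC_of_le {k : Fin 4} (h : t k ≤ 1 / 2) : radC m t k = t k := by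
  rw [radC, max_eq_right (by linarith)]; simp

theorem radC_of_ge {k : Fin 4} (h : 1 / 2 ≤ t k) :
    radC m t k = t k + (2 * t k - 1) * (radK m t k - 3) / 2 := by
  rw [radC, max_eq_left (by linarith)]

theorem radC_ge (hm : GoodM m) (ht : t ∈ Trunc) (k : Fin 4) : t k ≤ radC m t k := by
  have h1 := radK_gt hm ht k
  have h2 := mul_nonneg (le_max_right (2 * t k - 1) 0) (show 0 ≤ radK m t k - 3 by linarith)
  rw [radC]
  linarith

theorem radC_nonneg (hm : GoodM m) (ht : t ∈ Trunc) (k : Fin 4) : 0 ≤ radC m t k :=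
  (ht.1 k).trans (radC_ge hm ht k)

theorem radC_sum (hm : GoodM m) (ht : t ∈ Trunc) : 1 ≤ ∑ k, radC m t k :=
  ht.2.1 ▸ Finset.sum_le_sum fun k _ => radC_ge hm ht k

theorem radC_of_ne (ht : t ∈ Trunc) {k j : Fin 4} (h : 1 / 2 ≤ t k) (hj : j ≠ k) :
    radC m t j = t j :=
  radC_of_le (by linarith [rad_add_le ht.1 hj, ht.2.1])

theorem radC_eq_update {k : Fin 4} (h : ∀ j, j ≠ k → t j ≤ 1 / 2) :
    radC m t = Function.update t k (radC m t k) := by
  funext j
  by_cases hj : j = k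
  · simp [hj]
  · rw [Function.update_of_ne hj, radC_of_le (h j hj)]

theorem radC_half (hm : GoodM m) (ht : t ∈ Trunc) (k : Fin 4) :
    1 / 2 < t k ↔ (∑ j, radC m t j) / 2 < radC m t k := by
  constructor
  · intro h
    have h1 := rad_sum_scale (x := t) (y := radC m t) (k := k) (a := 1) fun j hj => by
      rw [radC_of_ne ht h.le hj, one_mul]
    linarith [radC_ge hm ht k, ht.2.1]
  · intro h
    by_contra h1
    rw [radC_of_le (not_lt.1 h1)] at h
    linarith [radC_sum hm ht]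

theorem radC_Qm_pos (hm : GoodM m) (ht : t ∈ Trunc) : 0 < Qm m (radC m t) := by
  obtain ⟨k, -, hk⟩ := Finset.exists_max_image univ t univ_nonempty
  have h1 : 1 / 4 ≤ t k := by
    have := ht.2.1
    rw [Fin.sum_univ_four] at this
    linarith [hk 0 (mem_univ _), hk 1 (mem_univ _), hk 2 (mem_univ _), hk 3 (mem_univ _)]
  rw [radC_eq_update (k := k) fun j hj => by
    linarith [hk j (mem_univ _), rad_add_le ht.1 hj, ht.2.1], rad_Qm_update hm]
  have h2 := (rad_q_mem hm ht.1 k).1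
  have h3 := rad_Lm_ge hm ht.1 k
  have h4 := rad_rest_pos ht k
  have h5 := radC_ge hm ht k
  nlinarith [mul_pos (show 0 < radC m t k by linarith) (show 0 < Lm m t k by linarith)]

theorem rad_gap_of_le (hm : GoodM m) (ht : t ∈ Trunc) {k : Fin 4} (h : t k ≤ 1 / 2) :
    Qm m (radC m t) < 16 * Lm m (radC m t) k ^ 2 := by
  have h1 := rad_Lm_ge hm (radC_nonneg hm ht) k
  have h2 := rad_Qm_le hm (radC_nonneg hm ht)
  have h3 := radC_sum hm ht
  rw [radC_of_le h] at h1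
  have h4 : 9 / 20 * ∑ j, radC m t j ≤ Lm m (radC m t) k := by linarith
  nlinarith

theorem rad_gap_of_ge (hm : GoodM m) (ht : t ∈ Trunc) {k : Fin 4} (h : 1 / 2 ≤ t k) :
    ∃ c, 0 < c ∧ 16 * Lm m (radC m t) k ^ 2 - Qm m (radC m t) = c * (3 / 4 - t k) := by
  have h1 := rad_Lm_ge hm ht.1 k
  have h2 := rad_rest_pos ht k
  have h3 := radK_gt hm ht k
  have h4 := radH_mul hm ht.1 h2
  rw [← radK_eq ht.2.1, ht.2.1] at h4
  refine ⟨2 * Lm m t k * (radK m t k - 1),
    mul_pos (mul_pos two_pos (by linarith)) (by linarith), ?_⟩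
  rw [radC_eq_update (k := k) fun j hj => by linarith [rad_add_le ht.1 hj, ht.2.1],
    rad_Qm_update hm, rad_Lm_update hm, radC_of_ge h]
  linear_combination -h4

theorem rad_eq (m : Fin 4 → Fin 4 → ℝ) (t : Fin 4 → ℝ) :
    rad m t = fun k => (Real.sqrt (Qm m (radC m t)))⁻¹ * radC m t k :=
  funext fun _ => div_eq_inv_mul _ _

theorem rad_Lm_cmp (hm : GoodM m) (ht : t ∈ Trunc) (k : Fin 4) :
    (1 / 4 ≤ Lm m (rad m t) k ↔ Qm m (radC m t) ≤ 16 * Lm m (radC m t) k ^ 2) ∧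
      (Lm m (rad m t) k = 1 / 4 ↔ 16 * Lm m (radC m t) k ^ 2 = Qm m (radC m t)) := by
  have hQ := radC_Qm_pos hm ht
  have hs := Real.sqrt_pos.2 hQ
  have h0 : 0 ≤ 4 * Lm m (radC m t) k :=
    mul_nonneg (by norm_num) (Finset.sum_nonneg fun j _ =>
      mul_nonneg (rad_m_nonneg hm k j) (radC_nonneg hm ht j))
  have e : 16 * Lm m (radC m t) k ^ 2 = (4 * Lm m (radC m t) k) ^ 2 := by ring
  rw [rad_eq, rad_Lm_smul, le_inv_mul_iff₀ hs, inv_mul_eq_iff_eq_mul₀ hs.ne', e,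
    ← Real.sqrt_le_left h0, eq_comm (b := Qm m (radC m t)), ← Real.sqrt_eq_iff_eq_sq hQ.le h0]
  constructor <;> constructor <;> intro h <;> linarith

theorem rad_of_radC (hx : Qm m x = 1) {a : ℝ} (ha : 0 < a) (h : radC m t = fun j => a * x j) :
    rad m t = x := by
  rw [rad_eq, h, rad_Qm_smul, hx, mul_one, Real.sqrt_sq ha.le]
  funext j
  rw [inv_mul_cancel_left₀ ha.ne']

theorem rad_mapsTo (hm : GoodM m) : Set.MapsTo (rad m) Trunc (Dm m) := by
  intro t ht
  have hQ := radC_Qm_pos hm ht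
  refine ⟨fun k => div_nonneg (radC_nonneg hm ht k) (Real.sqrt_nonneg _), ?_, fun k => ?_⟩
  · rw [rad_eq, rad_Qm_smul, inv_pow, Real.sq_sqrt hQ.le, inv_mul_cancel₀ hQ.ne']
  · rw [(rad_Lm_cmp hm ht k).1]
    rcases le_total (t k) (1 / 2) with h | h
    · exact (rad_gap_of_le hm ht h).le
    · obtain ⟨c, hc, e⟩ := rad_gap_of_ge hm ht h
      nlinarith [ht.2.2 k]

theorem rad_injOn (hm : GoodM m) : Set.InjOn (rad m) Trunc := by
  intro t ht u hu h
  have hs := Real.sqrt_pos.2 (radC_Qm_pos hm ht)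
  have hs' := Real.sqrt_pos.2 (radC_Qm_pos hm hu)
  obtain ⟨a, ha, e⟩ : ∃ a : ℝ, 0 < a ∧ ∀ j, radC m u j = a * radC m t j := by
    refine ⟨_, div_pos hs' hs, fun j => ?_⟩
    have := congrFun h j
    simp only [rad] at this
    rw [div_eq_div_iff hs.ne' hs'.ne'] at this
    field_simp
    linarith
  have hh : ∀ k, 1 / 2 < u k ↔ 1 / 2 < t k := fun k => by
    rw [radC_half hm ht, radC_half hm hu]
    simp only [e, ← Finset.mul_sum]
    rw [mul_div_assoc, mul_lt_mul_iff_right₀ ha]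
  by_cases hk : ∃ k, 1 / 2 < t k
  · obtain ⟨k, hk⟩ := hk
    have hk' := (hh k).2 hk
    have e1 : ∀ j, j ≠ k → u j = a * t j := fun j hj => by
      rw [← radC_of_ne (m := m) hu hk'.le hj, e, radC_of_ne ht hk.le hj]
    have e2 := rad_sum_scale e1
    have e3 := radH_scale hm ha.ne' e1
    have e4 := e k
    have h3 := radK_gt hm ht k
    rw [← radK_eq ht.2.1, ← radK_eq hu.2.1] at e3
    rw [radC_of_ge hk.le, radC_of_ge hk'.le, e3] at e4
    rw [ht.2.1, hu.2.1] at e2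
    have e5 : (1 - a) * (radK m t k - 1) = 0 := by
      linear_combination 2 * e4 + (2 * (radK m t k - 2)) * e2
    have e6 : a = 1 := by
      rcases mul_eq_zero.1 e5 with h0 | h0 <;> linarith
    subst e6
    funext j
    by_cases hj : j = k
    · rw [hj]; linarith
    · rw [e1 j hj, one_mul]
  · have h1 : ∀ k, t k ≤ 1 / 2 := fun k => not_lt.1 fun h => hk ⟨k, h⟩
    have h2 : ∀ k, u k ≤ 1 / 2 := fun k => not_lt.1 fun h => hk ⟨k, (hh k).1 h⟩
    have e1 : ∀ j, u j = a * t j := fun j => by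
      rw [← radC_of_le (m := m) (h2 j), e, radC_of_le (h1 j)]
    have e2 := hu.2.1
    simp only [e1, ← Finset.mul_sum, ht.2.1, mul_one] at e2
    funext j
    rw [e1, e2, one_mul]

theorem rad_surjOn (hm : GoodM m) : Set.SurjOn (rad m) Trunc (Dm m) := by
  rintro x ⟨hx, hQ, hL⟩
  have hρ : ∀ k, 0 < ∑ j, x j - x k := fun k => by linarith [rad_Lm_le hm hx k, hL k]
  have hs : 0 < ∑ j, x j := by linarith [hρ 0, hx 0]
  by_cases hk : ∃ k, (∑ j, x j) / 2 < x k
  · obtain ⟨k, hk⟩ := hk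
    have hK := radH_ge hm hx (hρ k)
    have h1 := radH_mul hm hx (hρ k)
    have h2 := hρ k
    have h3 := hL k
    set K := radH m x k with hKd
    set ρ := ∑ j, x j - x k with hρd
    have h4 : ρ < x k := by linarith
    have h5 : x k ≤ K * ρ := by
      by_contra h
      nlinarith [mul_pos (sub_pos.2 (not_le.1 h)) (show 0 < Lm m x k by linarith)]
    have hD : 0 < 2 * (x k + ρ * (K - 2)) := by nlinarith
    set a := (K - 1) / (2 * (x k + ρ * (K - 2))) with had
    have ha : 0 < a := div_pos (by linarith) hD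
    have ea : a * (2 * (x k + ρ * (K - 2))) = K - 1 := div_mul_cancel₀ _ hD.ne'
    have h6 : a * ρ ≤ 1 / 2 := by
      rw [had, div_mul_eq_mul_div, div_le_iff₀ hD]; nlinarith
    have h7 : 1 / 4 ≤ a * ρ := by
      rw [had, div_mul_eq_mul_div, le_div_iff₀ hD]; nlinarith
    let t := Function.update (fun j => a * x j) k (1 - a * ρ)
    have tk : t k = 1 - a * ρ := Function.update_self ..
    have tj : ∀ j, j ≠ k → t j = a * x j := fun j hj => Function.update_of_ne hj ..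
    have hsum : ∑ j, t j = 1 := by linarith [rad_sum_scale tj]
    have hle : ∀ j, j ≠ k → t j ≤ 1 / 2 := fun j hj => by
      have := mul_le_mul_of_nonneg_left (show x j ≤ ρ by linarith [rad_add_le hx hj]) ha.le
      rw [tj j hj]; linarith
    refine ⟨t, ⟨fun j => ?_, hsum, fun j => ?_⟩, rad_of_radC hQ ha (funext fun j => ?_)⟩
    · by_cases hj : j = k
      · rw [hj, tk]; linarith
      · rw [tj j hj]; exact mul_nonneg ha.le (hx j)
    · by_cases hj : j = k
      · rw [hj, tk]; linarith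
      · linarith [hle j hj]
    · by_cases hj : j = k
      · rw [hj, radC_of_ge (by rw [tk]; linarith), radK_eq hsum, radH_scale hm ha.ne' tj, tk]
        linear_combination (-1 / 2) * ea
      · rw [radC_of_le (hle j hj), tj j hj]
  · have h1 : ∀ k, (∑ j, x j)⁻¹ * x k ≤ 1 / 2 := fun k => by
      rw [inv_mul_le_iff₀ hs]
      linarith [not_lt.1 fun h => hk ⟨k, h⟩]
    refine ⟨fun j => (∑ j, x j)⁻¹ * x j, ⟨fun j => mul_nonneg (inv_pos.2 hs).le (hx j), ?_,
      fun j => by linarith [h1 j]⟩, rad_of_radC hQ (inv_pos.2 hs) (funext fun j => ?_)⟩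
    · rw [← Finset.mul_sum, inv_mul_cancel₀ hs.ne']
    · exact radC_of_le (t := fun j => (∑ j, x j)⁻¹ * x j) (h1 j)

theorem rad_Lm_nat {m' : Fin 4 → Fin 4 → ℝ} (e : Equiv.Perm (Fin 4))
    (h : ∀ j k, t j ≠ 0 → t k ≠ 0 → m' (e j) (e k) = m j k) {k : Fin 4} (hk : t k ≠ 0) :
    Lm m' (t ∘ e.symm) (e k) = Lm m t k := by
  rw [Lm, Lm, ← Equiv.sum_comp e]
  refine Finset.sum_congr rfl fun j _ => ?_
  simp only [Function.comp_apply, Equiv.symm_apply_apply]
  by_cases hj : t j = 0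
  · rw [hj, mul_zero, mul_zero]
  · rw [h k j hk hj]

theorem rad_Qm_nat {m' : Fin 4 → Fin 4 → ℝ} (e : Equiv.Perm (Fin 4))
    (h : ∀ j k, t j ≠ 0 → t k ≠ 0 → m' (e j) (e k) = m j k) :
    Qm m' (t ∘ e.symm) = Qm m t := by
  rw [Qm, Qm, ← Equiv.sum_comp e]
  congr 1
  refine Finset.sum_congr rfl fun j _ => ?_
  rw [← Equiv.sum_comp e]
  refine Finset.sum_congr rfl fun k _ => ?_
  simp only [Function.comp_apply, Equiv.symm_apply_apply]
  by_cases hj : t j = 0
  · simp [hj]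
  by_cases hk : t k = 0
  · simp [hk]
  · rw [h j k hj hk]

theorem radC_zero {k : Fin 4} (h : t k = 0) : radC m t k = 0 := by
  rw [radC_of_le (by rw [h]; norm_num), h]

end Aux

theorem rad_bijOn {m : Fin 4 → Fin 4 → ℝ} (hm : GoodM m) : Set.BijOn (rad m) Trunc (Dm m) :=
  ⟨rad_mapsTo hm, rad_injOn hm, rad_surjOn hm⟩

theorem rad_continuousOn {m : Fin 4 → Fin 4 → ℝ} (hm : GoodM m) : ContinuousOn (rad m) Trunc := by
  have hL : ∀ k, Continuous fun t => Lm m t k := fun k => by unfold Lm; fun_prop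
  have hQ : Continuous (Qm m) := by unfold Qm; fun_prop
  have hC : ContinuousOn (radC m) Trunc := by
    refine continuousOn_pi.2 fun k => ?_
    have hK : ContinuousOn (fun t => radK m t k) Trunc := by
      have := hL k
      refine ContinuousOn.div (by fun_prop) (by fun_prop) fun t ht => ?_
      have h1 := rad_Lm_ge hm ht.1 k
      have h2 := rad_rest_pos ht k
      rw [ht.2.1] at h1 h2
      exact (mul_pos (mul_pos (by norm_num) (by linarith)) h2).ne'
    unfold radC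
    fun_prop
  refine continuousOn_pi.2 fun k => ?_
  exact (continuousOn_pi.1 hC k).div (hQ.comp_continuousOn hC).sqrt fun t ht =>
    (Real.sqrt_pos.2 (radC_Qm_pos hm ht)).ne'

theorem rad_supp {m : Fin 4 → Fin 4 → ℝ} (hm : GoodM m) {t : Fin 4 → ℝ} (ht : t ∈ Trunc) :
    supp (rad m t) = supp t := by
  ext k
  rw [mem_supp, mem_supp, rad, div_ne_zero_iff,
    and_iff_left (Real.sqrt_pos.2 (radC_Qm_pos hm ht)).ne']
  exact not_congr ⟨fun h => le_antisymm (h ▸ radC_ge hm ht k) (ht.1 k), radC_zero⟩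

theorem rad_bd {m : Fin 4 → Fin 4 → ℝ} (hm : GoodM m) {t : Fin 4 → ℝ} (ht : t ∈ Trunc) (k : Fin 4) :
    Lm m (rad m t) k = 1 / 4 ↔ t k = 3 / 4 := by
  rw [(rad_Lm_cmp hm ht k).2]
  rcases le_total (t k) (1 / 2) with h | h
  · have := rad_gap_of_le hm ht h
    constructor <;> intro h' <;> linarith
  · obtain ⟨c, hc, e⟩ := rad_gap_of_ge hm ht h
    rw [← sub_eq_zero, e, mul_eq_zero, or_iff_right hc.ne', sub_eq_zero, eq_comm]

theorem rad_nat {m m' : Fin 4 → Fin 4 → ℝ} (e : Equiv.Perm (Fin 4)) (t : Fin 4 → ℝ)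
    (h : ∀ j k, t j ≠ 0 → t k ≠ 0 → m' (e j) (e k) = m j k) :
    rad m' (t ∘ e.symm) = rad m t ∘ e.symm := by
  have h1 : radC m' (t ∘ e.symm) = radC m t ∘ e.symm := by
    funext k
    obtain ⟨k, rfl⟩ := e.surjective k
    by_cases hk : t k = 0
    · rw [radC_zero (by simpa using hk), Function.comp_apply, Equiv.symm_apply_apply, radC_zero hk]
    · simp only [radC, radK, rad_Lm_nat e h hk, rad_Qm_nat e h, Function.comp_apply,
        Equiv.symm_apply_apply]
  funext k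
  simp only [rad, h1, Function.comp_apply]
  rw [rad_Qm_nat e fun j k hj hk => h j k (mt radC_zero hj) (mt radC_zero hk)]

theorem perm_mem_Trunc (e : Equiv.Perm (Fin 4)) {t : Fin 4 → ℝ} (ht : t ∈ Trunc) :
    t ∘ e.symm ∈ Trunc :=
  ⟨fun _ => ht.1 _, (Equiv.sum_comp e.symm t).trans ht.2.1, fun _ => ht.2.2 _⟩

theorem two_le_card_supp_Trunc {t : Fin 4 → ℝ} (ht : t ∈ Trunc) : 2 ≤ (supp t).card := by
  by_contra h
  obtain ⟨k, hk⟩ := Finset.card_le_one_iff_subset_singleton.1 (show (supp t).card ≤ 1 by omega)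
  have h1 := ht.2.1
  rw [Finset.sum_eq_single k (fun j _ hj => by
    by_contra h0
    exact hj (Finset.mem_singleton.1 (hk (mem_supp.2 h0)))) (by simp)] at h1
  linarith [ht.2.2 k]

theorem isCompact_Trunc : IsCompact Trunc := by
  refine (isCompact_Icc (a := fun _ => (0 : ℝ)) (b := fun _ => 3 / 4)).of_isClosed_subset ?_
    fun t ht => ⟨ht.1, ht.2.2⟩
  have : Trunc = Set.Icc (fun _ => (0 : ℝ)) (fun _ => 3 / 4) ∩ {t | ∑ k, t k = 1} :=
    Set.ext fun t => ⟨fun h => ⟨⟨h.1, h.2.2⟩, h.2.1⟩, fun h => ⟨h.1.1, h.2, h.1.2⟩⟩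
  rw [this]
  exact isClosed_Icc.inter (isClosed_eq (by fun_prop) continuous_const)

end Pool.Agent.Lib.MP_a11aea_gt
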