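import Pool.Agent.Lib.MP_a11aea_gt.H36DescB
import Pool.Agent.Lib.MP_a11aea_gt.H36Rad
import Pool.Agent.Lib.MP_a11aea_gt.H36Lift

/-! The compact manifold is the union of four truncated simplices glued by `canon`. -/

namespace Pool.Agent.Lib.MP_a11aea_gt

open Matrix
open scoped ComplexOrder unitInterval

namespace Glue

variable (T : Tri)

/-- The point of tetrahedron `i` with flat barycentric coordinates `t`. -/
noncomputable def pt (i : Fin 4) (t : Fin 4 → ℝ) : Mat := T.comb i (rad (T.m i) t)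

theorem comb_H3 (i : Fin 4) {c : Fin 4 → ℝ} (hc : c ∈ Dm (T.m i)) : T.comb i c ∈ H3 := by
  have h1 : (T.comb i c).det.re = 1 := (T.det_comb i c).trans hc.2.1
  refine ⟨posDef_of_posSemidef (T.comb_posSemidef i hc.1) (by rw [h1]; exact one_pos), ?_⟩
  rw [det_herm (T.comb_herm i c), h1, Complex.ofReal_one]

theorem comb_core (i : Fin 4) {c : Fin 4 → ℝ} (hc : c ∈ Dm (T.m i)) :
    T.comb i c ∈ core T.G e1 (1 / 4) := by
  refine ⟨comb_H3 T i hc, fun u hu h => ?_⟩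
  by_cases hk : ∃ k, u = T.u i k
  · obtain ⟨k, rfl⟩ := hk
    have := h.2
    rw [T.mink_comb] at this
    exact absurd this (hc.2.2 k).not_gt
  · exact absurd h.2 (T.far hc.1 hc.2.1 hu fun k e => hk ⟨k, e⟩).le.not_gt

theorem mem_Dm (i : Fin 4) {c : Fin 4 → ℝ} (hc : ∀ k, 0 ≤ c k)
    (h : T.comb i c ∈ core T.G e1 (1 / 4)) : c ∈ Dm (T.m i) := by
  refine ⟨hc, ?_, fun k => ?_⟩
  · rw [← T.det_comb, h.1.2, Complex.one_re]
  · rw [← T.mink_comb]
    exact not_lt.1 fun e => h.2 _ (T.u_mem i k) ⟨h.1, e⟩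

theorem rad_mem (i : Fin 4) {t : Fin 4 → ℝ} (ht : t ∈ Trunc) : rad (T.m i) t ∈ Dm (T.m i) :=
  (rad_bijOn (T.goodM i)).mapsTo ht

theorem pt_core (i : Fin 4) {t : Fin 4 → ℝ} (ht : t ∈ Trunc) : pt T i t ∈ core T.G e1 (1 / 4) :=
  comb_core T i (rad_mem T i ht)

theorem continuousOn_pt (i : Fin 4) : ContinuousOn (pt T i) Trunc :=
  (T.continuous_comb i).comp_continuousOn (rad_continuousOn (T.goodM i))

theorem canon_mem (i : Fin 4) {t : Fin 4 → ℝ} (ht : t ∈ Trunc) : (canon i t).2 ∈ Trunc :=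
  perm_mem_Trunc _ ht

theorem canon_rad (i : Fin 4) {t : Fin 4 → ℝ} (ht : t ∈ Trunc) :
    canon i (rad (T.m i) t) = ((canon i t).1, rad (T.m (canon i t).1) (canon i t).2) := by
  have h2 := two_le_card_supp_Trunc ht
  simp only [canon, rad_supp (T.goodM i) ht]
  rw [rad_nat (m := T.m i) (ph i (supp t)) t fun j k hj hk => ?_]
  have e1 := T.h_vert i _ j (mem_supp.2 hj) h2
  have e2 := T.h_vert i _ k (mem_supp.2 hk) h2
  simp only [Tri.m, Tri.u]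
  rw [e1, e2, mink_act]

theorem pt_canon (i : Fin 4) {t : Fin 4 → ℝ} (ht : t ∈ Trunc) :
    pt T i t = act (T.h i (supp t)) (pt T (canon i t).1 (canon i t).2) := by
  have hs := rad_supp (T.goodM i) ht
  have := T.comb_canon i (c := rad (T.m i) t) (by rw [hs]; exact two_le_card_supp_Trunc ht)
  rw [canon_rad T i ht, hs] at this
  exact this

/-- The map from the four truncated simplices to the quotient. -/
noncomputable def q (x : Fin 4 × Trunc) : Mbar T.G e1 (1 / 4) :=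
  proj _ _ _ ⟨pt T x.1 x.2.1, pt_core T x.1 x.2.2⟩

theorem continuous_q : Continuous (q T) :=
  continuous_prod_of_discrete_left.2 fun i => (proj _ _ _).continuous.comp
    ((continuousOn_pt T i).domRestrict.subtype_mk _)

theorem proj_act {γ : SL2C} (hγ : γ ∈ T.G) (x : Fin 4 × Trunc)
    (h : act γ (pt T x.1 x.2.1) ∈ core T.G e1 (1 / 4)) :
    proj T.G e1 (1 / 4) ⟨act γ (pt T x.1 x.2.1), h⟩ = q T x :=
  ((proj_eq_iff _ _).2 ⟨γ, hγ, rfl⟩).symm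

theorem surjective_q : Function.Surjective (q T) := by
  rintro ⟨X, hX⟩
  obtain ⟨γ, hγ, i, c, hc, rfl⟩ := T.cover hX.1.1
  have h1 := act_mem_core (inv_mem hγ) hX
  rw [act_inv_act] at h1
  obtain ⟨t, ht, rfl⟩ := (rad_bijOn (T.goodM i)).surjOn (mem_Dm T i hc h1)
  exact ⟨(i, ⟨t, ht⟩), (proj_act T hγ (i, ⟨t, ht⟩) hX).symm⟩

theorem q_eq_iff (x y : Fin 4 × Trunc) : q T x = q T y ↔ canon x.1 x.2.1 = canon y.1 y.2.1 := by
  obtain ⟨i, t, ht⟩ := x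
  obtain ⟨j, t', ht'⟩ := y
  rw [q, q, proj_eq_iff]
  constructor
  · rintro ⟨γ, hγ, h⟩
    have h1 := (T.fibre hγ (one_mem _) (rad_mem T i ht).1 (rad_mem T j ht').1
      (pt_core T i ht).1.1 (h.trans (act_one _).symm)).1
    rw [canon_rad T i ht, canon_rad T j ht', Prod.mk.injEq] at h1
    obtain ⟨h2, h3⟩ := h1
    rw [h2] at h3
    exact Prod.ext h2 ((rad_bijOn (T.goodM _)).injOn (canon_mem i ht) (canon_mem j ht') h3)
  · intro h
    refine ⟨T.h j (supp t') * (T.h i (supp t))⁻¹,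
      mul_mem (T.h_mem _ _) (inv_mem (T.h_mem _ _)), ?_⟩
    dsimp only at h ⊢
    rw [pt_canon T i ht, pt_canon T j ht', act_mul, act_inv_act, h]

theorem mink_pt (i : Fin 4) {t : Fin 4 → ℝ} (ht : t ∈ Trunc) (k : Fin 4) :
    mink (pt T i t) (T.u i k) = 1 / 4 ↔ t k = 3 / 4 := by
  rw [pt, T.mink_comb, rad_bd (T.goodM i) ht]

theorem q_mem_bdry (x : Fin 4 × Trunc) : q T x ∈ bdry T.G e1 (1 / 4) ↔ ∃ k, x.2.1 k = 3 / 4 := by
  obtain ⟨i, t, ht⟩ := x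
  constructor
  · rintro ⟨X, h, u, hu, -, h1⟩
    obtain ⟨γ, hγ, h2⟩ := (proj_eq_iff _ _).1 h
    rw [← h2, ← act_act_inv γ u, mink_act] at h1
    by_contra hn
    have := T.far (rad_mem T i ht).1 (rad_mem T i ht).2.1 (act_mem_cuspOrbit (inv_mem hγ) hu)
      fun k e => hn ⟨k, (mink_pt T i ht k).1 (e ▸ h1)⟩
    exact this.ne' h1
  · rintro ⟨k, hk⟩
    exact ⟨_, rfl, T.u i k, T.u_mem i k, (pt_core T i ht).1, (mink_pt T i ht k).2 hk⟩

theorem pt_face (i a : Fin 4) (ht : fc a ∈ Trunc) :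
    pt T i (fc a) = act (T.g i a) (pt T (nb i a) (fc (pm i a a))) := by
  have hne : ∀ k, fc a k ≠ 0 → k ≠ a := fun k hk e => hk (by simp [fc, e])
  have e1 : fc (pm i a a) = fc a ∘ (pm i a).symm := by
    ext k
    simp [fc, Equiv.symm_apply_eq]
  have e2 : rad (T.m i) (fc a) a = 0 := by
    by_contra c
    have := mem_supp.2 c
    rw [rad_supp (T.goodM i) ht] at this
    exact hne a (mem_supp.1 this) rfl
  rw [pt, pt, e1, rad_nat (m := T.m i) (pm i a) (fc a) fun j k hj hk => ?_]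
  · rw [Tri.comb, Tri.comb, act_sum]
    refine Fintype.sum_equiv (pm i a) _ _ fun k => ?_
    rw [act_smul, Function.comp_apply, Equiv.symm_apply_apply]
    by_cases hk : k = a
    · rw [hk, e2, zero_smul, zero_smul]
    · rw [Tri.u, Tri.u, T.glue i a k hk]
  · simp only [Tri.m, Tri.u]
    rw [T.glue i a j (hne j hj), T.glue i a k (hne k hk), mink_act]

end Glue

open Glue in
theorem Tri.glue_model (T : Tri) {Z : Type} [TopologicalSpace Z] [T2Space Z]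
    (ψ : Fin 4 → (Fin 4 → ℝ) → Z) (K L A : Set Z) (tA tB : Fin 4 → ℝ)
    (hc : ∀ i, ContinuousOn (ψ i) Trunc)
    (hK : ∀ z, z ∈ K ↔ ∃ i, ∃ t ∈ Trunc, ψ i t = z)
    (hf : ∀ i j, ∀ t ∈ Trunc, ∀ t' ∈ Trunc, ψ i t = ψ j t' ↔ canon i t = canon j t')
    (hL : ∀ i, ∀ t ∈ Trunc, ψ i t ∈ L ↔ ∃ k, t k = 3 / 4)
    (j1 : JoinedIn {t | t ∈ Trunc ∧ ψ 2 t ∈ A} tA (fc 1))
    (j2 : JoinedIn {t | t ∈ Trunc ∧ ψ 3 t ∈ A} (fc 3) (fc 1))
    (j3 : JoinedIn {t | t ∈ Trunc ∧ ψ 3 t ∈ A} (fc 2) (fc 0))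
    (j4 : JoinedIn {t | t ∈ Trunc ∧ ψ 1 t ∈ A} (fc 1) tB)
    (hA : tA 1 = 3 / 4) (hB : tB 1 = 3 / 4) :
    CompactSpace (Mbar T.G e1 (1 / 4)) ∧
    ∃ e : Mbar T.G e1 (1 / 4) → Z, Continuous e ∧ Function.Injective e ∧ Set.range e = K ∧
      (∀ p, p ∈ bdry T.G e1 (1 / 4) ↔ e p ∈ L) ∧
      ∃ α : C(I, core T.G e1 (1 / 4)), (α 0).1 ∈ horosphere (1 / 4) T.ua ∧
        (α 1).1 ∈ horosphere (1 / 4) T.ub ∧ (∀ t, e (proj _ _ _ (α t)) ∈ A) ∧
        e (proj _ _ _ (α 0)) = ψ 2 tA ∧ e (proj _ _ _ (α 1)) = ψ 1 tB := by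
  have : CompactSpace Trunc := isCompact_iff_compactSpace.1 isCompact_Trunc
  have : T2Space (Mbar T.G e1 (1 / 4)) := mbar_t2 fun K hK hc => T.propDisc hK hc
  have hq : Topology.IsQuotientMap (q T) :=
    (continuous_q T).isClosedMap.isQuotientMap (continuous_q T) (surjective_q T)
  refine ⟨(surjective_q T).compactSpace (continuous_q T), ?_⟩
  obtain ⟨e, he⟩ : ∃ e : Mbar T.G e1 (1 / 4) → Z, ∀ x, e (q T x) = ψ x.1 x.2.1 := by
    choose s hs using surjective_q T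
    exact ⟨fun p => ψ (s p).1 (s p).2.1, fun x =>
      (hf _ _ _ (s _).2.2 _ x.2.2).2 ((q_eq_iff T _ _).1 (hs _))⟩
  have seg : ∀ γ ∈ T.G, ∀ i a b, JoinedIn {t | t ∈ Trunc ∧ ψ i t ∈ A} a b →
      JoinedIn {Y | ∃ h : Y ∈ core T.G e1 (1 / 4), e (proj _ _ _ ⟨Y, h⟩) ∈ A}
        (act γ (pt T i a)) (act γ (pt T i b)) := by
    intro γ hγ i a b h
    refine (h.map_continuousOn (f := fun t => act γ (pt T i t))
      ((continuous_act γ).comp_continuousOn ((continuousOn_pt T i).mono fun t ht => ht.1))).mono ?_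
    rintro _ ⟨t, ht, rfl⟩
    refine ⟨act_mem_core hγ (pt_core T i ht.1), ?_⟩
    rw [proj_act T hγ (i, ⟨t, ht.1⟩), he]
    exact ht.2
  have g1 := T.g_mem 2 1
  have g2 := mul_mem g1 (T.g_mem 3 1)
  have g3 := mul_mem g2 (T.g_mem 3 0)
  have s1 := seg 1 (one_mem _) _ _ _ j1
  have s2 := seg _ g1 _ _ _ j2
  have s3 := seg _ g2 _ _ _ j3
  have s4 := seg _ g3 _ _ _ j4
  rw [pt_face T 2 1 j1.target_mem.1, act_one (act _ _)] at s1
  rw [pt_face T 3 1 j2.target_mem.1, ← act_mul] at s2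
  rw [pt_face T 3 0 j3.target_mem.1, ← act_mul] at s3
  obtain ⟨p, hp⟩ := ((s1.trans s2).trans s3).trans s4
  choose hp1 hp2 using hp
  have tA' := j1.source_mem.1
  have tB' := j4.target_mem.1
  refine ⟨e, hq.continuous_iff.2 ?_, ?_, ?_, ?_, ⟨fun t => ⟨p t, hp1 t⟩,
    p.continuous.subtype_mk _⟩, ⟨(hp1 0).1, ?_⟩, ⟨(hp1 1).1, ?_⟩, hp2, ?_, ?_⟩
  · rw [show e ∘ q T = fun x => ψ x.1 x.2.1 from funext he]
    exact continuous_prod_of_discrete_left.2 fun i => (hc i).domRestrict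
  · intro p p' h
    obtain ⟨x, rfl⟩ := surjective_q T p
    obtain ⟨y, rfl⟩ := surjective_q T p'
    rw [he, he] at h
    exact (q_eq_iff T x y).2 ((hf _ _ _ x.2.2 _ y.2.2).1 h)
  · ext z
    rw [hK]
    constructor
    · rintro ⟨p, rfl⟩
      obtain ⟨x, rfl⟩ := surjective_q T p
      exact ⟨x.1, x.2.1, x.2.2, (he x).symm⟩
    · rintro ⟨i, t, ht, rfl⟩
      exact ⟨_, he (i, ⟨t, ht⟩)⟩
  · intro p
    obtain ⟨x, rfl⟩ := surjective_q T p
    rw [q_mem_bdry, he, hL _ _ x.2.2]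
  · change mink (p 0) T.ua = 1 / 4
    rw [p.source, act_one]
    exact (mink_pt T 2 tA' 1).2 hA
  · change mink (p 1) T.ub = 1 / 4
    rw [p.target, Tri.ub, mink_act]
    exact (mink_pt T 1 tB' 1).2 hB
  · rw [← he (2, ⟨tA, tA'⟩), ← proj_act T (one_mem _) (2, ⟨tA, tA'⟩)
      (act_mem_core (one_mem _) (pt_core T 2 tA'))]
    exact congrArg (fun X => e (proj _ _ _ X)) (Subtype.ext p.source)
  · rw [← he (1, ⟨tB, tB'⟩), ← proj_act T g3 (1, ⟨tB, tB'⟩) (act_mem_core g3 (pt_core T 1 tB'))]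
    exact congrArg (fun X => e (proj _ _ _ X)) (Subtype.ext p.target)

end Pool.Agent.Lib.MP_a11aea_gt
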