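import Pool.Agent.Lib.MP_a11aea_gt.H36Real

/-! Kuhn triangulations of the unit cube and of the standard genus two handlebody. -/

namespace Pool.Agent.Lib.MP_a11aea_gt

open scoped unitInterval

/-- Kuhn triangulation of the cube; vertex `x + 2 y + 4 z` sits at `(x, y, z)`. -/
def KC : List ℕ := [139, 163, 141, 197, 177, 209]

/-- The face `x = 0`. -/
def KC0 : List ℕ := [69, 81]

/-- The face `x = 1`. -/
def KC1 : List ℕ := [138, 162]

/-- The four other faces. -/
def KCS : List ℕ := [35, 49, 140, 196, 11, 13, 176, 208]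

/-- Kuhn triangulation of the 13 unit cubes of `Handlebody 2`; vertex `x + 6 y + 24 z` sits at
`(x, y, z)`. -/
def KP : List ℕ :=
  [2147483779, 2181038083, 2147483841, 3221225537, 2197815297, 3238002689, 137438961856,
   139586437312, 137438965824, 206158434368, 140660179008, 207232172096, 8796093558784,
   8933531987968, 8796093812736, 13194139799552, 9002251456512, 13262859014144, 4294967558,
   4362076166, 4294967682, 6442451074, 4395630594, 6476005378, 17592187117568, 17867063975936,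
   17592187625472, 26388279599104, 18004502913024, 26525718028288, 8589935116, 8724152332,
   8589935364, 12884902148, 8791261188, 12952010756, 549755847424, 558345749248, 549755863296,
   824633737472, 562640716032, 828928688384, 35184374235136, 35734127951872, 35184375250944,
   52776559198208, 36009005826048, 53051436056576, 17179870232, 17448304664, 17179870728,
   25769804296, 17582522376, 25904021512, 70368748470272, 71468255903744, 70368750501888,
   105553118396416, 72018011652096, 106102872113152, 34359740464, 34896609328, 34359741456,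
   51539608592, 35165044752, 51808043024, 2199023389696, 2233382996992, 2199023453184,
   3298534949888, 2250562864128, 3315714753536, 140737496940544, 142936511807488,
   140737501003776, 211106236792832, 144036023304192, 212205744226304]

/-- Lattice position of the vertex `v` (coordinate `0` is a dummy zero). -/
def kpos (a b v : ℕ) (l : Fin 4) : ℕ :=
  if l = 1 then v % a else if l = 2 then v / a % b else if l = 3 then v / (a * b) else 0

/-- The affine map to lattice coordinates. -/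
noncomputable def kP (a b : ℕ) (y : Pt) (l : Fin 4) : ℝ := ∑ v : Fin 128, y v * kpos a b v l

/-- Barycentric coordinates of a point. -/
noncomputable def kN (a b m : ℕ) (x : Fin 4 → ℝ) (v : Fin 128) : ℝ :=
  if v.1 < m then max 0 (1 - Finset.univ.sup' Finset.univ_nonempty fun r : Fin 4 × Fin 4 =>
    (x r.1 - kpos a b v r.1) - (x r.2 - kpos a b v r.2)) else 0

/-- The vertices of a facet. -/
def kbits (F : ℕ) : List ℕ := (List.range 128).filter F.testBit

theorem mem_kbits {F : ℕ} {w : Fin 128} (h : F.testBit w = true) : w.1 ∈ kbits F :=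
  List.mem_filter.2 ⟨List.mem_range.2 w.2, h⟩

theorem continuous_kN (a b m : ℕ) : Continuous (kN a b m) := by
  refine continuous_pi fun v => ?_
  unfold kN
  split_ifs
  · exact continuous_const.max (continuous_const.sub (Continuous.finset_sup'_apply _ fun r _ =>
      ((continuous_apply _).sub continuous_const).sub ((continuous_apply _).sub continuous_const)))
  · exact continuous_const

theorem sum_le_of {y : Pt} {F : ℕ} (h0 : ∀ v, 0 ≤ y v) (hF : inF F y) {f g : Fin 128 → ℝ}
    (h : ∀ w : Fin 128, F.testBit w = true → f w ≤ g w) : ∑ w, y w * f w ≤ ∑ w, y w * g w :=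
  Finset.sum_le_sum fun w _ => by
    by_cases hw : y w = 0
    · simp [hw]
    · exact mul_le_mul_of_nonneg_left (h w (hF w hw)) (h0 w)

/-- The facet `F` is a Kuhn simplex. -/
def FacetOK (a b m F : ℕ) : Prop :=
  (∀ v ∈ kbits F, v < m ∧ ∀ w ∈ kbits F, ∀ i j : Fin 4,
    kpos a b w i + kpos a b v j ≤ 1 + kpos a b v i + kpos a b w j) ∧
  ∀ v ∈ List.range m, ∃ i j : Fin 4, ∀ w ∈ kbits F, w = v ∨
    1 + kpos a b v i + kpos a b w j ≤ kpos a b w i + kpos a b v j

instance (a b m F : ℕ) : Decidable (FacetOK a b m F) := by unfold FacetOK; infer_instance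

theorem kN_kP {a b m : ℕ} {K : List ℕ} (hK : ∀ F ∈ K, FacetOK a b m F) {y : Pt}
    (hy : y ∈ real K) : kN a b m (kP a b y) = y := by
  obtain ⟨h0, h1, F, hF, hy⟩ := hy
  obtain ⟨c1, c2⟩ := hK F hF
  funext v
  have e1 : ∀ i j, (kP a b y i - kpos a b v i) - (kP a b y j - kpos a b v j) =
      ∑ w, y w * ((kpos a b w.1 i - kpos a b v i) - (kpos a b w.1 j - kpos a b v j) : ℝ) := by
    intro i j
    simp only [kP, mul_sub, Finset.sum_sub_distrib, ← Finset.sum_mul, h1, one_mul]
  have e2 : ∑ w, y w * (if w = v then 0 else 1 : ℝ) = 1 - y v := by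
    have : ∀ w, y w * (if w = v then 0 else 1 : ℝ) = y w - if w = v then y w else 0 := by
      intro w
      split_ifs <;> simp
    simp only [this, Finset.sum_sub_distrib, h1, Finset.sum_ite_eq', Finset.mem_univ, if_true]
  unfold kN
  split_ifs with hv
  · obtain ⟨i, j, hij⟩ := c2 v (List.mem_range.2 hv)
    have e3 : 1 - y v ≤ Finset.univ.sup' Finset.univ_nonempty fun r : Fin 4 × Fin 4 =>
        (kP a b y r.1 - kpos a b v r.1) - (kP a b y r.2 - kpos a b v r.2) := by
      refine le_trans ?_ (Finset.le_sup' _ (Finset.mem_univ (i, j)))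
      rw [e1, ← e2]
      refine sum_le_of h0 hy fun w hw => ?_
      split_ifs with h
      · simp [h]
      · have : ((1 + kpos a b v i + kpos a b w j : ℕ) : ℝ) ≤ (kpos a b w i + kpos a b v j : ℕ) :=
          Nat.cast_le.2 ((hij w (mem_kbits hw)).resolve_left fun h' => h (Fin.ext h'))
        push_cast at this
        linarith
    by_cases h : y v = 0
    · rw [h] at e3 ⊢
      exact max_eq_left (by linarith)
    · have e4 : (Finset.univ.sup' Finset.univ_nonempty fun r : Fin 4 × Fin 4 =>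
          (kP a b y r.1 - kpos a b v r.1) - (kP a b y r.2 - kpos a b v r.2)) ≤ 1 - y v := by
        refine Finset.sup'_le _ _ fun r _ => ?_
        rw [e1, ← e2]
        refine sum_le_of h0 hy fun w hw => ?_
        split_ifs with h'
        · simp [h']
        · have : ((kpos a b w r.1 + kpos a b v r.2 : ℕ) : ℝ) ≤
              (1 + kpos a b v r.1 + kpos a b w r.2 : ℕ) :=
            Nat.cast_le.2 ((c1 v (mem_kbits (hy v h))).2 w (mem_kbits hw) r.1 r.2)
          push_cast at this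
          linarith
      rw [le_antisymm e4 e3, sub_sub_cancel]
      exact max_eq_right (h0 v)
  · by_contra h
    exact hv (c1 v (mem_kbits (hy v (Ne.symm h)))).1

/-- The stride of a coordinate. -/
def kst (a b : ℕ) (l : Fin 4) : ℕ := if l = 1 then 1 else if l = 2 then a else a * b

/-- The Kuhn simplex with corner `v` and order `i, j, k` is a facet. -/
def FlagOK (a b : ℕ) (K : List ℕ) (v : ℕ) (i j k : Fin 4) : Prop :=
  v + kst a b i + kst a b j + kst a b k < 128 ∧
  (∃ F ∈ K, F.testBit v = true ∧ F.testBit (v + kst a b i) = true ∧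
    F.testBit (v + kst a b i + kst a b j) = true ∧
    F.testBit (v + kst a b i + kst a b j + kst a b k) = true) ∧
  ∀ l, kpos a b (v + kst a b i) l = kpos a b v l + (if l = i then 1 else 0) ∧
    kpos a b (v + kst a b i + kst a b j) l = kpos a b (v + kst a b i) l + (if l = j then 1 else 0) ∧
    kpos a b (v + kst a b i + kst a b j + kst a b k) l =
      kpos a b (v + kst a b i + kst a b j) l + (if l = k then 1 else 0)

instance (a b : ℕ) (K : List ℕ) (v : ℕ) (i j k : Fin 4) : Decidable (FlagOK a b K v i j k) := by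
  unfold FlagOK; infer_instance

theorem flag_onto {a b : ℕ} {K : List ℕ} {v : ℕ} {i j k : Fin 4} (h : FlagOK a b K v i j k)
    {f : Fin 4 → ℝ} (hf : ∀ l, f l = f i * (if l = i then 1 else 0) +
      f j * (if l = j then 1 else 0) + f k * (if l = k then 1 else 0))
    (h1 : f i ≤ 1) (h2 : f j ≤ f i) (h3 : f k ≤ f j) (h4 : 0 ≤ f k) :
    ∃ y ∈ real K, ∀ l, kP a b y l = kpos a b v l + f l := by
  obtain ⟨c0, ⟨F, hF, b0, b1, b2, b3⟩, c⟩ := h
  let u : Fin 4 → Fin 128 := ![⟨v, by omega⟩, ⟨v + kst a b i, by omega⟩,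
    ⟨v + kst a b i + kst a b j, by omega⟩, ⟨v + kst a b i + kst a b j + kst a b k, c0⟩]
  let t : Fin 4 → ℝ := ![1 - f i, f i - f j, f j - f k, f k]
  have e : ∀ g : Fin 128 → ℝ, ∑ w, (∑ r, if u r = w then t r else 0) * g w = ∑ r, t r * g (u r) := by
    intro g
    simp only [Finset.sum_mul, ite_mul, zero_mul]
    rw [Finset.sum_comm]
    simp
  refine ⟨fun w => ∑ r, if u r = w then t r else 0, ⟨fun w => Finset.sum_nonneg fun r _ => ?_, ?_,
    F, hF, fun w hw => ?_⟩, fun l => ?_⟩
  · split_ifs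
    · fin_cases r <;> simp [t] <;> linarith
    · exact le_rfl
  · have := e fun _ => 1
    simp only [mul_one] at this
    rw [this, Fin.sum_univ_four]
    simp [t]
  · obtain ⟨r, -, hr⟩ := Finset.exists_ne_zero_of_sum_ne_zero hw
    have : u r = w := by
      by_contra h
      exact hr (if_neg h)
    subst this
    fin_cases r
    exacts [b0, b1, b2, b3]
  · obtain ⟨d1, d2, d3⟩ := c l
    rw [kP, e fun w => kpos a b w l, Fin.sum_univ_four, hf l]
    change (1 - f i) * (kpos a b v l : ℝ) + (f i - f j) * kpos a b (v + kst a b i) l +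
      (f j - f k) * kpos a b (v + kst a b i + kst a b j) l +
      f k * kpos a b (v + kst a b i + kst a b j + kst a b k) l = _
    rw [d3, d2, d1]
    push_cast
    ring

/-- The unit cube with corner `v` is triangulated. -/
def CubeOK (a b : ℕ) (K : List ℕ) (v : ℕ) : Prop :=
  FlagOK a b K v 1 2 3 ∧ FlagOK a b K v 1 3 2 ∧ FlagOK a b K v 2 1 3 ∧ FlagOK a b K v 2 3 1 ∧
    FlagOK a b K v 3 1 2 ∧ FlagOK a b K v 3 2 1

instance (a b : ℕ) (K : List ℕ) (v : ℕ) : Decidable (CubeOK a b K v) := by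
  unfold CubeOK; infer_instance

theorem cube_onto {a b : ℕ} {K : List ℕ} {v : ℕ} (h : CubeOK a b K v) {x : Fin 4 → ℝ}
    (h0 : x 0 = 0) (hx : ∀ l, l ≠ 0 → kpos a b v l ≤ x l ∧ x l ≤ kpos a b v l + 1) :
    ∃ y ∈ real K, kP a b y = x := by
  obtain ⟨c1, c2, c3, c4, c5, c6⟩ := h
  set f : Fin 4 → ℝ := fun l => x l - kpos a b v l with hf
  have f0 : f 0 = 0 := by simp [hf, h0, kpos]
  have f1 : ∀ l, l ≠ 0 → 0 ≤ f l ∧ f l ≤ 1 := fun l hl =>
    ⟨sub_nonneg.2 (hx l hl).1, sub_le_iff_le_add'.2 (hx l hl).2⟩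
  suffices ∃ y ∈ real K, ∀ l, kP a b y l = kpos a b v l + f l by
    obtain ⟨y, h1, h2⟩ := this
    exact ⟨y, h1, funext fun l => by rw [h2, hf]; ring⟩
  have g1 := f1 1 (by decide)
  have g2 := f1 2 (by decide)
  have g3 := f1 3 (by decide)
  clear_value f
  rcases le_total (f 1) (f 2) with p | p <;> rcases le_total (f 2) (f 3) with q | q <;>
    rcases le_total (f 1) (f 3) with r | r
  · exact flag_onto c6 (fun l => by fin_cases l <;> simp [f0]) g3.2 q p g1.1
  · exact flag_onto c6 (fun l => by fin_cases l <;> simp [f0]) g3.2 q p g1.1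
  · exact flag_onto c4 (fun l => by fin_cases l <;> simp [f0]) g2.2 q r g1.1
  · exact flag_onto c3 (fun l => by fin_cases l <;> simp [f0]) g2.2 p r g3.1
  · exact flag_onto c5 (fun l => by fin_cases l <;> simp [f0]) g3.2 r p g2.1
  · exact flag_onto c2 (fun l => by fin_cases l <;> simp [f0]) g1.2 r q g2.1
  · exact flag_onto c1 (fun l => by fin_cases l <;> simp [f0]) g1.2 p q g3.1
  · exact flag_onto c1 (fun l => by fin_cases l <;> simp [f0]) g1.2 p q g3.1

theorem kP_le {a b F c : ℕ} {y : Pt} (h0 : ∀ v, 0 ≤ y v) (h1 : ∑ v, y v = 1) (hF : inF F y)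
    {l : Fin 4} (h : ∀ w ∈ kbits F, kpos a b w l ≤ c) : kP a b y l ≤ c := by
  have := sum_le_of h0 hF (f := fun w => kpos a b w l) (g := fun _ => c)
    fun w hw => Nat.cast_le.2 (h w (mem_kbits hw))
  rwa [← Finset.sum_mul, h1, one_mul] at this

theorem le_kP {a b F c : ℕ} {y : Pt} (h0 : ∀ v, 0 ≤ y v) (h1 : ∑ v, y v = 1) (hF : inF F y)
    {l : Fin 4} (h : ∀ w ∈ kbits F, c ≤ kpos a b w l) : c ≤ kP a b y l := by
  have := sum_le_of h0 hF (g := fun w => kpos a b w l) (f := fun _ => c)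
    fun w hw => Nat.cast_le.2 (h w (mem_kbits hw))
  rwa [← Finset.sum_mul, h1, one_mul] at this

theorem kP_nonneg {a b : ℕ} {y : Pt} (h0 : ∀ v, 0 ≤ y v) (l : Fin 4) : 0 ≤ kP a b y l :=
  Finset.sum_nonneg fun w _ => mul_nonneg (h0 w) (Nat.cast_nonneg _)

/-- On a face of the unit cube the support lies in the face. -/
theorem mem_face {K' : List ℕ} {y : Pt} (hy : y ∈ real KC) {l : Fin 4} {c : ℕ} (hc : c ≤ 1)
    (h : kP 2 2 y l = c) (hK : ∀ F ∈ KC, (∀ w ∈ kbits F, kpos 2 2 w l ≤ 1) ∧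
      ∃ G ∈ K', ∀ w ∈ kbits F, kpos 2 2 w l = c → G.testBit w = true) : y ∈ real K' := by
  obtain ⟨h0, h1, F, hF, hy⟩ := hy
  obtain ⟨c1, G, hG, c2⟩ := hK F hF
  refine ⟨h0, h1, G, hG, fun w hw => c2 w (mem_kbits (hy w hw)) ?_⟩
  have e : ∑ w : Fin 128, y w * ((kpos 2 2 w l : ℝ) - c) ^ 2 = 0 := by
    have : ∀ w : Fin 128, y w * ((kpos 2 2 w l : ℝ) - c) ^ 2 =
        (1 - 2 * c) * (y w * kpos 2 2 w l) + c * y w := by
      intro w
      by_cases hw : y w = 0
      · simp [hw]
      · have := c1 w (mem_kbits (hy w hw))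
        generalize kpos 2 2 w l = n at this
        interval_cases n <;> interval_cases c <;> norm_num
    simp only [this, Finset.sum_add_distrib, ← Finset.mul_sum, h1]
    rw [← kP, h]
    interval_cases c <;> norm_num
  have := (Finset.sum_eq_zero_iff_of_nonneg fun w _ => mul_nonneg (h0 w) (sq_nonneg _)).1 e w
    (Finset.mem_univ w)
  exact_mod_cast sub_eq_zero.1 (pow_eq_zero_iff two_ne_zero |>.1 ((mul_eq_zero.1 this).resolve_left hw))

theorem face_eq {K' : List ℕ} {y : Pt} (hy : y ∈ real K') {Q : Fin 4 → ℕ → Prop}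
    (hK : ∀ G ∈ K', ∃ l : Fin 4, ∃ c : Fin 2, Q l c ∧ ∀ w ∈ kbits G, kpos 2 2 w l = c) :
    ∃ l c, c ≤ 1 ∧ Q l c ∧ kP 2 2 y l = c := by
  obtain ⟨h0, h1, G, hG, hy⟩ := hy
  obtain ⟨l, c, q, h⟩ := hK G hG
  exact ⟨l, c, by omega, q, le_antisymm (kP_le h0 h1 hy fun w hw => (h w hw).le)
    (le_kP h0 h1 hy fun w hw => (h w hw).ge)⟩

theorem kP_zero (a b : ℕ) (y : Pt) : kP a b y 0 = 0 := by simp [kP, kpos]

theorem cube_model : ∃ n : I × I × I → Pt, Continuous n ∧ Function.Injective n ∧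
    Set.range n = real KC ∧ (∀ p, n p ∈ real KC0 ↔ p.1 = 0) ∧ (∀ p, n p ∈ real KC1 ↔ p.1 = 1) ∧
    ∀ p, n p ∈ real KCS ↔ p ∉ inner3 := by
  have hK : ∀ F ∈ KC, FacetOK 2 2 8 F := by decide +kernel
  let e : I × I × I → Fin 4 → ℝ := fun p => ![0, p.1, p.2.1, p.2.2]
  have key : ∀ p, kN 2 2 8 (e p) ∈ real KC ∧ kP 2 2 (kN 2 2 8 (e p)) = e p := by
    intro p
    obtain ⟨y, h1, h2⟩ := cube_onto (a := 2) (b := 2) (K := KC) (v := 0) (by decide +kernel)
      (x := e p) rfl fun l hl => by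
        fin_cases l
        · exact absurd rfl hl
        · simpa [e, kpos] using And.intro p.1.2.1 p.1.2.2
        · simpa [e, kpos] using And.intro p.2.1.2.1 p.2.1.2.2
        · simpa [e, kpos] using And.intro p.2.2.2.1 p.2.2.2.2
    rw [← h2, kN_kP hK h1]
    exact ⟨h1, rfl⟩
  refine ⟨fun p => kN 2 2 8 (e p), (continuous_kN _ _ _).comp ?_, fun p q h => ?_, ?_,
    fun p => ⟨fun h => ?_, fun h => ?_⟩, fun p => ⟨fun h => ?_, fun h => ?_⟩,
    fun p => ⟨fun h => ?_, fun h => ?_⟩⟩
  · refine continuous_pi fun l => ?_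
    fin_cases l <;> simp only [e] <;> fun_prop
  · have : e p = e q := by rw [← (key p).2, ← (key q).2]; exact congrArg _ h
    exact Prod.ext (Subtype.ext (congrFun this 1))
      (Prod.ext (Subtype.ext (congrFun this 2)) (Subtype.ext (congrFun this 3)))
  · refine Set.Subset.antisymm (by rintro _ ⟨p, rfl⟩; exact (key p).1) fun y hy => ?_
    have hy' := hy
    obtain ⟨h0, h1, F, hF, hy'⟩ := hy'
    have c : ∀ F ∈ KC, ∀ l, ∀ w ∈ kbits F, kpos 2 2 w l ≤ 1 := by decide +kernel
    have m : ∀ l, kP 2 2 y l ∈ I := fun l =>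
      ⟨kP_nonneg h0 l, by simpa using kP_le h0 h1 hy' (c F hF l)⟩
    refine ⟨(⟨_, m 1⟩, ⟨_, m 2⟩, ⟨_, m 3⟩), Eq.trans (congrArg _ ?_) (kN_kP hK hy)⟩
    funext l
    fin_cases l
    exacts [(kP_zero _ _ _).symm, rfl, rfl, rfl]
  · obtain ⟨l, c, -, ⟨rfl, rfl⟩, q⟩ := face_eq h (Q := fun l c => l = 1 ∧ c = 0) (by decide +kernel)
    rw [(key p).2] at q
    exact Subtype.ext (by simpa [e] using q)
  · exact mem_face (key p).1 (l := 1) (c := 0) (by norm_num) (by rw [(key p).2]; simp [e, h])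
      (by decide +kernel)
  · obtain ⟨l, c, -, ⟨rfl, rfl⟩, q⟩ := face_eq h (Q := fun l c => l = 1 ∧ c = 1) (by decide +kernel)
    rw [(key p).2] at q
    exact Subtype.ext (by simpa [e] using q)
  · exact mem_face (key p).1 (l := 1) (c := 1) (by norm_num) (by rw [(key p).2]; simp [e, h])
      (by decide +kernel)
  · obtain ⟨l, c, hc, hl, q⟩ := face_eq h (Q := fun l _ => l = 2 ∨ l = 3) (by decide +kernel)
    rw [(key p).2] at q
    rintro ⟨p1, p2, p3, p4⟩
    rcases hl with rfl | rfl <;> interval_cases c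
    · exact p1.ne' (Subtype.ext (by simpa [e] using q))
    · exact p2.ne (Subtype.ext (by simpa [e] using q))
    · exact p3.ne' (Subtype.ext (by simpa [e] using q))
    · exact p4.ne (Subtype.ext (by simpa [e] using q))
  · simp only [inner3, Set.mem_ofPred_eq, not_and_or, not_lt] at h
    rcases h with h | h | h | h
    · exact mem_face (key p).1 (l := 2) (c := 0) (by norm_num)
        (by rw [(key p).2]; simp [e, le_antisymm h unitInterval.nonneg']) (by decide +kernel)
    · exact mem_face (key p).1 (l := 2) (c := 1) (by norm_num)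
        (by rw [(key p).2]; simp [e, le_antisymm unitInterval.le_one' h]) (by decide +kernel)
    · exact mem_face (key p).1 (l := 3) (c := 0) (by norm_num)
        (by rw [(key p).2]; simp [e, le_antisymm h unitInterval.nonneg']) (by decide +kernel)
    · exact mem_face (key p).1 (l := 3) (c := 1) (by norm_num)
        (by rw [(key p).2]; simp [e, le_antisymm unitInterval.le_one' h]) (by decide +kernel)

theorem kp_facets : ∀ F ∈ KP, FacetOK 6 4 48 F := by decide +kernel

theorem kp_cubes : ∀ i : Fin 5, ∀ j : Fin 3, (j = 1 → i ≠ 1 ∧ i ≠ 3) →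
    CubeOK 6 4 KP (i + 6 * j) ∧ kpos 6 4 (i + 6 * j) 1 = i ∧ kpos 6 4 (i + 6 * j) 2 = j ∧
      kpos 6 4 (i + 6 * j) 3 = 0 := by decide +kernel

theorem kp_region : ∀ F ∈ KP, (∀ w ∈ kbits F, kpos 6 4 w 1 ≤ 5) ∧ (∀ w ∈ kbits F, kpos 6 4 w 2 ≤ 3) ∧
    (∀ w ∈ kbits F, kpos 6 4 w 3 ≤ 1) ∧ ∀ k : Fin 2, (∀ w ∈ kbits F, kpos 6 4 w 1 ≤ 2 * k + 1) ∨
      (∀ w ∈ kbits F, 2 * k + 2 ≤ kpos 6 4 w 1) ∨ (∀ w ∈ kbits F, kpos 6 4 w 2 ≤ 1) ∨
      ∀ w ∈ kbits F, 2 ≤ kpos 6 4 w 2 := by decide +kernel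

theorem exists_cube (p : Handlebody 2) : ∃ (i : Fin 5) (j : Fin 3), (j = 1 → i ≠ 1 ∧ i ≠ 3) ∧
    (i.1 : ℝ) ≤ p.1.1 ∧ p.1.1 ≤ i.1 + 1 ∧ (j.1 : ℝ) ≤ p.1.2.1 ∧ p.1.2.1 ≤ j.1 + 1 := by
  obtain ⟨⟨x, y, z⟩, h1, h2, h3, h4, -, -, h⟩ := p
  have k0 := h 0 (by norm_num)
  have k1 := h 1 (by norm_num)
  norm_num at h1 h2 h3 h4 k0 k1 ⊢
  have hi : ∃ i : Fin 5, (i.1 : ℝ) ≤ x ∧ x ≤ i.1 + 1 ∧
      (1 < y → y < 2 → i ≠ 1 ∧ i ≠ 3) := by
    rcases le_or_gt x 1 with a | a
    · exact ⟨0, by simpa using h1, by simpa using a, fun _ _ => by decide⟩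
    rcases lt_or_ge x 2 with b | b
    · exact ⟨1, by simpa using a.le, by norm_num; linarith, fun u v => by linarith [k0 a b u]⟩
    rcases le_or_gt x 3 with c | c
    · exact ⟨2, by simpa using b, by norm_num; linarith, fun _ _ => by decide⟩
    rcases lt_or_ge x 4 with d | d
    · exact ⟨3, by simpa using c.le, by norm_num; linarith, fun u v => by linarith [k1 c d u]⟩
    · exact ⟨4, by simpa using d, by norm_num; linarith, fun _ _ => by decide⟩
  obtain ⟨i, a, b, c⟩ := hi
  rcases le_or_gt y 1 with u | u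
  · exact ⟨i, 0, by simp, a, b, by simpa using h3, by simpa using u⟩
  rcases lt_or_ge y 2 with v | v
  · exact ⟨i, 1, fun _ => c u v, a, b, by simpa using u.le, by norm_num; linarith⟩
  · exact ⟨i, 2, by simp, a, b, by simpa using v, by norm_num; linarith⟩

theorem handle_model : ∃ h : Handlebody 2 → Pt, Continuous h ∧ Function.Injective h ∧
    Set.range h = real KP := by
  let e : Handlebody 2 → Fin 4 → ℝ := fun p => ![0, p.1.1, p.1.2.1, p.1.2.2]
  have key : ∀ p, kN 6 4 48 (e p) ∈ real KP ∧ kP 6 4 (kN 6 4 48 (e p)) = e p := by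
    intro p
    obtain ⟨i, j, c, a1, a2, a3, a4⟩ := exists_cube p
    obtain ⟨c0, c1, c2, c3⟩ := kp_cubes i j c
    obtain ⟨y, h1, h2⟩ := cube_onto c0 (x := e p) rfl fun l hl => by
      fin_cases l
      · exact absurd rfl hl
      · exact c1.symm ▸ ⟨a1, a2⟩
      · exact c2.symm ▸ ⟨a3, a4⟩
      · refine c3.symm ▸ ?_
        simpa [e] using And.intro p.2.2.2.2.2.1 p.2.2.2.2.2.2.1
    rw [← h2, kN_kP kp_facets h1]
    exact ⟨h1, rfl⟩
  refine ⟨fun p => kN 6 4 48 (e p), (continuous_kN _ _ _).comp ?_, fun p q h => ?_, ?_⟩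
  · refine continuous_pi fun l => ?_
    fin_cases l <;> simp only [e] <;> fun_prop
  · have : e p = e q := by rw [← (key p).2, ← (key q).2]; exact congrArg _ h
    exact Subtype.ext (Prod.ext (congrFun this 1) (Prod.ext (congrFun this 2) (congrFun this 3)))
  · refine Set.Subset.antisymm (by rintro _ ⟨p, rfl⟩; exact (key p).1) fun y hy => ?_
    have hy' := hy
    obtain ⟨h0, h1, F, hF, hy'⟩ := hy'
    obtain ⟨c1, c2, c3, c4⟩ := kp_region F hF
    have d1 := kP_le h0 h1 hy' c1
    have d2 := kP_le h0 h1 hy' c2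
    have d3 := kP_le h0 h1 hy' c3
    refine ⟨⟨(kP 6 4 y 1, kP 6 4 y 2, kP 6 4 y 3), kP_nonneg h0 1, by norm_num at d1 ⊢; exact d1,
      kP_nonneg h0 2, by simpa using d2, kP_nonneg h0 3, by simpa using d3, fun k hk h => ?_⟩,
      Eq.trans (congrArg _ ?_) (kN_kP kp_facets hy)⟩
    · obtain ⟨g1, g2, g3, g4⟩ := h
      rcases c4 ⟨k, hk⟩ with c | c | c | c
      · have := kP_le h0 h1 hy' c
        push_cast at this
        exact absurd g1 (not_lt.2 this)
      · have := le_kP h0 h1 hy' c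
        push_cast at this
        exact absurd g2 (not_lt.2 this)
      · exact absurd g3 (not_lt.2 (by simpa using kP_le h0 h1 hy' c))
      · exact absurd g4 (not_lt.2 (by simpa using le_kP h0 h1 hy' c))
    · funext l
      fin_cases l
      exacts [(kP_zero _ _ _).symm, rfl, rfl, rfl]

end Pool.Agent.Lib.MP_a11aea_gt
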