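import Pool.Agent.Lib.MP_a11aea_gt.H36LData

/-! Checks of the local data. -/

namespace Pool.Agent.Lib.MP_a11aea_gt

theorem bij0 : Set.BijOn (dat.P 0) (real (dat.subM 0)) Trunc :=
  bij_of_checks dat 0 (opsL 0) (corL 0) (by decide +kernel) (by decide +kernel) (by decide +kernel)
    (by decide +kernel) (by decide +kernel) (by decide +kernel)

theorem chk0 : (dat.sub 0).all (dat.chkF 0) = true := by decide +kernel

theorem bij1 : Set.BijOn (dat.P 1) (real (dat.subM 1)) Trunc :=
  bij_of_checks dat 1 (opsL 1) (corL 1) (by decide +kernel) (by decide +kernel) (by decide +kernel)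
    (by decide +kernel) (by decide +kernel) (by decide +kernel)

theorem chk1 : (dat.sub 1).all (dat.chkF 1) = true := by decide +kernel

theorem bij2 : Set.BijOn (dat.P 2) (real (dat.subM 2)) Trunc :=
  bij_of_checks dat 2 (opsL 2) (corL 2) (by decide +kernel) (by decide +kernel) (by decide +kernel)
    (by decide +kernel) (by decide +kernel) (by decide +kernel)

theorem chk2 : (dat.sub 2).all (dat.chkF 2) = true := by decide +kernel

theorem bij3 : Set.BijOn (dat.P 3) (real (dat.subM 3)) Trunc :=
  bij_of_checks dat 3 (opsL 3) (corL 3) (by decide +kernel) (by decide +kernel) (by decide +kernel)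
    (by decide +kernel) (by decide +kernel) (by decide +kernel)

theorem chk3 : (dat.sub 3).all (dat.chkF 3) = true := by decide +kernel

theorem dat_ok : dat.OK where
  subM := by decide +kernel
  bij i := by
    fin_cases i
    exacts [bij0, bij1, bij2, bij3]
  chk i := by
    fin_cases i
    exacts [List.all_eq_true.1 chk0, List.all_eq_true.1 chk1, List.all_eq_true.1 chk2,
      List.all_eq_true.1 chk3]

theorem path1 : dat.chkP A0 2 [10, 4, 6] = true := by decide +kernel

theorem path2 : dat.chkP A0 3 [8, 4, 43, 6] = true := by decide +kernel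

theorem path3 : dat.chkP A0 3 [7, 37, 5] = true := by decide +kernel

theorem path4 : dat.chkP A0 1 [6, 4, 15] = true := by decide +kernel

end Pool.Agent.Lib.MP_a11aea_gt
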