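import Pool.Agent.Lib.MP_a11aea_gt.H36Tri

/-! Linear algebra of the hyperboloid model. -/

namespace Pool.Agent.Lib.MP_a11aea_gt

open Matrix Finset
open scoped ComplexOrder

theorem act_one (X : Mat) : act 1 X = X := by simp [act]

theorem act_mul (A B : SL2C) (X : Mat) : act (A * B) X = act A (act B X) := by
  simp only [act, Matrix.SpecialLinearGroup.coe_mul, conjTranspose_mul, Matrix.mul_assoc]

theorem act_inv_act (A : SL2C) (X : Mat) : act A⁻¹ (act A X) = X := by
  rw [← act_mul, inv_mul_cancel, act_one]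

theorem act_act_inv (A : SL2C) (X : Mat) : act A (act A⁻¹ X) = X := by
  rw [← act_mul, mul_inv_cancel, act_one]

theorem act_injective (A : SL2C) : Function.Injective (act A) := 
  Function.LeftInverse.injective (act_inv_act A)

theorem act_add (A : SL2C) (X Y : Mat) : act A (X + Y) = act A X + act A Y := by
  simp only [act, Matrix.mul_add, Matrix.add_mul]

theorem act_smul (A : SL2C) (c : ℝ) (X : Mat) : act A (c • X) = c • act A X := by
  simp only [act, Matrix.mul_smul, Matrix.smul_mul]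

/-- The action as a real linear map. -/
noncomputable def actL (A : SL2C) : Mat →ₗ[ℝ] Mat where
  toFun := act A
  map_add' := act_add A
  map_smul' := act_smul A

@[simp] theorem actL_apply (A : SL2C) (X : Mat) : actL A X = act A X := rfl

theorem act_sum {ι : Type} (A : SL2C) (s : Finset ι) (f : ι → Mat) :
    act A (∑ i ∈ s, f i) = ∑ i ∈ s, act A (f i) := map_sum (actL A) f s

theorem continuous_act (A : SL2C) : Continuous (act A) := 
  (continuous_const.matrix_mul continuous_id).matrix_mul continuous_const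

theorem act_lightVec (A : SL2C) (v : Fin 2 → ℂ) : act A (lightVec v) = lightVec (A.1 *ᵥ v) := by
  rw [act, lightVec, lightVec, mul_vecMulVec, vecMulVec_mul, star_mulVec]

theorem lightVec_neg (v : Fin 2 → ℂ) : lightVec (-v) = lightVec v := by
  simp [lightVec]

theorem det_act (A : SL2C) (X : Mat) : (act A X).det = X.det := by
  rw [act, det_mul, det_mul, det_conjTranspose, A.2, star_one, one_mul, mul_one]

theorem isHermitian_act (A : SL2C) {X : Mat} (h : X.IsHermitian) : (act A X).IsHermitian := 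
  isHermitian_mul_mul_conjTranspose A.1 h

theorem posDef_act (A : SL2C) {X : Mat} (h : X.PosDef) : (act A X).PosDef := by
  refine h.mul_mul_conjTranspose_same ?_
  intro x y hxy
  have h1 := congrArg (fun z => z ᵥ* (A⁻¹ : SL2C).1) hxy
  simpa only [vecMul_vecMul, ← Matrix.SpecialLinearGroup.coe_mul, mul_inv_cancel,
    Matrix.SpecialLinearGroup.coe_one, vecMul_one] using h1

theorem posSemidef_act (A : SL2C) {X : Mat} (h : X.PosSemidef) : (act A X).PosSemidef := 
  h.mul_mul_conjTranspose_same A.1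

theorem act_mem_H3 (A : SL2C) {X : Mat} (h : X ∈ H3) : act A X ∈ H3 := 
  ⟨posDef_act A h.1, (det_act A X).trans h.2⟩

theorem mink_eq (X Y : Mat) :
    mink X Y = (X 0 0 * Y 1 1 + X 1 1 * Y 0 0 - X 0 1 * Y 1 0 - X 1 0 * Y 0 1).re := by
  rw [mink, adjugate_fin_two, trace_fin_two]
  congr 1
  simp [Matrix.mul_apply, Fin.sum_univ_two]
  ring

theorem mink_comm (X Y : Mat) : mink X Y = mink Y X := by
  rw [mink_eq, mink_eq]; congr 1; ring

theorem mink_add_left (X X' Y : Mat) : mink (X + X') Y = mink X Y + mink X' Y := by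
  rw [mink_eq, mink_eq, mink_eq, ← Complex.add_re]; congr 1; simp only [Matrix.add_apply]; ring

theorem mink_smul_left (c : ℝ) (X Y : Mat) : mink (c • X) Y = c * mink X Y := by
  rw [mink_eq, mink_eq, ← Complex.re_ofReal_mul]
  congr 1
  simp only [Matrix.smul_apply, Complex.real_smul]
  ring

/-- Pairing with `Y` as a real linear form. -/
noncomputable def minkL (Y : Mat) : Mat →ₗ[ℝ] ℝ where
  toFun X := mink X Y
  map_add' X X' := mink_add_left X X' Y
  map_smul' c X := mink_smul_left c X Y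

@[simp] theorem minkL_apply (X Y : Mat) : minkL Y X = mink X Y := rfl

theorem mink_sum_left {ι : Type} (s : Finset ι) (f : ι → Mat) (Y : Mat) :
    mink (∑ i ∈ s, f i) Y = ∑ i ∈ s, mink (f i) Y := map_sum (minkL Y) f s

theorem continuous_mink : Continuous fun p : Mat × Mat => mink p.1 p.2 := by
  simp only [mink_eq]
  fun_prop

theorem mink_det (X Y : Mat) : mink X Y = ((X + Y).det - X.det - Y.det).re := by
  rw [mink_eq]
  congr 1
  simp only [det_fin_two, Matrix.add_apply]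
  ring

theorem mink_act (A : SL2C) (X Y : Mat) : mink (act A X) (act A Y) = mink X Y := by
  rw [mink_det, mink_det, ← act_add, det_act, det_act, det_act]

theorem mink_self (X : Mat) : mink X X = 2 * X.det.re := by
  rw [mink_eq, det_fin_two, show (2 : ℝ) = ((2 : ℝ) : ℂ).re from rfl, Complex.ofReal_re,
    ← Complex.re_ofReal_mul]
  congr 1
  push_cast
  ring

theorem lightVec_apply (v : Fin 2 → ℂ) (i j : Fin 2) :
    lightVec v i j = v i * (starRingEnd ℂ) (v j) := rfl

theorem mink_lightVec (v w : Fin 2 → ℂ) :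
    mink (lightVec v) (lightVec w) = Complex.normSq (v 0 * w 1 - v 1 * w 0) := by
  rw [mink_eq, ← Complex.ofReal_re (Complex.normSq _), ← Complex.mul_conj]
  congr 1
  simp only [lightVec_apply, map_sub, map_mul]
  ring

theorem posSemidef_lightVec (v : Fin 2 → ℂ) : (lightVec v).PosSemidef := 
  posSemidef_vecMulVec_self_star v

theorem det_lightVec (v : Fin 2 → ℂ) : (lightVec v).det = 0 := by
  simp only [det_fin_two, lightVec_apply]; ring

/-- The entries of a Hermitian matrix. -/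
theorem herm_entries {X : Mat} (h : X.IsHermitian) :
    (X 0 0).im = 0 ∧ (X 1 1).im = 0 ∧ (X 1 0).re = (X 0 1).re ∧ (X 1 0).im = -(X 0 1).im := by
  have h0 := congrArg Complex.im (h.apply 0 0)
  have h1 := congrArg Complex.im (h.apply 1 1)
  have h2 := h.apply 1 0
  simp only [RCLike.star_def, Complex.conj_im] at h0 h1 h2
  refine ⟨by linarith, by linarith, ?_, ?_⟩
  · rw [← h2, Complex.conj_re]
  · rw [← h2, Complex.conj_im]

theorem det_re_herm {X : Mat} (h : X.IsHermitian) :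
    X.det.re = (X 0 0).re * (X 1 1).re - (X 0 1).re ^ 2 - (X 0 1).im ^ 2 := by
  obtain ⟨h0, h1, h2, h3⟩ := herm_entries h
  simp only [det_fin_two, Complex.sub_re, Complex.mul_re, h0, h1, h2, h3]
  ring

theorem mink_herm {X Y : Mat} (hX : X.IsHermitian) (hY : Y.IsHermitian) :
    mink X Y = (X 0 0).re * (Y 1 1).re + (X 1 1).re * (Y 0 0).re -
      2 * ((X 0 1).re * (Y 0 1).re + (X 0 1).im * (Y 0 1).im) := by
  obtain ⟨h0, h1, h2, h3⟩ := herm_entries hX
  obtain ⟨k0, k1, k2, k3⟩ := herm_entries hY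
  simp only [mink_eq, Complex.sub_re, Complex.add_re, Complex.mul_re, h0, h1, h2, h3, k0, k1, k2,
    k3]
  ring

theorem det_herm {X : Mat} (h : X.IsHermitian) : X.det = (X.det.re : ℂ) := by
  obtain ⟨h0, h1, h2, h3⟩ := herm_entries h
  refine Complex.ext (Complex.ofReal_re _).symm ?_
  simp only [det_fin_two, Complex.sub_im, Complex.mul_im, h0, h1, h2, h3, Complex.ofReal_im]
  ring

theorem posDef_iff (X : Mat) : X.PosDef ↔ X.IsHermitian ∧ 0 < (X 0 0).re ∧ 0 < X.det.re := by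
  refine ⟨fun h => ⟨h.1, (Complex.pos_iff.1 h.diag_pos).1, (Complex.pos_iff.1 h.det_pos).1⟩, ?_⟩
  rintro ⟨h, ha, hd⟩
  obtain ⟨h0, h1, h2, h3⟩ := herm_entries h
  rw [det_re_herm h] at hd
  refine PosDef.of_dotProduct_mulVec_pos h fun x hx => ?_
  have hx' : 0 < (x 0).re ^ 2 + (x 0).im ^ 2 ∨ 0 < (x 1).re ^ 2 + (x 1).im ^ 2 := by
    by_contra hc
    push Not at hc
    apply hx
    funext i
    fin_cases i
    · exact Complex.ext (by simp only [Fin.zero_eta, Pi.zero_apply, Complex.zero_re]; nlinarith)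
        (by simp only [Fin.zero_eta, Pi.zero_apply, Complex.zero_im]; nlinarith)
    · exact Complex.ext (by simp only [Fin.mk_one, Pi.zero_apply, Complex.zero_re]; nlinarith)
        (by simp only [Fin.mk_one, Pi.zero_apply, Complex.zero_im]; nlinarith)
  rw [Complex.pos_iff]
  simp only [dotProduct, mulVec, Fin.sum_univ_two, Pi.star_apply, RCLike.star_def, Complex.add_re,
    Complex.add_im, Complex.mul_re, Complex.mul_im, Complex.conj_re, Complex.conj_im, h0, h1, h2,
    h3]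
  refine ⟨?_, by ring⟩
  set a := (X 0 0).re
  set d := (X 1 1).re
  set p := (X 0 1).re
  set q := (X 0 1).im
  set x1 := (x 0).re
  set x2 := (x 0).im
  set y1 := (x 1).re
  set y2 := (x 1).im
  refine pos_of_mul_pos_right (a := a) ?_ ha.le
  have e : 0 < (a * x1 + p * y1 - q * y2) ^ 2 + (a * x2 + p * y2 + q * y1) ^ 2 +
      (a * d - p ^ 2 - q ^ 2) * (y1 ^ 2 + y2 ^ 2) := by
    by_cases hy : 0 < y1 ^ 2 + y2 ^ 2
    · positivity
    · have e1 : y1 = 0 := by nlinarith
      have e2 : y2 = 0 := by nlinarith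
      have := hx'.resolve_right hy
      rw [e1, e2]
      nlinarith [mul_pos (pow_pos ha 2) this]
  exact e.trans_eq (by ring)

theorem posDef_of_posSemidef {X : Mat} (h : X.PosSemidef) (hd : 0 < X.det.re) : X.PosDef := by
  refine (posDef_iff X).2 ⟨h.1, ?_, hd⟩
  have h0 : 0 ≤ (X 0 0).re := (Complex.nonneg_iff.1 h.diag_nonneg).1
  rw [det_re_herm h.1] at hd
  refine h0.lt_of_ne fun e => ?_
  rw [← e] at hd
  nlinarith

theorem det_re_nonneg {X : Mat} (h : X.PosSemidef) : 0 ≤ X.det.re := 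
  (Complex.nonneg_iff.1 h.det_nonneg).1

theorem le_of_sq_le_sq_of_nonneg_aux {x y : ℝ} (hy : 0 ≤ y) (h : x ^ 2 ≤ y ^ 2) : x ≤ y :=
  (abs_le_of_sq_le_sq' h hy).2

theorem mink_nonneg {X Y : Mat} (hX : X.PosSemidef) (hY : Y.PosSemidef) : 0 ≤ mink X Y := by
  have a0 : 0 ≤ (X 0 0).re := (Complex.nonneg_iff.1 hX.diag_nonneg).1
  have d0 : 0 ≤ (X 1 1).re := (Complex.nonneg_iff.1 hX.diag_nonneg).1
  have a1 : 0 ≤ (Y 0 0).re := (Complex.nonneg_iff.1 hY.diag_nonneg).1
  have d1 : 0 ≤ (Y 1 1).re := (Complex.nonneg_iff.1 hY.diag_nonneg).1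
  have e0 := det_re_nonneg hX
  have e1 := det_re_nonneg hY
  rw [det_re_herm hX.1] at e0
  rw [det_re_herm hY.1] at e1
  rw [mink_herm hX.1 hY.1, sub_nonneg]
  set a := (X 0 0).re
  set d := (X 1 1).re
  set p := (X 0 1).re
  set q := (X 0 1).im
  set a' := (Y 0 0).re
  set d' := (Y 1 1).re
  set p' := (Y 0 1).re
  set q' := (Y 0 1).im
  refine le_of_sq_le_sq_of_nonneg_aux (by positivity) ?_
  have h1 : (p ^ 2 + q ^ 2) * (p' ^ 2 + q' ^ 2) ≤ (a * d) * (a' * d') :=
    mul_le_mul (by linarith) (by linarith) (by positivity) (by positivity)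
  nlinarith [sq_nonneg (p * q' - q * p'), sq_nonneg (a * d' - d * a')]

theorem mink_pos {X : Mat} (hX : X.PosDef) {v : Fin 2 → ℂ} (hv : v ≠ 0) :
    0 < mink X (lightVec v) := by
  have hw : (![(starRingEnd ℂ) (v 1), -(starRingEnd ℂ) (v 0)] : Fin 2 → ℂ) ≠ 0 := by
    intro h
    apply hv
    have h0 := congrFun h 0
    have h1 := congrFun h 1
    simp only [cons_val_zero, cons_val_one, Pi.zero_apply, map_eq_zero, neg_eq_zero,
      cons_val_fin_one] at h0 h1
    funext i
    fin_cases i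
    exacts [h1, h0]
  refine (Complex.pos_iff.1 (hX.dotProduct_mulVec_pos hw)).1.trans_eq ?_
  rw [mink_eq]
  congr 1
  simp [dotProduct, mulVec, Fin.sum_univ_two, lightVec_apply]
  ring

/-- Two light cone vectors seen from a point of `H3`. -/
theorem mink_le_mul {X : Mat} (hX : X ∈ H3) (v w : Fin 2 → ℂ) :
    mink (lightVec v) (lightVec w) ≤ mink X (lightVec v) * mink X (lightVec w) := by
  have h := hX.1.1
  have hd : X 0 0 * X 1 1 - X 0 1 * X 1 0 = 1 := by rw [← det_fin_two]; exact hX.2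
  have c0 : (starRingEnd ℂ) (X 0 0) = X 0 0 := h.apply 0 0
  have c1 : (starRingEnd ℂ) (X 1 1) = X 1 1 := h.apply 1 1
  have c2 : (starRingEnd ℂ) (X 0 1) = X 1 0 := h.apply 1 0
  have c3 : (starRingEnd ℂ) (X 1 0) = X 0 1 := h.apply 0 1
  let H : (Fin 2 → ℂ) → (Fin 2 → ℂ) → ℂ := fun v w =>
    X 0 0 * (v 1 * (starRingEnd ℂ) (w 1)) + X 1 1 * (v 0 * (starRingEnd ℂ) (w 0)) -
      X 0 1 * (v 1 * (starRingEnd ℂ) (w 0)) - X 1 0 * (v 0 * (starRingEnd ℂ) (w 1))
  have hc : ∀ v w, (starRingEnd ℂ) (H v w) = H w v := by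
    intro v w
    simp only [H, map_sub, map_add, map_mul, Complex.conj_conj, c0, c1, c2, c3]
    ring
  have hm : ∀ v, H v v = (mink X (lightVec v) : ℝ) := by
    intro v
    rw [mink_eq]
    exact (Complex.conj_eq_iff_re.1 (hc v v)).symm
  have key : H v v * H w w = H v w * (starRingEnd ℂ) (H v w) +
      (v 0 * w 1 - v 1 * w 0) * (starRingEnd ℂ) (v 0 * w 1 - v 1 * w 0) := by
    rw [hc]
    simp only [H, map_sub, map_mul]
    linear_combination ((v 0 * w 1 - v 1 * w 0) * ((starRingEnd ℂ) (v 0) * (starRingEnd ℂ) (w 1) -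
      (starRingEnd ℂ) (v 1) * (starRingEnd ℂ) (w 0))) * hd
  rw [hm, hm, Complex.mul_conj, Complex.mul_conj] at key
  have key' : mink X (lightVec v) * mink X (lightVec w) =
      Complex.normSq (H v w) + Complex.normSq (v 0 * w 1 - v 1 * w 0) := by exact_mod_cast key
  rw [key', mink_lightVec]
  linarith [Complex.normSq_nonneg (H v w)]

theorem lightVec_prop {v w : Fin 2 → ℂ} (hv : v ≠ 0) (h : mink (lightVec v) (lightVec w) = 0) :
    ∃ t : ℝ, lightVec w = t • lightVec v := by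
  rw [mink_lightVec, Complex.normSq_eq_zero] at h
  obtain ⟨c, hc⟩ : ∃ c : ℂ, ∀ i, w i = c * v i := by
    by_cases h0 : v 0 = 0
    · have h1 : v 1 ≠ 0 := fun h1 => hv (by
        funext i
        fin_cases i
        exacts [h0, h1])
      refine ⟨w 1 / v 1, Fin.forall_fin_two.2 ⟨?_, by field_simp⟩⟩
      field_simp
      linear_combination -h
    · refine ⟨w 0 / v 0, Fin.forall_fin_two.2 ⟨by field_simp, ?_⟩⟩
      field_simp
      linear_combination h
  refine ⟨Complex.normSq c, ?_⟩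
  ext i j
  rw [Matrix.smul_apply, lightVec_apply, lightVec_apply, hc i, hc j, Complex.real_smul,
    ← Complex.mul_conj, map_mul]
  ring

theorem isClosed_H3 : IsClosed H3 := by
  have : H3 = {X : Mat | Xᴴ = X} ∩ ({X | 0 ≤ (X 0 0).re} ∩ {X | X.det = 1}) := by
    ext X
    refine ⟨fun h => ⟨h.1.1, ((posDef_iff X).1 h.1).2.1.le, h.2⟩, ?_⟩
    rintro ⟨h1, h2, h3⟩
    have hd : X.det.re = 1 := by rw [show X.det = 1 from h3, Complex.one_re]
    refine ⟨(posDef_iff X).2 ⟨h1, lt_of_le_of_ne h2 fun e => ?_, by rw [hd]; exact one_pos⟩, h3⟩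
    rw [det_re_herm h1, ← e] at hd
    nlinarith
  rw [this]
  exact (isClosed_eq continuous_id.matrix_conjTranspose continuous_id).inter
    ((isClosed_le continuous_const (by fun_prop)).inter
      (isClosed_eq continuous_id.matrix_det continuous_const))

theorem isClosed_core (Γ : Subgroup SL2C) (v : Fin 2 → ℂ) (s : ℝ) : IsClosed (core Γ v s) := by
  have : core Γ v s = H3 ∩ ⋂ u ∈ cuspOrbit Γ v, {X | s ≤ mink X u} := by
    ext X
    simp only [core, horoball, Set.mem_ofPred_eq, Set.mem_inter_iff, Set.mem_iInter, not_and,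
      not_lt]
    exact ⟨fun h => ⟨h.1, fun u hu => h.2 u hu h.1⟩, fun h => ⟨h.1, fun u hu _ => h.2 u hu⟩⟩
  rw [this]
  exact isClosed_H3.inter (isClosed_biInter fun u _ => isClosed_le continuous_const
    (continuous_mink.comp (continuous_id.prodMk continuous_const)))

theorem act_mem_cuspOrbit {Γ : Subgroup SL2C} {v : Fin 2 → ℂ} {γ : SL2C} (hγ : γ ∈ Γ) {u : Mat}
    (hu : u ∈ cuspOrbit Γ v) : act γ u ∈ cuspOrbit Γ v := by
  obtain ⟨δ, hδ, rfl⟩ := hu
  exact ⟨γ * δ, Γ.mul_mem hγ hδ, (act_mul _ _ _).symm⟩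

theorem act_mem_core {Γ : Subgroup SL2C} {v : Fin 2 → ℂ} {s : ℝ} {γ : SL2C} (hγ : γ ∈ Γ) {X : Mat}
    (hX : X ∈ core Γ v s) : act γ X ∈ core Γ v s := by
  refine ⟨act_mem_H3 γ hX.1, fun u hu h => ?_⟩
  refine hX.2 _ (act_mem_cuspOrbit (Γ.inv_mem hγ) hu) ⟨hX.1, ?_⟩
  rw [← mink_act γ, act_act_inv]
  exact h.2

theorem exists_lightVec {Γ : Subgroup SL2C} {v : Fin 2 → ℂ} (hv : v ≠ 0) {u : Mat}
    (hu : u ∈ cuspOrbit Γ v) : ∃ w : Fin 2 → ℂ, w ≠ 0 ∧ u = lightVec w := by
  obtain ⟨γ, -, rfl⟩ := hu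
  refine ⟨γ.1 *ᵥ v, fun h => hv ?_, act_lightVec γ v⟩
  have h1 := congrArg (fun z => (γ⁻¹ : SL2C).1 *ᵥ z) h
  simpa only [mulVec_mulVec, ← Matrix.SpecialLinearGroup.coe_mul, inv_mul_cancel,
    Matrix.SpecialLinearGroup.coe_one, one_mulVec, mulVec_zero] using h1

theorem mink_comb (u : Fin 4 → Mat) (c : Fin 4 → ℝ) (k : Fin 4) :
    mink (∑ j, c j • u j) (u k) = Lm (fun j k => mink (u j) (u k)) c k := by
  rw [mink_sum_left, Lm]
  exact sum_congr rfl fun j _ => by rw [mink_smul_left, mink_comm, mul_comm]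

theorem det_comb (u : Fin 4 → Mat) (c : Fin 4 → ℝ) :
    (∑ j, c j • u j).det.re = Qm (fun j k => mink (u j) (u k)) c := by
  have h := mink_self (∑ j, c j • u j)
  rw [mink_sum_left] at h
  have h2 : ∑ j, mink (c j • u j) (∑ j, c j • u j) = ∑ j, ∑ k, mink (u j) (u k) * c j * c k := by
    refine sum_congr rfl fun j _ => ?_
    rw [mink_smul_left, mink_comm, mink_comb, Lm, mul_sum]
    exact sum_congr rfl fun k _ => by ring
  rw [Qm, ← h2, h]
  ring

/-- Real coordinates of a Hermitian matrix. -/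
def co : Mat →ₗ[ℝ] (Fin 4 → ℝ) where
  toFun X := ![(X 0 0).re, (X 1 1).re, (X 0 1).re, (X 0 1).im]
  map_add' X Y := by
    funext i
    fin_cases i <;> simp
  map_smul' c X := by
    funext i
    fin_cases i <;> simp

theorem co_inj {X Y : Mat} (hX : X.IsHermitian) (hY : Y.IsHermitian) (h : co X = co Y) : X = Y := by
  obtain ⟨h0, h1, h2, h3⟩ := herm_entries hX
  obtain ⟨k0, k1, k2, k3⟩ := herm_entries hY
  have e0 : (X 0 0).re = (Y 0 0).re := congrFun h 0
  have e1 : (X 1 1).re = (Y 1 1).re := congrFun h 1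
  have e2 : (X 0 1).re = (Y 0 1).re := congrFun h 2
  have e3 : (X 0 1).im = (Y 0 1).im := congrFun h 3
  refine Matrix.ext (Fin.forall_fin_two.2 ⟨Fin.forall_fin_two.2 ⟨?_, ?_⟩,
    Fin.forall_fin_two.2 ⟨?_, ?_⟩⟩)
  · exact Complex.ext e0 (h0.trans k0.symm)
  · exact Complex.ext e2 e3
  · exact Complex.ext (by rw [h2, k2, e2]) (by rw [h3, k3, e3])
  · exact Complex.ext e1 (h1.trans k1.symm)

theorem herm_comb (v : Fin 4 → Fin 2 → ℂ) (c : Fin 4 → ℝ) :
    (∑ k, c k • lightVec (v k)).IsHermitian := by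
  rw [IsHermitian, conjTranspose_sum]
  refine sum_congr rfl fun k _ => ?_
  rw [conjTranspose_smul, (posSemidef_lightVec (v k)).1.eq, star_trivial]

theorem eq_zero_of_Lm {m : Fin 4 → Fin 4 → ℝ} (hg : GoodM m)
    (hq : ∀ c : Fin 4 → ℝ, (1 / 10) * ∑ k, c k ^ 2 ≤ 3 * (∑ k, c k) ^ 2 - Qm m c)
    {c : Fin 4 → ℝ} (h : ∀ k, Lm m c k = 0) : c = 0 := by
  have h0 := h 0
  have h1 := h 1
  have h2 := h 2
  have h3 := h 3
  have key := hq ![-(c 1 + c 2 + c 3), c 1, c 2, c 3]
  simp only [Lm, Qm, Fin.sum_univ_four, cons_val_zero, cons_val_one, Matrix.cons_val, hg.diag,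
    hg.symm 1 0, hg.symm 2 0, hg.symm 3 0, hg.symm 2 1, hg.symm 3 1, hg.symm 3 2] at h0 h1 h2 h3 key
  have k1 : (c 1 + c 2 + c 3) ^ 2 + c 1 ^ 2 + c 2 ^ 2 + c 3 ^ 2 ≤ 0 := by
    linear_combination 10 * key - 5 * c 1 * h1 - 5 * c 2 * h2 - 5 * c 3 * h3 +
      (5 * c 0 + 10 * (c 1 + c 2 + c 3)) * h0
  have e1 : c 1 = 0 := by nlinarith
  have e2 : c 2 = 0 := by nlinarith
  have e3 : c 3 = 0 := by nlinarith
  have e0 : c 0 = 0 := by
    rw [e2, e3] at h1
    have := hg.ge 0 1 (by decide)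
    have h4 : m 0 1 * c 0 = 0 := by linarith
    exact (mul_eq_zero.1 h4).resolve_left (by linarith)
  funext i
  fin_cases i
  exacts [e0, e1, e2, e3]

/-- Four light cone vectors with a Gram matrix as in `Tri` are a basis of the Hermitian matrices;
`b` is the coordinate map. -/
theorem exists_coords (v : Fin 4 → Fin 2 → ℂ)
    (hg : GoodM fun j k => mink (lightVec (v j)) (lightVec (v k)))
    (hq : ∀ c : Fin 4 → ℝ, (1 / 10) * ∑ k, c k ^ 2 ≤
      3 * (∑ k, c k) ^ 2 - Qm (fun j k => mink (lightVec (v j)) (lightVec (v k))) c) :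
    ∃ b : Mat →ₗ[ℝ] (Fin 4 → ℝ), (∀ X : Mat, X.IsHermitian → ∑ k, b X k • lightVec (v k) = X) ∧
      ∀ c : Fin 4 → ℝ, b (∑ k, c k • lightVec (v k)) = c := by
  let F : (Fin 4 → ℝ) →ₗ[ℝ] Mat := Fintype.linearCombination ℝ fun k => lightVec (v k)
  have hF : ∀ c, F c = ∑ k, c k • lightVec (v k) := fun c => rfl
  have hinj : Function.Injective (co ∘ₗ F) := by
    refine (injective_iff_map_eq_zero _).2 fun c hc => eq_zero_of_Lm hg hq fun k => ?_
    have h0 : ∑ k, c k • lightVec (v k) = 0 :=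
      co_inj (herm_comb v c) isHermitian_zero (by rw [map_zero]; exact hc)
    rw [← mink_comb (fun k => lightVec (v k)) c k, h0]
    exact map_zero (minkL _)
  let E := LinearEquiv.ofInjectiveEndo _ hinj
  have hE : ∀ c, E c = co (∑ k, c k • lightVec (v k)) := fun c => rfl
  refine ⟨E.symm.toLinearMap ∘ₗ co, fun X hX => co_inj (herm_comb v _) hX ?_, fun c => ?_⟩
  · rw [← hE]
    exact E.apply_symm_apply _
  · exact (congrArg E.symm (hE c).symm).trans (E.symm_apply_apply c)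

namespace Tri

variable (T : Tri)

/-- Cone coordinates in tetrahedron `i`. -/
noncomputable def bc (i : Fin 4) : Mat →ₗ[ℝ] (Fin 4 → ℝ) :=
  (exists_coords (T.v i) (T.good i) (T.quad i)).choose

theorem comb_bc (i : Fin 4) {X : Mat} (h : X.IsHermitian) : T.comb i (T.bc i X) = X :=
  (exists_coords (T.v i) (T.good i) (T.quad i)).choose_spec.1 X h

theorem bc_comb (i : Fin 4) (c : Fin 4 → ℝ) : T.bc i (T.comb i c) = c :=
  (exists_coords (T.v i) (T.good i) (T.quad i)).choose_spec.2 c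

/-- Cone coordinates in the translated tetrahedron `τ`. -/
noncomputable def be (τ : SL2C × Fin 4) (X : Mat) : Fin 4 → ℝ := T.bc τ.2 (act τ.1⁻¹ X)

theorem goodM (i : Fin 4) : GoodM (T.m i) := T.good i

theorem mink_comb (i : Fin 4) (c : Fin 4 → ℝ) (k : Fin 4) :
    mink (T.comb i c) (T.u i k) = Lm (T.m i) c k :=
  Pool.Agent.Lib.MP_a11aea_gt.mink_comb (T.u i) c k

theorem det_comb (i : Fin 4) (c : Fin 4 → ℝ) : (T.comb i c).det.re = Qm (T.m i) c :=
  Pool.Agent.Lib.MP_a11aea_gt.det_comb (T.u i) c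

theorem g_mem (i a : Fin 4) : T.g i a ∈ T.G := Subgroup.subset_closure ⟨(i, a), rfl⟩

theorem e1_ne : e1 ≠ 0 := fun h => one_ne_zero (congrFun h 0)

theorem u_mem (i k : Fin 4) : T.u i k ∈ T.O := by
  have step : ∀ i a k, k ≠ a → T.u (nb i a) (pm i a k) ∈ T.O → T.u i k ∈ T.O := by
    intro i a k hk h
    rw [u, T.glue i a k hk]
    exact act_mem_cuspOrbit (T.g_mem i a) h
  have h00 : T.u 0 0 ∈ T.O := ⟨1, T.G.one_mem, by rw [act_one, u, T.base]⟩
  have h03 : T.u 0 3 ∈ T.O := step 0 0 3 (by decide) h00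
  have h10 : T.u 1 0 ∈ T.O := step 1 3 0 (by decide) h00
  have h20 : T.u 2 0 ∈ T.O := step 2 2 0 (by decide) h10
  have h21 : T.u 2 1 ∈ T.O := step 2 0 1 (by decide) h03
  have h22 : T.u 2 2 ∈ T.O := step 2 0 2 (by decide) h00
  have h31 : T.u 3 1 ∈ T.O := step 3 3 1 (by decide) h22
  have h32 : T.u 3 2 ∈ T.O := step 3 3 2 (by decide) h20
  have h33 : T.u 3 3 ∈ T.O := step 3 0 3 (by decide) h10
  have h01 : T.u 0 1 ∈ T.O := step 0 0 1 (by decide) h03
  have h02 : T.u 0 2 ∈ T.O := step 0 0 2 (by decide) h01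
  have h11 : T.u 1 1 ∈ T.O := step 1 0 1 (by decide) h22
  have h12 : T.u 1 2 ∈ T.O := step 1 0 2 (by decide) h21
  have h13 : T.u 1 3 ∈ T.O := step 1 0 3 (by decide) h20
  have h23 : T.u 2 3 ∈ T.O := step 2 0 3 (by decide) h02
  have h30 : T.u 3 0 ∈ T.O := step 3 1 0 (by decide) h33
  fin_cases i <;> fin_cases k
  exacts [h00, h01, h02, h03, h10, h11, h12, h13, h20, h21, h22, h23, h30, h31, h32, h33]

theorem comb_herm (i : Fin 4) (c : Fin 4 → ℝ) : (T.comb i c).IsHermitian := 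
  herm_comb (T.v i) c

theorem comb_posSemidef (i : Fin 4) {c : Fin 4 → ℝ} (hc : ∀ k, 0 ≤ c k) :
    (T.comb i c).PosSemidef := 
  posSemidef_sum _ fun k _ => (posSemidef_lightVec (T.v i k)).smul (hc k)

theorem continuous_comb (i : Fin 4) : Continuous (T.comb i) := 
  continuous_finsetSum _ fun k _ => (continuous_apply k).smul continuous_const

theorem continuous_be (τ : SL2C × Fin 4) : Continuous (T.be τ) := 
  (T.bc τ.2).continuous_of_finiteDimensional.comp (continuous_act _)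

theorem act_comb_be (τ : SL2C × Fin 4) {X : Mat} (h : X.IsHermitian) :
    act τ.1 (T.comb τ.2 (T.be τ X)) = X := by
  rw [be, T.comb_bc _ (isHermitian_act _ h), act_act_inv]

theorem be_act_comb (τ : SL2C × Fin 4) (c : Fin 4 → ℝ) :
    T.be τ (act τ.1 (T.comb τ.2 c)) = c := by
  rw [be, act_inv_act, T.bc_comb]

theorem two_le_card_supp (i : Fin 4) {c : Fin 4 → ℝ} (h : (T.comb i c).PosDef) :
    2 ≤ (supp c).card := by
  have hd := ((posDef_iff _).1 h).2.2
  rw [T.det_comb, Qm] at hd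
  have h1 : ∑ j, ∑ k, T.m i j k * c j * c k ≠ 0 := fun e => by rw [e] at hd; simp at hd
  obtain ⟨j, -, hj⟩ := exists_ne_zero_of_sum_ne_zero h1
  obtain ⟨k, -, hk⟩ := exists_ne_zero_of_sum_ne_zero hj
  refine one_lt_card.2 ⟨j, mem_supp.2 fun e => hk (by rw [e]; ring), k,
    mem_supp.2 fun e => hk (by rw [e]; ring), fun e => hk ?_⟩
  rw [e, (T.goodM i).diag]
  ring

/-- A point of a tetrahedron and its canonical form differ by the group element `h`. -/
theorem comb_canon (i : Fin 4) {c : Fin 4 → ℝ} (h : 2 ≤ (supp c).card) :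
    T.comb i c = act (T.h i (supp c)) (T.comb (canon i c).1 (canon i c).2) := by
  rw [comb, comb, act_sum]
  refine Eq.trans ?_ (Equiv.sum_comp (ph i (supp c)) _)
  refine sum_congr rfl fun k _ => ?_
  rw [act_smul]
  simp only [canon, Function.comp_apply, Equiv.symm_apply_apply]
  by_cases hk : c k = 0
  · rw [hk, zero_smul, zero_smul]
  · rw [u, u, T.h_vert i (supp c) k (mem_supp.2 hk) h]

end Tri

end Pool.Agent.Lib.MP_a11aea_gt
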