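import Pool.Agent.Lib.MP_a11aea_gt.H36Push

/-! Gluing four triangulated truncated simplices along a checked table of representatives. -/

namespace Pool.Agent.Lib.MP_a11aea_gt

open Finset

def decL (k : ℕ) : ℕ → List ℕ :=
  Nat.rec (fun _ => []) (fun _ ih y => (y % 128) :: ih (y / 128)) k

theorem decL_lt (k y : ℕ) : ∀ p ∈ decL k y, p < 128 := by
  induction k generalizing y with
  | zero => intro p hp; cases hp
  | succ k ih =>
    intro p hp
    rcases List.mem_cons.1 hp with rfl | hp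
    · exact Nat.mod_lt _ (by norm_num)
    · exact ih _ p hp

def i0N (i s : ℕ) : ℕ := 293549246056112109953231445988120461312 >>> (2 * (16 * i + s)) % 4

def phN (i s k : ℕ) : ℕ := 
  11950595429523175466540397442430144879785540903781105491542919497496875798533513408941003537869227691490036859690834371273899055085783539236672053228922084
    >>> (2 * (64 * i + 4 * s + k)) % 4

theorem i0N_eq : ∀ (i : Fin 4) (s : Fin 16), (i0T i s : ℕ) = i0N i s := by decide +kernel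

theorem phN_eq : ∀ (i : Fin 4) (s : Fin 16) (k : Fin 4), (phT i s k : ℕ) = phN i s k := by
  decide +kernel

theorem sidx_val : ∀ S : Finset (Fin 4), (sidx S : ℕ) = (if 0 ∈ S then 1 else 0) +
    (if 1 ∈ S then 2 else 0) + (if 2 ∈ S then 4 else 0) + (if 3 ∈ S then 8 else 0) := by
  decide +kernel

/-- Triangulations of the four truncated simplices, global vertex names and the table. -/
structure LD where
  pos : ℕ → ℕ → ℕ → ℕ
  ren : ℕ → ℕ → ℕ
  sub : ℕ → List (List ℕ)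
  subM : ℕ → List ℕ
  tab : ℕ → ℕ
  L0 : List ℕ

namespace LD

variable (d : LD)

def nz (i : ℕ) (σ : List ℕ) (k : ℕ) : Bool := σ.any fun v => !(Nat.beq (d.pos i v k) 0)

def cidx (i : ℕ) (σ : List ℕ) : ℕ := cond (d.nz i σ 0) 1 0 + cond (d.nz i σ 1) 2 0 +
  cond (d.nz i σ 2) 4 0 + cond (d.nz i σ 3) 8 0

noncomputable def chk (i : ℕ) (σ : List ℕ) : Bool :=
  frc (msk (σ.map (d.ren i))) fun key => frc (d.tab key) fun e => frc (d.cidx i σ) fun s =>
  frc (e % 4) fun j =>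
    Nat.beq j (i0N i s) && leL (msk (decL (e / 4 % 8) (e / 32))) (d.subM j) &&
    (σ.all fun v => (decL (e / 4 % 8) (e / 32)).any fun v0 => Nat.beq (d.ren j v0) (d.ren i v) &&
      [0, 1, 2, 3].all fun k => Nat.beq (d.pos j v0 (phN i s k)) (d.pos i v k)) &&
    (!(leL key d.L0) || [0, 1, 2, 3].any fun k => σ.all fun v => Nat.beq (d.pos i v k) 72)

noncomputable def chkF (i : ℕ) (l : List ℕ) : Bool :=
  (l.all fun v => Nat.blt v 128 && Nat.blt (d.ren i v) 128) && decide (l.map (d.ren i)).Nodup &&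
  ([0, 1, 2, 3].all fun k =>
    leL (msk ((l.filter fun v => Nat.beq (d.pos i v k) 72).map (d.ren i))) d.L0) &&
  l.sublists.all fun σ => σ.isEmpty || d.chk i σ

noncomputable def chkP (A0 : List ℕ) (i : ℕ) : List ℕ → Bool
  | a :: b :: r => Nat.blt a 128 && Nat.blt b 128 && leL (msk [a, b]) (d.subM i) &&
      leL (msk [d.ren i a, d.ren i b]) A0 && chkP A0 i (b :: r)
  | _ => true

noncomputable def P (i : ℕ) : Pt → Fin 4 → ℝ := Pos fun v k => (d.pos i v k : ℝ) / 96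

def rn (i : ℕ) (v : Fin 128) : Fin 128 := ⟨d.ren i v % 128, Nat.mod_lt _ (by norm_num)⟩

def K0 : List ℕ := [0, 1, 2, 3].flatMap fun i => (d.sub i).map fun l => msk (l.map (d.ren i))

structure OK : Prop where
  subM : ∀ i : Fin 4, d.subM i = (d.sub i).map msk
  bij : ∀ i : Fin 4, Set.BijOn (d.P i) (real (d.subM i)) Trunc
  chk : ∀ i : Fin 4, ∀ l ∈ d.sub i, d.chkF i l = true

variable {d}

theorem OK.facet (h : d.OK) (i : Fin 4) {l : List ℕ} (hl : l ∈ d.sub i) :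
    (∀ v ∈ l, v < 128 ∧ d.ren i v < 128) ∧ (∀ a ∈ l, ∀ b ∈ l, d.ren i a = d.ren i b → a = b) ∧
    (∀ k : Fin 4, leL (msk ((l.filter fun v => Nat.beq (d.pos i v k) 72).map (d.ren i))) d.L0 = true) ∧
    ∀ σ : List ℕ, σ.Sublist l → σ ≠ [] → d.chk i σ = true := by
  have := h.chk i l hl
  simp only [chkF, Bool.and_eq_true, List.all_eq_true, decide_eq_true_eq, Nat.blt_eq,
    Bool.or_eq_true, List.isEmpty_iff, List.mem_sublists] at this
  obtain ⟨⟨⟨h1, h2⟩, h3⟩, h4⟩ := this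
  refine ⟨h1, fun a ha b hb => List.inj_on_of_nodup_map h2 ha hb, fun k => h3 k ?_,
    fun σ hσ hne => (h4 σ hσ).resolve_left hne⟩
  fin_cases k <;> simp

theorem OK.exists_facet (h : d.OK) {i : Fin 4} {y : Pt} (hy : y ∈ real (d.subM i)) :
    ∃ l ∈ d.sub i, ∀ v : Fin 128, y v ≠ 0 → (v : ℕ) ∈ l := by
  obtain ⟨-, -, F, hF, hy⟩ := hy
  rw [h.subM] at hF
  obtain ⟨l, hl, rfl⟩ := List.mem_map.1 hF
  exact ⟨l, hl, inF_msk.1 hy⟩

theorem rn_val {i : ℕ} {v : Fin 128} (h : d.ren i v < 128) : (d.rn i v : ℕ) = d.ren i v :=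
  Nat.mod_eq_of_lt h

theorem OK.inF_push (h : d.OK) {i : Fin 4} {l : List ℕ} (hl : l ∈ d.sub i) {σ : List ℕ}
    (hσ : ∀ v ∈ σ, v ∈ l) {y : Pt} (h0 : ∀ v, 0 ≤ y v)
    (hy : ∀ v : Fin 128, y v ≠ 0 → (v : ℕ) ∈ σ) : inF (msk (σ.map (d.ren i))) (push (d.rn i) y) := by
  refine inF_msk.2 fun g hg => ?_
  obtain ⟨v, hv, rfl⟩ := (push_ne_zero _ h0 g).1 hg
  rw [rn_val ((h.facet i hl).1 v (hσ _ (hy v hv))).2]
  exact List.mem_map_of_mem (hy v hv)

theorem OK.inj_rn (h : d.OK) {i : Fin 4} {l : List ℕ} (hl : l ∈ d.sub i) {a b : Fin 128}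
    (ha : (a : ℕ) ∈ l) (hb : (b : ℕ) ∈ l) (e : d.rn i a = d.rn i b) : a = b := by
  have := congrArg Fin.val e
  rw [rn_val ((h.facet i hl).1 a ha).2, rn_val ((h.facet i hl).1 b hb).2] at this
  exact Fin.ext ((h.facet i hl).2.1 a ha b hb this)

theorem P_ne_zero {i : ℕ} {y : Pt} (h0 : ∀ v, 0 ≤ y v) (k : Fin 4) :
    d.P i y k ≠ 0 ↔ ∃ v, y v ≠ 0 ∧ d.pos i v k ≠ 0 := by
  rw [P, Pos, Ne, Finset.sum_eq_zero_iff_of_nonneg fun v _ => mul_nonneg (h0 v) (by positivity)]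
  simp [not_forall]

/-- The representative of a point, read from the table. -/
theorem OK.rep (h : d.OK) {i : Fin 4} {y : Pt} (hy : y ∈ real (d.subM i)) :
    ∃ (σ : List ℕ) (j : Fin 4) (y0 : Pt), (∀ g ∈ σ, g < 128) ∧
      (∀ g : Fin 128, (g : ℕ) ∈ σ ↔ push (d.rn i) y g ≠ 0) ∧ (j : ℕ) = d.tab (msk σ) % 4 ∧
      inF (msk (decL (d.tab (msk σ) / 4 % 8) (d.tab (msk σ) / 32))) y0 ∧
      leL (msk (decL (d.tab (msk σ) / 4 % 8) (d.tab (msk σ) / 32))) (d.subM j) = true ∧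
      y0 ∈ real (d.subM j) ∧ push (d.rn j) y0 = push (d.rn i) y ∧
      canon i (d.P i y) = (j, d.P j y0) ∧
      (leL (msk σ) d.L0 = true → ∃ k, d.P i y k = 3 / 4) := by
  classical
  obtain ⟨l, hl, hyl⟩ := h.exists_facet hy
  obtain ⟨h0, h1, -⟩ := hy
  obtain ⟨f1, f2, -, f4⟩ := h.facet i hl
  let σ := l.filter fun v => decide (∃ w : Fin 128, (w : ℕ) = v ∧ y w ≠ 0)
  have hσ : ∀ v : Fin 128, (v : ℕ) ∈ σ ↔ y v ≠ 0 := by
    intro v
    simp only [σ, List.mem_filter, decide_eq_true_eq]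
    exact ⟨fun ⟨_, w, e, hw⟩ => Fin.ext e ▸ hw, fun hv => ⟨hyl v hv, v, rfl, hv⟩⟩
  have hσl : ∀ v ∈ σ, v ∈ l := fun v hv => List.mem_of_mem_filter hv
  have hne : σ ≠ [] := by
    intro e
    have : ∀ v, y v = 0 := fun v => by_contra fun hv => by simpa [e] using (hσ v).2 hv
    simp [this] at h1
  have c := f4 σ List.filter_sublist hne
  unfold LD.chk at c
  simp only [frc_eq, Bool.and_eq_true, List.all_eq_true, List.any_eq_true, Nat.beq_eq,
    Bool.or_eq_true, Bool.not_eq_eq_eq_not, Bool.not_true] at c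
  obtain ⟨⟨⟨c1, c2⟩, c3⟩, c4⟩ := c
  set e := d.tab (msk (σ.map (d.ren i))) with he
  have hnz : ∀ k : Fin 4, d.nz i σ k = true ↔ k ∈ supp (d.P i y) := by
    intro k
    rw [mem_supp, P_ne_zero h0]
    simp only [nz, List.any_eq_true, Bool.not_eq_eq_eq_not, Bool.not_true]
    constructor
    · rintro ⟨v, hv, hp⟩
      exact ⟨⟨v, (f1 v (hσl v hv)).1⟩, (hσ _).1 hv, Nat.ne_of_beq_eq_false hp⟩
    · rintro ⟨v, hv, hp⟩
      refine ⟨v, (hσ v).2 hv, ?_⟩
      cases hb : Nat.beq (d.pos i v k) 0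
      · rfl
      · exact absurd (Nat.eq_of_beq_eq_true hb) hp
  have hs : d.cidx i σ = (sidx (supp (d.P i y)) : ℕ) := by
    rw [sidx_val, cidx]
    simp only [← hnz, Bool.cond_eq_ite]
    rfl
  let j : Fin 4 := ⟨e % 4, Nat.mod_lt _ (by norm_num)⟩
  have hj : i0 i (supp (d.P i y)) = j := Fin.ext (by rw [i0, i0N_eq, ← hs]; exact c1.symm)
  have hm : ∀ v : Fin 128, ∃ v0 : Fin 128, y v ≠ 0 → (v0 : ℕ) ∈ decL (e / 4 % 8) (e / 32) ∧
      d.rn j v0 = d.rn i v ∧ ∀ k : Fin 4, d.pos j v0 (ph i (supp (d.P i y)) k) = d.pos i v k := by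
    intro v
    by_cases hv : y v = 0
    · exact ⟨v, fun h => absurd hv h⟩
    obtain ⟨v0, m0, r0, p0⟩ := c3 v ((hσ v).2 hv)
    refine ⟨⟨v0, decL_lt _ _ _ m0⟩, fun _ => ⟨m0, Fin.ext (congrArg (· % 128) r0), fun k => ?_⟩⟩
    have : (ph i (supp (d.P i y)) k : ℕ) = phN i (d.cidx i σ) k := by
      rw [hs, ← phN_eq]; rfl
    rw [this]
    exact p0 k (by fin_cases k <;> simp)
  choose m hm using hm
  have hin : inF (msk (decL (e / 4 % 8) (e / 32))) (push m y) := by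
    refine inF_msk.2 fun g hg => ?_
    obtain ⟨v, hv, rfl⟩ := (push_ne_zero _ h0 g).1 hg
    exact (hm v hv).1
  refine ⟨σ.map (d.ren i), j, push m y, ?_, fun g => ?_, rfl, hin, c2,
    mem_real_of_leL c2 (push_nonneg m h0) (by rw [push_total, h1]) hin, ?_, ?_, fun hL => ?_⟩
  · intro g hg
    obtain ⟨v, hv, rfl⟩ := List.mem_map.1 hg
    exact (f1 v (hσl v hv)).2
  · rw [push_ne_zero _ h0, List.mem_map]
    constructor
    · rintro ⟨v, hv, e⟩
      have := f1 v (hσl v hv)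
      exact ⟨⟨v, this.1⟩, (hσ _).1 hv, Fin.ext ((rn_val this.2).trans e)⟩
    · rintro ⟨v, hv, rfl⟩
      exact ⟨v, (hσ v).2 hv, (rn_val (f1 v (hyl v hv)).2).symm⟩
  · rw [push_push]
    exact push_congr fun v hv => (hm v hv).2.1
  · rw [canon, hj]
    congr 1
    funext k
    obtain ⟨k, rfl⟩ := (ph i (supp (d.P i y))).surjective k
    simp only [Function.comp, Equiv.symm_apply_apply]
    refine Eq.trans ?_
      (push_sum m y fun v => (d.pos j v (ph i (supp (d.P i y)) k) : ℝ) / 96).symm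
    show ∑ v, y v * ((d.pos i v k : ℝ) / 96) = _
    refine Finset.sum_congr rfl fun v _ => ?_
    by_cases hv : y v = 0
    · simp [hv]
    · rw [(hm v hv).2.2]
  · rcases c4 with c4 | ⟨k, hk, c4⟩
    · rw [hL] at c4; cases c4
    have hk4 : k < 4 := by simp at hk; omega
    refine ⟨⟨k, hk4⟩, ?_⟩
    have : ∀ v, y v * ((d.pos i v k : ℝ) / 96) = y v * (3 / 4) := fun v => by
      by_cases hv : y v = 0
      · simp [hv]
      · rw [c4 v ((hσ v).2 hv)]; norm_num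
    simp only [P, Pos, this, ← Finset.sum_mul, h1, one_mul]

theorem OK.fibre (h : d.OK) {i j : Fin 4} {y y' : Pt} (hy : y ∈ real (d.subM i))
    (hy' : y' ∈ real (d.subM j)) :
    push (d.rn i) y = push (d.rn j) y' ↔ canon i (d.P i y) = canon j (d.P j y') := by
  obtain ⟨σ, a, z, s1, s2, s3, s4, s5, s6, s7, s8, -⟩ := h.rep hy
  obtain ⟨σ', a', z', t1, t2, t3, t4, -, t6, t7, t8, -⟩ := h.rep hy'
  rw [s8, t8]
  constructor
  · intro e
    have hk : msk σ' = msk σ := msk_congr fun g =>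
      ⟨fun hg => (s2 ⟨g, t1 g hg⟩).2 (e ▸ (t2 ⟨g, t1 g hg⟩).1 hg),
        fun hg => (t2 ⟨g, s1 g hg⟩).2 (e ▸ (s2 ⟨g, s1 g hg⟩).1 hg)⟩
    rw [hk] at t3 t4
    obtain rfl : a = a' := Fin.ext (s3.trans t3.symm)
    obtain ⟨G, hG, eG⟩ := leL_spec s5
    rw [h.subM] at hG
    obtain ⟨l, hl, rfl⟩ := List.mem_map.1 hG
    have : z = z' := push_inj (m := d.rn a) (inF_mono eG s4) (inF_mono eG t4)
      (fun u v hu hv => h.inj_rn hl ((testBit_msk _ _).1 hu) ((testBit_msk _ _).1 hv))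
      (by rw [s7, t7, e])
    rw [this]
  · intro e
    obtain ⟨rfl, e⟩ := Prod.ext_iff.1 e
    rw [← s7, ← t7, (h.bij _).injOn s6 t6 e]

theorem OK.mem_K0 (h : d.OK) (z : Pt) :
    z ∈ real d.K0 ↔ ∃ i : Fin 4, ∃ y ∈ real (d.subM i), push (d.rn i) y = z := by
  constructor
  · rintro ⟨h0, h1, F, hF, hz⟩
    simp only [K0, List.mem_flatMap, List.mem_map] at hF
    obtain ⟨i, hi, l, hl, rfl⟩ := hF
    obtain ⟨i, rfl⟩ : ∃ i' : Fin 4, (i' : ℕ) = i := ⟨⟨i, by simp at hi; omega⟩, rfl⟩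
    have hm : ∀ g : Fin 128, ∃ v : Fin 128, z g ≠ 0 → (v : ℕ) ∈ l ∧ d.rn i v = g := by
      intro g
      by_cases hg : z g = 0
      · exact ⟨g, fun h => absurd hg h⟩
      obtain ⟨v, hv, e⟩ := List.mem_map.1 (inF_msk.1 hz g hg)
      have := (h.facet i hl).1 v hv
      exact ⟨⟨v, this.1⟩, fun _ => ⟨hv, Fin.ext ((rn_val this.2).trans e)⟩⟩
    choose m hm using hm
    refine ⟨i, push m z, ⟨push_nonneg m h0, by rw [push_total, h1], msk l, ?_,
      inF_msk.2 fun g hg => ?_⟩, ?_⟩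
    · rw [h.subM]; exact List.mem_map_of_mem hl
    · obtain ⟨v, hv, rfl⟩ := (push_ne_zero _ h0 g).1 hg
      exact (hm v hv).1
    · rw [push_push, push_congr (m' := id) fun v hv => (hm v hv).2]
      funext g
      simp [push]
  · rintro ⟨i, y, hy, rfl⟩
    obtain ⟨l, hl, hyl⟩ := h.exists_facet hy
    obtain ⟨h0, h1, -⟩ := hy
    refine ⟨push_nonneg _ h0, by rw [push_total, h1], _, ?_, h.inF_push hl (fun _ h => h) h0 hyl⟩
    simp only [K0, List.mem_flatMap, List.mem_map]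
    exact ⟨i, by fin_cases i <;> simp, l, hl, rfl⟩

theorem OK.mem_L0 (h : d.OK) {i : Fin 4} {y : Pt} (hy : y ∈ real (d.subM i)) :
    push (d.rn i) y ∈ real d.L0 ↔ ∃ k, d.P i y k = 3 / 4 := by
  constructor
  · rintro ⟨-, -, G, hG, hz⟩
    obtain ⟨σ, a, z, s1, s2, -, -, -, -, -, -, s9⟩ := h.rep hy
    refine s9 (leL_of_mem hG (Nat.eq_of_testBit_eq fun g => ?_))
    rw [Nat.testBit_and]
    cases hg : (msk σ).testBit g
    · rfl
    · have hg' := (testBit_msk _ _).1 hg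
      simpa using hz ⟨g, s1 g hg'⟩ ((s2 ⟨g, s1 g hg'⟩).1 hg')
  · rintro ⟨k, hk⟩
    obtain ⟨l, hl, hyl⟩ := h.exists_facet hy
    have hy0 := hy
    obtain ⟨h0, h1, -⟩ := hy
    have hle : ∀ v : Fin 128, (v : ℕ) ∈ l → (d.pos i v k : ℝ) / 96 ≤ 3 / 4 := by
      intro v hv
      have hv' : Pi.single v 1 ∈ real (d.subM i) := by
        refine ⟨fun w => by rw [Pi.single_apply]; split_ifs <;> norm_num, by simp, msk l, ?_,
          inF_msk.2 fun w hw => ?_⟩
        · rw [h.subM]; exact List.mem_map_of_mem hl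
        · rw [Pi.single_apply] at hw
          split_ifs at hw with e
          · exact e ▸ hv
          · exact absurd rfl hw
      have := ((h.bij i).mapsTo hv').2.2 k
      simpa [P, Pos, Pi.single_apply] using this
    have key := extremal h0 h1 (φ := fun v => -((d.pos i v k : ℝ) / 96)) (c := -(3 / 4))
      (fun v hv => neg_le_neg (hle v (hyl v hv)))
      (by simp only [mul_neg, Finset.sum_neg_distrib]; exact neg_le_neg hk.ge)
    refine mem_real_of_leL ((h.facet i hl).2.2.1 k) (push_nonneg _ h0) (by rw [push_total, h1])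
      (h.inF_push hl (fun v hv => List.mem_of_mem_filter hv) h0 fun v hv => ?_)
    refine List.mem_filter.2 ⟨hyl v hv, ?_⟩
    have h2 : (d.pos i v k : ℝ) = 72 := by have := key v hv; linarith
    have h3 : d.pos i v k = 72 := by exact_mod_cast h2
    rw [h3]; rfl

/-- The vertex `a` as a point. -/
noncomputable def vtx (a : ℕ) : Pt := fun v => if (v : ℕ) = a then 1 else 0

theorem sum_vtx {a : ℕ} (ha : a < 128) (f : Fin 128 → ℝ) : ∑ v, vtx a v * f v = f ⟨a, ha⟩ := by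
  rw [Finset.sum_eq_single ⟨a, ha⟩]
  · simp [vtx]
  · intro b _ hb
    rw [vtx, if_neg fun e => hb (Fin.ext e)]
    simp
  · simp

theorem vtx_nonneg (a : ℕ) (v : Fin 128) : 0 ≤ vtx a v := by
  unfold vtx; split_ifs <;> norm_num

theorem P_vtx (i : ℕ) {a : ℕ} (ha : a < 128) (k : Fin 4) : d.P i (vtx a) k = d.pos i a k / 96 :=
  sum_vtx ha fun v => (d.pos i v k : ℝ) / 96

theorem OK.joined (h : d.OK) (A0 : List ℕ) (i : Fin 4) (a : ℕ) (r : List ℕ) (hr : r ≠ [])
    (hc : d.chkP A0 i (a :: r) = true) :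
    JoinedIn {y | y ∈ real (d.subM i) ∧ push (d.rn i) y ∈ real A0} (vtx a) (vtx (r.getLast hr)) := by
  induction r generalizing a with
  | nil => exact absurd rfl hr
  | cons b r ih =>
    simp only [chkP, Bool.and_eq_true, Nat.blt_eq] at hc
    obtain ⟨⟨⟨⟨ha, hb⟩, c1⟩, c2⟩, c3⟩ := hc
    have j1 : JoinedIn {y | y ∈ real (d.subM i) ∧ push (d.rn i) y ∈ real A0} (vtx a) (vtx b) := by
      apply JoinedIn.of_segment_subset
      rintro y ⟨s, t, hs, ht, hst, rfl⟩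
      have h0 : ∀ v, 0 ≤ (s • vtx a + t • vtx b) v := fun v =>
        add_nonneg (mul_nonneg hs (vtx_nonneg a v)) (mul_nonneg ht (vtx_nonneg b v))
      have h1 : ∑ v, (s • vtx a + t • vtx b) v = 1 := by
        have e1 := sum_vtx ha fun _ => 1
        have e2 := sum_vtx hb fun _ => 1
        simp only [mul_one] at e1 e2
        simp [Finset.sum_add_distrib, ← Finset.mul_sum, e1, e2, hst]
      have h2 : ∀ v : Fin 128, (s • vtx a + t • vtx b) v ≠ 0 → (v : ℕ) ∈ [a, b] := by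
        intro v hv
        by_contra hn
        simp only [List.mem_cons, List.not_mem_nil, or_false, not_or] at hn
        simp [vtx, hn.1, hn.2] at hv
      obtain ⟨G, hG, eG⟩ := leL_spec c1
      rw [h.subM] at hG
      obtain ⟨l, hl, rfl⟩ := List.mem_map.1 hG
      refine ⟨mem_real_of_leL c1 h0 h1 (inF_msk.2 h2), mem_real_of_leL c2 (push_nonneg _ h0)
        (by rw [push_total, h1]) (h.inF_push (σ := [a, b]) hl (fun v hv => ?_) h0 h2)⟩
      have := (testBit_msk _ _).2 hv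
      rw [← eG, Nat.testBit_and, Bool.and_eq_true] at this
      exact (testBit_msk _ _).1 this.2
    by_cases hr' : r = []
    · subst hr'; exact j1
    · rw [List.getLast_cons hr']
      exact j1.trans (by simpa [List.getLast_cons hr'] using ih b hr' c3)

theorem push_vtx {i a : ℕ} (ha : a < 128) (hr : d.ren i a < 128) :
    push (d.rn i) (vtx a) = vtx (d.ren i a) := by
  funext g
  have := sum_vtx ha fun v => if d.rn i v = g then 1 else 0
  simp only [mul_ite, mul_one, mul_zero] at this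
  rw [push, this, vtx]
  exact if_congr ⟨fun e => by rw [← e, rn_val hr], fun e => Fin.ext ((rn_val hr).trans e.symm)⟩
    rfl rfl

theorem vtx_mem {a : ℕ} (ha : a < 128) : vtx a ∈ real [msk [a]] := by
  refine ⟨vtx_nonneg a, by simpa using sum_vtx ha fun _ => 1, _, List.mem_singleton_self _,
    inF_msk.2 fun v hv => ?_⟩
  by_contra hn
  simp only [List.mem_singleton] at hn
  simp [vtx, hn] at hv

/-- The glued model. -/
theorem OK.model (h : d.OK) : ∃ ψ : Fin 4 → (Fin 4 → ℝ) → Pt,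
    (∀ i, ContinuousOn (ψ i) Trunc) ∧ (∀ z, z ∈ real d.K0 ↔ ∃ i, ∃ t ∈ Trunc, ψ i t = z) ∧
    (∀ i j, ∀ t ∈ Trunc, ∀ t' ∈ Trunc, ψ i t = ψ j t' ↔ canon i t = canon j t') ∧
    (∀ i, ∀ t ∈ Trunc, ψ i t ∈ real d.L0 ↔ ∃ k, t k = 3 / 4) ∧
    (∀ (A0 : List ℕ) (i : Fin 4) (a : ℕ) (r : List ℕ) (hr : r ≠ []),
      d.chkP A0 i (a :: r) = true → JoinedIn {t | t ∈ Trunc ∧ ψ i t ∈ real A0}
        (d.P i (vtx a)) (d.P i (vtx (r.getLast hr))) ∧
        ψ i (d.P i (vtx a)) = push (d.rn i) (vtx a) ∧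
        ψ i (d.P i (vtx (r.getLast hr))) = push (d.rn i) (vtx (r.getLast hr))) := by
  have := fun i : Fin 4 => exists_inv (P := d.P i) (continuous_Pos _) (h.bij i)
  choose Q hQ h1 h2 using this
  refine ⟨fun i t => push (d.rn i) (Q i t), fun i => (continuous_push _).comp_continuousOn (hQ i),
    fun z => ?_, fun i j t ht t' ht' => ?_, fun i t ht => ?_, fun A0 i a r hr hc => ?_⟩
  · rw [h.mem_K0]
    refine exists_congr fun i => ⟨?_, ?_⟩
    · rintro ⟨y, hy, rfl⟩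
      exact ⟨_, (h.bij i).mapsTo hy, by simp only [h2 i y hy]⟩
    · rintro ⟨t, ht, rfl⟩
      exact ⟨_, (h1 i t ht).1, rfl⟩
  · rw [h.fibre (h1 i t ht).1 (h1 j t' ht').1, (h1 i t ht).2, (h1 j t' ht').2]
  · rw [h.mem_L0 (h1 i t ht).1, (h1 i t ht).2]
  · have hj := h.joined A0 i a r hr hc
    refine ⟨?_, by simp only [h2 i _ hj.source_mem.1], by simp only [h2 i _ hj.target_mem.1]⟩
    refine (hj.map (f := d.P i) (continuous_Pos _)).mono ?_
    rintro _ ⟨y, hy, rfl⟩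
    exact ⟨(h.bij i).mapsTo hy.1, by simp only [h2 i y hy.1]; exact hy.2⟩

end LD

/-- Search tree for the table. -/
inductive BT : Type
  | leaf : BT
  | node : BT → ℕ → ℕ → BT → BT

noncomputable def BT.look (t : BT) (x : ℕ) : ℕ :=
  BT.rec 0 (fun _ k v _ il ir => Bool.rec (Bool.rec ir il (Nat.ble x k)) v (Nat.beq x k)) t

/-- The local checks that give `LD.OK.bij`. -/
theorem bij_of_checks (d : LD) (i : ℕ) (ops : List ℕ) (cor : List (ℕ × List ℕ))
    (h0 : d.subM i = (d.sub i).map msk)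
    (h1 : run ops (same (d.subM i ++ cor.map fun c => msk (c.1 :: c.2))) [15] = true)
    (h2 : geoOK (fun v k => d.pos i v k) ops = true)
    (h3 : ∀ v k : Fin 4, d.pos i v k = if v = k then 96 else 0)
    (h4 : ∀ l ∈ d.sub i, ∀ v ∈ l, ∀ k : Fin 4, d.pos i v k ≤ 72)
    (h5 : ∀ c ∈ cor, c.1 < 4 ∧ d.pos i c.1 c.1 = 96 ∧ (∀ v ∈ c.2, d.pos i v c.1 = 72) ∧
      leL (msk c.2) (d.subM i) = true) : Set.BijOn (d.P i) (real (d.subM i)) Trunc := by
  rw [h0] at h1 h5 ⊢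
  refine trunc_bij (cor := cor) ?_ h4 h5
  refine (run_same h1).bijOn_Pos (Pos_fw 96 h2) (base_bij fun v k => ?_)
  have : ((Fin.castLE (by norm_num : 4 ≤ 128) v : Fin 128) : ℕ) = v := rfl
  simp only [this, h3]
  split_ifs <;> norm_num

end Pool.Agent.Lib.MP_a11aea_gt
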