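import Mathlib

/-! Verified integer interval arithmetic at scale `10 ^ 12`, Cramer rule, root location. -/

namespace Pool.Agent.Lib.MP_a11aea_gt.N94

/-- The scale. -/
def sc : ℤ := 1000000000000

/-- An interval with end points `lo / sc`, `hi / sc`. -/
structure Iv where
  lo : ℤ
  hi : ℤ

def Iv.mem (I : Iv) (x : ℝ) : Prop := (I.lo : ℝ) ≤ x * 1000000000000 ∧ x * 1000000000000 ≤ I.hi

def Iv.ofInt (n : ℤ) : Iv := ⟨n * sc, n * sc⟩

def Iv.add (I J : Iv) : Iv := ⟨I.lo + J.lo, I.hi + J.hi⟩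

def Iv.neg (I : Iv) : Iv := ⟨-I.hi, -I.lo⟩

def Iv.sub (I J : Iv) : Iv := ⟨I.lo - J.hi, I.hi - J.lo⟩

def Iv.mul (I J : Iv) : Iv :=
  ⟨min (min (I.lo * J.lo) (I.lo * J.hi)) (min (I.hi * J.lo) (I.hi * J.hi)) / sc,
    max (max (I.lo * J.lo) (I.lo * J.hi)) (max (I.hi * J.lo) (I.hi * J.hi)) / sc + 1⟩

def Iv.inv (I : Iv) : Iv := ⟨sc * sc / I.hi, sc * sc / I.lo + 1⟩

def Iv.le (I J : Iv) : Bool := decide (J.lo ≤ I.lo) && decide (I.hi ≤ J.hi)

def Iv.pos (I : Iv) : Bool := decide (0 < I.lo)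

def Iv.ng (I : Iv) : Bool := decide (I.hi < 0)

theorem sc_cast : ((sc : ℤ) : ℝ) = 1000000000000 := by simp [sc]

theorem mem_ofInt (n : ℤ) : (Iv.ofInt n).mem n := by
  simp [Iv.mem, Iv.ofInt, sc_cast]

theorem mem_zero : (Iv.ofInt 0).mem 0 := by simpa using mem_ofInt 0

theorem mem_one : (Iv.ofInt 1).mem 1 := by simpa using mem_ofInt 1

theorem Iv.mem.add {I J : Iv} {x y : ℝ} (h : I.mem x) (k : J.mem y) : (I.add J).mem (x + y) := by
  obtain ⟨h1, h2⟩ := h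
  obtain ⟨k1, k2⟩ := k
  constructor <;> simp only [Iv.add] <;> push_cast <;> linarith

theorem Iv.mem.neg {I : Iv} {x : ℝ} (h : I.mem x) : I.neg.mem (-x) := by
  obtain ⟨h1, h2⟩ := h
  constructor <;> simp only [Iv.neg] <;> push_cast <;> linarith

theorem Iv.mem.sub {I J : Iv} {x y : ℝ} (h : I.mem x) (k : J.mem y) : (I.sub J).mem (x - y) := by
  obtain ⟨h1, h2⟩ := h
  obtain ⟨k1, k2⟩ := k
  constructor <;> simp only [Iv.sub] <;> push_cast <;> linarith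

theorem ediv_le (n d : ℤ) (hd : 0 < d) : ((n / d : ℤ) : ℝ) * d ≤ n := by
  have := Int.ediv_mul_le n hd.ne'
  exact_mod_cast this

theorem le_ediv (n d : ℤ) (hd : 0 < d) : (n : ℝ) ≤ (((n / d : ℤ) : ℝ) + 1) * d := by
  have := (Int.lt_ediv_add_one_mul_self n hd).le
  exact_mod_cast this

theorem mul_bounds {a b c d x y : ℝ} (h1 : a ≤ x) (h2 : x ≤ b) (k1 : c ≤ y) (k2 : y ≤ d) :
    min (min (a * c) (a * d)) (min (b * c) (b * d)) ≤ x * y ∧
      x * y ≤ max (max (a * c) (a * d)) (max (b * c) (b * d)) := by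
  have e1 : ∀ t : ℝ, min (t * c) (t * d) ≤ t * y ∧ t * y ≤ max (t * c) (t * d) := by
    intro t
    rcases le_total 0 t with ht | ht
    · exact ⟨(min_le_left _ _).trans (mul_le_mul_of_nonneg_left k1 ht),
        (mul_le_mul_of_nonneg_left k2 ht).trans (le_max_right _ _)⟩
    · exact ⟨(min_le_right _ _).trans (mul_le_mul_of_nonpos_left k2 ht),
        (mul_le_mul_of_nonpos_left k1 ht).trans (le_max_left _ _)⟩
  rcases le_total 0 y with hy | hy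
  · exact ⟨(min_le_left _ _).trans ((e1 a).1.trans (mul_le_mul_of_nonneg_right h1 hy)),
      (mul_le_mul_of_nonneg_right h2 hy).trans ((e1 b).2.trans (le_max_right _ _))⟩
  · exact ⟨(min_le_right _ _).trans ((e1 b).1.trans (mul_le_mul_of_nonpos_right h2 hy)),
      (mul_le_mul_of_nonpos_right h1 hy).trans ((e1 a).2.trans (le_max_left _ _))⟩

theorem Iv.mem.mul {I J : Iv} {x y : ℝ} (h : I.mem x) (k : J.mem y) : (I.mul J).mem (x * y) := by
  obtain ⟨h1, h2⟩ := h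
  obtain ⟨k1, k2⟩ := k
  obtain ⟨m1, m2⟩ := mul_bounds h1 h2 k1 k2
  have hs : (0 : ℤ) < sc := by decide
  have a1 := ediv_le (min (min (I.lo * J.lo) (I.lo * J.hi)) (min (I.hi * J.lo) (I.hi * J.hi))) sc hs
  have a2 := le_ediv (max (max (I.lo * J.lo) (I.lo * J.hi)) (max (I.hi * J.lo) (I.hi * J.hi))) sc hs
  rw [sc_cast] at a1 a2
  constructor
  · simp only [Iv.mul]
    generalize ((min (min (I.lo * J.lo) (I.lo * J.hi)) (min (I.hi * J.lo) (I.hi * J.hi)) / sc : ℤ) : ℝ) = q at a1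
    push_cast at a1
    nlinarith
  · simp only [Iv.mul]
    rw [Int.cast_add, Int.cast_one]
    generalize ((max (max (I.lo * J.lo) (I.lo * J.hi)) (max (I.hi * J.lo) (I.hi * J.hi)) / sc : ℤ) : ℝ) = q at a2
    push_cast at a2
    nlinarith

theorem Iv.mem.pos {I : Iv} {x : ℝ} (h : I.mem x) (hp : I.pos = true) : 0 < x := by
  have : (0 : ℝ) < I.lo := by exact_mod_cast (of_decide_eq_true hp)
  have := h.1
  linarith

theorem Iv.mem.ng {I : Iv} {x : ℝ} (h : I.mem x) (hp : I.ng = true) : x < 0 := by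
  have : (I.hi : ℝ) < 0 := by exact_mod_cast (of_decide_eq_true hp)
  have := h.2
  linarith

theorem Iv.mem.inv {I : Iv} {x : ℝ} (h : I.mem x) (hp : I.pos = true) : I.inv.mem x⁻¹ := by
  have hx := h.pos hp
  have h0 : 0 < I.lo := of_decide_eq_true hp
  obtain ⟨h1, h2⟩ := h
  have h0' : (0 : ℝ) < I.lo := by exact_mod_cast h0
  have h3 : (0 : ℝ) < I.hi := by linarith
  have h3' : 0 < I.hi := by exact_mod_cast h3
  have a1 := ediv_le (sc * sc) I.hi h3'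
  have a2 := le_ediv (sc * sc) I.lo h0
  have hxi : x * x⁻¹ = 1 := mul_inv_cancel₀ hx.ne'
  have hi : 0 < x⁻¹ := inv_pos.2 hx
  rw [Int.cast_mul, sc_cast] at a1 a2
  constructor
  · simp only [Iv.inv]
    generalize ((sc * sc / I.hi : ℤ) : ℝ) = q at a1
    by_contra hc
    push Not at hc
    nlinarith [mul_lt_mul_of_pos_right hc h3, mul_le_mul_of_nonneg_left h2 hi.le]
  · simp only [Iv.inv]
    rw [Int.cast_add, Int.cast_one]
    generalize ((sc * sc / I.lo : ℤ) : ℝ) = q at a2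
    by_contra hc
    push Not at hc
    nlinarith [mul_lt_mul_of_pos_right hc h0', mul_le_mul_of_nonneg_left h1 hi.le]

theorem Iv.mem.mono {I J : Iv} {x : ℝ} (h : I.mem x) (hl : I.le J = true) : J.mem x := by
  simp only [Iv.le, Bool.and_eq_true, decide_eq_true_eq] at hl
  have a : (J.lo : ℝ) ≤ I.lo := by exact_mod_cast hl.1
  have b : (I.hi : ℝ) ≤ J.hi := by exact_mod_cast hl.2
  exact ⟨a.trans h.1, h.2.trans b⟩

/-! ### Determinants -/

def d3I (a b c d e f g h i : Iv) : Iv :=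
  ((a.mul ((e.mul i).sub (f.mul h))).sub (b.mul ((d.mul i).sub (f.mul g)))).add
    (c.mul ((d.mul h).sub (e.mul g)))

def d3 (a b c d e f g h i : ℝ) : ℝ :=
  a * (e * i - f * h) - b * (d * i - f * g) + c * (d * h - e * g)

theorem mem_d3 {A B C D E F G H I : Iv} {a b c d e f g h i : ℝ} (ha : A.mem a) (hb : B.mem b)
    (hc : C.mem c) (hd : D.mem d) (he : E.mem e) (hf : F.mem f) (hg : G.mem g) (hh : H.mem h)
    (hi : I.mem i) : (d3I A B C D E F G H I).mem (d3 a b c d e f g h i) :=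
  ((ha.mul ((he.mul hi).sub (hf.mul hh))).sub (hb.mul ((hd.mul hi).sub (hf.mul hg)))).add
    (hc.mul ((hd.mul hh).sub (he.mul hg)))

def d4I (A : Fin 4 → Fin 4 → Iv) : Iv :=
  ((((A 0 0).mul (d3I (A 1 1) (A 1 2) (A 1 3) (A 2 1) (A 2 2) (A 2 3) (A 3 1) (A 3 2) (A 3 3))).sub
    ((A 0 1).mul (d3I (A 1 0) (A 1 2) (A 1 3) (A 2 0) (A 2 2) (A 2 3) (A 3 0) (A 3 2) (A 3 3)))).add
    ((A 0 2).mul (d3I (A 1 0) (A 1 1) (A 1 3) (A 2 0) (A 2 1) (A 2 3) (A 3 0) (A 3 1) (A 3 3)))).sub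
    ((A 0 3).mul (d3I (A 1 0) (A 1 1) (A 1 2) (A 2 0) (A 2 1) (A 2 2) (A 3 0) (A 3 1) (A 3 2)))

def d4 (A : Fin 4 → Fin 4 → ℝ) : ℝ :=
  A 0 0 * d3 (A 1 1) (A 1 2) (A 1 3) (A 2 1) (A 2 2) (A 2 3) (A 3 1) (A 3 2) (A 3 3) -
    A 0 1 * d3 (A 1 0) (A 1 2) (A 1 3) (A 2 0) (A 2 2) (A 2 3) (A 3 0) (A 3 2) (A 3 3) +
    A 0 2 * d3 (A 1 0) (A 1 1) (A 1 3) (A 2 0) (A 2 1) (A 2 3) (A 3 0) (A 3 1) (A 3 3) -
    A 0 3 * d3 (A 1 0) (A 1 1) (A 1 2) (A 2 0) (A 2 1) (A 2 2) (A 3 0) (A 3 1) (A 3 2)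

theorem mem_d4 {B : Fin 4 → Fin 4 → Iv} {A : Fin 4 → Fin 4 → ℝ} (h : ∀ j k, (B j k).mem (A j k)) :
    (d4I B).mem (d4 A) :=
  ((((h 0 0).mul (mem_d3 (h _ _) (h _ _) (h _ _) (h _ _) (h _ _) (h _ _) (h _ _) (h _ _) (h _ _))).sub
    ((h 0 1).mul (mem_d3 (h _ _) (h _ _) (h _ _) (h _ _) (h _ _) (h _ _) (h _ _) (h _ _) (h _ _)))).add
    ((h 0 2).mul (mem_d3 (h _ _) (h _ _) (h _ _) (h _ _) (h _ _) (h _ _) (h _ _) (h _ _) (h _ _)))).sub
    ((h 0 3).mul (mem_d3 (h _ _) (h _ _) (h _ _) (h _ _) (h _ _) (h _ _) (h _ _) (h _ _) (h _ _)))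

theorem cramer4 (M : Fin 4 → Fin 4 → ℝ) (β : Fin 4 → ℝ) (k : Fin 4) :
    d4 (fun j l => if l = k then ∑ p, M j p * β p else M j l) = β k * d4 M := by
  fin_cases k <;> simp [d4, d3, Fin.sum_univ_four] <;> ring

/-- The interval solution of a linear system whose determinant is negative. -/
def solI (B : Fin 4 → Fin 4 → Iv) (R : Fin 4 → Iv) (k : Fin 4) : Iv :=
  (d4I fun j l => if l = k then R j else B j l).neg.mul (d4I B).neg.inv

theorem mem_solI {B : Fin 4 → Fin 4 → Iv} {R : Fin 4 → Iv} {M : Fin 4 → Fin 4 → ℝ} {β : Fin 4 → ℝ}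
    (hB : ∀ j k, (B j k).mem (M j k)) (hR : ∀ j, (R j).mem (∑ p, M j p * β p))
    (hd : (d4I B).neg.pos = true) (k : Fin 4) : (solI B R k).mem (β k) := by
  have h1 : (d4I fun j l => if l = k then R j else B j l).mem
      (d4 fun j l => if l = k then ∑ p, M j p * β p else M j l) := by
    refine mem_d4 fun j l => ?_
    by_cases h : l = k
    · simp only [h, if_true]; exact hR j
    · simp only [h, if_false]; exact hB j l
  have h2 := (mem_d4 hB).neg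
  have h3 := h1.neg.mul (h2.inv hd)
  have h4 := h2.pos hd
  rw [cramer4] at h3
  have : -(β k * d4 M) * (-d4 M)⁻¹ = β k := by
    have : d4 M ≠ 0 := by linarith [h4] |> fun h : d4 M < 0 => h.ne
    field_simp
  rw [this] at h3
  exact h3

/-! ### The root -/

open Polynomial in
theorem exists_root_near (z : ℂ) (e : ℝ) (he : 0 < e)
    (h : ‖z ^ 5 - z ^ 4 - z ^ 3 + 2 * z ^ 2 - z - 1‖ < e ^ 5) :
    ∃ b : ℂ, b ^ 5 = b ^ 4 + b ^ 3 - 2 * b ^ 2 + b + 1 ∧ ‖z - b‖ < e := by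
  set f : ℂ[X] := X ^ 5 - X ^ 4 - X ^ 3 + 2 * X ^ 2 - X - 1 with hf
  have hd : f.natDegree = 5 := by rw [hf]; compute_degree!
  have hm : f.Monic := by rw [hf]; monicity!
  have hs : f.Splits := IsAlgClosed.splits f
  have hc := hs.natDegree_eq_card_roots
  have hp := hs.eq_prod_roots_of_monic hm
  have hev : ∀ w : ℂ, f.eval w = w ^ 5 - w ^ 4 - w ^ 3 + 2 * w ^ 2 - w - 1 := by
    intro w; simp [hf]
  by_contra hcon
  push Not at hcon
  have key : ∀ s : Multiset ℂ, (∀ r ∈ s, e ≤ ‖z - r‖) →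
      e ^ s.card ≤ ‖((s.map fun r => X - C r).prod).eval z‖ := by
    intro s
    induction s using Multiset.induction_on with
    | empty => simp
    | cons a s ih =>
      intro hs
      simp only [Multiset.card_cons, Multiset.map_cons, Multiset.prod_cons, eval_mul, norm_mul,
        eval_sub, eval_X, eval_C, pow_succ']
      exact mul_le_mul (hs a (Multiset.mem_cons_self _ _))
        (ih fun r hr => hs r (Multiset.mem_cons_of_mem hr)) (by positivity) (norm_nonneg _)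
  have k1 := key f.roots fun r hr => hcon r (by
    have := (mem_roots hm.ne_zero).1 hr
    rw [IsRoot, hev] at this
    linear_combination this)
  rw [← hp, ← hc, hd, hev] at k1
  linarith

/-- Real part of the root. -/
def bR : Iv := ⟨685154314446, 685154314449⟩

/-- Imaginary part of the root. -/
def bI : Iv := ⟨-871407150562, -871407150559⟩

theorem exists_root : ∃ b : ℂ, b ^ 5 = b ^ 4 + b ^ 3 - 2 * b ^ 2 + b + 1 ∧ bR.mem b.re ∧ bI.mem b.im := by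
  set x : ℝ := 6851543144464776353851348626692859358577804375649378354008675642944831 / 10 ^ 70 with hx
  set y : ℝ := -8714071505609434775496896444132368153140344576839453136522963863447977 / 10 ^ 70 with hy
  obtain ⟨b, hb, hn⟩ := exists_root_near ⟨x, y⟩ (1 / 10 ^ 13) (by positivity) (by
    refine (Complex.norm_le_abs_re_add_abs_im _).trans_lt ?_
    have e1 : ((⟨x, y⟩ : ℂ) ^ 5 - (⟨x, y⟩ : ℂ) ^ 4 - (⟨x, y⟩ : ℂ) ^ 3 + 2 * (⟨x, y⟩ : ℂ) ^ 2 - (⟨x, y⟩ : ℂ) - 1).re =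
        x ^ 5 - 10 * x ^ 3 * y ^ 2 + 5 * x * y ^ 4 - (x ^ 4 - 6 * x ^ 2 * y ^ 2 + y ^ 4) -
          (x ^ 3 - 3 * x * y ^ 2) + 2 * (x ^ 2 - y ^ 2) - x - 1 := by
      simp [pow_succ]; ring
    have e2 : ((⟨x, y⟩ : ℂ) ^ 5 - (⟨x, y⟩ : ℂ) ^ 4 - (⟨x, y⟩ : ℂ) ^ 3 + 2 * (⟨x, y⟩ : ℂ) ^ 2 - (⟨x, y⟩ : ℂ) - 1).im =
        5 * x ^ 4 * y - 10 * x ^ 2 * y ^ 3 + y ^ 5 - (4 * x ^ 3 * y - 4 * x * y ^ 3) -
          (3 * x ^ 2 * y - y ^ 3) + 2 * (2 * x * y) - y := by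
      simp [pow_succ]; ring
    rw [e1, e2]
    have a1 : |x ^ 5 - 10 * x ^ 3 * y ^ 2 + 5 * x * y ^ 4 - (x ^ 4 - 6 * x ^ 2 * y ^ 2 + y ^ 4) -
          (x ^ 3 - 3 * x * y ^ 2) + 2 * (x ^ 2 - y ^ 2) - x - 1| < 1 / 10 ^ 66 := by
      rw [abs_lt, hx, hy]; constructor <;> norm_num
    have a2 : |5 * x ^ 4 * y - 10 * x ^ 2 * y ^ 3 + y ^ 5 - (4 * x ^ 3 * y - 4 * x * y ^ 3) -
          (3 * x ^ 2 * y - y ^ 3) + 2 * (2 * x * y) - y| < 1 / 10 ^ 66 := by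
      rw [abs_lt, hx, hy]; constructor <;> norm_num
    have : (1 / 10 ^ 66 + 1 / 10 ^ 66 : ℝ) < (1 / 10 ^ 13) ^ 5 := by norm_num
    linarith)
  have h1 := abs_lt.1 ((Complex.abs_re_le_norm _).trans_lt hn)
  have h2 := abs_lt.1 ((Complex.abs_im_le_norm _).trans_lt hn)
  simp only [Complex.sub_re, Complex.sub_im] at h1 h2
  refine ⟨b, hb, ⟨?_, ?_⟩, ⟨?_, ?_⟩⟩ <;> simp only [bR, bI] <;> push_cast <;>
    norm_num [hx, hy] at h1 h2 ⊢ <;> linarith [h1.1, h1.2, h2.1, h2.2]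

end Pool.Agent.Lib.MP_a11aea_gt.N94
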