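import Pool.Agent.Lib.MP_a11aea_gt.H36Tri
import Pool.Agent.Lib.MP_a11aea_gt.H94Ival

/-! Exact arithmetic in the quintic order, the data tables and the kernel checks. -/

namespace Pool.Agent.Lib.MP_a11aea_gt.N94

open Matrix

/-- Elements of the order generated by the root. -/
structure Zb where
  c0 : ℤ
  c1 : ℤ
  c2 : ℤ
  c3 : ℤ
  c4 : ℤ
deriving DecidableEq

def Zb.zero : Zb := ⟨0, 0, 0, 0, 0⟩

def Zb.one : Zb := ⟨1, 0, 0, 0, 0⟩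

def Zb.add (x y : Zb) : Zb := ⟨x.c0 + y.c0, x.c1 + y.c1, x.c2 + y.c2, x.c3 + y.c3, x.c4 + y.c4⟩

def Zb.sub (x y : Zb) : Zb := ⟨x.c0 - y.c0, x.c1 - y.c1, x.c2 - y.c2, x.c3 - y.c3, x.c4 - y.c4⟩

def Zb.neg (x : Zb) : Zb := ⟨-x.c0, -x.c1, -x.c2, -x.c3, -x.c4⟩

def Zb.red (p0 p1 p2 p3 p4 p5 p6 p7 p8 : ℤ) : Zb :=
  ⟨p0 + p5 + p6 + 2 * p7 + p8, p1 + p5 + 2 * p6 + 3 * p7 + 3 * p8, p2 - 2 * p5 - p6 - 2 * p7 + p8,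
    p3 + p5 - p6 + p7 - p8, p4 + p5 + 2 * p6 + p7 + 2 * p8⟩

def Zb.mul (x y : Zb) : Zb :=
  Zb.red (x.c0 * y.c0) (x.c0 * y.c1 + x.c1 * y.c0) (x.c0 * y.c2 + x.c1 * y.c1 + x.c2 * y.c0)
    (x.c0 * y.c3 + x.c1 * y.c2 + x.c2 * y.c1 + x.c3 * y.c0)
    (x.c0 * y.c4 + x.c1 * y.c3 + x.c2 * y.c2 + x.c3 * y.c1 + x.c4 * y.c0)
    (x.c1 * y.c4 + x.c2 * y.c3 + x.c3 * y.c2 + x.c4 * y.c1)
    (x.c2 * y.c4 + x.c3 * y.c3 + x.c4 * y.c2) (x.c3 * y.c4 + x.c4 * y.c3) (x.c4 * y.c4)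

noncomputable def ev (b : ℂ) (x : Zb) : ℂ :=
  x.c0 + b * (x.c1 + b * (x.c2 + b * (x.c3 + b * x.c4)))

theorem ev_zero (b : ℂ) : ev b Zb.zero = 0 := by simp [ev, Zb.zero]

theorem ev_one (b : ℂ) : ev b Zb.one = 1 := by simp [ev, Zb.one]

theorem ev_add (b : ℂ) (x y : Zb) : ev b (x.add y) = ev b x + ev b y := by
  simp only [ev, Zb.add]; push_cast; ring

theorem ev_sub (b : ℂ) (x y : Zb) : ev b (x.sub y) = ev b x - ev b y := by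
  simp only [ev, Zb.sub]; push_cast; ring

theorem ev_neg (b : ℂ) (x : Zb) : ev b x.neg = -ev b x := by
  simp only [ev, Zb.neg]; push_cast; ring

theorem ev_red {b : ℂ} (hb : b ^ 5 = b ^ 4 + b ^ 3 - 2 * b ^ 2 + b + 1) (p0 p1 p2 p3 p4 p5 p6 p7 p8 : ℤ) :
    ev b (Zb.red p0 p1 p2 p3 p4 p5 p6 p7 p8) = p0 + p1 * b + p2 * b ^ 2 + p3 * b ^ 3 + p4 * b ^ 4 +
      p5 * b ^ 5 + p6 * b ^ 6 + p7 * b ^ 7 + p8 * b ^ 8 := by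
  simp only [ev, Zb.red]; push_cast
  linear_combination (-(p5 + p6 * (b + 1) + p7 * (b ^ 2 + b + 2) + p8 * (b ^ 3 + b ^ 2 + 2 * b + 1))) * hb

theorem ev_mul {b : ℂ} (hb : b ^ 5 = b ^ 4 + b ^ 3 - 2 * b ^ 2 + b + 1) (x y : Zb) :
    ev b (x.mul y) = ev b x * ev b y := by
  rw [Zb.mul, ev_red hb]
  simp only [ev]; push_cast; ring

/-- Two by two matrices over the order. -/
structure M2 where
  a : Zb
  b : Zb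
  c : Zb
  d : Zb
deriving DecidableEq

def M2.one : M2 := ⟨Zb.one, Zb.zero, Zb.zero, Zb.one⟩

def M2.mul (A B : M2) : M2 :=
  ⟨(A.a.mul B.a).add (A.b.mul B.c), (A.a.mul B.b).add (A.b.mul B.d),
    (A.c.mul B.a).add (A.d.mul B.c), (A.c.mul B.b).add (A.d.mul B.d)⟩

def M2.det (A : M2) : Zb := (A.a.mul A.d).sub (A.b.mul A.c)

def M2.app (A : M2) (v : Zb × Zb) : Zb × Zb :=
  ((A.a.mul v.1).add (A.b.mul v.2), (A.c.mul v.1).add (A.d.mul v.2))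

def dt (v w : Zb × Zb) : Zb := (v.1.mul w.2).sub (v.2.mul w.1)

def pmEq (v w : Zb × Zb) : Bool := decide (v = w) || decide (v = (w.1.neg, w.2.neg))

noncomputable def evM (b : ℂ) (A : M2) : Mat := !![ev b A.a, ev b A.b; ev b A.c, ev b A.d]

noncomputable def evV (b : ℂ) (v : Zb × Zb) : Fin 2 → ℂ := ![ev b v.1, ev b v.2]

theorem evM_one (b : ℂ) : evM b M2.one = 1 := by
  simp only [evM, M2.one, ev_one, ev_zero]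
  exact Matrix.one_fin_two.symm

theorem evM_mul {b : ℂ} (hb : b ^ 5 = b ^ 4 + b ^ 3 - 2 * b ^ 2 + b + 1) (A B : M2) :
    evM b (A.mul B) = evM b A * evM b B := by
  simp only [evM, M2.mul, ev_add, ev_mul hb, Matrix.mul_fin_two]

theorem evM_det {b : ℂ} (hb : b ^ 5 = b ^ 4 + b ^ 3 - 2 * b ^ 2 + b + 1) (A : M2) :
    (evM b A).det = ev b A.det := by
  simp only [evM, M2.det, ev_sub, ev_mul hb, Matrix.det_fin_two_of]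

theorem evV_app {b : ℂ} (hb : b ^ 5 = b ^ 4 + b ^ 3 - 2 * b ^ 2 + b + 1) (A : M2) (v : Zb × Zb) :
    evV b (A.app v) = evM b A *ᵥ evV b v := by
  ext i
  fin_cases i <;>
    simp [evV, evM, M2.app, ev_add, ev_mul hb, Matrix.mulVec, dotProduct, Fin.sum_univ_two]

theorem ev_dt {b : ℂ} (hb : b ^ 5 = b ^ 4 + b ^ 3 - 2 * b ^ 2 + b + 1) (v w : Zb × Zb) :
    ev b (dt v w) = evV b v 0 * evV b w 1 - evV b v 1 * evV b w 0 := by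
  simp [evV, dt, ev_sub, ev_mul hb]

theorem evV_pm {b : ℂ} {v w : Zb × Zb} (h : pmEq v w = true) :
    evV b v = evV b w ∨ evV b v = -evV b w := by
  simp only [pmEq, Bool.or_eq_true, decide_eq_true_eq] at h
  rcases h with rfl | rfl
  · exact Or.inl rfl
  · right
    ext i
    fin_cases i <;> simp [evV, ev_neg]

/-- One Horner step on complex intervals. -/
def hs (c : ℤ) (w : Iv × Iv) : Iv × Iv :=
  ((Iv.ofInt c).add ((bR.mul w.1).sub (bI.mul w.2)), (bR.mul w.2).add (bI.mul w.1))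

theorem mem_hs {b : ℂ} (h1 : bR.mem b.re) (h2 : bI.mem b.im) (c : ℤ) {W : Iv × Iv} {w : ℂ}
    (h : W.1.mem w.re ∧ W.2.mem w.im) :
    (hs c W).1.mem ((c : ℂ) + b * w).re ∧ (hs c W).2.mem ((c : ℂ) + b * w).im := by
  constructor
  · have := (mem_ofInt c).add ((h1.mul h.1).sub (h2.mul h.2))
    simpa [hs] using this
  · have := (h1.mul h.2).add (h2.mul h.1)
    simpa [hs] using this

def sqI (w : Iv × Iv) : Iv := (w.1.mul w.1).add (w.2.mul w.2)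

def nsqI (x : Zb) : Iv := sqI (hs x.c0 (hs x.c1 (hs x.c2 (hs x.c3 (Iv.ofInt x.c4, Iv.ofInt 0)))))

theorem mem_nsqI {b : ℂ} (h1 : bR.mem b.re) (h2 : bI.mem b.im) (x : Zb) :
    (nsqI x).mem (Complex.normSq (ev b x)) := by
  have h0 : (Iv.ofInt x.c4, Iv.ofInt 0).1.mem (x.c4 : ℂ).re ∧
      (Iv.ofInt x.c4, Iv.ofInt 0).2.mem (x.c4 : ℂ).im :=
    ⟨by simpa using mem_ofInt x.c4, by simpa using mem_zero⟩
  have h := mem_hs h1 h2 x.c0 (mem_hs h1 h2 x.c1 (mem_hs h1 h2 x.c2 (mem_hs h1 h2 x.c3 h0)))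
  rw [Complex.normSq_apply]
  exact (h.1.mul h.1).add (h.2.mul h.2)

def VT : Fin 4 → Fin 4 → Zb × Zb :=
  ![![(⟨1, 0, 0, 0, 0⟩, ⟨0, 0, 0, 0, 0⟩), (⟨0, 0, 0, 0, 0⟩, ⟨1, 0, 0, 0, 0⟩), (⟨0, 1, 0, 0, 0⟩, ⟨-1, 1, -1, -1, 1⟩), (⟨0, 1, 0, 0, 0⟩, ⟨0, -1, 0, 0, 0⟩)],
    ![(⟨1, 0, 0, 0, 0⟩, ⟨0, 0, 0, 0, 0⟩), (⟨0, 0, 0, 0, 0⟩, ⟨1, 0, 0, 0, 0⟩), (⟨0, 1, 0, 0, 0⟩, ⟨-1, 1, -1, -1, 1⟩), (⟨1, 0, 0, 0, 0⟩, ⟨1, -1, -1, 1, 0⟩)],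
    ![(⟨1, 0, 0, 0, 0⟩, ⟨0, 0, 0, 0, 0⟩), (⟨0, 0, 0, 0, 0⟩, ⟨1, 0, 0, 0, 0⟩), (⟨0, 1, 0, 0, 0⟩, ⟨1, 0, 0, 0, 0⟩), (⟨1, 0, 0, 0, 0⟩, ⟨1, -1, -1, 1, 0⟩)],
    ![(⟨1, 0, 0, 0, 0⟩, ⟨1, -1, -1, 1, 0⟩), (⟨0, 1, 0, 0, 0⟩, ⟨1, 0, 0, 0, 0⟩), (⟨1, 0, 0, 0, 0⟩, ⟨0, 0, 0, 0, 0⟩), (⟨0, 1, 0, -1, 0⟩, ⟨-1, 1, -1, -1, 1⟩)]]

def GT : Fin 4 → Fin 4 → M2 :=
  ![![⟨⟨0, 1, 0, 0, 0⟩, ⟨0, 1, 0, 0, 0⟩, ⟨0, -1, 0, 0, 0⟩, ⟨-1, 1, -1, -1, 1⟩⟩,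
      ⟨⟨0, -2, 1, 1, -1⟩, ⟨0, 1, 0, 0, 0⟩, ⟨1, 0, 0, 0, 0⟩, ⟨0, -1, 0, 0, 0⟩⟩,
      ⟨⟨-1, 1, -1, -1, 1⟩, ⟨0, -1, 0, 0, 0⟩, ⟨0, 1, 0, 0, 0⟩, ⟨0, 1, 0, 0, 0⟩⟩,
      ⟨⟨1, 0, 0, 0, 0⟩, ⟨0, 0, 0, 0, 0⟩, ⟨0, 0, 0, 0, 0⟩, ⟨1, 0, 0, 0, 0⟩⟩],
    ![⟨⟨1, 0, 0, 0, 0⟩, ⟨0, -1, 0, 0, 0⟩, ⟨1, -1, -1, 1, 0⟩, ⟨1, -1, 1, 1, -1⟩⟩,
      ⟨⟨0, 1, 0, 0, 0⟩, ⟨1, 0, -1, 0, 0⟩, ⟨-1, 1, -1, -1, 1⟩, ⟨0, -1, 0, 1, 0⟩⟩,
      ⟨⟨1, 0, 0, 0, 0⟩, ⟨0, 0, 0, 0, 0⟩, ⟨0, 0, 0, 0, 0⟩, ⟨1, 0, 0, 0, 0⟩⟩,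
      ⟨⟨1, 0, 0, 0, 0⟩, ⟨0, 0, 0, 0, 0⟩, ⟨0, 0, 0, 0, 0⟩, ⟨1, 0, 0, 0, 0⟩⟩],
    ![⟨⟨0, -1, 0, 0, 0⟩, ⟨0, -1, 0, 0, 0⟩, ⟨-1, 0, 0, 0, 0⟩, ⟨0, -2, 1, 1, -1⟩⟩,
      ⟨⟨1, 0, 0, 0, 0⟩, ⟨0, 0, 0, 0, 0⟩, ⟨0, 0, 0, 0, 0⟩, ⟨1, 0, 0, 0, 0⟩⟩,
      ⟨⟨1, 0, 0, 0, 0⟩, ⟨0, 0, 0, 0, 0⟩, ⟨0, 0, 0, 0, 0⟩, ⟨1, 0, 0, 0, 0⟩⟩,
      ⟨⟨1, -1, 1, 1, -1⟩, ⟨0, 1, 0, 0, 0⟩, ⟨-1, 1, 1, -1, 0⟩, ⟨1, 0, 0, 0, 0⟩⟩],
    ![⟨⟨0, -1, 0, 1, 0⟩, ⟨-1, 0, 1, 0, 0⟩, ⟨1, -1, 1, 1, -1⟩, ⟨0, 1, 0, 0, 0⟩⟩,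
      ⟨⟨0, 1, 0, -1, 0⟩, ⟨0, 1, -1, -1, 1⟩, ⟨1, -1, -1, 1, 0⟩, ⟨-1, 0, 0, 0, 0⟩⟩,
      ⟨⟨-1, 0, 0, 0, 0⟩, ⟨0, -1, 1, 1, -1⟩, ⟨-1, 1, 1, -1, 0⟩, ⟨0, 1, 0, -1, 0⟩⟩,
      ⟨⟨1, 0, 0, 0, 0⟩, ⟨0, 0, 0, 0, 0⟩, ⟨0, 0, 0, 0, 0⟩, ⟨1, 0, 0, 0, 0⟩⟩]]

def hw : Fin 4 → Fin 16 → List (Fin 4 × Fin 4) :=
  ![![[], [], [], [], [], [], [(0, 0), (0, 0)], [], [], [], [(0, 0)], [], [(0, 0)], [], [(0, 0)], []],
    ![[], [], [], [(1, 3)], [], [(1, 3)], [(1, 0), (2, 0)], [(1, 3)], [], [], [(1, 2), (2, 0), (0, 0)], [], [(1, 0), (2, 2), (1, 3)], [], [], []],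
    ![[], [], [], [(2, 2), (1, 3)], [], [(2, 3), (1, 2), (2, 0), (0, 0)], [(2, 0)], [(2, 3)], [], [(2, 2)], [(2, 0), (0, 0)], [(2, 2)], [(2, 0)], [], [(2, 0)], []],
    ![[], [], [], [(3, 3), (2, 0)], [], [(3, 3), (2, 2)], [(3, 0), (1, 0), (2, 2), (1, 3)], [(3, 3)], [], [(3, 1), (3, 0)], [(3, 0)], [], [(3, 0), (1, 3)], [(3, 1)], [(3, 0)], []]]

def HT : Fin 4 → Fin 16 → M2 :=
  ![![M2.one,
      M2.one,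
      M2.one,
      M2.one,
      M2.one,
      M2.one,
      ⟨⟨0, 0, 0, 0, 0⟩, ⟨1, 0, 0, 0, 0⟩, ⟨-1, 0, 0, 0, 0⟩, ⟨1, -3, 0, 2, -1⟩⟩,
      M2.one,
      M2.one,
      M2.one,
      ⟨⟨0, 1, 0, 0, 0⟩, ⟨0, 1, 0, 0, 0⟩, ⟨0, -1, 0, 0, 0⟩, ⟨-1, 1, -1, -1, 1⟩⟩,
      M2.one,
      ⟨⟨0, 1, 0, 0, 0⟩, ⟨0, 1, 0, 0, 0⟩, ⟨0, -1, 0, 0, 0⟩, ⟨-1, 1, -1, -1, 1⟩⟩,
      M2.one,
      ⟨⟨0, 1, 0, 0, 0⟩, ⟨0, 1, 0, 0, 0⟩, ⟨0, -1, 0, 0, 0⟩, ⟨-1, 1, -1, -1, 1⟩⟩,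
      M2.one],
    ![M2.one,
      M2.one,
      M2.one,
      M2.one,
      M2.one,
      M2.one,
      ⟨⟨0, 0, 0, 0, 0⟩, ⟨1, 0, 0, 0, 0⟩, ⟨-1, 0, 0, 0, 0⟩, ⟨1, -3, 0, 2, -1⟩⟩,
      M2.one,
      M2.one,
      M2.one,
      ⟨⟨0, 0, 0, 0, 0⟩, ⟨-1, 0, 0, 0, 0⟩, ⟨1, 0, 0, 0, 0⟩, ⟨-1, 1, 1, -1, 0⟩⟩,
      M2.one,
      ⟨⟨1, 0, 0, 0, 0⟩, ⟨0, -1, 0, 0, 0⟩, ⟨1, -1, -1, 1, 0⟩, ⟨1, -1, 1, 1, -1⟩⟩,
      M2.one,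
      M2.one,
      M2.one],
    ![M2.one,
      M2.one,
      M2.one,
      M2.one,
      M2.one,
      ⟨⟨0, 1, 0, 0, 0⟩, ⟨-1, 0, 0, 0, 0⟩, ⟨1, 0, 0, 0, 0⟩, ⟨0, 0, 0, 0, 0⟩⟩,
      ⟨⟨0, -1, 0, 0, 0⟩, ⟨0, -1, 0, 0, 0⟩, ⟨-1, 0, 0, 0, 0⟩, ⟨0, -2, 1, 1, -1⟩⟩,
      ⟨⟨1, -1, 1, 1, -1⟩, ⟨0, 1, 0, 0, 0⟩, ⟨-1, 1, 1, -1, 0⟩, ⟨1, 0, 0, 0, 0⟩⟩,
      M2.one,
      M2.one,
      ⟨⟨0, 0, 0, 0, 0⟩, ⟨-1, 0, 0, 0, 0⟩, ⟨1, 0, 0, 0, 0⟩, ⟨-1, 1, 1, -1, 0⟩⟩,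
      M2.one,
      ⟨⟨0, -1, 0, 0, 0⟩, ⟨0, -1, 0, 0, 0⟩, ⟨-1, 0, 0, 0, 0⟩, ⟨0, -2, 1, 1, -1⟩⟩,
      M2.one,
      ⟨⟨0, -1, 0, 0, 0⟩, ⟨0, -1, 0, 0, 0⟩, ⟨-1, 0, 0, 0, 0⟩, ⟨0, -2, 1, 1, -1⟩⟩,
      M2.one],
    ![M2.one,
      M2.one,
      M2.one,
      ⟨⟨0, -1, 0, 0, 0⟩, ⟨0, -1, 0, 0, 0⟩, ⟨-1, 0, 0, 0, 0⟩, ⟨0, -2, 1, 1, -1⟩⟩,
      M2.one,
      M2.one,
      ⟨⟨0, 1, 0, 0, 0⟩, ⟨-1, 0, 0, 0, 0⟩, ⟨1, 0, 0, 0, 0⟩, ⟨0, 0, 0, 0, 0⟩⟩,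
      M2.one,
      M2.one,
      ⟨⟨-1, 0, 0, 0, 0⟩, ⟨0, -1, 1, 1, -1⟩, ⟨-1, 1, 1, -1, 0⟩, ⟨0, 1, 0, -1, 0⟩⟩,
      ⟨⟨0, -1, 0, 1, 0⟩, ⟨-1, 0, 1, 0, 0⟩, ⟨1, -1, 1, 1, -1⟩, ⟨0, 1, 0, 0, 0⟩⟩,
      M2.one,
      ⟨⟨0, -1, 0, 1, 0⟩, ⟨-1, 0, 1, 0, 0⟩, ⟨1, -1, 1, 1, -1⟩, ⟨0, 1, 0, 0, 0⟩⟩,
      ⟨⟨0, 1, 0, -1, 0⟩, ⟨0, 1, -1, -1, 1⟩, ⟨1, -1, -1, 1, 0⟩, ⟨-1, 0, 0, 0, 0⟩⟩,
      ⟨⟨0, -1, 0, 1, 0⟩, ⟨-1, 0, 1, 0, 0⟩, ⟨1, -1, 1, 1, -1⟩, ⟨0, 1, 0, 0, 0⟩⟩,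
      M2.one]]

def mT : Fin 4 → Fin 4 → Fin 4 → Iv :=
  ![![![⟨-2000, 2000⟩, ⟨999999998000, 1000000002000⟩, ⟨2514467903676, 2514467907676⟩, ⟨1228786854653, 1228786858653⟩],
      ![⟨999999998000, 1000000002000⟩, ⟨-2000, 2000⟩, ⟨1228786854653, 1228786858653⟩, ⟨1228786854653, 1228786858653⟩],
      ![⟨2514467903676, 2514467907676⟩, ⟨1228786854653, 1228786858653⟩, ⟨-2000, 2000⟩, ⟨999999998000, 1000000002000⟩],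
      ![⟨1228786854653, 1228786858653⟩, ⟨1228786854653, 1228786858653⟩, ⟨999999998000, 1000000002000⟩, ⟨-2000, 2000⟩]],
    ![![⟨-2000, 2000⟩, ⟨999999998000, 1000000002000⟩, ⟨2514467903676, 2514467907676⟩, ⟨2652478907674, 2652478911674⟩],
      ![⟨999999998000, 1000000002000⟩, ⟨-2000, 2000⟩, ⟨1228786854653, 1228786858653⟩, ⟨999999998000, 1000000002000⟩],
      ![⟨2514467903676, 2514467907676⟩, ⟨1228786854653, 1228786858653⟩, ⟨-2000, 2000⟩, ⟨999999998000, 1000000002000⟩],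
      ![⟨2652478907674, 2652478911674⟩, ⟨999999998000, 1000000002000⟩, ⟨999999998000, 1000000002000⟩, ⟨-2000, 2000⟩]],
    ![![⟨-2000, 2000⟩, ⟨999999998000, 1000000002000⟩, ⟨999999998000, 1000000002000⟩, ⟨2652478907674, 2652478911674⟩],
      ![⟨999999998000, 1000000002000⟩, ⟨-2000, 2000⟩, ⟨1228786854653, 1228786858653⟩, ⟨999999998000, 1000000002000⟩],
      ![⟨999999998000, 1000000002000⟩, ⟨1228786854653, 1228786858653⟩, ⟨-2000, 2000⟩, ⟨2514467903676, 2514467907676⟩],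
      ![⟨2652478907674, 2652478911674⟩, ⟨999999998000, 1000000002000⟩, ⟨2514467903676, 2514467907676⟩, ⟨-2000, 2000⟩]],
    ![![⟨-2000, 2000⟩, ⟨2514467903676, 2514467907676⟩, ⟨2652478907674, 2652478911674⟩, ⟨2652478907674, 2652478911674⟩],
      ![⟨2514467903676, 2514467907676⟩, ⟨-2000, 2000⟩, ⟨999999998000, 1000000002000⟩, ⟨2652478907674, 2652478911674⟩],
      ![⟨2652478907674, 2652478911674⟩, ⟨999999998000, 1000000002000⟩, ⟨-2000, 2000⟩, ⟨2514467903676, 2514467907676⟩],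
      ![⟨2652478907674, 2652478911674⟩, ⟨2652478907674, 2652478911674⟩, ⟨2514467903676, 2514467907676⟩, ⟨-2000, 2000⟩]]]

def rT : Fin 4 → Fin 4 → Fin 4 → Iv :=
  ![![![⟨1228786854653, 1228786858653⟩, ⟨2514467903676, 2514467907676⟩, ⟨5430314214504, 5430314218504⟩, ⟨999999998000, 1000000002000⟩],
      ![⟨2928982730895, 2928982734895⟩, ⟨1228786854653, 1228786858653⟩, ⟨999999998000, 1000000002000⟩, ⟨1228786854653, 1228786858653⟩],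
      ![⟨5430314214504, 5430314218504⟩, ⟨999999998000, 1000000002000⟩, ⟨1228786854653, 1228786858653⟩, ⟨2514467903676, 2514467907676⟩],
      ![⟨1228786854653, 1228786858653⟩, ⟨1228786854653, 1228786858653⟩, ⟨999999998000, 1000000002000⟩, ⟨2928982730895, 2928982734895⟩]],
    ![![⟨2652478907674, 2652478911674⟩, ⟨2514467903676, 2514467907676⟩, ⟨999999998000, 1000000002000⟩, ⟨9998796669713, 9998796673713⟩],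
      ![⟨3796638184458, 3796638188458⟩, ⟨999999998000, 1000000002000⟩, ⟨1228786854653, 1228786858653⟩, ⟨999999998000, 1000000002000⟩],
      ![⟨2514467903676, 2514467907676⟩, ⟨1228786854653, 1228786858653⟩, ⟨4632040572475, 4632040576475⟩, ⟨999999998000, 1000000002000⟩],
      ![⟨2652478907674, 2652478911674⟩, ⟨999999998000, 1000000002000⟩, ⟨999999998000, 1000000002000⟩, ⟨2928982730895, 2928982734895⟩]],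
    ![![⟨999999998000, 1000000002000⟩, ⟨2928982730895, 2928982734895⟩, ⟨2652478907674, 2652478911674⟩, ⟨999999998000, 1000000002000⟩],
      ![⟨999999998000, 1000000002000⟩, ⟨1228786854653, 1228786858653⟩, ⟨999999998000, 1000000002000⟩, ⟨3796638184458, 3796638188458⟩],
      ![⟨999999998000, 1000000002000⟩, ⟨1228786854653, 1228786858653⟩, ⟨4632040572475, 4632040576475⟩, ⟨2514467903676, 2514467907676⟩],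
      ![⟨9998796669713, 9998796673713⟩, ⟨2514467903676, 2514467907676⟩, ⟨999999998000, 1000000002000⟩, ⟨2652478907674, 2652478911674⟩]],
    ![![⟨2652478907674, 2652478911674⟩, ⟨3796638184458, 3796638188458⟩, ⟨2652478907674, 2652478911674⟩, ⟨2514467903676, 2514467907676⟩],
      ![⟨999999998000, 1000000002000⟩, ⟨2652478907674, 2652478911674⟩, ⟨4665259100988, 4665259104988⟩, ⟨2514467903676, 2514467907676⟩],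
      ![⟨2514467903676, 2514467907676⟩, ⟨4665259100988, 4665259104988⟩, ⟨2652478907674, 2652478911674⟩, ⟨999999998000, 1000000002000⟩],
      ![⟨2514467903676, 2514467907676⟩, ⟨3796638184458, 3796638188458⟩, ⟨2652478907674, 2652478911674⟩, ⟨2652478907674, 2652478911674⟩]]]

def kapT : Fin 4 → Fin 4 → Iv :=
  ![![⟨999998999999, 1000000999999⟩, ⟨755484984546, 755486984546⟩, ⟨999998999999, 1000000999999⟩, ⟨755484984546, 755486984546⟩],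
    ![⟨999998999999, 1000000999999⟩, ⟨397255416880, 397257416880⟩, ⟨999998999999, 1000000999999⟩, ⟨1323650292618, 1323652292618⟩],
    ![⟨1323650292618, 1323652292618⟩, ⟨397255416880, 397257416880⟩, ⟨999998999999, 1000000999999⟩, ⟨999998999999, 1000000999999⟩],
    ![⟨2517264820027, 2517266820027⟩, ⟨999999000000, 1000001000000⟩, ⟨999999000000, 1000001000000⟩, ⟨2517264820027, 2517266820027⟩]]

def lamT : Fin 4 → Fin 4 → Fin 4 → Iv :=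
  ![![![⟨0, 0⟩, ⟨2384012108984, 2384014108984⟩, ⟨813809787920, 813811787920⟩, ⟨813809787920, 813811787920⟩],
      ![⟨1166147067406, 1166149067406⟩, ⟨0, 0⟩, ⟨551324423059, 551326423059⟩, ⟨300454608457, 300456608457⟩],
      ![⟨813809787920, 813811787920⟩, ⟨813809787920, 813811787920⟩, ⟨0, 0⟩, ⟨2384012108984, 2384014108984⟩],
      ![⟨551324423059, 551326423059⟩, ⟨300454608457, 300456608457⟩, ⟨1166147067406, 1166149067406⟩, ⟨0, 0⟩]],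
    ![![⟨0, 0⟩, ⟨2652477909674, 2652479909674⟩, ⟨2652477909674, 2652479909674⟩, ⟨255135683918, 255137683918⟩],
      ![⟨676707442371, 676709442371⟩, ⟨0, 0⟩, ⟨203932639180, 203934639180⟩, ⟨580938464317, 580940464317⟩],
      ![⟨1228785856653, 1228787856653⟩, ⟨255135683918, 255137683918⟩, ⟨0, 0⟩, ⟨1228785856653, 1228787856653⟩],
      ![⟨729761608886, 729763608886⟩, ⟨397697454508, 397699454508⟩, ⟨1543572396807, 1543574396807⟩, ⟨0, 0⟩]],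
    ![![⟨0, 0⟩, ⟨397697454508, 397699454508⟩, ⟨1543572396807, 1543574396807⟩, ⟨729761608886, 729763608886⟩],
      ![⟨580938464317, 580940464317⟩, ⟨0, 0⟩, ⟨203932639180, 203934639180⟩, ⟨676707442371, 676709442371⟩],
      ![⟨1228785856653, 1228787856653⟩, ⟨255135683918, 255137683918⟩, ⟨0, 0⟩, ⟨1228785856653, 1228787856653⟩],
      ![⟨255135683918, 255137683918⟩, ⟨2652477909674, 2652479909674⟩, ⟨2652477909674, 2652479909674⟩, ⟨0, 0⟩]],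
    ![![⟨0, 0⟩, ⟨1462378057031, 1462380057031⟩, ⟨513354179463, 513356179463⟩, ⟨1703454032106, 1703456032106⟩],
      ![⟨478359510005, 478361510005⟩, ⟨0, 0⟩, ⟨947968047559, 947970047559⟩, ⟨947968047559, 947970047559⟩],
      ![⟨947968047559, 947970047559⟩, ⟨947968047559, 947970047559⟩, ⟨0, 0⟩, ⟨478359510005, 478361510005⟩],
      ![⟨1703454032106, 1703456032106⟩, ⟨513354179463, 513356179463⟩, ⟨1462378057031, 1462380057031⟩, ⟨0, 0⟩]]]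

def qT : Fin 4 → Fin 4 → Fin 4 → ℤ :=
  ![![![0, 1000, 2514, 1229], ![1000, 0, 1229, 1229], ![2514, 1229, 0, 1000], ![1229, 1229, 1000, 0]],
    ![![0, 1000, 2514, 2652], ![1000, 0, 1229, 1000], ![2514, 1229, 0, 1000], ![2652, 1000, 1000, 0]],
    ![![0, 1000, 1000, 2652], ![1000, 0, 1229, 1000], ![1000, 1229, 0, 2514], ![2652, 1000, 2514, 0]],
    ![![0, 2514, 2652, 2652], ![2514, 0, 1000, 2652], ![2652, 1000, 0, 2514], ![2652, 2652, 2514, 0]]]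

def prodW (l : List (Fin 4 × Fin 4)) : M2 := l.foldr (fun p A => (GT p.1 p.2).mul A) M2.one

theorem c_det : ∀ i a, (GT i a).det = Zb.one := by decide +kernel

theorem c_glue : ∀ i a k, k ≠ a →
    pmEq (VT i k) ((GT i a).app (VT (nb i a) (pm i a k))) = true := by decide +kernel

theorem c_ginv : ∀ i a, (GT i a).mul (GT (nb i a) (pm i a a)) = M2.one := by decide +kernel

theorem c_H : ∀ i s, prodW (hw i s) = HT i s := by decide +kernel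

theorem c_hstep : ∀ (i a : Fin 4) (S : Finset (Fin 4)), a ∉ S → 2 ≤ S.card →
    HT i (sidx S) = (GT i a).mul (HT (nb i a) (sidx (S.map (pm i a).toEmbedding))) := by
  decide +kernel

theorem c_hvert : ∀ (i : Fin 4) (S : Finset (Fin 4)) (k : Fin 4), k ∈ S → 2 ≤ S.card →
    pmEq (VT i k) ((HT i (sidx S)).app (VT (i0 i S) (ph i S k))) = true := by decide +kernel

theorem c_m : ∀ i j k, (nsqI (dt (VT i j) (VT i k))).le (mT i j k) = true := by decide +kernel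

theorem c_r : ∀ i a p, (nsqI (dt (VT i a) ((GT i a).app (VT (nb i a) p)))).le (rT i a p) = true := by
  decide +kernel

theorem c_d : ∀ i, (d4I (mT i)).neg.pos = true := by decide +kernel

theorem c_kap : ∀ i a, (solI (mT (nb i a)) (rT i a) (pm i a a)).neg.le (kapT i a) = true := by
  decide +kernel

theorem c_lam : ∀ i a k, k ≠ a →
    (solI (mT (nb i a)) (rT i a) (pm i a k)).le (lamT i a k) = true := by decide +kernel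

theorem c_lam0 : ∀ i a, lamT i a a = Iv.ofInt 0 := by
  intro i a; fin_cases i <;> fin_cases a <;> rfl

theorem c_kpos : ∀ i a, (kapT i a).pos = true := by decide +kernel

theorem c_conv : ∀ i a, (((((lamT i a 0).add (lamT i a 1)).add (lamT i a 2)).add (lamT i a 3)).sub
    ((Iv.ofInt 1).add (kapT i a))).pos = true := by decide +kernel

theorem c_good : ∀ i j k, (mT i j k).hi ≤ 3000000000000 ∧ (j ≠ k → 900000000000 ≤ (mT i j k).lo) := by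
  decide +kernel

theorem c_q : ∀ i j k, (qT i j k - 1) * 1000000000 ≤ (mT i j k).lo ∧
    (mT i j k).hi ≤ (qT i j k + 1) * 1000000000 := by decide +kernel

def tunI : Iv := ⟨3259000000000, 3260000000000⟩

theorem c_tun : (nsqI (dt (VT 2 1) ((((GT 2 1).mul (GT 3 1)).mul (GT 3 0)).app (VT 1 1)))).le tunI =
    true := by decide +kernel

theorem c_dual : ∀ i a, ((rT i a (pm i a a)).sub tunI).pos = true ∨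
    ((rT i a (pm i a a)).sub tunI).ng = true := by decide +kernel

/-- State of the walk around an edge with the interval coefficients. -/
structure St where
  s : Fin 4 × Fin 4 × Fin 4
  A : Iv
  B : Iv
  C : Iv
  D : Iv

def stp (t : St) : St :=
  ⟨nx t.s, t.C.add ((lamT t.s.1 t.s.2.1 t.s.2.2).mul t.A), t.D.add ((lamT t.s.1 t.s.2.1 t.s.2.2).mul t.B),
    (kapT t.s.1 t.s.2.1).neg.mul t.A, (kapT t.s.1 t.s.2.1).neg.mul t.B⟩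

def st (s : Fin 4 × Fin 4 × Fin 4) : ℕ → St
  | 0 => ⟨s, Iv.ofInt 1, Iv.ofInt 0, Iv.ofInt 0, Iv.ofInt 1⟩
  | n + 1 => stp (st s n)

def dI (t u : St) : Iv := (u.A.mul t.B).sub (t.A.mul u.B)

def okp (t u : St) : Bool :=
  (t.A.pos && t.B.pos) || (u.A.ng && u.B.ng) || (t.B.pos && u.B.pos && (dI t u).ng) ||
    (t.B.ng && u.B.ng && (dI t u).pos) || (t.A.pos && u.A.pos && (dI t u).pos) ||
    (t.A.ng && u.A.ng && (dI t u).ng)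

theorem c_wind : ∀ i a c : Fin 4, a ≠ c → ∀ l < 8, l + 1 < per (i, a, c) → ∀ k < l, 0 < k →
    okp (st (i, a, c) k) (st (i, a, c) l) = true := by decide +kernel

end Pool.Agent.Lib.MP_a11aea_gt.N94
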