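import Pool.Agent.Lib.MP_a11aea_gt.H36Lin
import Pool.Agent.Lib.MP_a11aea_gt.H94Zb

/-! Existence of the geometric data. -/

namespace Pool.Agent.Lib.MP_a11aea_gt

open Matrix Finset
open scoped ComplexOrder

namespace N94

/-- The root with its enclosure. -/
structure Rt where
  b : ℂ
  hb : b ^ 5 = b ^ 4 + b ^ 3 - 2 * b ^ 2 + b + 1
  h1 : bR.mem b.re
  h2 : bI.mem b.im

namespace Rt

variable (R : Rt)

noncomputable def v (i k : Fin 4) : Fin 2 → ℂ := evV R.b (VT i k)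

noncomputable def g (i a : Fin 4) : SL2C :=
  ⟨evM R.b (GT i a), by rw [evM_det R.hb, c_det, ev_one]⟩

noncomputable def hW (l : List (Fin 4 × Fin 4)) : SL2C := (l.map fun p => R.g p.1 p.2).prod

noncomputable def h (i : Fin 4) (S : Finset (Fin 4)) : SL2C := R.hW (hw i (sidx S))

theorem g_val (i a : Fin 4) : (R.g i a).1 = evM R.b (GT i a) := rfl

theorem mul_val (A B : SL2C) : (A * B).1 = A.1 * B.1 := rfl

theorem hW_val (l : List (Fin 4 × Fin 4)) : (R.hW l).1 = evM R.b (prodW l) := by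
  induction l with
  | nil => simp [hW, prodW, evM_one]
  | cons p l ih =>
    have : R.hW (p :: l) = R.g p.1 p.2 * R.hW l := by simp [hW]
    rw [this, mul_val, ih, g_val, ← evM_mul R.hb]
    rfl

theorem h_val (i : Fin 4) (S : Finset (Fin 4)) : (R.h i S).1 = evM R.b (HT i (sidx S)) := by
  rw [h, hW_val, c_H]

theorem act_ev {A : SL2C} {B : M2} (hA : A.1 = evM R.b B) (w : Zb × Zb) :
    act A (lightVec (evV R.b w)) = lightVec (evV R.b (B.app w)) := by
  rw [act_lightVec, hA, evV_app R.hb]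

theorem lv_pm {x w : Zb × Zb} (h : pmEq x w = true) :
    lightVec (evV R.b x) = lightVec (evV R.b w) := by
  rcases evV_pm (b := R.b) h with e | e
  · rw [e]
  · rw [e, lightVec_neg]

theorem mem_mink (x w : Zb × Zb) :
    (nsqI (dt x w)).mem (mink (lightVec (evV R.b x)) (lightVec (evV R.b w))) := by
  rw [mink_lightVec, ← ev_dt R.hb]
  exact mem_nsqI R.h1 R.h2 _

theorem mem_m (i j k : Fin 4) : (mT i j k).mem (mink (lightVec (R.v i j)) (lightVec (R.v i k))) :=
  (R.mem_mink _ _).mono (c_m i j k)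

theorem mem_r (i a p : Fin 4) :
    (rT i a p).mem (mink (lightVec (R.v i a)) (act (R.g i a) (lightVec (R.v (nb i a) p)))) := by
  rw [v, v, R.act_ev (R.g_val i a)]
  exact (R.mem_mink _ _).mono (c_r i a p)

theorem mem_tun : tunI.mem
    (mink (lightVec (R.v 2 1)) (act (R.g 2 1 * R.g 3 1 * R.g 3 0) (lightVec (R.v 1 1)))) := by
  have : (R.g 2 1 * R.g 3 1 * R.g 3 0).1 = evM R.b (((GT 2 1).mul (GT 3 1)).mul (GT 3 0)) := by
    rw [mul_val, mul_val, evM_mul R.hb, evM_mul R.hb]; rfl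
  rw [v, v, R.act_ev this]
  exact (R.mem_mink _ _).mono c_tun

theorem glue (i a k : Fin 4) (h : k ≠ a) :
    lightVec (R.v i k) = act (R.g i a) (lightVec (R.v (nb i a) (pm i a k))) := by
  rw [v, v, R.act_ev (R.g_val i a)]
  exact R.lv_pm (c_glue i a k h)

theorem good (i : Fin 4) : GoodM fun j k => mink (lightVec (R.v i j)) (lightVec (R.v i k)) where
  symm j k := mink_comm _ _
  diag k := by rw [mink_lightVec, mul_comm]; simp
  ge j k h := by
    have h1 := (R.mem_m i j k).1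
    have h2 : ((900000000000 : ℤ) : ℝ) ≤ (mT i j k).lo := by exact_mod_cast (c_good i j k).2 h
    push_cast at h2
    linarith
  le j k := by
    have h1 := (R.mem_m i j k).2
    have h2 : ((mT i j k).hi : ℝ) ≤ (3000000000000 : ℤ) := by exact_mod_cast (c_good i j k).1
    push_cast at h2
    linarith

theorem near_q (i j k : Fin 4) :
    |mink (lightVec (R.v i j)) (lightVec (R.v i k)) - (qT i j k : ℝ) / 1000| ≤ 1 / 1000 := by
  obtain ⟨h1, h2⟩ := R.mem_m i j k
  have a1 : (((qT i j k - 1) * 1000000000 : ℤ) : ℝ) ≤ (mT i j k).lo := by exact_mod_cast (c_q i j k).1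
  have a2 : ((mT i j k).hi : ℝ) ≤ ((qT i j k + 1) * 1000000000 : ℤ) := by exact_mod_cast (c_q i j k).2
  push_cast at a1 a2
  rw [abs_le]
  constructor <;> linarith

theorem err_le {m r x y : ℝ} (h : |m - r| ≤ 1 / 1000) :
    m * x * y ≤ r * x * y + (1 / 2000) * (x ^ 2 + y ^ 2) := by
  obtain ⟨h1, h2⟩ := abs_le.1 h
  nlinarith [mul_nonneg (by linarith : 0 ≤ 1 / 1000 - (m - r)) (sq_nonneg (x + y)),
    mul_nonneg (by linarith : 0 ≤ 1 / 1000 + (m - r)) (sq_nonneg (x - y))]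

theorem quad_rat (i : Fin 4) (c : Fin 4 → ℝ) : (102 / 1000) * ∑ k, c k ^ 2 ≤
    3 * (∑ k, c k) ^ 2 - Qm (fun j k => (qT i j k : ℝ) / 1000) c := by
  fin_cases i <;> simp [Qm, qT, Fin.sum_univ_four]
  · linarith [sq_nonneg (c 0 + (1250 / 1449) * c 1 + (83 / 138) * c 2 + (4771 / 5796) * c 3),
      sq_nonneg (c 1 + (2555679 / 2148404) * c 2 + (4771 / 10796) * c 3),
      sq_nonneg (c 2 + (967528249 / 1146701857) * c 3), sq_nonneg (c 3)]
  · linarith [sq_nonneg (c 0 + (1250 / 1449) * c 1 + (83 / 138) * c 2 + (93 / 161) * c 3),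
      sq_nonneg (c 1 + (2555679 / 2148404) * c 2 + (765000 / 537101) * c 3),
      sq_nonneg (c 2 + (1018795528 / 3440105571) * c 3), sq_nonneg (c 3)]
  · linarith [sq_nonneg (c 0 + (1250 / 1449) * c 1 + (1250 / 1449) * c 2 + (93 / 161) * c 3),
      sq_nonneg (c 1 + (663179 / 2148404) * c 2 + (765000 / 537101) * c 3),
      sq_nonneg (c 2 + (-116183656 / 2881872575) * c 3), sq_nonneg (c 3)]
  · linarith [sq_nonneg (c 0 + (83 / 138) * c 1 + (93 / 161) * c 2 + (93 / 161) * c 3),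
      sq_nonneg (c 1 + (68686 / 85085) * c 2 + (558 / 1547) * c 3),
      sq_nonneg (c 2 + (20203095 / 61741634) * c 3), sq_nonneg (c 3)]

theorem quad (i : Fin 4) (c : Fin 4 → ℝ) : (1 / 10) * ∑ k, c k ^ 2 ≤
    3 * (∑ k, c k) ^ 2 - Qm (fun j k => mink (lightVec (R.v i j)) (lightVec (R.v i k))) c := by
  have h1 := quad_rat i c
  have h2 : ∑ j, ∑ k, mink (lightVec (R.v i j)) (lightVec (R.v i k)) * c j * c k ≤
      ∑ j, ∑ k, ((qT i j k : ℝ) / 1000 * c j * c k + (1 / 2000) * (c j ^ 2 + c k ^ 2)) :=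
    sum_le_sum fun j _ => sum_le_sum fun k _ => err_le (R.near_q i j k)
  have h3 : ∑ j, ∑ k, ((qT i j k : ℝ) / 1000 * c j * c k + (1 / 2000) * (c j ^ 2 + c k ^ 2)) =
      ∑ j, ∑ k, (qT i j k : ℝ) / 1000 * c j * c k + (4 / 1000) * ∑ k, c k ^ 2 := by
    simp only [Fin.sum_univ_four]; ring
  simp only [Qm] at h1 ⊢
  linarith

theorem exists_beta (i a : Fin 4) : ∃ β : Fin 4 → ℝ,
    ∑ k, β k • lightVec (R.v (nb i a) k) = act (R.g i a)⁻¹ (lightVec (R.v i a)) := by
  obtain ⟨b, hb, -⟩ := exists_coords (R.v (nb i a)) (R.good _) (R.quad _)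
  exact ⟨_, hb _ (isHermitian_act _ (posSemidef_lightVec _).isHermitian)⟩

noncomputable def be (i a : Fin 4) : Fin 4 → ℝ := (R.exists_beta i a).choose

theorem be_spec (i a : Fin 4) :
    ∑ k, R.be i a k • lightVec (R.v (nb i a) k) = act (R.g i a)⁻¹ (lightVec (R.v i a)) :=
  (R.exists_beta i a).choose_spec

theorem mem_be (i a k : Fin 4) : (solI (mT (nb i a)) (rT i a) k).mem (R.be i a k) := by
  refine mem_solI (M := fun j k => mink (lightVec (R.v (nb i a) j)) (lightVec (R.v (nb i a) k)))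
    (fun j k => R.mem_m _ j k) (fun p => ?_) (c_d _) k
  have h1 := mink_comb (fun k => lightVec (R.v (nb i a) k)) (R.be i a) p
  rw [R.be_spec, ← mink_act (R.g i a), act_act_inv, Lm] at h1
  rw [← h1]
  exact R.mem_r i a p

noncomputable def kap (i a : Fin 4) : ℝ := -R.be i a (pm i a a)

noncomputable def lam (i a k : Fin 4) : ℝ := if k = a then 0 else R.be i a (pm i a k)

theorem mem_kap (i a : Fin 4) : (kapT i a).mem (R.kap i a) :=
  (R.mem_be i a _).neg.mono (c_kap i a)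

theorem mem_lam (i a k : Fin 4) : (lamT i a k).mem (R.lam i a k) := by
  by_cases h : k = a
  · subst h
    rw [c_lam0, lam, if_pos rfl]
    exact mem_zero
  · rw [lam, if_neg h]
    exact (R.mem_be i a _).mono (c_lam i a k h)

theorem rel (i a : Fin 4) : lightVec (R.v i a) =
    (-R.kap i a) • act (R.g i a) (lightVec (R.v (nb i a) (pm i a a))) +
      ∑ k, R.lam i a k • lightVec (R.v i k) := by
  have h1 := congrArg (act (R.g i a)) (R.be_spec i a)
  rw [act_act_inv, act_sum, ← Equiv.sum_comp (pm i a)] at h1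
  have h2 : ∀ k, act (R.g i a) (R.be i a (pm i a k) • lightVec (R.v (nb i a) (pm i a k))) =
      (if k = a then (-R.kap i a) • act (R.g i a) (lightVec (R.v (nb i a) (pm i a a))) else 0) +
        R.lam i a k • lightVec (R.v i k) := by
    intro k
    rw [act_smul]
    by_cases h : k = a
    · subst h
      simp [kap, lam]
    · rw [if_neg h, zero_add, lam, if_neg h, R.glue i a k h]
  rw [← h1]
  simp only [h2, sum_add_distrib, sum_ite_eq', mem_univ, if_true]

theorem st_spec (s : Fin 4 × Fin 4 × Fin 4) (y z : ℕ → ℝ)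
    (hy : ∀ n, y (n + 1) = z n + R.lam (nx^[n] s).1 (nx^[n] s).2.1 (nx^[n] s).2.2 * y n)
    (hz : ∀ n, z (n + 1) = -R.kap (nx^[n] s).1 (nx^[n] s).2.1 * y n) (n : ℕ) :
    (st s n).s = nx^[n] s ∧ ∃ A B C D : ℝ, (st s n).A.mem A ∧ (st s n).B.mem B ∧ (st s n).C.mem C ∧
      (st s n).D.mem D ∧ y n = A * y 0 + B * z 0 ∧ z n = C * y 0 + D * z 0 := by
  induction n with
  | zero => exact ⟨rfl, 1, 0, 0, 1, mem_one, mem_zero, mem_zero, mem_one, by ring, by ring⟩
  | succ n ih =>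
    obtain ⟨e, A, B, C, D, hA, hB, hC, hD, e1, e2⟩ := ih
    refine ⟨by rw [Function.iterate_succ_apply', ← e]; rfl, _, _, _, _,
      hC.add ((R.mem_lam _ _ _).mul hA), hD.add ((R.mem_lam _ _ _).mul hB),
      (R.mem_kap _ _).neg.mul hA, (R.mem_kap _ _).neg.mul hB, ?_, ?_⟩
    · rw [hy, e, e1, e2]; ring
    · rw [hz, e, e1]; ring

theorem wind (s : Fin 4 × Fin 4 × Fin 4) (hs : s.2.1 ≠ s.2.2) (y z : ℕ → ℝ)
    (hy : ∀ n, y (n + 1) = z n + R.lam (nx^[n] s).1 (nx^[n] s).2.1 (nx^[n] s).2.2 * y n)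
    (hz : ∀ n, z (n + 1) = -R.kap (nx^[n] s).1 (nx^[n] s).2.1 * y n) (y0 : y 0 < 0) (z0 : z 0 < 0)
    (k l : ℕ) (hkl : k < l) (hl : l + 1 < per s) : ¬ (0 < y k ∧ y l < 0) := by
  rintro ⟨hk, hl'⟩
  rcases Nat.eq_zero_or_pos k with rfl | k0
  · linarith
  have hp : per s ≤ 9 := by unfold per; split_ifs <;> omega
  obtain ⟨i, a, c⟩ := s
  have ok := c_wind i a c hs l (by omega) hl k hkl k0
  obtain ⟨-, A, B, -, -, hA, hB, -, -, e1, -⟩ := R.st_spec (i, a, c) y z hy hz k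
  obtain ⟨-, A', B', -, -, hA', hB', -, -, e2, -⟩ := R.st_spec (i, a, c) y z hy hz l
  have hD : (dI (st (i, a, c) k) (st (i, a, c) l)).mem (A' * B - A * B') :=
    (hA'.mul hB).sub (hA.mul hB')
  have f1 : y l * B - y k * B' = (A' * B - A * B') * y 0 := by rw [e1, e2]; ring
  have f2 : y l * A - y k * A' = -(A' * B - A * B') * z 0 := by rw [e1, e2]; ring
  simp only [okp, Bool.or_eq_true, Bool.and_eq_true] at ok
  rcases ok with ((((⟨p, q⟩ | ⟨p, q⟩) | ⟨⟨p, q⟩, r⟩) | ⟨⟨p, q⟩, r⟩) | ⟨⟨p, q⟩, r⟩) | ⟨⟨p, q⟩, r⟩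
  · nlinarith [mul_pos_of_neg_of_neg y0 (neg_neg_of_pos (hA.pos p)),
      mul_pos_of_neg_of_neg z0 (neg_neg_of_pos (hB.pos q))]
  · nlinarith [mul_pos_of_neg_of_neg y0 (hA'.ng p), mul_pos_of_neg_of_neg z0 (hB'.ng q)]
  · nlinarith [mul_pos_of_neg_of_neg y0 (hD.ng r), mul_pos hk (hB'.pos q),
      mul_pos_of_neg_of_neg hl' (neg_neg_of_pos (hB.pos p))]
  · nlinarith [mul_pos_of_neg_of_neg y0 (neg_neg_of_pos (hD.pos r)), mul_pos hk (neg_pos_of_neg (hB'.ng q)),
      mul_pos_of_neg_of_neg hl' (hB.ng p)]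
  · nlinarith [mul_pos_of_neg_of_neg z0 (neg_neg_of_pos (hD.pos r)), mul_pos hk (hA'.pos q),
      mul_pos_of_neg_of_neg hl' (neg_neg_of_pos (hA.pos p))]
  · nlinarith [mul_pos_of_neg_of_neg z0 (hD.ng r), mul_pos hk (neg_pos_of_neg (hA'.ng q)),
      mul_pos_of_neg_of_neg hl' (hA.ng p)]

theorem g_one {i a : Fin 4} (h : GT i a = M2.one) : R.g i a = 1 :=
  Subtype.ext (by rw [g_val, h, evM_one]; rfl)

/-- The geometric data. -/
noncomputable def tri : Tri where
  v := R.v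
  g := R.g
  kap := R.kap
  lam := R.lam
  h := R.h
  base := by
    have : VT 0 0 = (Zb.one, Zb.zero) := rfl
    rw [v, this, evV, ev_one, ev_zero]; rfl
  tree := ⟨R.g_one rfl, R.g_one rfl, R.g_one rfl⟩
  glue := R.glue
  ginv i a := Subtype.ext (by rw [mul_val, g_val, g_val, ← evM_mul R.hb, c_ginv, evM_one]; rfl)
  lam_self i a := if_pos rfl
  rel := R.rel
  kap_pos i a := (R.mem_kap i a).pos (c_kpos i a)
  convex i a := by
    have := (((((R.mem_lam i a 0).add (R.mem_lam i a 1)).add (R.mem_lam i a 2)).add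
      (R.mem_lam i a 3)).sub (mem_one.add (R.mem_kap i a))).pos (c_conv i a)
    rw [Fin.sum_univ_four]
    linarith
  good := R.good
  quad := R.quad
  wind := R.wind
  h_mem i S := by
    refine Subgroup.list_prod_mem _ fun x hx => ?_
    obtain ⟨p, -, rfl⟩ := List.mem_map.1 hx
    exact Subgroup.subset_closure ⟨p, rfl⟩
  h_step i a S h1 h2 := Subtype.ext (by
    rw [mul_val, h_val, h_val, g_val, ← evM_mul R.hb, c_hstep i a S h1 h2])
  h_vert i S k h1 h2 := by
    rw [v, v, R.act_ev (R.h_val i S)]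
    exact R.lv_pm (c_hvert i S k h1 h2)
  tun_edge i j k _ := by
    have h1 := (R.good i).le j k
    have h2 := R.mem_tun.1
    simp only [tunI] at h2
    push_cast at h2
    intro e
    linarith
  tun_dual i a := by
    have h := (R.mem_r i a (pm i a a)).sub R.mem_tun
    intro e
    rcases c_dual i a with p | p
    · have := h.pos p; linarith
    · have := h.ng p; linarith

end Rt

end N94

theorem exists_tri : Nonempty Tri := by
  obtain ⟨b, hb, h1, h2⟩ := N94.exists_root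
  exact ⟨N94.Rt.tri ⟨b, hb, h1, h2⟩⟩

end Pool.Agent.Lib.MP_a11aea_gt
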