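import Pool.Agent.Lib.MP_a11aea_gt.H36DescB

/-! Finite volume through a Siegel set. -/

namespace Pool.Agent.Lib.MP_a11aea_gt

open Matrix Finset
open scoped ComplexOrder

theorem vol_uhs {Y : Mat} (h : Y ∈ H3) :
    0 < (Y 1 1).re ∧ Y = uhs (Y 0 1 / (Y 1 1).re, 1 / (Y 1 1).re) := by
  have hp := h.1.diag_pos (i := 1)
  have h1 : 0 < (Y 1 1).re := (Complex.lt_def.1 hp).1
  have e1 : Y 1 1 = (Y 1 1).re := Complex.ext rfl (by simpa using (Complex.lt_def.1 hp).2.symm)
  have e2 : Y 1 0 = (starRingEnd ℂ) (Y 0 1) := (h.1.1.apply 1 0).symm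
  have e3 := h.2
  rw [det_fin_two, e1, e2, Complex.mul_conj, Complex.normSq_eq_norm_sq] at e3
  refine ⟨h1, ?_⟩
  generalize (Y 1 1).re = L at *
  have hL : (L : ℂ) ≠ 0 := by exact_mod_cast h1.ne'
  ext i j
  fin_cases i <;> fin_cases j <;> simp [uhs, e1, e2, hL, div_pow]
  push_cast at e3
  field_simp
  linear_combination e3

theorem vol_Lm {m : Fin 4 → Fin 4 → ℝ} (hm : GoodM m) {c : Fin 4 → ℝ} (hc : ∀ j, 0 ≤ c j)
    (hq : Qm m c = 1) {k : Fin 4} (hk : ∀ j, c j ≤ c k) : Lm m c k ≤ 5 := by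
  have h0 : ∀ j l, 0 ≤ m j l := fun j l => by
    by_cases h : j = l
    · rw [h, hm.diag]
    · linarith [hm.ge j l h]
  have h1 : Lm m c k ≤ 12 * c k :=
    (sum_le_sum fun j _ => mul_le_mul (hm.le k j) (hk j) (hc j) (by norm_num)).trans_eq
      (by simp; ring)
  have h2 : ∑ l, m k l * c k * c l ≤ ∑ j, ∑ l, m j l * c j * c l :=
    single_le_sum (f := fun j => ∑ l, m j l * c j * c l) (fun j _ => sum_nonneg fun l _ =>
      mul_nonneg (mul_nonneg (h0 j l) (hc j)) (hc l)) (mem_univ k)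
  have h3 : ∑ l, m k l * c k * c l = c k * Lm m c k := by
    rw [Lm, mul_sum]; exact sum_congr rfl fun l _ => by ring
  rw [Qm] at hq
  nlinarith [hc k]

theorem Tri.finiteVolume (T : Tri) : FiniteVolume T.G := by
  choose d hd hu using T.u_mem
  set w : Fin 4 → Fin 4 → Fin 4 → Fin 2 → ℂ := fun i k j => (d i k)⁻¹.1 *ᵥ T.v i j with hw
  obtain ⟨R, hR⟩ := (Set.finite_range fun p : Fin 4 × Fin 4 × Fin 4 =>
    ‖w p.1 p.2.1 p.2.2 0‖).bddAbove
  refine ⟨Metric.closedBall 0 (2 * R) ×ˢ Set.Ioi (1 / 6),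
    measurableSet_closedBall.prod measurableSet_Ioi, fun p hp => lt_trans (by norm_num) hp.2,
    fun X hX => ?_, ?_⟩
  · obtain ⟨γ, hγ, i, c, hc, e⟩ := T.cover hX.1
    obtain ⟨k, hk⟩ := Finite.exists_max c
    have hY := act_mem_H3 ((d i k)⁻¹ * γ⁻¹) hX
    obtain ⟨h1, h2⟩ := vol_uhs hY
    refine ⟨_, mul_mem (inv_mem (hd i k)) (inv_mem hγ), _, ?_, h2⟩
    have eY : act ((d i k)⁻¹ * γ⁻¹) X = ∑ j, c j • lightVec (w i k j) := by
      rw [act_mul, e, act_inv_act]
      simp only [Tri.comb, act_sum, act_smul, Tri.u, act_lightVec, hw]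
    have hm : ∀ j, T.m i k j = ‖w i k j 1‖ ^ 2 := fun j => by
      rw [Tri.m, ← mink_act (d i k)⁻¹, hu i k, act_inv_act, Tri.u, act_lightVec, mink_lightVec,
        Complex.normSq_eq_norm_sq]
      simp [e1, hw]
    have e11 : (act ((d i k)⁻¹ * γ⁻¹) X 1 1).re = Lm (T.m i) c k := by
      simp only [eY, Lm, hm, Matrix.sum_apply, Complex.re_sum]
      refine sum_congr rfl fun j _ => ?_
      simp [lightVec, vecMulVec_apply, Complex.mul_conj, Complex.normSq_eq_norm_sq, mul_comm,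
        -Complex.ofReal_pow]
    have e01 : ‖act ((d i k)⁻¹ * γ⁻¹) X 0 1‖ ≤ 2 * R * Lm (T.m i) c k := by
      simp only [eY, Lm, Matrix.sum_apply, mul_sum]
      refine norm_sum_le_of_le _ fun j _ => ?_
      have a1 : ‖w i k j 0‖ ≤ R := hR ⟨(i, k, j), rfl⟩
      have a2 : ‖w i k j 1‖ ≤ 2 * ‖w i k j 1‖ ^ 2 := by
        have := norm_nonneg (w i k j 1)
        by_cases h : k = j
        · have h0 := (T.goodM i).diag k
          rw [show T.m i k k = T.m i k j by rw [h], hm] at h0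
          nlinarith
        · have h0 := (T.goodM i).ge k j h
          rw [hm] at h0
          nlinarith
      calc _ = c j * (‖w i k j 0‖ * ‖w i k j 1‖) := by
            simp [lightVec, vecMulVec_apply, abs_of_nonneg (hc j)]
        _ ≤ c j * (R * (2 * ‖w i k j 1‖ ^ 2)) := by
            have := hc j
            have := (norm_nonneg _).trans a1
            gcongr
        _ = _ := by rw [hm]; ring
    have hq : Qm (T.m i) c = 1 := by rw [← T.det_comb, ← det_act γ, ← e, hX.2]; simp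
    have h5 := vol_Lm (T.goodM i) hc hq hk
    rw [e11] at h1 ⊢
    refine ⟨?_, (one_div_lt_one_div_of_lt h1 (by linarith) : (1 / 6 : ℝ) < _)⟩
    rwa [mem_closedBall_zero_iff, norm_div, Complex.norm_real, Real.norm_of_nonneg h1.le,
      div_le_iff₀ h1]
  · have : Fact (MeasureTheory.volume (Metric.closedBall (0 : ℂ) (2 * R)) < ⊤) :=
      ⟨MeasureTheory.measure_closedBall_lt_top⟩
    have hi : MeasureTheory.IntegrableOn (fun t : ℝ => 1 / t ^ 3) (Set.Ioi (1 / 6)) :=
      (integrableOn_Ioi_rpow_of_lt (a := -3) (by norm_num) (by norm_num)).congr_fun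
        (fun t ht => by simp [Real.rpow_neg (lt_trans (by norm_num) ht : (0 : ℝ) < t).le])
        measurableSet_Ioi
    rw [MeasureTheory.Measure.volume_eq_prod, ← MeasureTheory.Measure.prod_restrict]
    exact (hi.comp_snd _).lintegral_lt_top

end Pool.Agent.Lib.MP_a11aea_gt
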