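import Pool.Agent.Lib.MP_a11aea_gt.H36Model
import Pool.Agent.Lib.MP_a11aea_gt.H36Glue
import Pool.Agent.Lib.MP_a11aea_gt.H36Cells
import Pool.Agent.Lib.MP_a11aea_gt.H36Vol
import Pool.Agent.Lib.MP_a11aea_gt.H36Num

/-! Assembly of the counterexample. -/

namespace Pool.Agent.Lib.MP_a11aea_gt

open scoped unitInterval

open Matrix in
open scoped ComplexOrder in
theorem Tri.noncompact (T : Tri) :
    ¬ ∃ K ⊆ H3, IsCompact K ∧ ∀ X ∈ H3, ∃ γ ∈ T.G, act γ X ∈ K := by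
  rintro ⟨K, hK, hc, h⟩
  have c : ∀ u : Mat, Continuous fun X : Mat => mink X u := fun u =>
    continuous_mink.comp (continuous_id.prodMk continuous_const)
  obtain ⟨C, hC⟩ := (hc.image ((c (T.u 0 0)).add (c (T.u 0 1)))).bddAbove
  have hne : T.u 0 0 ≠ T.u 0 1 := by
    intro e
    have h1 := (T.goodM 0).ge 0 1 (by decide)
    have h2 := (T.goodM 0).diag 0
    simp only [Tri.m] at h1 h2
    rw [← e, h2] at h1
    norm_num at h1
  have key : ∀ X ∈ K, ∀ u ∈ T.O, 9 / 10 ≤ mink X u * C := by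
    intro X hX u hu
    obtain ⟨w, hw, rfl⟩ := exists_lightVec Tri.e1_ne hu
    have b := hC ⟨X, hX, rfl⟩
    have p0 : 0 ≤ mink X (T.u 0 0) := mink_nonneg (hK hX).1.posSemidef (posSemidef_lightVec _)
    have p1 : 0 ≤ mink X (T.u 0 1) := mink_nonneg (hK hX).1.posSemidef (posSemidef_lightVec _)
    have p := (mink_pos (hK hX).1 hw).le
    simp only [Pi.add_apply] at b
    by_cases e : lightVec w = T.u 0 0
    · have h1 := T.sep hu (T.u_mem 0 1) (e ▸ hne)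
      have h2 : mink (lightVec w) (T.u 0 1) ≤ mink X (lightVec w) * mink X (T.u 0 1) :=
        mink_le_mul (hK hX) _ _
      nlinarith
    · have h1 := T.sep hu (T.u_mem 0 0) e
      have h2 : mink (lightVec w) (T.u 0 0) ≤ mink X (lightVec w) * mink X (T.u 0 0) :=
        mink_le_mul (hK hX) _ _
      nlinarith
  obtain ⟨t, ht, htC⟩ : ∃ t : ℝ, 0 < t ∧ 2 * C < t := ⟨2 * |C| + 1, by positivity, by
    linarith [le_abs_self C]⟩
  let X : Mat := !![(t : ℂ), 0; 0, ((t⁻¹ : ℝ) : ℂ)]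
  have hd : X.det = 1 := by
    simp [X, det_fin_two, mul_inv_cancel₀ (show (t : ℂ) ≠ 0 by exact_mod_cast ht.ne')]
  have hX : X ∈ H3 := by
    refine ⟨(posDef_iff X).2 ⟨?_, by simpa [X] using ht, by simp [hd]⟩, hd⟩
    ext i j
    fin_cases i <;> fin_cases j <;> simp [X]
  obtain ⟨γ, hγ, hm⟩ := h X hX
  have h1 := key _ hm (act γ (lightVec e1)) ⟨γ, hγ, rfl⟩
  rw [mink_act] at h1
  have h2 : mink X (lightVec e1) = t⁻¹ := by
    rw [mink_eq]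
    simp [X, lightVec, e1, vecMulVec_apply, ← Complex.ofReal_inv]
  rw [h2, inv_mul_eq_div, le_div_iff₀ ht] at h1
  linarith

theorem main : ∃ (Γ : Subgroup SL2C) (v : Fin 2 → ℂ) (s : ℝ),
    IsOneCusped Γ v s ∧ IsCanonicalTriangulation (cuspOrbit Γ v) s ∧
    ∃ τ : C(I, Mbar Γ v s), IsTunnel (bdry Γ v s) τ ∧
      ∀ u₁ u₂, EdgePair (cuspOrbit Γ v) u₁ u₂ ∨ DualPair (cuspOrbit Γ v) u₁ u₂ →
        ∀ η : C(I, core Γ v s), (η 0).1 ∈ horosphere s u₁ → (η 1).1 ∈ horosphere s u₂ →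
          ¬ ProperHomotopic (bdry Γ v s) τ ((proj Γ v s).comp η) := by
  obtain ⟨T⟩ := exists_tri
  obtain ⟨ψ, L, tA, tB, n, h, hn, hni, hh, hhi, hS, hb, hc, hK, hf, hL, j1, j2, j3, j4, hA, hB,
    h0, h1⟩ := pl_model
  obtain ⟨hcomp, e, he, hei, hr, hbd, α, a0, a1, hα, e0, e1'⟩ :=
    T.glue_model ψ _ L _ tA tB hc hK hf hL j1 j2 j3 j4 hA hB
  have hb' : ∀ p, n p ∈ e '' bdry T.G e1 (1 / 4) ↔ p.1 = 0 ∨ p.1 = 1 := by
    intro p
    rw [← hb]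
    constructor
    · rintro ⟨q, hq, hqe⟩
      rw [← hqe]
      exact (hbd q).1 hq
    · intro hp
      have : n p ∈ Set.range e := by rw [hr]; exact Or.inl ⟨p, rfl⟩
      obtain ⟨q, hq⟩ := this
      exact ⟨q, (hbd q).2 (hq ▸ hp), hq⟩
  obtain ⟨τ, ht, hτ⟩ := tunnel_of_model (bdry T.G e1 (1 / 4)) e he hei n hn hni h hh hhi hr hS hb'
    ((proj T.G e1 (1 / 4)).comp α) hα (by simpa [e0] using h0) (by simpa [e1'] using h1)
  refine ⟨T.G, e1, 1 / 4, ⟨Tri.e1_ne, by norm_num, fun γ hγ X hX => T.free hγ hX,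
    fun K hK hc => T.propDisc hK hc, T.finiteVolume, T.noncompact,
    fun u hu u' hu' X hX => T.horo_disj hu hu' hX, hcomp⟩, T.canonical, τ, ht, ?_⟩
  intro u₁ u₂ hp η f0 f1 hη
  have hu : u₁ ∈ T.O ∧ u₂ ∈ T.O := by
    rcases hp with ⟨S, ⟨l, -, rfl, -⟩, h1, h2, -⟩ | ⟨S₁, S₂, ⟨l, -, rfl, -⟩, ⟨l', -, rfl, -⟩, -, h1, h2⟩
    · exact ⟨h1.1, h2.1⟩
    · exact ⟨h1.1.1, h2.1.1⟩
  have hub : T.ub ∈ T.O :=
    act_mem_cuspOrbit (mul_mem (mul_mem (T.g_mem 2 1) (T.g_mem 3 1)) (T.g_mem 3 0)) (T.u_mem 1 1)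
  have key := lift_inv (c := 9 / 10) Tri.e1_ne (by norm_num) (by norm_num)
    (fun γ hγ X hX => T.free hγ hX) (fun K hK hc => T.propDisc hK hc)
    (fun u hu u' hu' => T.sep hu hu') τ α η hτ hη (T.u_mem 2 1) hub hu.1 hu.2 a0 a1 f0 f1
  rcases hp with hp | hp
  · exact T.edge_ne hp key.symm
  · exact T.dual_ne hp key.symm

end Pool.Agent.Lib.MP_a11aea_gt
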