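import Pool.Agent.Lib.MP_a11aea_gt.H36CertH
import Pool.Agent.Lib.MP_a11aea_gt.H36CertK
import Pool.Agent.Lib.MP_a11aea_gt.H36LChk

/-! The piecewise linear model: four truncated simplices glued by `canon` split into a cube and
the standard handlebody. -/

namespace Pool.Agent.Lib.MP_a11aea_gt

open scoped unitInterval

theorem inter_sub {K K' S : List ℕ} (h : (K.all fun F => K'.all fun G => leL (F &&& G) S) = true) :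
    real K ∩ real K' ⊆ real S := by
  rintro y ⟨⟨h0, h1, F, hF, hy⟩, -, -, G, hG, hy'⟩
  simp only [List.all_eq_true] at h
  exact mem_real_of_leL (h F hF G hG) h0 h1 (inF_and hy hy')

theorem KN_KH : real KN ∩ real KH = real SS := by
  have h1 : real KH ⊆ real [2 ^ 128 - 7] := cover_spec (by decide +kernel)
  have h2 : real KN ∩ real [2 ^ 128 - 7] ⊆ real SS := inter_sub (by decide +kernel)
  have h3 : real SS ⊆ real KN := cover_spec (by decide +kernel)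
  have h4 : real SS ⊆ real KH := cover_spec (by decide +kernel)
  exact Set.Subset.antisymm (fun y hy => h2 ⟨hy.1, h1 hy.2⟩) fun y hy => ⟨h3 hy, h4 hy⟩

theorem KN_L1 {y : Pt} (hy : y ∈ real KN) : y ∈ real L1 ↔ y ∈ real E0 ∨ y ∈ real E1 := by
  have h1 : real KN ∩ real L1 ⊆ real (E0 ++ E1) := inter_sub (by decide +kernel)
  have h2 : real (E0 ++ E1) ⊆ real L1 := cover_spec (by decide +kernel)
  rw [real_append] at h1 h2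
  exact ⟨fun h => h1 ⟨hy, h⟩, fun h => h2 h⟩

theorem P_vtx_eq {i a : ℕ} (ha : a < 128) (b : Fin 4)
    (h : ∀ k : Fin 4, dat.pos i a k = if k = b then 0 else 32) : dat.P i (LD.vtx a) = fc b := by
  funext k
  rw [LD.P_vtx i ha, h, fc]
  split_ifs <;> norm_num

theorem pl_aux {fK bK fN bN fH bH : Pt → Pt} {K0 L0 A0 KN KH L1 E0 E1 SS : List ℕ}
    (cK : Continuous fK) (cN : Continuous bN) (cH : Continuous bH)
    (isoK : Iso fK bK K0 (KN ++ KH)) (isoL : Iso fK bK L0 L1) (isoA : Iso fK bK A0 [6])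
    (isoP0 : Iso fK bK [2] [2]) (isoP1 : Iso fK bK [4] [4]) (isoH : Iso fH bH KH KP)
    (isoN : Iso fN bN KN KC) (isoE0 : Iso fN bN E0 KC0) (isoE1 : Iso fN bN E1 KC1)
    (isoS : Iso fN bN SS KCS) (KN_KH : real KN ∩ real KH = real SS)
    (KN_L1 : ∀ y ∈ real KN, y ∈ real L1 ↔ y ∈ real E0 ∨ y ∈ real E1)
    (s1 : real [6] ⊆ real KN) (s2 : real [2] ⊆ real E0) (s3 : real [4] ⊆ real E1)
    (s4 : real E0 ⊆ real KN) (s5 : real E1 ⊆ real KN)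
    (ψ : Fin 4 → (Fin 4 → ℝ) → Pt) (tA tB : Fin 4 → ℝ)
    (p1 : ∀ i, ContinuousOn (ψ i) Trunc) (p2 : ∀ z, z ∈ real K0 ↔ ∃ i, ∃ t ∈ Trunc, ψ i t = z)
    (p3 : ∀ i j, ∀ t ∈ Trunc, ∀ t' ∈ Trunc, ψ i t = ψ j t' ↔ canon i t = canon j t')
    (p4 : ∀ i, ∀ t ∈ Trunc, ψ i t ∈ real L0 ↔ ∃ k, t k = 3 / 4)
    (j1 : JoinedIn {t | t ∈ Trunc ∧ ψ 2 t ∈ real A0} tA (fc 1))
    (j2 : JoinedIn {t | t ∈ Trunc ∧ ψ 3 t ∈ real A0} (fc 3) (fc 1))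
    (j3 : JoinedIn {t | t ∈ Trunc ∧ ψ 3 t ∈ real A0} (fc 2) (fc 0))
    (j4 : JoinedIn {t | t ∈ Trunc ∧ ψ 1 t ∈ real A0} (fc 1) tB)
    (hA1 : tA 1 = 3 / 4) (hB1 : tB 1 = 3 / 4) (a1 : ψ 2 tA ∈ real [2]) (a4 : ψ 1 tB ∈ real [4]) :
    ∃ (ψ : Fin 4 → (Fin 4 → ℝ) → Pt) (L : Set Pt) (tA tB : Fin 4 → ℝ)
    (n : I × I × I → Pt) (h : Handlebody 2 → Pt),
    Continuous n ∧ Function.Injective n ∧ Continuous h ∧ Function.Injective h ∧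
    (∀ p, n p ∈ Set.range h ↔ p ∉ inner3) ∧ (∀ p, n p ∈ L ↔ p.1 = 0 ∨ p.1 = 1) ∧
    (∀ i, ContinuousOn (ψ i) Trunc) ∧
    (∀ z, z ∈ Set.range n ∪ Set.range h ↔ ∃ i, ∃ t ∈ Trunc, ψ i t = z) ∧
    (∀ i j, ∀ t ∈ Trunc, ∀ t' ∈ Trunc, ψ i t = ψ j t' ↔ canon i t = canon j t') ∧
    (∀ i, ∀ t ∈ Trunc, ψ i t ∈ L ↔ ∃ k, t k = 3 / 4) ∧
    JoinedIn {t | t ∈ Trunc ∧ ψ 2 t ∈ Set.range n} tA (fc 1) ∧
    JoinedIn {t | t ∈ Trunc ∧ ψ 3 t ∈ Set.range n} (fc 3) (fc 1) ∧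
    JoinedIn {t | t ∈ Trunc ∧ ψ 3 t ∈ Set.range n} (fc 2) (fc 0) ∧
    JoinedIn {t | t ∈ Trunc ∧ ψ 1 t ∈ Set.range n} (fc 1) tB ∧
    tA 1 = 3 / 4 ∧ tB 1 = 3 / 4 ∧ (∃ p, p.1 = 0 ∧ ψ 2 tA = n p) ∧ (∃ p, p.1 = 1 ∧ ψ 1 tB = n p) := by
  obtain ⟨n, n1, n2, n3, n4, n5, n6⟩ := cube_model
  obtain ⟨h, h1, h2, h3⟩ := handle_model
  have nm : ∀ p, n p ∈ real KC := fun p => n3 ▸ Set.mem_range_self p
  have hm : ∀ p, h p ∈ real KP := fun p => h3 ▸ Set.mem_range_self p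
  have pm' : ∀ i, ∀ t ∈ Trunc, ψ i t ∈ real K0 := fun i t ht => (p2 _).2 ⟨i, t, ht, rfl⟩
  have rn : Set.range (bN ∘ n) = real KN := by rw [Set.range_comp, n3, isoN.symm.image]
  have rh : Set.range (bH ∘ h) = real KH := by rw [Set.range_comp, h3, isoH.symm.image]
  have hA : ∀ i, {t | t ∈ Trunc ∧ ψ i t ∈ real A0} ⊆
      {t | t ∈ Trunc ∧ fK (ψ i t) ∈ Set.range (bN ∘ n)} := by
    intro i t ht
    refine ⟨ht.1, ?_⟩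
    rw [rn]
    exact s1 (isoA.mf ht.2)
  have ends : ∀ {E C : List ℕ} {z : Pt}, Iso fN bN E C → real E ⊆ real KN →
      z ∈ real E → ∃ p, n p ∈ real C ∧ z = (bN ∘ n) p := by
    intro E C z iso hE hz
    obtain ⟨p, hp⟩ : z ∈ Set.range (bN ∘ n) := rn ▸ hE hz
    exact ⟨p, (isoN.symm.mem_iff iso.symm (nm p)).1 (by rw [← hp] at hz; exact hz), hp.symm⟩
  refine ⟨fun i t => fK (ψ i t), real L1, tA, tB, bN ∘ n, bH ∘ h,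
    cN.comp n1, fun p q e => n2 (isoN.symm.bijOn.injOn (nm p) (nm q) e),
    cH.comp h1, fun p q e => h2 (isoH.symm.bijOn.injOn (hm p) (hm q) e),
    fun p => ?_, fun p => ?_, fun i => cK.comp_continuousOn (p1 i), fun z => ?_,
    fun i j t ht t' ht' => ?_, fun i t ht => ?_, j1.mono (hA 2), j2.mono (hA 3), j3.mono (hA 3),
    j4.mono (hA 1), hA1, hB1, ?_, ?_⟩
  · rw [rh, ← n6, ← isoN.symm.mem_iff isoS.symm (nm p), ← KN_KH]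
    exact ⟨fun h => ⟨isoN.mg (nm p), h⟩, fun h => h.2⟩
  · rw [KN_L1 ((bN ∘ n) p) (isoN.mg (nm p)), ← n4, ← n5,
      ← isoN.symm.mem_iff isoE0.symm (nm p), ← isoN.symm.mem_iff isoE1.symm (nm p)]
    rfl
  · rw [rn, rh, ← real_append, ← isoK.image]
    constructor
    · rintro ⟨y, hy, rfl⟩
      obtain ⟨i, t, ht, rfl⟩ := (p2 y).1 hy
      exact ⟨i, t, ht, rfl⟩
    · rintro ⟨i, t, ht, rfl⟩
      exact ⟨_, pm' i t ht, rfl⟩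
  · rw [← p3 i j t ht t' ht']
    exact ⟨fun e => isoK.bijOn.injOn (pm' i t ht) (pm' j t' ht') e, fun e => congrArg fK e⟩
  · rw [← p4 i t ht]
    exact isoK.mem_iff isoL (pm' i t ht)
  · obtain ⟨p, hp, hq⟩ := ends isoE0 s4 (s2 (isoP0.mf a1))
    exact ⟨p, (n4 p).1 hp, hq⟩
  · obtain ⟨p, hp, hq⟩ := ends isoE1 s5 (s3 (isoP1.mf a4))
    exact ⟨p, (n5 p).1 hp, hq⟩

theorem loc_aux {d : LD} (h : d.OK) {A0 : List ℕ}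
    (q1 : d.chkP A0 (2 : Fin 4) [10, 4, 6] = true) (q2 : d.chkP A0 (3 : Fin 4) [8, 4, 43, 6] = true)
    (q3 : d.chkP A0 (3 : Fin 4) [7, 37, 5] = true) (q4 : d.chkP A0 (1 : Fin 4) [6, 4, 15] = true)
    (f1 : d.P (2 : Fin 4) (LD.vtx 6) = fc 1) (f2 : d.P (3 : Fin 4) (LD.vtx 8) = fc 3)
    (f3 : d.P (3 : Fin 4) (LD.vtx 6) = fc 1) (f4 : d.P (3 : Fin 4) (LD.vtx 7) = fc 2)
    (f5 : d.P (3 : Fin 4) (LD.vtx 5) = fc 0) (f6 : d.P (1 : Fin 4) (LD.vtx 6) = fc 1)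
    (e1 : d.pos (2 : Fin 4) 10 (1 : Fin 4) = 72) (e2 : d.pos (1 : Fin 4) 15 (1 : Fin 4) = 72)
    (r1 : d.ren (2 : Fin 4) 10 = 1) (r2 : d.ren (1 : Fin 4) 15 = 2) :
    ∃ (ψ : Fin 4 → (Fin 4 → ℝ) → Pt) (tA tB : Fin 4 → ℝ), (∀ i, ContinuousOn (ψ i) Trunc) ∧
    (∀ z, z ∈ real d.K0 ↔ ∃ i, ∃ t ∈ Trunc, ψ i t = z) ∧
    (∀ i j, ∀ t ∈ Trunc, ∀ t' ∈ Trunc, ψ i t = ψ j t' ↔ canon i t = canon j t') ∧
    (∀ i, ∀ t ∈ Trunc, ψ i t ∈ real d.L0 ↔ ∃ k, t k = 3 / 4) ∧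
    JoinedIn {t | t ∈ Trunc ∧ ψ 2 t ∈ real A0} tA (fc 1) ∧
    JoinedIn {t | t ∈ Trunc ∧ ψ 3 t ∈ real A0} (fc 3) (fc 1) ∧
    JoinedIn {t | t ∈ Trunc ∧ ψ 3 t ∈ real A0} (fc 2) (fc 0) ∧
    JoinedIn {t | t ∈ Trunc ∧ ψ 1 t ∈ real A0} (fc 1) tB ∧
    tA 1 = 3 / 4 ∧ tB 1 = 3 / 4 ∧ ψ 2 tA ∈ real [2] ∧ ψ 1 tB ∈ real [4] := by
  obtain ⟨ψ, p1, p2, p3, p4, p5⟩ := h.model
  obtain ⟨j1, a1, -⟩ := p5 A0 2 10 [4, 6] (by simp) q1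
  obtain ⟨j2, -, -⟩ := p5 A0 3 8 [4, 43, 6] (by simp) q2
  obtain ⟨j3, -, -⟩ := p5 A0 3 7 [37, 5] (by simp) q3
  obtain ⟨j4, -, a4⟩ := p5 A0 1 6 [4, 15] (by simp) q4
  simp only [List.getLast_cons_cons, List.getLast_singleton] at j1 j2 j3 j4 a4
  rw [f1] at j1
  rw [f2, f3] at j2
  rw [f4, f5] at j3
  rw [f6] at j4
  refine ⟨ψ, _, _, p1, p2, p3, p4, j1, j2, j3, j4, ?_, ?_, ?_, ?_⟩
  · rw [LD.P_vtx _ (by norm_num), e1]; norm_num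
  · rw [LD.P_vtx _ (by norm_num), e2]; norm_num
  · rw [a1, LD.push_vtx (by norm_num) (by rw [r1]; norm_num), r1]
    exact LD.vtx_mem (a := 1) (by norm_num)
  · rw [a4, LD.push_vtx (by norm_num) (by rw [r2]; norm_num), r2]
    exact LD.vtx_mem (a := 2) (by norm_num)

theorem pl_model : ∃ (ψ : Fin 4 → (Fin 4 → ℝ) → Pt) (L : Set Pt) (tA tB : Fin 4 → ℝ)
    (n : I × I × I → Pt) (h : Handlebody 2 → Pt),
    Continuous n ∧ Function.Injective n ∧ Continuous h ∧ Function.Injective h ∧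
    (∀ p, n p ∈ Set.range h ↔ p ∉ inner3) ∧ (∀ p, n p ∈ L ↔ p.1 = 0 ∨ p.1 = 1) ∧
    (∀ i, ContinuousOn (ψ i) Trunc) ∧
    (∀ z, z ∈ Set.range n ∪ Set.range h ↔ ∃ i, ∃ t ∈ Trunc, ψ i t = z) ∧
    (∀ i j, ∀ t ∈ Trunc, ∀ t' ∈ Trunc, ψ i t = ψ j t' ↔ canon i t = canon j t') ∧
    (∀ i, ∀ t ∈ Trunc, ψ i t ∈ L ↔ ∃ k, t k = 3 / 4) ∧
    JoinedIn {t | t ∈ Trunc ∧ ψ 2 t ∈ Set.range n} tA (fc 1) ∧
    JoinedIn {t | t ∈ Trunc ∧ ψ 3 t ∈ Set.range n} (fc 3) (fc 1) ∧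
    JoinedIn {t | t ∈ Trunc ∧ ψ 3 t ∈ Set.range n} (fc 2) (fc 0) ∧
    JoinedIn {t | t ∈ Trunc ∧ ψ 1 t ∈ Set.range n} (fc 1) tB ∧
    tA 1 = 3 / 4 ∧ tB 1 = 3 / 4 ∧ (∃ p, p.1 = 0 ∧ ψ 2 tA = n p) ∧ (∃ p, p.1 = 1 ∧ ψ 1 tB = n p) := by
  obtain ⟨ψ, tA, tB, p1, p2, p3, p4, j1, j2, j3, j4, hA, hB, a1, a4⟩ :=
    loc_aux dat_ok path1 path2 path3 path4
      (P_vtx_eq (by norm_num) 1 (by decide +kernel)) (P_vtx_eq (by norm_num) 3 (by decide +kernel))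
      (P_vtx_eq (by norm_num) 1 (by decide +kernel)) (P_vtx_eq (by norm_num) 2 (by decide +kernel))
      (P_vtx_eq (by norm_num) 0 (by decide +kernel)) (P_vtx_eq (by norm_num) 1 (by decide +kernel))
      (by decide +kernel) (by decide +kernel) (by decide +kernel) (by decide +kernel)
  exact pl_aux (continuous_fw _) (continuous_bw _) (continuous_bw _) isoK isoL isoA isoP0 isoP1
    isoH isoN isoE0 isoE1 isoS KN_KH (fun _ => KN_L1) (cover_spec (by decide +kernel))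
    (cover_spec (by decide +kernel)) (cover_spec (by decide +kernel))
    (cover_spec (by decide +kernel)) (cover_spec (by decide +kernel))
    ψ tA tB p1 p2 p3 p4 j1 j2 j3 j4 hA hB a1 a4

end Pool.Agent.Lib.MP_a11aea_gt
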