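import Pool.Agent.Lib.MP_a11aea_gt.H36Run

/-! Vertex maps, the base simplex and the truncation. -/

namespace Pool.Agent.Lib.MP_a11aea_gt

open Finset

def msk (l : List ℕ) : ℕ := l.foldr (fun a r => Nat.lor (Nat.shiftLeft 1 a) r) 0

theorem testBit_msk (l : List ℕ) (v : ℕ) : (msk l).testBit v = true ↔ v ∈ l := by
  induction l with
  | nil => simp [msk]
  | cons a l ih =>
    have : msk (a :: l) = Nat.shiftLeft 1 a ||| msk l := rfl
    rw [this, Nat.testBit_or, testBit_one, Bool.or_eq_true, ih]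
    simp [eq_comm]

theorem inF_msk {l : List ℕ} {y : Pt} : inF (msk l) y ↔ ∀ v : Fin 128, y v ≠ 0 → (v : ℕ) ∈ l := by
  simp only [inF, testBit_msk]

theorem msk_congr {l l' : List ℕ} (h : ∀ v, v ∈ l ↔ v ∈ l') : msk l = msk l' := by
  apply Nat.eq_of_testBit_eq
  intro v
  rw [Bool.eq_iff_iff, testBit_msk, testBit_msk, h]

theorem leL_of_mem {F G : ℕ} {T : List ℕ} (hG : G ∈ T) (e : F &&& G = F) : leL F T = true := by
  induction T with
  | nil => cases hG
  | cons G' T ih =>
    have h' : leL F (G' :: T) = (Bool.rec (leL F T) true (Nat.beq (F &&& G') F) : Bool) := rfl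
    rw [h']
    cases h1 : Nat.beq (F &&& G') F
    · rcases List.mem_cons.1 hG with rfl | hG
      · exact absurd e (Nat.ne_of_beq_eq_false h1)
      · exact ih hG
    · rfl

theorem mem_real_of_leL {F : ℕ} {T : List ℕ} (h : leL F T = true) {y : Pt} (h0 : ∀ v, 0 ≤ y v)
    (h1 : ∑ v, y v = 1) (hy : inF F y) : y ∈ real T := by
  obtain ⟨G, hG, e⟩ := leL_spec h
  exact ⟨h0, h1, G, hG, inF_mono e hy⟩

noncomputable def push (m : Fin 128 → Fin 128) (y : Pt) : Pt :=
  fun g => ∑ v, if m v = g then y v else 0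

theorem push_sum (m : Fin 128 → Fin 128) (y : Pt) (f : Fin 128 → ℝ) :
    ∑ g, push m y g * f g = ∑ v, y v * f (m v) := by
  simp only [push, Finset.sum_mul]
  rw [Finset.sum_comm]
  refine Finset.sum_congr rfl fun v _ => ?_
  simp

theorem push_nonneg (m : Fin 128 → Fin 128) {y : Pt} (h : ∀ v, 0 ≤ y v) (g : Fin 128) :
    0 ≤ push m y g :=
  Finset.sum_nonneg fun v _ => by split_ifs; exacts [h v, le_rfl]

theorem push_total (m : Fin 128 → Fin 128) (y : Pt) : ∑ g, push m y g = ∑ v, y v := by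
  simpa using push_sum m y fun _ => 1

theorem push_ne_zero (m : Fin 128 → Fin 128) {y : Pt} (h : ∀ v, 0 ≤ y v) (g : Fin 128) :
    push m y g ≠ 0 ↔ ∃ v, y v ≠ 0 ∧ m v = g := by
  rw [push, Ne, Finset.sum_eq_zero_iff_of_nonneg fun v _ => by split_ifs; exacts [h v, le_rfl]]
  simp only [mem_univ, ite_eq_right_iff, forall_const, not_forall, exists_prop]
  exact exists_congr fun v => and_comm

theorem push_push (m m' : Fin 128 → Fin 128) (y : Pt) :
    push m (push m' y) = push (fun v => m (m' v)) y := by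
  funext g
  have := push_sum m' y fun v => if m v = g then 1 else 0
  simpa [push] using this

theorem push_congr {m m' : Fin 128 → Fin 128} {y : Pt} (h : ∀ v, y v ≠ 0 → m v = m' v) :
    push m y = push m' y := by
  funext g
  refine Finset.sum_congr rfl fun v _ => ?_
  by_cases hv : y v = 0
  · simp [hv]
  · rw [h v hv]

theorem push_apply {m : Fin 128 → Fin 128} {F : ℕ} {y : Pt} (hy : inF F y)
    (hm : ∀ a b : Fin 128, F.testBit a = true → F.testBit b = true → m a = m b → a = b)
    {a : Fin 128} (ha : F.testBit a = true) : push m y (m a) = y a := by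
  rw [push, Finset.sum_eq_single a]
  · simp
  · intro b _ hb
    split_ifs with e
    · by_contra hne
      exact hb (hm b a (hy b hne) ha e)
    · rfl
  · simp

theorem push_inj {m : Fin 128 → Fin 128} {F : ℕ} {y y' : Pt} (hy : inF F y) (hy' : inF F y')
    (hm : ∀ a b : Fin 128, F.testBit a = true → F.testBit b = true → m a = m b → a = b)
    (e : push m y = push m y') : y = y' := by
  funext a
  cases ha : F.testBit a
  · have h1 : y a = 0 := by_contra fun h => by simp [hy a h] at ha
    have h2 : y' a = 0 := by_contra fun h => by simp [hy' a h] at ha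
    rw [h1, h2]
  · rw [← push_apply hy hm ha, ← push_apply hy' hm ha, e]

theorem continuous_push (m : Fin 128 → Fin 128) : Continuous (push m) := by
  refine continuous_pi fun g => continuous_finsetSum _ fun v _ => ?_
  split_ifs <;> fun_prop

theorem continuous_Pos (pos : Fin 128 → Fin 4 → ℝ) : Continuous (Pos pos) := by
  unfold Pos
  fun_prop

/-- If an average of values that are at least `c` is at most `c`, all values are `c`. -/
theorem extremal {y : Pt} (h0 : ∀ v, 0 ≤ y v) (h1 : ∑ v, y v = 1) {φ : Fin 128 → ℝ} {c : ℝ}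
    (hφ : ∀ v, y v ≠ 0 → c ≤ φ v) (hs : ∑ v, y v * φ v ≤ c) : ∀ v, y v ≠ 0 → φ v = c := by
  have hn : ∀ v, 0 ≤ y v * (φ v - c) := fun v => by
    by_cases hv : y v = 0
    · simp [hv]
    · exact mul_nonneg (h0 v) (sub_nonneg.2 (hφ v hv))
  have hz : ∑ v, y v * (φ v - c) = 0 := by
    apply le_antisymm _ (Finset.sum_nonneg fun v _ => hn v)
    simp only [mul_sub, Finset.sum_sub_distrib, ← Finset.sum_mul, h1]
    linarith
  intro v hv
  have := (Finset.sum_eq_zero_iff_of_nonneg fun v _ => hn v).1 hz v (mem_univ v)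
  rcases mul_eq_zero.1 this with h | h
  · exact absurd h hv
  · linarith

theorem avg_le {y : Pt} (h0 : ∀ v, 0 ≤ y v) (h1 : ∑ v, y v = 1) {φ : Fin 128 → ℝ} {c : ℝ}
    (hφ : ∀ v, y v ≠ 0 → φ v ≤ c) : ∑ v, y v * φ v ≤ c := by
  calc ∑ v, y v * φ v ≤ ∑ v, y v * c := Finset.sum_le_sum fun v _ => by
        by_cases hv : y v = 0
        · simp [hv]
        · exact mul_le_mul_of_nonneg_left (hφ v hv) (h0 v)
    _ = c := by rw [← Finset.sum_mul, h1, one_mul]

theorem base_bij {pos : Fin 128 → Fin 4 → ℝ}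
    (h : ∀ v k : Fin 4, pos (Fin.castLE (by norm_num) v) k = if v = k then 1 else 0) :
    Set.BijOn (Pos pos) (real [15]) (stdSimplex ℝ (Fin 4)) := by
  let ι : Fin 4 → Fin 128 := Fin.castLE (by norm_num)
  have hι : Function.Injective ι := Fin.castLE_injective _
  have hb : ∀ v : Fin 128, Nat.testBit 15 v = true → ∃ k, ι k = v := by decide +kernel
  have hb' : ∀ k : Fin 4, Nat.testBit 15 (ι k) = true := by decide
  have hsum : ∀ y : Pt, inF 15 y → ∀ f : Fin 128 → ℝ, ∑ v, y v * f v = ∑ k, y (ι k) * f (ι k) := by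
    intro y hy f
    rw [← Finset.sum_image (s := univ) (g := ι) (f := fun v => y v * f v) hι.injOn]
    symm
    apply Finset.sum_subset (subset_univ _)
    intro v _ hv
    have : y v = 0 := by_contra fun hne => hv (by simpa using hb v (hy v hne))
    simp [this]
  have hP : ∀ y : Pt, inF 15 y → ∀ k, Pos pos y k = y (ι k) := by
    intro y hy k
    rw [Pos, hsum y hy]
    simp [ι, h]
  refine ⟨?_, ?_, ?_⟩
  · rintro y ⟨h0, h1, F, hF, hy⟩
    obtain rfl : F = 15 := by simpa using hF
    refine ⟨fun k => by rw [hP y hy]; exact h0 _, ?_⟩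
    simp only [hP y hy]
    simpa [h1] using (hsum y hy fun _ => 1).symm
  · rintro y ⟨-, -, F, hF, hy⟩ y' ⟨-, -, F', hF', hy'⟩ e
    obtain rfl : F = 15 := by simpa using hF
    obtain rfl : F' = 15 := by simpa using hF'
    funext v
    cases hv : Nat.testBit 15 v
    · have h1 : y v = 0 := by_contra fun h => by simp [hy v h] at hv
      have h2 : y' v = 0 := by_contra fun h => by simp [hy' v h] at hv
      rw [h1, h2]
    · obtain ⟨k, rfl⟩ := hb v hv
      rw [← hP y hy, ← hP y' hy', e]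
  · rintro t ⟨h0, h1⟩
    let y : Pt := fun v => ∑ k, if ι k = v then t k else 0
    have hy1 : ∀ k, y (ι k) = t k := fun k => by simp [y, hι.eq_iff]
    have hy : inF 15 y := by
      intro v hv
      by_contra hne
      apply hv
      refine Finset.sum_eq_zero fun k _ => if_neg ?_
      rintro rfl
      exact hne (hb' k)
    refine ⟨y, ⟨fun v => Finset.sum_nonneg fun k _ => by split_ifs; exacts [h0 k, le_rfl], ?_,
      15, by simp, hy⟩, funext fun k => by rw [hP y hy, hy1]⟩
    have := hsum y hy fun _ => 1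
    simpa [hy1, h1] using this

theorem Iso.bijOn_Pos {f g K K'} (h : Iso f g K K') {P : Pt → Fin 4 → ℝ} {D : Set (Fin 4 → ℝ)}
    (hP : ∀ y, P (f y) = P y) (hb : Set.BijOn P (real K) D) : Set.BijOn P (real K') D := by
  have := hb.comp h.symm.bijOn
  refine this.congr fun y hy => ?_
  simp only [Function.comp]
  rw [← hP, h.fg y hy]

/-- Truncation: drop the four corner simplices. -/
theorem trunc_bij {pos : ℕ → ℕ → ℕ} {sub : List (List ℕ)} {cor : List (ℕ × List ℕ)}
    (hb : Set.BijOn (Pos fun v k => (pos v k : ℝ) / 96)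
      (real (sub.map msk ++ cor.map fun c => msk (c.1 :: c.2))) (stdSimplex ℝ (Fin 4)))
    (hs : ∀ l ∈ sub, ∀ v ∈ l, ∀ k : Fin 4, pos v k ≤ 72)
    (hc : ∀ c ∈ cor, c.1 < 4 ∧ pos c.1 c.1 = 96 ∧ (∀ v ∈ c.2, pos v c.1 = 72) ∧
      leL (msk c.2) (sub.map msk) = true) :
    Set.BijOn (Pos fun v k => (pos v k : ℝ) / 96) (real (sub.map msk)) Trunc := by
  rw [real_append] at hb
  refine ⟨fun y hy => ?_, hb.injOn.mono Set.subset_union_left, fun t ht => ?_⟩
  · have := hb.mapsTo (Or.inl hy)
    obtain ⟨h0, h1, F, hF, hy⟩ := hy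
    obtain ⟨l, hl, rfl⟩ := List.mem_map.1 hF
    refine ⟨this.1, this.2, fun k => avg_le h0 h1 fun v hv => ?_⟩
    have : (pos v k : ℝ) ≤ 72 := by exact_mod_cast hs l hl v (inF_msk.1 hy v hv) k
    linarith
  · obtain ⟨y, hy | hy, rfl⟩ := hb.surjOn ⟨ht.1, ht.2.1⟩
    · exact ⟨y, hy, rfl⟩
    refine ⟨y, ?_, rfl⟩
    obtain ⟨h0, h1, F, hF, hy⟩ := hy
    obtain ⟨c, hl, rfl⟩ := List.mem_map.1 hF
    obtain ⟨c1, c2, c3, c4⟩ := hc c hl
    refine mem_real_of_leL c4 h0 h1 (inF_msk.2 fun v hv => ?_)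
    have key := extremal h0 h1 (φ := fun v => (pos v c.1 : ℝ) / 96) (c := 3 / 4) (fun v hv => by
      rcases List.mem_cons.1 (inF_msk.1 hy v hv) with e | e
      · rw [e, c2]; norm_num
      · rw [c3 v e]; norm_num) (ht.2.2 ⟨c.1, c1⟩) v hv
    rcases List.mem_cons.1 (inF_msk.1 hy v hv) with e | e
    · rw [e, c2] at key; norm_num at key
    · exact e

/-- A continuous inverse of a continuous bijection from a realisation. -/
theorem exists_inv {K : List ℕ} {P : Pt → Fin 4 → ℝ} {D : Set (Fin 4 → ℝ)} (hP : Continuous P)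
    (hb : Set.BijOn P (real K) D) : ∃ Q : (Fin 4 → ℝ) → Pt, ContinuousOn Q D ∧
      (∀ t ∈ D, Q t ∈ real K ∧ P (Q t) = t) ∧ ∀ y ∈ real K, Q (P y) = y := by
  have : CompactSpace (real K) := isCompact_iff_compactSpace.1 (isCompact_real K)
  let e : real K ≃ₜ D := Continuous.homeoOfEquivCompactToT2 (f := hb.equiv P)
    (by exact (hP.comp continuous_subtype_val).subtype_mk _)
  refine ⟨Function.invFunOn P (real K), ?_, fun t ht => ?_, fun y hy => hb.injOn.leftInvOn_invFunOn hy⟩
  · rw [continuousOn_iff_continuous_domRestrict]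
    have : D.domRestrict (Function.invFunOn P (real K)) = fun t => (e.symm t : Pt) := by
      funext t
      have h1 : P (e.symm t) = t := congrArg Subtype.val (e.apply_symm_apply t)
      show Function.invFunOn P (real K) t = _
      rw [← h1]
      exact hb.injOn.leftInvOn_invFunOn (e.symm t).2
    rw [this]
    fun_prop
  · exact ⟨Function.invFunOn_mem (hb.surjOn ht), Function.invFunOn_eq (hb.surjOn ht)⟩

end Pool.Agent.Lib.MP_a11aea_gt
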