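import Pool.Agent.Lib.MP_a11aea_gt.H36Tri

/-! Geometric realisation of simplicial complexes given by bit masks of their facets. -/

namespace Pool.Agent.Lib.MP_a11aea_gt

open Finset

abbrev Pt : Type := Fin 128 → ℝ

/-- The support of `y` lies in the vertex set with bit mask `F`. -/
def inF (F : ℕ) (y : Pt) : Prop := ∀ v : Fin 128, y v ≠ 0 → F.testBit v = true

/-- The realisation of the complex generated by the facets `K`. -/
def real (K : List ℕ) : Set Pt := {y | (∀ v, 0 ≤ y v) ∧ ∑ v, y v = 1 ∧ ∃ F ∈ K, inF F y}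

theorem isClosed_inF (F : ℕ) : IsClosed {y : Pt | inF F y} := by
  have : {y : Pt | inF F y} = ⋂ v : Fin 128, ⋂ _ : F.testBit v ≠ true, {y : Pt | y v = 0} := by
    ext y
    simp only [inF, Set.mem_setOf_eq, Set.mem_iInter]
    exact ⟨fun h v hv => by_contra fun hy => hv (h v hy), fun h v hv => by_contra fun hy => hv (h v hy)⟩
  rw [this]
  exact isClosed_iInter fun v => isClosed_iInter fun _ => isClosed_eq (continuous_apply v) continuous_const

theorem isCompact_real (K : List ℕ) : IsCompact (real K) := by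
  have h : real K = stdSimplex ℝ (Fin 128) ∩ ⋃ F ∈ {F | F ∈ K}, {y : Pt | inF F y} := by
    ext y
    simp only [real, stdSimplex, Set.mem_setOf_eq, Set.mem_inter_iff, Set.mem_iUnion, exists_prop]
    tauto
  rw [h]
  exact (isCompact_stdSimplex ℝ (Fin 128)).inter_right
    ((List.finite_toSet K).isClosed_biUnion fun F _ => isClosed_inF F)

theorem inF_mono {F G : ℕ} (h : F &&& G = F) {y : Pt} (hy : inF F y) : inF G y := by
  intro v hv
  have := hy v hv
  rw [← h, Nat.testBit_and] at this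
  simp only [Bool.and_eq_true] at this
  exact this.2

theorem inF_and {F G : ℕ} {y : Pt} (h1 : inF F y) (h2 : inF G y) : inF (F &&& G) y := by
  intro v hv
  rw [Nat.testBit_and, h1 v hv, h2 v hv]; rfl

theorem not_inF_zero {y : Pt} (hs : ∑ v, y v = 1) : ¬ inF 0 y := by
  intro h
  have : ∀ v, y v = 0 := fun v => by_contra fun hv => by simpa using h v hv
  simp [this] at hs

theorem real_mono {K K' : List ℕ} (h : ∀ F ∈ K, ∃ G ∈ K', F &&& G = F) : real K ⊆ real K' := by
  rintro y ⟨h0, h1, F, hF, hy⟩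
  obtain ⟨G, hG, e⟩ := h F hF
  exact ⟨h0, h1, G, hG, inF_mono e hy⟩

theorem real_append (K K' : List ℕ) : real (K ++ K') = real K ∪ real K' := by
  ext y
  simp only [real, List.mem_append, Set.mem_setOf_eq, Set.mem_union]
  constructor
  · rintro ⟨h0, h1, F, hF | hF, hy⟩
    · exact Or.inl ⟨h0, h1, F, hF, hy⟩
    · exact Or.inr ⟨h0, h1, F, hF, hy⟩
  · rintro (⟨h0, h1, F, hF, hy⟩ | ⟨h0, h1, F, hF, hy⟩)
    · exact ⟨h0, h1, F, Or.inl hF, hy⟩
    · exact ⟨h0, h1, F, Or.inr hF, hy⟩

end Pool.Agent.Lib.MP_a11aea_gt
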