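import Pool.Agent.Lib.MP_a11aea_gt.H36Star

/-! A checker for sequences of stellar subdivisions and welds. -/

namespace Pool.Agent.Lib.MP_a11aea_gt

open Finset

noncomputable section

/-- Evaluate `n` before passing it on. -/
def frc {α : Type} (n : ℕ) (k : ℕ → α) : α := Nat.rec (k 0) (fun m _ => k (Nat.succ m)) n

theorem frc_eq {α : Type} (n : ℕ) (k : ℕ → α) : frc n k = k n := by cases n <;> rfl

def addNew (G W : ℕ) (ms : List ℕ) (k : List ℕ → Bool) : List ℕ → Bool :=
  List.rec k (fun m _ ih acc => frc (Nat.lor (Nat.xor G m) W) (fun x => ih (x :: acc))) ms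

def stepS (ms : List ℕ) (A W : ℕ) (K : List ℕ) (k : List ℕ → Bool) : List ℕ → Bool :=
  List.rec k (fun F _ ih acc => Bool.rec false
    (Bool.rec (ih (F :: acc)) (addNew F W ms ih acc) (Nat.beq (Nat.land F A) A))
    (Nat.beq (Nat.land F W) 0)) K

def memN (F : ℕ) (K : List ℕ) : Bool :=
  List.rec false (fun G _ ih => Bool.rec ih true (Nat.beq F G)) K

def split (A W : ℕ) (K : List ℕ) (k : List ℕ → List ℕ → Bool) : List ℕ → List ℕ → Bool :=
  List.rec k (fun F _ ih S R => Bool.rec
    (Bool.rec (ih (F :: S) R) (ih S (F :: R)) (Nat.beq (Nat.land F W) 0)) false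
    (Nat.beq (Nat.land F A) A)) K

def allm (G W : ℕ) (S : List ℕ) (ms : List ℕ) : Bool :=
  List.rec true (fun m _ ih => Bool.rec false ih (memN (Nat.lor (Nat.xor G m) W) S)) ms

def weld (ms : List ℕ) (A W : ℕ) (S : List ℕ) (T : List ℕ) (k : List ℕ → Bool) :
    List ℕ → List ℕ → Bool :=
  List.rec (fun _ acc => k acc) (fun F _ ih N acc => frc (Nat.lor (Nat.xor F W) A) (fun G =>
    Bool.rec (Bool.rec false (ih (G :: N) (G :: acc)) (allm G W S ms)) (ih N acc) (memN G N))) T

def stepW (ms : List ℕ) (A W : ℕ) (K : List ℕ) (k : List ℕ → Bool) : Bool :=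
  split A W K (fun S R => weld ms A W S S k [] R) [] []

theorem addNew_spec (G W : ℕ) (ms : List ℕ) (k : List ℕ → Bool) (acc : List ℕ)
    (h : addNew G W ms k acc = true) :
    ∃ K', k K' = true ∧ ∀ F, F ∈ K' ↔ F ∈ acc ∨ ∃ m ∈ ms, F = (G ^^^ m) ||| W := by
  induction ms generalizing acc with
  | nil => exact ⟨acc, h, by simp⟩
  | cons m ms ih =>
    have h' : addNew G W ms k (((G ^^^ m) ||| W) :: acc) = true := by
      rw [← h]
      exact (frc_eq ((G ^^^ m) ||| W) fun x => addNew G W ms k (x :: acc)).symm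
    obtain ⟨K', hk, hK⟩ := ih _ h'
    refine ⟨K', hk, fun F => ?_⟩
    rw [hK]
    simp only [List.mem_cons, exists_eq_or_imp]
    tauto

theorem stepS_spec (ms : List ℕ) (A W : ℕ) (K : List ℕ) (k : List ℕ → Bool) (acc : List ℕ)
    (h : stepS ms A W K k acc = true) :
    (∀ F ∈ K, F &&& W = 0) ∧ ∃ K', k K' = true ∧ ∀ F, F ∈ K' ↔ F ∈ acc ∨ (F ∈ K ∧ F &&& A ≠ A) ∨
      ∃ G ∈ K, G &&& A = A ∧ ∃ m ∈ ms, F = (G ^^^ m) ||| W := by
  induction K generalizing acc with
  | nil => exact ⟨by simp, acc, h, by simp⟩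
  | cons G K ih =>
    have h' : (Bool.rec false (Bool.rec (stepS ms A W K k (G :: acc))
        (addNew G W ms (stepS ms A W K k) acc) (Nat.beq (G &&& A) A)) (Nat.beq (G &&& W) 0) : Bool)
        = true := h
    cases h1 : Nat.beq (G &&& W) 0
    · rw [h1] at h'; exact absurd h' Bool.false_ne_true
    have e1 := Nat.eq_of_beq_eq_true h1
    rw [h1] at h'
    cases h2 : Nat.beq (G &&& A) A
    · rw [h2] at h'
      have e2 := Nat.ne_of_beq_eq_false h2
      obtain ⟨a, K', hk, hK⟩ := ih _ h'
      refine ⟨by simpa [e1] using a, K', hk, fun F => ?_⟩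
      rw [hK]
      simp only [List.mem_cons, exists_eq_or_imp, e2, false_and, false_or]
      constructor
      · rintro ((rfl | h) | h | h)
        · exact Or.inr (Or.inl ⟨Or.inl rfl, e2⟩)
        · exact Or.inl h
        · exact Or.inr (Or.inl ⟨Or.inr h.1, h.2⟩)
        · exact Or.inr (Or.inr h)
      · rintro (h | ⟨rfl | h, hh⟩ | h)
        · exact Or.inl (Or.inr h)
        · exact Or.inl (Or.inl rfl)
        · exact Or.inr (Or.inl ⟨h, hh⟩)
        · exact Or.inr (Or.inr h)
    · rw [h2] at h'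
      have e2 := Nat.eq_of_beq_eq_true h2
      obtain ⟨acc', h3, hacc⟩ := addNew_spec _ _ _ _ _ h'
      obtain ⟨a, K', hk, hK⟩ := ih _ h3
      refine ⟨by simpa [e1] using a, K', hk, fun F => ?_⟩
      rw [hK, hacc]
      simp only [List.mem_cons, exists_eq_or_imp, e2, true_and]
      constructor
      · rintro ((h | h) | h | h)
        · exact Or.inl h
        · exact Or.inr (Or.inr (Or.inl h))
        · exact Or.inr (Or.inl ⟨Or.inr h.1, h.2⟩)
        · exact Or.inr (Or.inr (Or.inr h))
      · rintro (h | ⟨rfl | h, hh⟩ | h | h)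
        · exact Or.inl (Or.inl h)
        · exact absurd e2 hh
        · exact Or.inr (Or.inl ⟨h, hh⟩)
        · exact Or.inl (Or.inr h)
        · exact Or.inr (Or.inr h)

theorem memN_iff (F : ℕ) (K : List ℕ) : memN F K = true ↔ F ∈ K := by
  induction K with
  | nil => simp [memN]
  | cons G K ih =>
    have : memN F (G :: K) = (Bool.rec (memN F K) true (Nat.beq F G) : Bool) := rfl
    rw [this, List.mem_cons, ← ih]
    cases h : Nat.beq F G
    · simp [Nat.ne_of_beq_eq_false h]
    · simp [Nat.eq_of_beq_eq_true h]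

theorem split_spec (A W : ℕ) (K : List ℕ) (k : List ℕ → List ℕ → Bool) (S R : List ℕ)
    (h : split A W K k S R = true) :
    (∀ F ∈ K, F &&& A ≠ A) ∧ ∃ S' R', k S' R' = true ∧
      (∀ F, F ∈ S' ↔ F ∈ S ∨ (F ∈ K ∧ F &&& W ≠ 0)) ∧
      ∀ F, F ∈ R' ↔ F ∈ R ∨ (F ∈ K ∧ F &&& W = 0) := by
  induction K generalizing S R with
  | nil => exact ⟨by simp, S, R, h, by simp, by simp⟩
  | cons G K ih =>
    have h' : (Bool.rec (Bool.rec (split A W K k (G :: S) R) (split A W K k S (G :: R))
        (Nat.beq (G &&& W) 0)) false (Nat.beq (G &&& A) A) : Bool) = true := h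
    cases h1 : Nat.beq (G &&& A) A
    swap
    · rw [h1] at h'; exact absurd h' Bool.false_ne_true
    have e1 := Nat.ne_of_beq_eq_false h1
    rw [h1] at h'
    cases h2 : Nat.beq (G &&& W) 0
    · rw [h2] at h'
      have e2 := Nat.ne_of_beq_eq_false h2
      obtain ⟨a, S', R', hk, hS, hR⟩ := ih _ _ h'
      refine ⟨by simpa [e1] using a, S', R', hk, fun F => ?_, fun F => ?_⟩
      · rw [hS]; simp only [List.mem_cons]
        constructor
        · rintro ((rfl | h) | h)
          · exact Or.inr ⟨Or.inl rfl, e2⟩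
          · exact Or.inl h
          · exact Or.inr ⟨Or.inr h.1, h.2⟩
        · rintro (h | ⟨rfl | h, hh⟩)
          · exact Or.inl (Or.inr h)
          · exact Or.inl (Or.inl rfl)
          · exact Or.inr ⟨h, hh⟩
      · rw [hR]; simp only [List.mem_cons]
        constructor
        · rintro (h | h)
          · exact Or.inl h
          · exact Or.inr ⟨Or.inr h.1, h.2⟩
        · rintro (h | ⟨rfl | h, hh⟩)
          · exact Or.inl h
          · exact absurd hh e2
          · exact Or.inr ⟨h, hh⟩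
    · rw [h2] at h'
      have e2 := Nat.eq_of_beq_eq_true h2
      obtain ⟨a, S', R', hk, hS, hR⟩ := ih _ _ h'
      refine ⟨by simpa [e1] using a, S', R', hk, fun F => ?_, fun F => ?_⟩
      · rw [hS]; simp only [List.mem_cons]
        constructor
        · rintro (h | h)
          · exact Or.inl h
          · exact Or.inr ⟨Or.inr h.1, h.2⟩
        · rintro (h | ⟨rfl | h, hh⟩)
          · exact Or.inl h
          · exact absurd e2 hh
          · exact Or.inr ⟨h, hh⟩
      · rw [hR]; simp only [List.mem_cons]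
        constructor
        · rintro ((rfl | h) | h)
          · exact Or.inr ⟨Or.inl rfl, e2⟩
          · exact Or.inl h
          · exact Or.inr ⟨Or.inr h.1, h.2⟩
        · rintro (h | ⟨rfl | h, hh⟩)
          · exact Or.inl (Or.inr h)
          · exact Or.inl (Or.inl rfl)
          · exact Or.inr ⟨h, hh⟩

theorem allm_spec (G W : ℕ) (S ms : List ℕ) (h : allm G W S ms = true) :
    ∀ m ∈ ms, (G ^^^ m) ||| W ∈ S := by
  induction ms with
  | nil => simp
  | cons m ms ih =>
    have h' : (Bool.rec false (allm G W S ms) (memN ((G ^^^ m) ||| W) S) : Bool) = true := h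
    cases h1 : memN ((G ^^^ m) ||| W) S
    · rw [h1] at h'; exact absurd h' Bool.false_ne_true
    rw [h1] at h'
    intro m' hm
    rcases List.mem_cons.1 hm with rfl | hm
    · exact (memN_iff _ _).1 h1
    · exact ih h' m' hm

theorem weld_spec (ms : List ℕ) (A W : ℕ) (S T : List ℕ) (k : List ℕ → Bool) (N acc : List ℕ)
    (hN : ∀ G ∈ N, G ∈ acc ∧ ∀ m ∈ ms, (G ^^^ m) ||| W ∈ S)
    (h : weld ms A W S T k N acc = true) :
    (∀ F ∈ T, ∀ m ∈ ms, (((F ^^^ W) ||| A) ^^^ m) ||| W ∈ S) ∧
    ∃ K', k K' = true ∧ ∀ G, G ∈ K' ↔ G ∈ acc ∨ ∃ F ∈ T, G = (F ^^^ W) ||| A := by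
  induction T generalizing N acc with
  | nil => exact ⟨by simp, acc, h, by simp⟩
  | cons F T ih =>
    have h' : (Bool.rec (Bool.rec false (weld ms A W S T k (((F ^^^ W) ||| A) :: N)
        (((F ^^^ W) ||| A) :: acc)) (allm ((F ^^^ W) ||| A) W S ms)) (weld ms A W S T k N acc)
        (memN ((F ^^^ W) ||| A) N) : Bool) = true := by
      rw [← h]
      exact (frc_eq ((F ^^^ W) ||| A) fun G => (Bool.rec (Bool.rec false
        (weld ms A W S T k (G :: N) (G :: acc)) (allm G W S ms)) (weld ms A W S T k N acc)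
        (memN G N) : Bool)).symm
    cases h1 : memN ((F ^^^ W) ||| A) N
    · rw [h1] at h'
      cases h2 : allm ((F ^^^ W) ||| A) W S ms
      · rw [h2] at h'; exact absurd h' Bool.false_ne_true
      rw [h2] at h'
      have h3 := allm_spec _ _ _ _ h2
      obtain ⟨a, K', hk, hK⟩ := ih _ _ (by
        intro G hG
        rcases List.mem_cons.1 hG with rfl | hG
        · exact ⟨List.mem_cons_self, h3⟩
        · exact ⟨List.mem_cons_of_mem _ (hN G hG).1, (hN G hG).2⟩) h'
      refine ⟨?_, K', hk, fun G => ?_⟩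
      · intro F' hF'
        rcases List.mem_cons.1 hF' with rfl | hF'
        · exact h3
        · exact a F' hF'
      · rw [hK]
        simp only [List.mem_cons, exists_eq_or_imp]
        tauto
    · rw [h1] at h'
      have h3 := hN _ ((memN_iff _ _).1 h1)
      obtain ⟨a, K', hk, hK⟩ := ih _ _ hN h'
      refine ⟨?_, K', hk, fun G => ?_⟩
      · intro F' hF'
        rcases List.mem_cons.1 hF' with rfl | hF'
        · exact h3.2
        · exact a F' hF'
      · rw [hK]
        simp only [List.mem_cons, exists_eq_or_imp]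
        constructor
        · rintro (h | h)
          · exact Or.inl h
          · exact Or.inr (Or.inr h)
        · rintro (h | rfl | h)
          · exact Or.inl h
          · exact Or.inl h3.1
          · exact Or.inr h

/-- The list of (vertex, weight) pairs packed in `y`. -/
def decAs (k : ℕ) : ℕ → List (ℕ × ℕ) :=
  Nat.rec (fun _ => []) (fun _ ih y => (y % 128, y / 128 % 32) :: ih (y / 4096)) k

def opW (x : ℕ) : ℕ := x / 2 % 128

def opAs (x : ℕ) : List (ℕ × ℕ) := decAs (x / 256 % 8) (x / 2048)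

def opMs (as : List (ℕ × ℕ)) : List ℕ := as.map fun p => Nat.shiftLeft 1 p.1

def opA (as : List (ℕ × ℕ)) : ℕ := as.foldr (fun p r => Nat.lor (Nat.shiftLeft 1 p.1) r) 0

def opOK (x : ℕ) : Bool :=
  !(opAs x).isEmpty && (opAs x).all fun p => !(Nat.beq p.2 0) && !(Nat.beq p.1 (opW x))

def step (x : ℕ) (K : List ℕ) (k : List ℕ → Bool) : Bool :=
  Bool.rec false (frc (Nat.shiftLeft 1 (opW x)) fun W => frc (opA (opAs x)) fun A =>
    Bool.rec (stepW (opMs (opAs x)) A W K k) (stepS (opMs (opAs x)) A W K k [])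
      (Nat.beq (x % 2) 1)) (opOK x)

def run (ops : List ℕ) (k : List ℕ → Bool) : List ℕ → Bool :=
  List.rec k (fun x _ ih K => step x K ih) ops

theorem decAs_lt (k y : ℕ) : ∀ p ∈ decAs k y, p.1 < 128 := by
  induction k generalizing y with
  | zero => intro p hp; cases hp
  | succ k ih =>
    intro p hp
    rcases List.mem_cons.1 hp with rfl | hp
    · exact Nat.mod_lt _ (by norm_num)
    · exact ih _ p hp

def wF (x : ℕ) : Fin 128 := ⟨opW x, Nat.mod_lt _ (by norm_num)⟩

def wt (as : List (ℕ × ℕ)) (v : ℕ) : ℕ := (as.map fun p => if p.1 = v then p.2 else 0).sum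

def tot (as : List (ℕ × ℕ)) : ℕ := (as.map Prod.snd).sum

def cOp (x : ℕ) : Pt := fun v => (wt (opAs x) v : ℝ) / tot (opAs x)

theorem testBit_one (a v : ℕ) : (Nat.shiftLeft 1 a).testBit v = decide (a = v) := by
  have : Nat.shiftLeft 1 a = 2 ^ a := Nat.one_shiftLeft a
  rw [this, Nat.testBit_two_pow]

theorem testBit_opA (as : List (ℕ × ℕ)) (v : ℕ) :
    (opA as).testBit v = true ↔ ∃ p ∈ as, p.1 = v := by
  induction as with
  | nil => simp [opA]
  | cons p as ih =>
    have : opA (p :: as) = Nat.shiftLeft 1 p.1 ||| opA as := rfl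
    rw [this, Nat.testBit_or, testBit_one, Bool.or_eq_true, ih]
    simp

theorem sum_wt (as : List (ℕ × ℕ)) (h : ∀ p ∈ as, p.1 < 128) (f : Fin 128 → ℝ) (g : ℕ → ℝ)
    (hf : ∀ v : Fin 128, f v = g v) :
    ∑ v : Fin 128, (wt as v : ℝ) * f v = (as.map fun p => (p.2 : ℝ) * g p.1).sum := by
  induction as with
  | nil => simp [wt]
  | cons p as ih =>
    have e : ∀ v : ℕ, wt (p :: as) v = (if p.1 = v then p.2 else 0) + wt as v := fun v => by
      simp [wt]
    simp only [e, Nat.cast_add, add_mul, Finset.sum_add_distrib, List.map_cons, List.sum_cons]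
    rw [ih fun q hq => h q (List.mem_cons_of_mem _ hq)]
    congr 1
    rw [Finset.sum_eq_single ⟨p.1, h p List.mem_cons_self⟩]
    · simp [hf]
    · intro b _ hb
      rw [if_neg fun e => hb (Fin.ext e.symm)]
      simp
    · simp

theorem wt_pos (as : List (ℕ × ℕ)) (h : ∀ p ∈ as, p.2 ≠ 0) (v : ℕ) :
    0 < wt as v ↔ ∃ p ∈ as, p.1 = v := by
  induction as with
  | nil => simp [wt]
  | cons p as ih =>
    have e : wt (p :: as) v = (if p.1 = v then p.2 else 0) + wt as v := by simp [wt]
    rw [e, Nat.add_pos_iff_pos_or_pos, ih fun q hq => h q (List.mem_cons_of_mem _ hq)]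
    have := h p List.mem_cons_self
    simp only [List.mem_cons, exists_eq_or_imp]
    refine or_congr ?_ Iff.rfl
    split_ifs with h1
    · simp [h1, Nat.pos_iff_ne_zero, this]
    · simp [h1]

theorem opOK_spec {x : ℕ} (h : opOK x = true) :
    opAs x ≠ [] ∧ ∀ p ∈ opAs x, p.2 ≠ 0 ∧ p.1 ≠ opW x := by
  simp only [opOK, Bool.and_eq_true, Bool.not_eq_eq_eq_not, Bool.not_true, List.all_eq_true,
    List.isEmpty_eq_false_iff] at h
  exact ⟨h.1, fun p hp => ⟨Nat.ne_of_beq_eq_false (h.2 p hp).1, Nat.ne_of_beq_eq_false (h.2 p hp).2⟩⟩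

theorem tot_pos {x : ℕ} (h : opOK x = true) : 0 < tot (opAs x) := by
  obtain ⟨h1, h2⟩ := opOK_spec h
  obtain ⟨p, hp⟩ := List.exists_mem_of_ne_nil _ h1
  have : p.2 ≤ tot (opAs x) := List.single_le_sum (by simp) _ (List.mem_map_of_mem hp)
  exact lt_of_lt_of_le (Nat.pos_of_ne_zero (h2 p hp).1) this

theorem wt_op {x : ℕ} (h : opOK x = true) : Wt (cOp x) (wF x) (opA (opAs x)) := by
  obtain ⟨h1, h2⟩ := opOK_spec h
  have ht : (0 : ℝ) < tot (opAs x) := by exact_mod_cast tot_pos h
  refine ⟨fun v => div_nonneg (Nat.cast_nonneg _) ht.le, ?_, ?_, fun v => ?_⟩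
  · have := sum_wt (opAs x) (decAs_lt _ _) (fun _ => 1) (fun _ => 1) fun _ => rfl
    simp only [mul_one] at this
    simp only [cOp, ← Finset.sum_div, this]
    rw [div_eq_one_iff_eq ht.ne', tot, Nat.cast_list_sum, List.map_map]
    rfl
  · have : ¬ 0 < wt (opAs x) (opW x) := by
      rw [wt_pos _ fun p hp => (h2 p hp).1]
      rintro ⟨p, hp, e⟩
      exact (h2 p hp).2 e
    simp only [cOp, wF]
    rw [Nat.eq_zero_of_not_pos this]
    simp
  · rw [testBit_opA, ← wt_pos _ fun p hp => (h2 p hp).1, cOp, div_pos_iff_of_pos_right ht]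
    simp

theorem subA_iff (as : List (ℕ × ℕ)) (h : ∀ p ∈ as, p.1 < 128) (G : ℕ) :
    subA (opA as) G ↔ G &&& opA as = opA as := by
  constructor
  · intro hs
    apply Nat.eq_of_testBit_eq
    intro v
    rw [Nat.testBit_and]
    cases hv : (opA as).testBit v
    · simp
    · obtain ⟨p, hp, rfl⟩ := (testBit_opA _ _).1 hv
      simpa using hs ⟨p.1, h p hp⟩ hv
  · intro e v hv
    rw [← e, Nat.testBit_and, Bool.and_eq_true] at hv
    exact hv.1

theorem and_one_eq_zero (F w : ℕ) : F &&& Nat.shiftLeft 1 w = 0 ↔ F.testBit w = false := by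
  constructor
  · intro h
    have := congrArg (Nat.testBit · w) h
    simpa [Nat.testBit_and, testBit_one] using this
  · intro h
    apply Nat.eq_of_testBit_eq
    intro v
    rw [Nat.testBit_and, testBit_one]
    by_cases e : w = v
    · simp [← e, h]
    · simp [e]

theorem mem_opMs {as : List (ℕ × ℕ)} {m : ℕ} :
    m ∈ opMs as ↔ ∃ p ∈ as, m = Nat.shiftLeft 1 p.1 := by
  simp [opMs, eq_comm]

def fwOp (x : ℕ) : Pt → Pt := if x % 2 = 1 then The (cOp x) (wF x) else Lam (cOp x) (wF x)

def bwOp (x : ℕ) : Pt → Pt := if x % 2 = 1 then Lam (cOp x) (wF x) else The (cOp x) (wF x)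

theorem step_iso {x : ℕ} {K : List ℕ} {k : List ℕ → Bool} (h : step x K k = true) :
    ∃ K', k K' = true ∧ Iso (fwOp x) (bwOp x) K K' := by
  unfold step at h
  cases hok : opOK x
  · rw [hok] at h; exact absurd h Bool.false_ne_true
  rw [hok] at h
  simp only [frc_eq] at h
  have hw := wt_op hok
  obtain ⟨-, h2⟩ := opOK_spec hok
  have hlt : ∀ p ∈ opAs x, p.1 < 128 := decAs_lt _ _
  have hwv : ∀ v : Fin 128, opW x = v ↔ v = wF x := fun v =>
    ⟨fun e => Fin.ext e.symm, fun e => by rw [e]; rfl⟩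
  have hAw : (opA (opAs x)).testBit (opW x) = false := by
    rw [Bool.eq_false_iff]
    intro hh
    obtain ⟨p, hp, e⟩ := (testBit_opA _ _).1 hh
    exact (h2 p hp).2 e
  cases hs : Nat.beq (x % 2) 1
  · rw [hs] at h
    have e1 := Nat.ne_of_beq_eq_false hs
    obtain ⟨hA, S, R, hk, hS, hR⟩ := split_spec _ _ _ _ _ _ h
    obtain ⟨hall, K', hk', hK⟩ := weld_spec _ _ _ _ _ _ _ _ (by simp) hk
    simp only [List.not_mem_nil, false_or, ne_eq, and_one_eq_zero] at hS hR
    refine ⟨K', hk', ?_⟩
    rw [fwOp, bwOp, if_neg e1, if_neg e1]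
    refine (Sub.iso hw ⟨?_, ?_, ?_, ?_, ?_, ?_⟩).symm
    · intro G hG
      rcases (hK G).1 hG with hG | ⟨F, hF, rfl⟩
      · exact ((hR G).1 hG).2
      · have := ((hS F).1 hF).2
        show Nat.testBit _ (opW x) = false
        rw [Nat.testBit_or, Nat.testBit_xor, testBit_one, hAw]
        simpa using this
    · intro G hG hsub a ha
      rcases (hK G).1 hG with hG | ⟨F, hF, rfl⟩
      · exact absurd ((subA_iff _ hlt _).1 hsub) (hA G ((hR G).1 hG).1)
      · obtain ⟨p, hp, e⟩ := (testBit_opA _ _).1 ha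
        refine ⟨_, ((hS _).1 (hall F hF _ (mem_opMs.2 ⟨p, hp, rfl⟩))).1, fun v hv => ?_⟩
        rw [Nat.testBit_or, Nat.testBit_xor, testBit_one, testBit_one]
        rcases hv with hv | ⟨hv, hne⟩
        · simp [(hwv v).2 hv]
        · have : p.1 ≠ v := fun e' => hne (Fin.ext (e'.symm.trans e))
          rw [hv]
          simp [this]
    · intro G hG hsub
      rcases (hK G).1 hG with hG | ⟨F, hF, rfl⟩
      · exact ⟨G, ((hR G).1 hG).1, fun _ h => h⟩
      · exact absurd (fun v hv => by simp [Nat.testBit_or, hv]) hsub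
    · intro F hF hsub
      exact hA F hF ((subA_iff _ hlt _).1 hsub)
    · intro F hF hFw
      refine ⟨_, (hK _).2 (Or.inr ⟨F, (hS F).2 ⟨hF, by
        rw [show F.testBit (opW x) = true from hFw]; simp⟩, rfl⟩), fun v hv => ?_⟩
      rw [Nat.testBit_or, Nat.testBit_xor, testBit_one]
      rcases hv with ⟨hv, hne⟩ | hv
      · have : opW x ≠ v := fun e => hne ((hwv v).1 e)
        simp [hv, this]
      · simp [hv]
    · intro F hF hFw
      exact ⟨F, (hK F).2 (Or.inl ((hR F).2 ⟨hF, hFw⟩)), fun _ h => h⟩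
  · rw [hs] at h
    have e1 := Nat.eq_of_beq_eq_true hs
    obtain ⟨hW, K', hk', hK⟩ := stepS_spec _ _ _ _ _ _ h
    simp only [List.not_mem_nil, false_or, and_one_eq_zero] at hK hW
    refine ⟨K', hk', ?_⟩
    rw [fwOp, bwOp, if_pos e1, if_pos e1]
    refine Sub.iso hw ⟨hW, ?_, ?_, ?_, ?_, ?_⟩
    · intro G hG hsub a ha
      obtain ⟨p, hp, e⟩ := (testBit_opA _ _).1 ha
      refine ⟨_, (hK _).2 (Or.inr ⟨G, hG, (subA_iff _ hlt _).1 hsub, _, mem_opMs.2 ⟨p, hp, rfl⟩,
        rfl⟩), fun v hv => ?_⟩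
      rw [Nat.testBit_or, Nat.testBit_xor, testBit_one, testBit_one]
      rcases hv with hv | ⟨hv, hne⟩
      · simp [(hwv v).2 hv]
      · have : p.1 ≠ v := fun e' => hne (Fin.ext (e'.symm.trans e))
        simp [hv, this]
    · intro G hG hsub
      exact ⟨G, (hK G).2 (Or.inl ⟨hG, fun e => hsub ((subA_iff _ hlt _).2 e)⟩), fun _ h => h⟩
    · intro F hF hsub
      rcases (hK F).1 hF with ⟨-, hF⟩ | ⟨G, hG, e, m, hm, rfl⟩
      · exact hF ((subA_iff _ hlt _).1 hsub)
      · obtain ⟨p, hp, rfl⟩ := mem_opMs.1 hm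
        have h3 : (opA (opAs x)).testBit p.1 = true := (testBit_opA _ _).2 ⟨p, hp, rfl⟩
        have h4 := hsub ⟨p.1, hlt p hp⟩ h3
        have h5 := (subA_iff _ hlt _).2 e ⟨p.1, hlt p hp⟩ h3
        rw [Nat.testBit_or, Nat.testBit_xor, testBit_one, testBit_one] at h4
        simp only at h5
        simp [h5, (h2 p hp).2.symm] at h4
    · intro F hF hFw
      rcases (hK F).1 hF with ⟨hF, -⟩ | ⟨G, hG, e, m, hm, rfl⟩
      · have := hW F hF
        rw [show F.testBit (opW x) = true from hFw] at this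
        exact absurd this (by simp)
      · refine ⟨G, hG, fun v hv => ?_⟩
        obtain ⟨p, hp, rfl⟩ := mem_opMs.1 hm
        have h6 := (subA_iff _ hlt _).2 e
        rcases hv with ⟨hv, hne⟩ | hv
        · rw [Nat.testBit_or, Nat.testBit_xor, testBit_one, testBit_one] at hv
          have h7 : opW x ≠ v := fun e => hne ((hwv v).1 e)
          by_cases h8 : p.1 = v
          · exact h6 v ((testBit_opA _ _).2 ⟨p, hp, h8⟩)
          · simpa [h7, h8] using hv
        · exact h6 v hv
    · intro F hF hFw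
      rcases (hK F).1 hF with ⟨hF, -⟩ | ⟨G, hG, e, m, hm, rfl⟩
      · exact ⟨F, hF, fun _ h => h⟩
      · have : Nat.testBit ((G ^^^ m) ||| Nat.shiftLeft 1 (opW x)) (opW x) = false := hFw
        rw [Nat.testBit_or, testBit_one] at this
        simp at this

def fw : List ℕ → Pt → Pt
  | [] => id
  | x :: os => fw os ∘ fwOp x

def bw : List ℕ → Pt → Pt
  | [] => id
  | x :: os => bwOp x ∘ bw os

theorem run_iso {ops : List ℕ} {k : List ℕ → Bool} {K : List ℕ} (h : run ops k K = true) :
    ∃ K', k K' = true ∧ Iso (fw ops) (bw ops) K K' := by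
  induction ops generalizing K with
  | nil => exact ⟨K, h, Iso.refl K⟩
  | cons x os ih =>
    obtain ⟨K₁, h1, i1⟩ := step_iso (show step x K (run os k) = true from h)
    obtain ⟨K₂, h2, i2⟩ := ih h1
    exact ⟨K₂, h2, i1.trans i2⟩

theorem continuous_fw (ops : List ℕ) : Continuous (fw ops) := by
  induction ops with
  | nil => exact continuous_id
  | cons x os ih =>
    refine ih.comp ?_
    unfold fwOp
    split_ifs
    · exact continuous_The _ _
    · exact continuous_Lam _ _

theorem continuous_bw (ops : List ℕ) : Continuous (bw ops) := by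
  induction ops with
  | nil => exact continuous_id
  | cons x os ih =>
    refine Continuous.comp ?_ ih
    unfold bwOp
    split_ifs
    · exact continuous_Lam _ _
    · exact continuous_The _ _

/-- `F` is a face of a member of `T`. -/
def leL (F : ℕ) (T : List ℕ) : Bool :=
  List.rec false (fun G _ ih => Bool.rec ih true (Nat.beq (Nat.land F G) F)) T

def cover (K T : List ℕ) : Bool := List.rec true (fun F _ ih => Bool.rec false ih (leL F T)) K

theorem leL_spec {F : ℕ} {T : List ℕ} (h : leL F T = true) : ∃ G ∈ T, F &&& G = F := by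
  induction T with
  | nil => cases h
  | cons G T ih =>
    have h' : (Bool.rec (leL F T) true (Nat.beq (F &&& G) F) : Bool) = true := h
    cases h1 : Nat.beq (F &&& G) F
    · rw [h1] at h'
      obtain ⟨G', hG, e⟩ := ih h'
      exact ⟨G', List.mem_cons_of_mem _ hG, e⟩
    · exact ⟨G, List.mem_cons_self, Nat.eq_of_beq_eq_true h1⟩

theorem cover_spec {K T : List ℕ} (h : cover K T = true) : real K ⊆ real T := by
  apply real_mono
  induction K with
  | nil => simp
  | cons F K ih =>
    have h' : (Bool.rec false (cover K T) (leL F T) : Bool) = true := h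
    cases h1 : leL F T
    · rw [h1] at h'; cases h'
    rw [h1] at h'
    intro F' hF
    rcases List.mem_cons.1 hF with rfl | hF
    · exact leL_spec h1
    · exact ih h' F' hF

def same (T K : List ℕ) : Bool := cover K T && cover T K

theorem same_spec {T K : List ℕ} (h : same T K = true) : real K = real T := by
  rw [same, Bool.and_eq_true] at h
  exact (cover_spec h.1).antisymm (cover_spec h.2)

theorem run_same {ops K T : List ℕ} (h : run ops (same T) K = true) : Iso (fw ops) (bw ops) K T := by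
  obtain ⟨K', h1, h2⟩ := run_iso h
  exact h2.congr (same_spec h1)

/-- Every operation places its new vertex at the weighted barycentre. -/
def geoOK (pos : ℕ → Fin 4 → ℕ) (ops : List ℕ) : Bool :=
  ops.all fun x => opOK x && decide (∀ k, tot (opAs x) * pos (opW x) k =
    ((opAs x).map fun p => p.2 * pos p.1 k).sum)

theorem Pos_fw {pos : ℕ → Fin 4 → ℕ} (D : ℝ) {ops : List ℕ} (h : geoOK pos ops = true) (y : Pt) :
    Pos (fun v k => pos v k / D) (fw ops y) = Pos (fun v k => pos v k / D) y := by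
  induction ops generalizing y with
  | nil => rfl
  | cons x os ih =>
    simp only [geoOK, List.all_cons, Bool.and_eq_true, decide_eq_true_eq] at h
    obtain ⟨⟨hok, hp⟩, h2⟩ := h
    have hw := wt_op hok
    have ht : (0 : ℝ) < tot (opAs x) := by exact_mod_cast tot_pos hok
    have key : ∀ k, (pos (wF x) k : ℝ) / D = ∑ v : Fin 128, cOp x v * (pos v k / D) := by
      intro k
      have h1 := sum_wt (opAs x) (decAs_lt _ _) (fun v => pos v k) (fun v => pos v k) fun _ => rfl
      have h3 : ((tot (opAs x) : ℝ)) * pos (opW x) k =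
          ((opAs x).map fun p => (p.2 : ℝ) * pos p.1 k).sum := by
        have := congrArg (Nat.cast : ℕ → ℝ) (hp k)
        rw [Nat.cast_mul, Nat.cast_list_sum, List.map_map] at this
        rw [this]
        congr 1
        apply List.map_congr_left
        intro p _
        simp
      have : ∑ v : Fin 128, cOp x v * (pos v k / D) =
          (∑ v : Fin 128, (wt (opAs x) v : ℝ) * pos v k) / tot (opAs x) / D := by
        rw [Finset.sum_div, Finset.sum_div]
        exact Finset.sum_congr rfl fun v _ => by simp only [cOp]; ring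
      rw [this, h1, ← h3, mul_div_cancel_left₀ _ ht.ne']
      rfl
    show Pos _ (fw os (fwOp x y)) = _
    rw [ih (by simpa [geoOK] using h2)]
    unfold fwOp
    split_ifs
    · exact Pos_The hw.cw key y
    · exact Pos_Lam hw.cw key y

end

end Pool.Agent.Lib.MP_a11aea_gt
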