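import Pool.Agent.Lib.MP_a11aea_gt.H36Real

/-! Stellar subdivisions as explicit homeomorphisms of realisations. -/

namespace Pool.Agent.Lib.MP_a11aea_gt

open Finset

/-- `f` and `g` restrict to inverse bijections between the two realisations. -/
structure Iso (f g : Pt → Pt) (K K' : List ℕ) : Prop where
  mf : Set.MapsTo f (real K) (real K')
  mg : Set.MapsTo g (real K') (real K)
  gf : ∀ x ∈ real K, g (f x) = x
  fg : ∀ y ∈ real K', f (g y) = y

theorem Iso.symm {f g K K'} (h : Iso f g K K') : Iso g f K' K := ⟨h.mg, h.mf, h.fg, h.gf⟩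

theorem Iso.trans {f g f' g' K K' K''} (h : Iso f g K K') (h' : Iso f' g' K' K'') :
    Iso (f' ∘ f) (g ∘ g') K K'' :=
  ⟨h'.mf.comp h.mf, h.mg.comp h'.mg,
    fun x hx => by simp only [Function.comp]; rw [h'.gf _ (h.mf hx), h.gf x hx],
    fun y hy => by simp only [Function.comp]; rw [h.fg _ (h'.mg hy), h'.fg y hy]⟩

theorem Iso.refl (K) : Iso id id K K := ⟨fun _ h => h, fun _ h => h, fun _ _ => rfl, fun _ _ => rfl⟩

theorem Iso.congr {f g K K' K''} (h : Iso f g K K') (e : real K' = real K'') : Iso f g K K'' :=
  ⟨e ▸ h.mf, e ▸ h.mg, h.gf, e ▸ h.fg⟩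

theorem Iso.bijOn {f g K K'} (h : Iso f g K K') : Set.BijOn f (real K) (real K') :=
  Set.InvOn.bijOn ⟨h.gf, h.fg⟩ h.mf h.mg

theorem Iso.image {f g K K'} (h : Iso f g K K') : f '' real K = real K' := h.bijOn.image_eq

/-- Membership in a tracked subcomplex is preserved. -/
theorem Iso.mem_iff {f g K K' L L'} (h : Iso f g K K') (h' : Iso f g L L') {x : Pt}
    (hx : x ∈ real K) : f x ∈ real L' ↔ x ∈ real L :=
  ⟨fun hf => by have := h'.mg hf; rwa [h.gf x hx] at this, fun hl => h'.mf hl⟩

noncomputable def mu (c x : Pt) : ℝ :=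
  if h : (univ.filter fun v => 0 < c v).Nonempty then
    (univ.filter fun v => 0 < c v).inf' h fun v => x v / c v else 0

noncomputable def Lam (c : Pt) (w : Fin 128) (y : Pt) : Pt :=
  fun v => if v = w then 0 else y v + c v * y w

noncomputable def The (c : Pt) (w : Fin 128) (x : Pt) : Pt :=
  fun v => if v = w then x w + mu c x else x v - mu c x * c v

theorem continuous_mu (c : Pt) : Continuous (mu c) := by
  unfold mu
  split_ifs with h
  · exact Continuous.finset_inf'_apply h fun v _ => (continuous_apply v).div_const _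
  · exact continuous_const

theorem continuous_Lam (c : Pt) (w : Fin 128) : Continuous (Lam c w) := by
  refine continuous_pi fun v => ?_
  unfold Lam
  split_ifs <;> fun_prop

theorem continuous_The (c : Pt) (w : Fin 128) : Continuous (The c w) := by
  have := continuous_mu c
  refine continuous_pi fun v => ?_
  unfold The
  split_ifs <;> fun_prop

structure Wt (c : Pt) (w : Fin 128) (A : ℕ) : Prop where
  nn : ∀ v, 0 ≤ c v
  sum : ∑ v, c v = 1
  cw : c w = 0
  pos : ∀ v : Fin 128, 0 < c v ↔ A.testBit v = true

theorem Wt.ne {c w A} (h : Wt c w A) : (univ.filter fun v => 0 < c v).Nonempty := by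
  by_contra hne
  rw [Finset.not_nonempty_iff_eq_empty, Finset.filter_eq_empty_iff] at hne
  have : ∀ v, c v = 0 := fun v => le_antisymm (not_lt.1 (hne (mem_univ v))) (h.nn v)
  have h1 := h.sum
  simp [this] at h1

theorem Wt.mu_le {c w A} (h : Wt c w A) (x : Pt) {v : Fin 128} (hv : 0 < c v) :
    mu c x ≤ x v / c v := by
  rw [mu, dif_pos h.ne]
  exact Finset.inf'_le _ (by simpa using hv)

theorem Wt.mu_eq {c w A} (h : Wt c w A) (x : Pt) : ∃ v, 0 < c v ∧ mu c x = x v / c v := by
  rw [mu, dif_pos h.ne]
  obtain ⟨v, hv, e⟩ := Finset.exists_mem_eq_inf' h.ne fun v => x v / c v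
  exact ⟨v, by simpa using hv, e⟩

theorem sum_ite_w (w : Fin 128) (a : ℝ) (f : Fin 128 → ℝ) :
    ∑ v, (if v = w then a else f v) = ∑ v, f v - f w + a := by
  have : ∀ v, (if v = w then a else f v) = f v + if v = w then a - f w else 0 := by
    intro v; split_ifs with h
    · rw [h]; ring
    · ring
  simp only [this, Finset.sum_add_distrib, Finset.sum_ite_eq', mem_univ, if_true]
  ring

/-- `A` is contained in `G`. -/
def subA (A G : ℕ) : Prop := ∀ v : Fin 128, A.testBit v = true → G.testBit v = true

/-- `K'` is the subdivision of `K` at the simplex `A` with new vertex `w`. -/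
structure Sub (A : ℕ) (w : Fin 128) (K K' : List ℕ) : Prop where
  fresh : ∀ G ∈ K, G.testBit w = false
  star : ∀ G ∈ K, subA A G → ∀ a : Fin 128, A.testBit a = true →
    ∃ F ∈ K', ∀ v : Fin 128, (v = w ∨ (G.testBit v = true ∧ v ≠ a)) → F.testBit v = true
  keep : ∀ G ∈ K, ¬ subA A G → ∃ F ∈ K', subA G F
  noA : ∀ F ∈ K', ¬ subA A F
  star' : ∀ F ∈ K', F.testBit w = true →
    ∃ G ∈ K, ∀ v : Fin 128, ((F.testBit v = true ∧ v ≠ w) ∨ A.testBit v = true) → G.testBit v = true
  keep' : ∀ F ∈ K', F.testBit w = false → ∃ G ∈ K, subA F G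

theorem Sub.iso {c : Pt} {w : Fin 128} {A : ℕ} {K K' : List ℕ} (hw : Wt c w A) (h : Sub A w K K') :
    Iso (The c w) (Lam c w) K K' := by
  have hxw : ∀ x ∈ real K, x w = 0 := by
    rintro x ⟨-, -, G, hG, hx⟩
    by_contra hne
    have := hx w hne
    rw [h.fresh G hG] at this
    exact Bool.false_ne_true this
  refine ⟨?_, ?_, ?_, ?_⟩
  · intro x hx
    have hw0 := hxw x hx
    obtain ⟨h0, h1, G, hG, hx⟩ := hx
    obtain ⟨a, ha, hmu⟩ := hw.mu_eq x
    have hm0 : 0 ≤ mu c x := hmu ▸ div_nonneg (h0 a) ha.le
    refine ⟨fun v => ?_, ?_, ?_⟩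
    · unfold The
      split_ifs with hv
      · linarith [h0 w]
      · rcases (hw.nn v).eq_or_lt with e | e
        · rw [← e]; simpa using h0 v
        · have := hw.mu_le x e
          rw [le_div_iff₀ e] at this
          linarith
    · unfold The
      rw [sum_ite_w, Finset.sum_sub_distrib, ← Finset.mul_sum, h1, hw.sum, hw.cw]
      ring
    · by_cases hA : subA A G
      · obtain ⟨F, hF, hsub⟩ := h.star G hG hA a ((hw.pos a).1 ha)
        refine ⟨F, hF, fun v hv => hsub v ?_⟩
        by_cases e : v = w
        · exact Or.inl e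
        · right
          simp only [The, if_neg e] at hv
          constructor
          · by_contra hG'
            have hx0 : x v = 0 := by_contra fun hne => hG' (hx v hne)
            have hc0 : c v = 0 := by
              rcases (hw.nn v).eq_or_lt with e | e
              · exact e.symm
              · exact absurd (hA v ((hw.pos v).1 e)) hG'
            simp [hx0, hc0] at hv
          · rintro rfl
            rw [hmu, div_mul_cancel₀ _ ha.ne'] at hv
            simp at hv
      · obtain ⟨F, hF, hsub⟩ := h.keep G hG hA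
        refine ⟨F, hF, fun v hv => hsub v (hx v ?_)⟩
        simp only [subA, not_forall] at hA
        obtain ⟨b, hb, hb'⟩ := hA
        have hx0 : x b = 0 := by_contra fun hne => hb' (hx b hne)
        have := hw.mu_le x ((hw.pos b).2 hb)
        rw [hx0, zero_div] at this
        have hm : mu c x = 0 := le_antisymm this hm0
        unfold The at hv
        split_ifs at hv with e
        · simp [hm, hw0] at hv
        · simpa [hm] using hv
  · rintro y ⟨h0, h1, F, hF, hy⟩
    refine ⟨fun v => ?_, ?_, ?_⟩
    · unfold Lam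
      split_ifs
      · exact le_rfl
      · exact add_nonneg (h0 v) (mul_nonneg (hw.nn v) (h0 w))
    · unfold Lam
      rw [sum_ite_w, Finset.sum_add_distrib, ← Finset.sum_mul, h1, hw.sum, hw.cw]
      ring
    · cases hFw : F.testBit w
      · obtain ⟨G, hG, hsub⟩ := h.keep' F hF hFw
        have hy0 : y w = 0 := by
          by_contra hne
          have := hy w hne
          rw [hFw] at this
          exact Bool.false_ne_true this
        refine ⟨G, hG, fun v hv => hsub v (hy v ?_)⟩
        unfold Lam at hv
        split_ifs at hv with e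
        · exact absurd rfl hv
        · simpa [hy0] using hv
      · obtain ⟨G, hG, hsub⟩ := h.star' F hF hFw
        refine ⟨G, hG, fun v hv => hsub v ?_⟩
        unfold Lam at hv
        split_ifs at hv with e
        · exact absurd rfl hv
        · by_cases hyv : y v = 0
          · right
            rcases (hw.nn v).eq_or_lt with e' | e'
            · simp [hyv, ← e'] at hv
            · exact (hw.pos v).1 e'
          · exact Or.inl ⟨hy v hyv, e⟩
  · intro x hx
    have hw0 := hxw x hx
    funext v
    by_cases e : v = w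
    · simp [Lam, e, hw0]
    · simp only [Lam, The, if_neg e, if_true, hw0]
      ring
  · rintro y ⟨h0, -, F, hF, hy⟩
    have hm : mu c (Lam c w y) = y w := by
      have hne : ∀ a, 0 < c a → a ≠ w := by
        rintro a ha rfl
        rw [hw.cw] at ha
        exact lt_irrefl _ ha
      apply le_antisymm
      · have := h.noA F hF
        simp only [subA, not_forall] at this
        obtain ⟨b, hb, hb'⟩ := this
        have hy0 : y b = 0 := by_contra fun hne => hb' (hy b hne)
        have hb0 := (hw.pos b).2 hb
        have := hw.mu_le (Lam c w y) hb0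
        simp only [Lam, if_neg (hne b hb0), hy0, zero_add] at this
        rwa [mul_div_cancel_left₀ _ hb0.ne'] at this
      · obtain ⟨a, ha, hmu⟩ := hw.mu_eq (Lam c w y)
        rw [hmu, le_div_iff₀ ha]
        simp only [Lam, if_neg (hne a ha)]
        linarith [h0 a]
    funext v
    by_cases e : v = w
    · subst e
      simp only [The, if_true, hm]
      simp [Lam]
    · simp only [The, if_neg e, hm]
      simp only [Lam, if_neg e]
      ring

/-- The affine map given by vertex positions. -/
noncomputable def Pos (pos : Fin 128 → Fin 4 → ℝ) (y : Pt) : Fin 4 → ℝ := fun k => ∑ v, y v * pos v k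

theorem Pos_Lam {c : Pt} {w : Fin 128} (hw : c w = 0) {pos : Fin 128 → Fin 4 → ℝ}
    (h : ∀ k, pos w k = ∑ v, c v * pos v k) (y : Pt) : Pos pos (Lam c w y) = Pos pos y := by
  funext k
  have e : ∀ v, Lam c w y v * pos v k =
      if v = w then 0 else (y v + c v * y w) * pos v k := by
    intro v; unfold Lam; split_ifs <;> simp
  simp only [Pos, e]
  rw [sum_ite_w]
  simp only [add_mul, Finset.sum_add_distrib, hw]
  have : ∑ v, c v * y w * pos v k = y w * pos w k := by
    rw [h k, Finset.mul_sum]
    exact Finset.sum_congr rfl fun v _ => by ring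
  rw [this]
  ring

theorem Pos_The {c : Pt} {w : Fin 128} (hw : c w = 0) {pos : Fin 128 → Fin 4 → ℝ}
    (h : ∀ k, pos w k = ∑ v, c v * pos v k) (x : Pt) : Pos pos (The c w x) = Pos pos x := by
  funext k
  have e : ∀ v, The c w x v * pos v k =
      if v = w then (x w + mu c x) * pos w k else (x v - mu c x * c v) * pos v k := by
    intro v; unfold The; split_ifs with h <;> simp [h]
  simp only [Pos, e]
  rw [sum_ite_w]
  simp only [sub_mul, Finset.sum_sub_distrib, hw]
  have : ∑ v, mu c x * c v * pos v k = mu c x * pos w k := by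
    rw [h k, Finset.mul_sum]
    exact Finset.sum_congr rfl fun v _ => by ring
  rw [this]
  ring

end Pool.Agent.Lib.MP_a11aea_gt
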