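import Pool.Agent.Lib.MP_a11aea_gt.H36Defs

/-! Combinatorics of the four tetrahedron triangulation and the bundle `Tri` of geometric data. -/

namespace Pool.Agent.Lib.MP_a11aea_gt

open Matrix Finset
open scoped ComplexOrder

/-- The neighbour of tetrahedron `i` across the face opposite vertex `a`. -/
def nb : Fin 4 → Fin 4 → Fin 4 := ![![0, 2, 0, 1], ![2, 3, 2, 0], ![0, 3, 1, 1], ![1, 3, 3, 2]]

def pmF : Fin 4 → Fin 4 → Fin 4 → Fin 4 :=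
  ![![![2, 3, 1, 0], ![2, 0, 3, 1], ![3, 2, 0, 1], ![0, 1, 2, 3]],
    ![![3, 2, 1, 0], ![3, 0, 2, 1], ![0, 1, 2, 3], ![0, 1, 2, 3]],
    ![![1, 3, 0, 2], ![2, 3, 1, 0], ![0, 1, 2, 3], ![3, 2, 1, 0]],
    ![![1, 3, 2, 0], ![3, 2, 0, 1], ![2, 3, 1, 0], ![3, 2, 0, 1]]]

/-- Vertex `k` of tetrahedron `i` becomes vertex `pm i a k` of the neighbour across face `a`. -/
def pm (i a : Fin 4) : Equiv.Perm (Fin 4) where
  toFun := pmF i a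
  invFun := pmF (nb i a) (pmF i a a)
  left_inv := fun k => by revert i a k; decide
  right_inv := fun k => by revert i a k; decide

theorem nb_nb (i a : Fin 4) : nb (nb i a) (pm i a a) = i := by revert i a; decide

theorem pm_pm (i a k : Fin 4) : pm (nb i a) (pm i a a) (pm i a k) = k := by revert i a k; decide

/-- The bit mask of a set of vertices. -/
def sidx (S : Finset (Fin 4)) : Fin 16 :=
  (if 0 ∈ S then 1 else 0) + (if 1 ∈ S then 2 else 0) + (if 2 ∈ S then 4 else 0) +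
    (if 3 ∈ S then 8 else 0)

def i0T : Fin 4 → Fin 16 → Fin 4 :=
  ![![0, 0, 0, 0, 0, 0, 0, 0, 0, 0, 0, 0, 0, 0, 0, 0],
    ![1, 1, 1, 0, 1, 0, 0, 0, 1, 1, 0, 1, 0, 1, 1, 1],
    ![2, 2, 2, 0, 2, 0, 0, 1, 2, 1, 0, 1, 0, 2, 0, 2],
    ![3, 3, 3, 0, 3, 1, 0, 2, 3, 1, 1, 3, 0, 3, 1, 3]]

def phT : Fin 4 → Fin 16 → Fin 4 → Fin 4 :=
  ![![![0, 1, 2, 3], ![0, 1, 2, 3], ![0, 1, 2, 3], ![0, 1, 2, 3], ![0, 1, 2, 3], ![0, 1, 2, 3], ![1, 0, 3, 2], ![0, 1, 2, 3], ![0, 1, 2, 3], ![0, 1, 2, 3], ![2, 3, 1, 0], ![0, 1, 2, 3], ![2, 3, 1, 0], ![0, 1, 2, 3], ![2, 3, 1, 0], ![0, 1, 2, 3]],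
    ![![0, 1, 2, 3], ![0, 1, 2, 3], ![0, 1, 2, 3], ![0, 1, 2, 3], ![0, 1, 2, 3], ![0, 1, 2, 3], ![2, 0, 3, 1], ![0, 1, 2, 3], ![0, 1, 2, 3], ![0, 1, 2, 3], ![3, 0, 2, 1], ![0, 1, 2, 3], ![3, 2, 1, 0], ![0, 1, 2, 3], ![0, 1, 2, 3], ![0, 1, 2, 3]],
    ![![0, 1, 2, 3], ![0, 1, 2, 3], ![0, 1, 2, 3], ![0, 1, 2, 3], ![0, 1, 2, 3], ![1, 2, 0, 3], ![1, 3, 0, 2], ![3, 2, 1, 0], ![0, 1, 2, 3], ![0, 1, 2, 3], ![3, 0, 2, 1], ![0, 1, 2, 3], ![1, 3, 0, 2], ![0, 1, 2, 3], ![1, 3, 0, 2], ![0, 1, 2, 3]],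
    ![![0, 1, 2, 3], ![0, 1, 2, 3], ![0, 1, 2, 3], ![2, 0, 1, 3], ![0, 1, 2, 3], ![3, 2, 0, 1], ![2, 0, 1, 3], ![3, 2, 0, 1], ![0, 1, 2, 3], ![0, 2, 1, 3], ![1, 3, 2, 0], ![0, 1, 2, 3], ![1, 3, 2, 0], ![3, 2, 0, 1], ![1, 3, 2, 0], ![0, 1, 2, 3]]]

def phI : Fin 4 → Fin 16 → Fin 4 → Fin 4 :=
  ![![![0, 1, 2, 3], ![0, 1, 2, 3], ![0, 1, 2, 3], ![0, 1, 2, 3], ![0, 1, 2, 3], ![0, 1, 2, 3], ![1, 0, 3, 2], ![0, 1, 2, 3], ![0, 1, 2, 3], ![0, 1, 2, 3], ![3, 2, 0, 1], ![0, 1, 2, 3], ![3, 2, 0, 1], ![0, 1, 2, 3], ![3, 2, 0, 1], ![0, 1, 2, 3]],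
    ![![0, 1, 2, 3], ![0, 1, 2, 3], ![0, 1, 2, 3], ![0, 1, 2, 3], ![0, 1, 2, 3], ![0, 1, 2, 3], ![1, 3, 0, 2], ![0, 1, 2, 3], ![0, 1, 2, 3], ![0, 1, 2, 3], ![1, 3, 2, 0], ![0, 1, 2, 3], ![3, 2, 1, 0], ![0, 1, 2, 3], ![0, 1, 2, 3], ![0, 1, 2, 3]],
    ![![0, 1, 2, 3], ![0, 1, 2, 3], ![0, 1, 2, 3], ![0, 1, 2, 3], ![0, 1, 2, 3], ![2, 0, 1, 3], ![2, 0, 3, 1], ![3, 2, 1, 0], ![0, 1, 2, 3], ![0, 1, 2, 3], ![1, 3, 2, 0], ![0, 1, 2, 3], ![2, 0, 3, 1], ![0, 1, 2, 3], ![2, 0, 3, 1], ![0, 1, 2, 3]],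
    ![![0, 1, 2, 3], ![0, 1, 2, 3], ![0, 1, 2, 3], ![1, 2, 0, 3], ![0, 1, 2, 3], ![2, 3, 1, 0], ![1, 2, 0, 3], ![2, 3, 1, 0], ![0, 1, 2, 3], ![0, 2, 1, 3], ![3, 0, 2, 1], ![0, 1, 2, 3], ![3, 0, 2, 1], ![2, 3, 1, 0], ![3, 0, 2, 1], ![0, 1, 2, 3]]]

theorem phI_phT : ∀ i s k, phI i s (phT i s k) = k := by decide +kernel

theorem phT_phI : ∀ i s k, phT i s (phI i s k) = k := by decide +kernel

/-- The tetrahedron holding the chosen representative of the face `S` of tetrahedron `i`. -/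
def i0 (i : Fin 4) (S : Finset (Fin 4)) : Fin 4 := i0T i (sidx S)

/-- The vertex map from the face `S` of tetrahedron `i` to its chosen representative. -/
def ph (i : Fin 4) (S : Finset (Fin 4)) : Equiv.Perm (Fin 4) where
  toFun := phT i (sidx S)
  invFun := phI i (sidx S)
  left_inv := phI_phT i (sidx S)
  right_inv := phT_phI i (sidx S)

theorem i0_step : ∀ (i a : Fin 4) (S : Finset (Fin 4)), a ∉ S → 2 ≤ S.card →
    i0 (nb i a) (S.map (pm i a).toEmbedding) = i0 i S := by decide +kernel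

theorem ph_step : ∀ (i a : Fin 4) (S : Finset (Fin 4)), a ∉ S → 2 ≤ S.card → ∀ k ∈ S,
    ph (nb i a) (S.map (pm i a).toEmbedding) (pm i a k) = ph i S k := by decide +kernel

open Classical in
/-- The support of a coordinate vector. -/
noncomputable def supp (t : Fin 4 → ℝ) : Finset (Fin 4) := univ.filter fun k => t k ≠ 0

theorem mem_supp {t : Fin 4 → ℝ} {k : Fin 4} : k ∈ supp t ↔ t k ≠ 0 := by simp [supp]

/-- Canonical form of the point with barycentric coordinates `t` of tetrahedron `i`. -/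
noncomputable def canon (i : Fin 4) (t : Fin 4 → ℝ) : Fin 4 × (Fin 4 → ℝ) :=
  (i0 i (supp t), t ∘ (ph i (supp t)).symm)

/-- One step around an edge: the state is (tetrahedron, exit face, entry face). -/
def nx (s : Fin 4 × Fin 4 × Fin 4) : Fin 4 × Fin 4 × Fin 4 :=
  (nb s.1 s.2.1, pm s.1 s.2.1 s.2.2, pm s.1 s.2.1 s.2.1)

/-- The degree of the edge. -/
def per (s : Fin 4 × Fin 4 × Fin 4) : ℕ := if nx^[5] s = s then 5 else 9

theorem nx_per : ∀ s : Fin 4 × Fin 4 × Fin 4, s.2.1 ≠ s.2.2 → nx^[per s] s = s := by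
  decide +kernel

theorem nx_ne : ∀ s : Fin 4 × Fin 4 × Fin 4, s.2.1 ≠ s.2.2 → (nx s).2.1 ≠ (nx s).2.2 := by
  decide +kernel

/-- The truncated simplex. -/
def Trunc : Set (Fin 4 → ℝ) := {t | (∀ k, 0 ≤ t k) ∧ ∑ k, t k = 1 ∧ ∀ k, t k ≤ 3 / 4}

/-- The centre of the face opposite `a`. -/
noncomputable def fc (a : Fin 4) : Fin 4 → ℝ := fun k => if k = a then 0 else 1 / 3

def Lm (m : Fin 4 → Fin 4 → ℝ) (c : Fin 4 → ℝ) (k : Fin 4) : ℝ := ∑ j, m k j * c j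

noncomputable def Qm (m : Fin 4 → Fin 4 → ℝ) (c : Fin 4 → ℝ) : ℝ :=
  (1 / 2) * ∑ j, ∑ k, m j k * c j * c k

structure GoodM (m : Fin 4 → Fin 4 → ℝ) : Prop where
  symm : ∀ j k, m j k = m k j
  diag : ∀ k, m k k = 0
  ge : ∀ j k, j ≠ k → 9 / 10 ≤ m j k
  le : ∀ j k, m j k ≤ 3

/-- The ideal tetrahedron minus the four horoballs, in cone coordinates. -/
def Dm (m : Fin 4 → Fin 4 → ℝ) : Set (Fin 4 → ℝ) :=
  {c | (∀ k, 0 ≤ c k) ∧ Qm m c = 1 ∧ ∀ k, 1 / 4 ≤ Lm m c k}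

/-- The base cusp vector. -/
def e1 : Fin 2 → ℂ := ![1, 0]

/-- Geometric data of the triangulation, with every fact that is checked by computation. -/
structure Tri where
  v : Fin 4 → Fin 4 → Fin 2 → ℂ
  g : Fin 4 → Fin 4 → SL2C
  kap : Fin 4 → Fin 4 → ℝ
  lam : Fin 4 → Fin 4 → Fin 4 → ℝ
  h : Fin 4 → Finset (Fin 4) → SL2C
  base : v 0 0 = e1
  tree : g 0 3 = 1 ∧ g 1 2 = 1 ∧ g 2 1 = 1
  glue : ∀ i a k, k ≠ a → lightVec (v i k) = act (g i a) (lightVec (v (nb i a) (pm i a k)))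
  ginv : ∀ i a, g i a * g (nb i a) (pm i a a) = 1
  lam_self : ∀ i a, lam i a a = 0
  rel : ∀ i a, lightVec (v i a) =
    (-kap i a) • act (g i a) (lightVec (v (nb i a) (pm i a a))) + ∑ k, lam i a k • lightVec (v i k)
  kap_pos : ∀ i a, 0 < kap i a
  convex : ∀ i a, 1 + kap i a < ∑ k, lam i a k
  good : ∀ i, GoodM fun j k => mink (lightVec (v i j)) (lightVec (v i k))
  quad : ∀ i (c : Fin 4 → ℝ), (1 / 10) * ∑ k, c k ^ 2 ≤
    3 * (∑ k, c k) ^ 2 - Qm (fun j k => mink (lightVec (v i j)) (lightVec (v i k))) c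
  wind : ∀ s : Fin 4 × Fin 4 × Fin 4, s.2.1 ≠ s.2.2 → ∀ y z : ℕ → ℝ,
    (∀ n, y (n + 1) = z n + lam (nx^[n] s).1 (nx^[n] s).2.1 (nx^[n] s).2.2 * y n) →
    (∀ n, z (n + 1) = -kap (nx^[n] s).1 (nx^[n] s).2.1 * y n) → y 0 < 0 → z 0 < 0 →
    ∀ k l, k < l → l + 1 < per s → ¬ (0 < y k ∧ y l < 0)
  h_mem : ∀ i S, h i S ∈ Subgroup.closure (Set.range fun p : Fin 4 × Fin 4 => g p.1 p.2)
  h_step : ∀ i a S, a ∉ S → 2 ≤ S.card → h i S = g i a * h (nb i a) (S.map (pm i a).toEmbedding)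
  h_vert : ∀ i S k, k ∈ S → 2 ≤ S.card →
    lightVec (v i k) = act (h i S) (lightVec (v (i0 i S) (ph i S k)))
  tun_edge : ∀ i j k, j ≠ k → mink (lightVec (v i j)) (lightVec (v i k)) ≠
    mink (lightVec (v 2 1)) (act (g 2 1 * g 3 1 * g 3 0) (lightVec (v 1 1)))
  tun_dual : ∀ i a, mink (lightVec (v i a)) (act (g i a) (lightVec (v (nb i a) (pm i a a)))) ≠
    mink (lightVec (v 2 1)) (act (g 2 1 * g 3 1 * g 3 0) (lightVec (v 1 1)))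

namespace Tri

variable (T : Tri)

/-- The group generated by the face pairings. -/
def G : Subgroup SL2C := Subgroup.closure (Set.range fun p : Fin 4 × Fin 4 => T.g p.1 p.2)

/-- The orbit of cusp vectors. -/
def O : Set Mat := cuspOrbit T.G e1

/-- Vertex `k` of tetrahedron `i`. -/
noncomputable def u (i k : Fin 4) : Mat := lightVec (T.v i k)

/-- Gram matrix of tetrahedron `i`. -/
noncomputable def m (i j k : Fin 4) : ℝ := mink (T.u i j) (T.u i k)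

/-- The point with cone coordinates `c` in tetrahedron `i`. -/
noncomputable def comb (i : Fin 4) (c : Fin 4 → ℝ) : Mat := ∑ k, c k • T.u i k

/-- The neighbour of the translated tetrahedron `τ` across face `a`. -/
noncomputable def N (τ : SL2C × Fin 4) (a : Fin 4) : SL2C × Fin 4 := (τ.1 * T.g τ.2 a, nb τ.2 a)

/-- Start of the tunnel. -/
noncomputable def ua : Mat := T.u 2 1

/-- End of the tunnel. -/
noncomputable def ub : Mat := act (T.g 2 1 * T.g 3 1 * T.g 3 0) (T.u 1 1)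

end Tri

end Pool.Agent.Lib.MP_a11aea_gt
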